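import Pool.Agent.YG.L02Str

/-!
# YG-L09: normal form in `Lam`

* `alt_mul`: `Alt P → Alt Q → Alt (P * gS * Q)` (induction on `Q`; associativity).
* `alt_inv`: `Alt w → Alt w⁻¹`: `(w * gS * g)⁻¹ = g⁻¹ * gS * w⁻¹` (`gS⁻¹ = gS`), `g⁻¹ ∈ G1 \ S1`; use `alt_mul`.
* `nf`: every `A ∈ Lam` is in `SS` or `A = s * w * s'` with `Alt w`, `s, s' ∈ {1, gS}`.
  Proof: `Subgroup.closure_induction_left` (generators `gA, gH, gS, gZ` and their inverses; `gA, gH, gZ ∈ G1`). The set is closed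
  under left multiplication by `gS` (clear) and by `g ∈ G1`:
  - `A ∈ SS`: `A = d` or `A = d * gS` with `d ∈ S1` (`SS_cases`). `g * d ∈ G1`: if `∈ S1` then `g * A ∈ SS`, else `w = g * d`
    and `s' = 1` or `gS`.
  - `A = gS * w * s'`: if `g ∉ S1` then `g * gS * w` is `Alt` (`alt_mul`), `s = 1`. If `g ∈ S1` then `g * gS = gS * g'`,
    `g' = gS * g * gS ∈ S1` (`S1_conj`), and `g' * w` is `Alt` (`alt_smul`: multiply the first syllable by `g'`).
  - `A = 1 * w * s'`, first syllable `g1` (`w = g1` or `w = g1 * gS * w1`, `alt_cases`): if `g * g1 ∉ S1` fine; if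
    `d := g * g1 ∈ S1`: `d * s' ∈ SS` resp. `d * gS * w1 = gS * d' * w1` as before.
-/

set_option autoImplicit false

namespace Pool.Agent.YG

open Matrix

private theorem gS_inv : gS⁻¹ = gS := inv_eq_of_mul_eq_one_right gS_sq

private theorem gS_gS (x : GL3) : gS * (gS * x) = x := by
  rw [← mul_assoc, gS_sq, one_mul]

theorem alt_mul {P Q : GL3} (hP : Alt P) (hQ : Alt Q) : Alt (P * gS * Q) := by
  induction hQ with
  | one g h1 h2 => exact Alt.snoc P g hP h1 h2
  | snoc w g hw h1 h2 ih =>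
    have h := Alt.snoc _ g ih h1 h2
    have e : P * gS * (w * gS * g) = P * gS * w * gS * g := by simp only [mul_assoc]
    rw [e]; exact h

theorem alt_inv {w : GL3} (h : Alt w) : Alt w⁻¹ := by
  induction h with
  | one g h1 h2 => exact Alt.one _ (G1.inv_mem h1) (fun h3 => h2 (by simpa using S1.inv_mem h3))
  | snoc w g hw h1 h2 ih =>
    have h := alt_mul (Alt.one _ (G1.inv_mem h1) (fun h3 => h2 (by simpa using S1.inv_mem h3))) ih
    have e : (w * gS * g)⁻¹ = g⁻¹ * gS * w⁻¹ := by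
      rw [_root_.mul_inv_rev, _root_.mul_inv_rev, gS_inv, mul_assoc]
    rw [e]; exact h

/-- first syllable -/
theorem alt_cases {w : GL3} (h : Alt w) :
    (w ∈ G1 ∧ w ∉ S1) ∨ ∃ g w', g ∈ G1 ∧ g ∉ S1 ∧ Alt w' ∧ w = g * gS * w' := by
  induction h with
  | one g h1 h2 => exact Or.inl ⟨h1, h2⟩
  | snoc w g hw h1 h2 ih =>
    rcases ih with ⟨h3, h4⟩ | ⟨g', w', h3, h4, h5, h6⟩
    · exact Or.inr ⟨w, g, h3, h4, Alt.one g h1 h2, rfl⟩
    · refine Or.inr ⟨g', w' * gS * g, h3, h4, Alt.snoc w' g h5 h1 h2, ?_⟩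
      rw [h6]; simp only [mul_assoc]

private theorem not_mem_smul {d g : GL3} (hd : d ∈ S1) (hg : g ∉ S1) : d * g ∉ S1 := fun h =>
  hg ((Subgroup.mul_mem_cancel_left S1 hd).1 h)

theorem alt_smul {w d : GL3} (h : Alt w) (hd : d ∈ S1) : Alt (d * w) := by
  induction h with
  | one g h1 h2 => exact Alt.one _ (G1.mul_mem (S1_le_G1 hd) h1) (not_mem_smul hd h2)
  | snoc w g hw h1 h2 ih =>
    have h := Alt.snoc _ g ih h1 h2
    have e : d * (w * gS * g) = d * w * gS * g := by simp only [mul_assoc]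
    rw [e]; exact h

private def NF (A : GL3) : Prop :=
  A ∈ SS ∨ ∃ s s' w, (s = 1 ∨ s = gS) ∧ (s' = 1 ∨ s' = gS) ∧ Alt w ∧ A = s * w * s'

private theorem NF_S {A : GL3} (h : NF A) : NF (gS * A) := by
  rcases h with h | ⟨s, s', w, hs, hs', hw, rfl⟩
  · exact Or.inl (SS.mul_mem gS_mem_SS h)
  · rcases hs with rfl | rfl
    · exact Or.inr ⟨gS, s', w, Or.inr rfl, hs', hw, by simp only [one_mul, mul_assoc]⟩
    · exact Or.inr ⟨1, s', w, Or.inl rfl, hs', hw, by simp only [one_mul, mul_assoc, gS_gS]⟩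

private theorem s_mem_SS {s' : GL3} (hs' : s' = 1 ∨ s' = gS) : s' ∈ SS := by
  rcases hs' with rfl | rfl
  · exact SS.one_mem
  · exact gS_mem_SS

private theorem NF_G1 {A g : GL3} (h : NF A) (hg : g ∈ G1) : NF (g * A) := by
  rcases h with h | ⟨s, s', w, hs, hs', hw, rfl⟩
  · rcases SS_cases A h with h1 | ⟨B, hB, rfl⟩
    · by_cases h2 : g * A ∈ S1
      · exact Or.inl (S1_le_SS h2)
      · exact Or.inr ⟨1, 1, g * A, Or.inl rfl, Or.inl rfl,
          Alt.one _ (G1.mul_mem hg (S1_le_G1 h1)) h2, by simp⟩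
    · by_cases h2 : g * B ∈ S1
      · refine Or.inl ?_
        rw [← mul_assoc]
        exact SS.mul_mem (S1_le_SS h2) gS_mem_SS
      · exact Or.inr ⟨1, gS, g * B, Or.inl rfl, Or.inr rfl,
          Alt.one _ (G1.mul_mem hg (S1_le_G1 hB)) h2, by simp only [one_mul, mul_assoc]⟩
  · rcases hs with rfl | rfl
    · rcases alt_cases hw with ⟨h1, h2⟩ | ⟨g1, w1, h1, h2, h3, rfl⟩
      · by_cases h4 : g * w ∈ S1
        · refine Or.inl ?_
          have e : g * (1 * w * s') = g * w * s' := by simp only [one_mul, mul_assoc]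
          rw [e]
          exact SS.mul_mem (S1_le_SS h4) (s_mem_SS hs')
        · exact Or.inr ⟨1, s', g * w, Or.inl rfl, hs', Alt.one _ (G1.mul_mem hg h1) h4,
            by simp only [one_mul, mul_assoc]⟩
      · by_cases h4 : g * g1 ∈ S1
        · refine Or.inr ⟨gS, s', gS * (g * g1) * gS * w1, Or.inr rfl, hs',
            alt_smul h3 (S1_conj _ h4), ?_⟩
          simp only [one_mul, mul_assoc, gS_gS]
        · refine Or.inr ⟨1, s', g * g1 * gS * w1, Or.inl rfl, hs',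
            alt_mul (Alt.one _ (G1.mul_mem hg h1) h4) h3, ?_⟩
          simp only [one_mul, mul_assoc]
    · by_cases h4 : g ∈ S1
      · refine Or.inr ⟨gS, s', gS * g * gS * w, Or.inr rfl, hs',
          alt_smul hw (S1_conj _ h4), ?_⟩
        simp only [mul_assoc, gS_gS]
      · refine Or.inr ⟨1, s', g * gS * w, Or.inl rfl, hs', alt_mul (Alt.one _ hg h4) hw, ?_⟩
        simp only [one_mul, mul_assoc]

theorem nf (A : GL3) (hA : A ∈ Lam) :
    A ∈ SS ∨ ∃ s s' w, (s = 1 ∨ s = gS) ∧ (s' = 1 ∨ s' = gS) ∧ Alt w ∧ A = s * w * s' := by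
  have hgA : gA ∈ G1 := S1_le_G1 gA_mem_S1
  have hgZ : gZ ∈ G1 := Subgroup.subset_closure (by simp)
  have key : NF A := by
    refine Subgroup.closure_induction_left (p := fun x _ => NF x) (Or.inl SS.one_mem) ?_ ?_ hA
    · rintro x (rfl | rfl | rfl | rfl) y _ hy
      · exact NF_G1 hy hgA
      · exact NF_G1 hy gH_mem_G1
      · exact NF_S hy
      · exact NF_G1 hy hgZ
    · rintro x (rfl | rfl | rfl | rfl) y _ hy
      · exact NF_G1 hy (G1.inv_mem hgA)
      · exact NF_G1 hy (G1.inv_mem gH_mem_G1)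
      · rw [gS_inv]; exact NF_S hy
      · exact NF_G1 hy (G1.inv_mem hgZ)
  exact key

end Pool.Agent.YG
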