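import Pool.Agent.YG.L08Alt
import Pool.Agent.YG.L09NF

/-!
# YG-L10: convergence of the Poincare series for a large exponent

Proof. For every `A ∈ Lam` there is `n` with `A ∈ W n` and `1.42^n ≤ ‖A 0 0‖`: for `A ∈ SS` take `n = 0`
(`SS_row`), for `A = s * w * s'` use `Alt.inv`, `W_SS`, and `s * w ∈ W n` (`W 0 * W n ⊆ W n`, `W_mul`); `‖A 0 0‖ = ‖w 0 0‖`
because `gS` fixes `e0` from both sides (row/column 0 of `mS`). `W n` is finite with at most `N^(n+1)` elements,
`N = card SS` (`SS_finite`; induction). Take `κ` with `1.42^κ ≥ 2 N`. Then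
`∑_{A ∈ Lam} ‖A 0 0‖^(-κ) ≤ ∑_n N^(n+1) 1.42^(-κ n) ≤ ∑_n N 2^(-n) < ∞`. (E.g. choose `n(A)` for each `A`, and bound finite
partial sums; or `summable_of_sum_le`: for a finite set `F ⊂ Lam`, `∑_{A∈F} ≤ ∑_{n ≤ M} ∑_{A ∈ F, n(A)=n} 1.42^(-κn)`.)
-/

set_option autoImplicit false

namespace Pool.Agent.YG

open Matrix

private theorem one_or_gS_mem {s : GL3} (h : s = 1 ∨ s = gS) : s ∈ SS := by
  rcases h with rfl | rfl
  · exact SS.one_mem
  · exact gS_mem_SS

private theorem left_00 {s : GL3} (h : s = 1 ∨ s = gS) (w : GL3) :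
    ((s * w : GL3) : M3) 0 0 = (w : M3) 0 0 := by
  rcases h with rfl | rfl
  · rw [one_mul]
  · rw [Matrix.GeneralLinearGroup.coe_mul, gS_coe]
    simp [Matrix.mul_apply, Fin.sum_univ_three, mS]

private theorem right_00 {s : GL3} (h : s = 1 ∨ s = gS) (w : GL3) :
    ((w * s : GL3) : M3) 0 0 = (w : M3) 0 0 := by
  rcases h with rfl | rfl
  · rw [mul_one]
  · rw [Matrix.GeneralLinearGroup.coe_mul, gS_coe]
    simp [Matrix.mul_apply, Fin.sum_univ_three, mS]

theorem Lam_W (A : GL3) (hA : A ∈ Lam) : ∃ n : ℕ, A ∈ W n ∧ (1.42 : ℝ) ^ n ≤ ‖(A : M3) 0 0‖ := by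
  rcases nf A hA with h | ⟨s, s', w, hs, hs', hw, rfl⟩
  · exact ⟨0, h, by rw [(SS_row A h).1, pow_zero]⟩
  · obtain ⟨-, n, hn, hwn, h2⟩ := hw.inv
    have h3 : s * w ∈ W n := by
      have := W_mul 0 n s w (one_or_gS_mem hs) hwn
      rwa [zero_add] at this
    refine ⟨n, W_SS n _ _ h3 (one_or_gS_mem hs'), ?_⟩
    rw [right_00 hs', left_00 hs]
    exact h2

theorem W_finite (n : ℕ) : (W n).Finite ∧ (W n).ncard ≤ ((SS : Set GL3).ncard) ^ (n + 1) := by
  induction n with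
  | zero =>
    refine ⟨SS_finite, ?_⟩
    rw [zero_add, pow_one]
    exact le_rfl
  | succ n ih =>
    have hW : W (n + 1) = (fun p : GL3 × GL3 => p.1 * gH * p.2) '' ((W n) ×ˢ (SS : Set GL3)) := by
      ext x
      constructor
      · rintro ⟨y, hy, t, ht, rfl⟩
        exact ⟨(y, t), ⟨hy, ht⟩, rfl⟩
      · rintro ⟨⟨y, t⟩, ⟨hy, ht⟩, rfl⟩
        exact ⟨y, hy, t, ht, rfl⟩
    have hfin : ((W n) ×ˢ (SS : Set GL3)).Finite := ih.1.prod SS_finite
    rw [hW]
    refine ⟨hfin.image _, ?_⟩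
    calc ((fun p : GL3 × GL3 => p.1 * gH * p.2) '' ((W n) ×ˢ (SS : Set GL3))).ncard
        ≤ ((W n) ×ˢ (SS : Set GL3)).ncard := Set.ncard_image_le hfin
      _ = (W n).ncard * (SS : Set GL3).ncard := Set.ncard_prod
      _ ≤ ((SS : Set GL3).ncard) ^ (n + 1) * (SS : Set GL3).ncard :=
          Nat.mul_le_mul_right _ ih.2
      _ = ((SS : Set GL3).ncard) ^ (n + 1 + 1) := (pow_succ _ _).symm

theorem Lam_summable : ∃ κ : ℕ, Summable fun A : Lam => (‖((A : GL3) : M3) 0 0‖⁻¹) ^ κ := by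
  classical
  set N : ℕ := (SS : Set GL3).ncard with hN
  have hNpos : 0 < N := (Set.ncard_pos SS_finite).mpr ⟨1, SS.one_mem⟩
  obtain ⟨κ, hκ⟩ := pow_unbounded_of_one_lt (2 * (N : ℝ)) (show (1 : ℝ) < 1.42 by norm_num)
  refine ⟨κ, ?_⟩
  choose nn hnn using fun A : Lam => Lam_W (A : GL3) A.2
  set r : ℝ := ((1.42 : ℝ) ^ κ)⁻¹ with hr
  have hr0 : 0 < r := by positivity
  have hNr : (N : ℝ) * r ≤ 1 / 2 := by
    rw [hr, ← div_eq_mul_inv, div_le_div_iff₀ (by positivity) (by norm_num)]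
    linarith
  have hterm : ∀ A : Lam, (‖((A : GL3) : M3) 0 0‖⁻¹) ^ κ ≤ r ^ (nn A) := by
    intro A
    rw [hr, inv_pow, inv_pow, ← pow_mul, mul_comm, pow_mul]
    refine inv_anti₀ (by positivity) ?_
    exact pow_le_pow_left₀ (by positivity) (hnn A).2 _
  refine summable_of_sum_le (c := ∑' b : ℕ, (N : ℝ) * (1 / 2) ^ b)
    (fun A => by positivity) (fun F => ?_)
  have hsumm : Summable fun b : ℕ => (N : ℝ) * (1 / 2) ^ b :=
    (summable_geometric_of_lt_one (by norm_num) (by norm_num)).mul_left _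
  calc ∑ A ∈ F, (‖((A : GL3) : M3) 0 0‖⁻¹) ^ κ ≤ ∑ A ∈ F, r ^ (nn A) :=
        Finset.sum_le_sum (fun A _ => hterm A)
    _ = ∑ b ∈ F.image nn, (F.filter fun A => nn A = b).card • r ^ b :=
        Finset.sum_comp (fun b => r ^ b) nn
    _ ≤ ∑ b ∈ F.image nn, (N : ℝ) * (1 / 2) ^ b := by
        refine Finset.sum_le_sum (fun b _ => ?_)
        have hcard : (F.filter fun A => nn A = b).card ≤ N ^ (b + 1) := by
          refine le_trans ?_ (W_finite b).2
          have h1 : ((F.filter fun A => nn A = b).image (fun A : Lam => (A : GL3))).card =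
              (F.filter fun A => nn A = b).card :=
            Finset.card_image_of_injective _ Subtype.val_injective
          rw [← h1, ← Set.ncard_coe_finset]
          refine Set.ncard_le_ncard ?_ (W_finite b).1
          intro x hx
          simp only [Finset.coe_image, Set.mem_image, Finset.mem_coe, Finset.mem_filter] at hx
          obtain ⟨A, ⟨-, hA⟩, rfl⟩ := hx
          rw [← hA]
          exact (hnn A).1
        rw [nsmul_eq_mul]
        calc ((F.filter fun A => nn A = b).card : ℝ) * r ^ b ≤ ((N ^ (b + 1) : ℕ) : ℝ) * r ^ b := by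
              gcongr
          _ = (N : ℝ) * ((N : ℝ) * r) ^ b := by
              push_cast
              ring
          _ ≤ (N : ℝ) * (1 / 2) ^ b := by gcongr
    _ ≤ ∑' b : ℕ, (N : ℝ) * (1 / 2) ^ b :=
        hsumm.sum_le_tsum _ (fun b _ => by positivity)

end Pool.Agent.YG
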