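import Pool.Agent.YG.G01Pos

/-!
# YG-G03: weak Ptolemy inequality

For unit negative vectors `x y z w`:  `E x z * E y w ≤ 6 * max (E x y * E z w) (E y z * E x w)`.

Proof. Decompose with respect to `w`: `x = -p (w - x'/p)`, `p = hf x w`, `x' = x + p • w ⟂ w`; put
`X = -x'/p`-type vector so that `x = -p • (w + X)`, `X ⟂ w`, `hf X X = 1 - 1/|p|^2 ≤ 1`. Same for
`y = -q • (w + Y)`, `z = -r • (w + Z)`. Then `hf x z = p conj r (-1 + <X,Z>)`, where `<X,Z> = hf X Z` on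
`w^⊥` (positive definite, Cauchy-Schwarz `perp_cs`). So `E x z = |p||r| |1-<X,Z>|` etc., and the claim
(multiply by `|p||q||r|`) is
`|1-<X,Z>| ≤ 6 max(|1-<X,Y>|, |1-<Y,Z>|)` for vectors of norm ≤ 1:
`1-<X,Z> = (1-<X,Y>) + <X,Y-Z>`, `<X,Y-Z> = <X-Y,Y-Z> + <Y,Y-Z>`,
`|X-Y|^2 ≤ 2 - 2 Re<X,Y> ≤ 2|1-<X,Y>| =: 2a`, `|Y-Z|^2 ≤ 2|1-<Y,Z>| =: 2b`, so the first term is
`≤ 2 sqrt(ab)`; `<Y,Y-Z> = (1 - <Y,Z>) - (1-|Y|^2)` and `1-|Y|^2 ≤ 2(1-|Y|) ≤ 2|1-<Y,Z>|` because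
`|<Y,Z>| ≤ |Y|`. So it is `≤ 3b`, total `≤ a + 2 sqrt(ab) + 3 b ≤ 6 max(a,b)`.
-/

set_option autoImplicit false

namespace Pool.Agent.YG

open Matrix

private theorem ptol_dist_sq (X Y : V) (hX : (hf X X).re ≤ 1) (hY : (hf Y Y).re ≤ 1) :
    (hf (X - Y) (X - Y)).re ≤ 2 * ‖1 - hf X Y‖ := by
  have h1 : (hf (X - Y) (X - Y)).re = (hf X X).re + (hf Y Y).re - 2 * (hf X Y).re := by
    rw [hf_sub_left, hf_sub_right, hf_sub_right, hf_conj X Y]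
    simp only [Complex.sub_re, Complex.conj_re]
    ring
  have h2 : (1 - hf X Y).re ≤ ‖1 - hf X Y‖ := Complex.re_le_norm _
  have h3 : (1 - hf X Y).re = 1 - (hf X Y).re := by simp
  rw [h3] at h2
  rw [h1]
  linarith

private theorem ptol_core (w X Y Z : V) (hw : hf w w = -1) (pX : hf X w = 0) (pY : hf Y w = 0)
    (pZ : hf Z w = 0) (hX : (hf X X).re ≤ 1) (hY : (hf Y Y).re ≤ 1) (hZ : (hf Z Z).re ≤ 1) :
    ‖1 - hf X Z‖ ≤ 6 * max ‖1 - hf X Y‖ ‖1 - hf Y Z‖ := by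
  have ha0 : 0 ≤ ‖1 - hf X Y‖ := norm_nonneg _
  have hb0 : 0 ≤ ‖1 - hf Y Z‖ := norm_nonneg _
  have dXY := ptol_dist_sq X Y hX hY
  have dYZ := ptol_dist_sq Y Z hY hZ
  have pXY : hf (X - Y) w = 0 := by rw [hf_sub_left, pX, pY, sub_zero]
  have pYZ : hf (Y - Z) w = 0 := by rw [hf_sub_left, pY, pZ, sub_zero]
  have cs1 := perp_cs w (X - Y) (Y - Z) hw pXY pYZ
  have n1 := perp_nonneg w (X - Y) hw pXY
  have n2 := perp_nonneg w (Y - Z) hw pYZ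
  have nY := perp_nonneg w Y hw pY
  have nZ := perp_nonneg w Z hw pZ
  have cs2 := perp_cs w Y Z hw pY pZ
  have e1 : 1 - hf X Z = (1 - hf X Y) + hf (X - Y) (Y - Z) + ((1 - hf Y Z) - (1 - hf Y Y)) := by
    rw [hf_sub_left, hf_sub_right, hf_sub_right]
    ring
  have eYY : (1 - hf Y Y : ℂ) = ((1 - (hf Y Y).re : ℝ) : ℂ) := by
    have h := hf_self Y
    rw [h]
    simp only [Complex.ofReal_re]
    push_cast
    ring
  have nYY : ‖(1 - hf Y Y : ℂ)‖ = 1 - (hf Y Y).re := by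
    rw [eYY, Complex.norm_real, Real.norm_of_nonneg (by linarith)]
  generalize hm : max ‖1 - hf X Y‖ ‖1 - hf Y Z‖ = m
  have ham : ‖1 - hf X Y‖ ≤ m := hm ▸ le_max_left _ _
  have hbm : ‖1 - hf Y Z‖ ≤ m := hm ▸ le_max_right _ _
  have hm0 : 0 ≤ m := le_trans ha0 ham
  -- the middle term
  have mid : ‖hf (X - Y) (Y - Z)‖ ≤ 2 * m := by
    have h : ‖hf (X - Y) (Y - Z)‖ ^ 2 ≤ (2 * m) ^ 2 := by
      calc ‖hf (X - Y) (Y - Z)‖ ^ 2 ≤ (hf (X - Y) (X - Y)).re * (hf (Y - Z) (Y - Z)).re := cs1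
        _ ≤ (2 * m) * (2 * m) := mul_le_mul (by linarith) (by linarith) n2 (by linarith)
        _ = (2 * m) ^ 2 := by ring
    exact (pow_le_pow_iff_left₀ (norm_nonneg _) (by linarith) two_ne_zero).mp h
  -- the last term
  have hYle : 1 - (hf Y Y).re ≤ 2 * ‖1 - hf Y Z‖ := by
    have h1 : ‖hf Y Z‖ ^ 2 ≤ (hf Y Y).re := by
      calc ‖hf Y Z‖ ^ 2 ≤ (hf Y Y).re * (hf Z Z).re := cs2
        _ ≤ (hf Y Y).re * 1 := mul_le_mul_of_nonneg_left hZ nY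
        _ = (hf Y Y).re := mul_one _
    have h2 : 1 - ‖hf Y Z‖ ≤ ‖1 - hf Y Z‖ := by
      have := norm_sub_norm_le (1 : ℂ) (hf Y Z)
      simpa using this
    have h3 : 0 ≤ ‖hf Y Z‖ := norm_nonneg _
    nlinarith
  calc ‖1 - hf X Z‖ = ‖(1 - hf X Y) + hf (X - Y) (Y - Z) + ((1 - hf Y Z) - (1 - hf Y Y))‖ := by
        rw [← e1]
    _ ≤ ‖(1 - hf X Y) + hf (X - Y) (Y - Z)‖ + ‖(1 - hf Y Z) - (1 - hf Y Y)‖ := norm_add_le _ _
    _ ≤ (‖1 - hf X Y‖ + ‖hf (X - Y) (Y - Z)‖) + (‖1 - hf Y Z‖ + ‖(1 - hf Y Y : ℂ)‖) :=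
        add_le_add (norm_add_le _ _) (norm_sub_le _ _)
    _ ≤ 6 * m := by rw [nYY]; linarith

/-- rescaled orthogonal part -/
private theorem ptol_scale (x w : V) (hx : hf x x = -1) (hw : hf w w = -1) (hp : hf x w ≠ 0) :
    hf ((hf x w)⁻¹ • (x + hf x w • w)) w = 0 ∧
      (hf ((hf x w)⁻¹ • (x + hf x w • w)) ((hf x w)⁻¹ • (x + hf x w • w))).re ≤ 1 := by
  refine ⟨by rw [hf_smul_left, dec_perp x w hw, mul_zero], ?_⟩
  rw [hf_smul_left, hf_smul_right, dec_norm x w hx hw]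
  have hp0 : 0 < E x w := norm_pos_iff.mpr hp
  have h : (hf x w)⁻¹ * ((starRingEnd ℂ) (hf x w)⁻¹ * ((E x w ^ 2 - 1 : ℝ) : ℂ)) =
      (((E x w ^ 2 - 1) / E x w ^ 2 : ℝ) : ℂ) := by
    have h1 : (hf x w)⁻¹ * (starRingEnd ℂ) (hf x w)⁻¹ = (((E x w ^ 2)⁻¹ : ℝ) : ℂ) := by
      rw [Complex.mul_conj, Complex.normSq_eq_norm_sq, norm_inv, inv_pow, E]
    rw [← mul_assoc, h1, ← Complex.ofReal_mul]
    congr 1
    rw [div_eq_mul_inv, mul_comm]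
  rw [h, Complex.ofReal_re, div_le_one (by positivity)]
  linarith

private theorem ptol_E (x z w : V) (hw : hf w w = -1)
    (hp : hf x w ≠ 0) (hr : hf z w ≠ 0) :
    E x z = E x w * E z w *
      ‖1 - hf ((hf x w)⁻¹ • (x + hf x w • w)) ((hf z w)⁻¹ • (z + hf z w • w))‖ := by
  rw [hf_smul_left, hf_smul_right]
  have hr' : (starRingEnd ℂ) (hf z w) ≠ 0 := by simpa using hr
  have h := dec_inner x z w hw
  have h2 : hf x z = -(hf x w * (starRingEnd ℂ) (hf z w) *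
      (1 - (hf x w)⁻¹ * ((starRingEnd ℂ) (hf z w)⁻¹ * hf (x + hf x w • w) (z + hf z w • w)))) := by
    rw [map_inv₀]
    rw [h]
    field_simp
    ring
  rw [E, E, E]
  conv_lhs => rw [h2]
  rw [norm_neg, norm_mul, norm_mul, Complex.norm_conj]

theorem ptol (x y z w : V) (hx : hf x x = -1) (hy : hf y y = -1) (hz : hf z z = -1)
    (hw : hf w w = -1) :
    E x z * E y w ≤ 6 * max (E x y * E z w) (E y z * E x w) := by
  have p1 : 1 ≤ E x w := one_le_E x w hx hw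
  have q1 : 1 ≤ E y w := one_le_E y w hy hw
  have r1 : 1 ≤ E z w := one_le_E z w hz hw
  have hp : hf x w ≠ 0 := norm_pos_iff.mp (show 0 < ‖hf x w‖ from lt_of_lt_of_le one_pos p1)
  have hq : hf y w ≠ 0 := norm_pos_iff.mp (show 0 < ‖hf y w‖ from lt_of_lt_of_le one_pos q1)
  have hr : hf z w ≠ 0 := norm_pos_iff.mp (show 0 < ‖hf z w‖ from lt_of_lt_of_le one_pos r1)
  obtain ⟨pX, nX⟩ := ptol_scale x w hx hw hp
  obtain ⟨pY, nY⟩ := ptol_scale y w hy hw hq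
  obtain ⟨pZ, nZ⟩ := ptol_scale z w hz hw hr
  have core := ptol_core w _ _ _ hw pX pY pZ nX nY nZ
  have exz := ptol_E x z w hw hp hr
  have exy := ptol_E x y w hw hp hq
  have eyz := ptol_E y z w hw hq hr
  rw [exz, exy, eyz]
  generalize ‖1 - hf ((hf x w)⁻¹ • (x + hf x w • w)) ((hf z w)⁻¹ • (z + hf z w • w))‖ = c at *
  generalize ‖1 - hf ((hf x w)⁻¹ • (x + hf x w • w)) ((hf y w)⁻¹ • (y + hf y w • w))‖ = a at *
  generalize ‖1 - hf ((hf y w)⁻¹ • (y + hf y w • w)) ((hf z w)⁻¹ • (z + hf z w • w))‖ = b at *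
  have hk : 0 ≤ E x w * E y w * E z w := by positivity
  have e1 : E x w * E y w * a * E z w = E x w * E y w * E z w * a := by ring
  have e2 : E y w * E z w * b * E x w = E x w * E y w * E z w * b := by ring
  have e3 : E x w * E z w * c * E y w = E x w * E y w * E z w * c := by ring
  rw [e1, e2, e3, ← mul_max_of_nonneg _ _ hk]
  calc E x w * E y w * E z w * c ≤ E x w * E y w * E z w * (6 * max a b) :=
        mul_le_mul_of_nonneg_left core hk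
    _ = 6 * (E x w * E y w * E z w * max a b) := by ring

end Pool.Agent.YG
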