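import Pool.Agent.YG.G01Pos

/-!
# YG-G04: a point between two points that is close to a third one

For unit negative vectors `x p q` there is a unit negative combination `y = α p + β q` with
`E x y ^ 2 * E p q ≤ 2 * E x p * E x q`.

Proof. `a = E x p ≥ 1`, `b = E x q ≥ 1`, `C = E p q ≥ 1` (`one_le_E`). Choose `θ`, `|θ| = 1`, with
`hf p (θ • q) = -C` (i.e. `conj θ * hf p q = -C`). `y0 = (1/a) p + (θ/b) q`:
`hf y0 y0 = -(1/a^2 + 1/b^2 + 2C/(ab)) =: -N^2`, `|hf x y0| ≤ 1 + 1 = 2`. `y = y0 / N`,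
`E x y ^2 * C ≤ 4 C / N^2 ≤ 4 C * ab/(2C) = 2ab`.
-/

set_option autoImplicit false

namespace Pool.Agent.YG

open Matrix

theorem mid (x p q : V) (hx : hf x x = -1) (hp : hf p p = -1) (hq : hf q q = -1) :
    ∃ α β : ℂ, hf (α • p + β • q) (α • p + β • q) = -1 ∧
      E x (α • p + β • q) ^ 2 * E p q ≤ 2 * E x p * E x q := by
  have ha1 := one_le_E x p hx hp
  have hb1 := one_le_E x q hx hq
  have hC1 := one_le_E p q hp hq
  obtain ⟨a, ha⟩ : ∃ a, a = E x p := ⟨_, rfl⟩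
  obtain ⟨b, hb⟩ : ∃ b, b = E x q := ⟨_, rfl⟩
  obtain ⟨C, hC⟩ : ∃ C, C = E p q := ⟨_, rfl⟩
  rw [← ha] at ha1
  rw [← hb] at hb1
  rw [← hC] at hC1
  rw [← ha, ← hb, ← hC]
  have ha0 : 0 < a := by linarith
  have hb0 : 0 < b := by linarith
  have hC0 : 0 < C := by linarith
  have hCn : ‖hf p q‖ = C := by rw [hC, E]
  have hCc : (C : ℂ) ≠ 0 := by exact_mod_cast hC0.ne'
  have hac : (a : ℂ) ≠ 0 := by exact_mod_cast ha0.ne'
  have hbc : (b : ℂ) ≠ 0 := by exact_mod_cast hb0.ne'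
  obtain ⟨θ, hθn, hθ⟩ : ∃ θ : ℂ, ‖θ‖ = 1 ∧ (starRingEnd ℂ) θ * hf p q = -(C : ℂ) := by
    refine ⟨-(hf p q / C), ?_, ?_⟩
    · rw [norm_neg, norm_div, hCn, Complex.norm_real, Real.norm_of_nonneg hC0.le,
        div_self hC0.ne']
    · rw [map_neg, map_div₀, Complex.conj_ofReal]
      have h1 : (starRingEnd ℂ) (hf p q) * hf p q = (C : ℂ) ^ 2 := by
        rw [mul_comm, Complex.mul_conj, Complex.normSq_eq_norm_sq, hCn]
        push_cast; ring
      have h2 : -((starRingEnd ℂ) (hf p q) / (C : ℂ)) * hf p q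
          = -((starRingEnd ℂ) (hf p q) * hf p q / C) := by ring
      rw [h2, h1]
      field_simp
  have hθ2 : θ * (starRingEnd ℂ) θ = 1 := by
    rw [Complex.mul_conj, Complex.normSq_eq_norm_sq, hθn]; norm_num
  have hθ' : θ * hf q p = -(C : ℂ) := by
    have h := congrArg (starRingEnd ℂ) hθ
    rw [map_mul, Complex.conj_conj, map_neg, Complex.conj_ofReal, ← hf_conj] at h
    exact h
  obtain ⟨M, hM⟩ : ∃ M : ℝ, M = 1 / a ^ 2 + 1 / b ^ 2 + 2 * C / (a * b) := ⟨_, rfl⟩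
  have hM0 : 0 < M := by rw [hM]; positivity
  have hN0 : 0 < Real.sqrt M := Real.sqrt_pos.mpr hM0
  have hN2 : Real.sqrt M * Real.sqrt M = M := Real.mul_self_sqrt hM0.le
  obtain ⟨N, hN⟩ : ∃ N : ℝ, N = Real.sqrt M := ⟨_, rfl⟩
  rw [← hN] at hN0 hN2
  have hNc : (N : ℂ) ≠ 0 := by exact_mod_cast hN0.ne'
  -- the unnormalised vector
  obtain ⟨y0, hy0⟩ : ∃ y0 : V, y0 = (1 / (a : ℂ)) • p + (θ / (b : ℂ)) • q := ⟨_, rfl⟩
  have hself : hf y0 y0 = -(M : ℂ) := by
    rw [hy0]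
    simp only [hf_add_left, hf_add_right, hf_smul_left, hf_smul_right, hp, hq, map_div₀, map_one,
      Complex.conj_ofReal]
    have e1 : 1 / (a : ℂ) * (1 / (a : ℂ) * -1) + θ / b * (1 / (a : ℂ) * hf q p)
        + (1 / (a : ℂ) * ((starRingEnd ℂ) θ / b * hf p q)
          + θ / (b : ℂ) * ((starRingEnd ℂ) θ / b * -1))
        = -(1 / (a : ℂ) ^ 2) + (θ * hf q p) / (a * b) + ((starRingEnd ℂ) θ * hf p q) / (a * b)
          - (θ * (starRingEnd ℂ) θ) / (b : ℂ) ^ 2 := by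
      field_simp
      ring
    have e2 : -(M : ℂ) = -(1 / (a : ℂ) ^ 2) + (-(C : ℂ)) / (a * b) + (-(C : ℂ)) / (a * b)
          - 1 / (b : ℂ) ^ 2 := by
      rw [hM]; push_cast; ring
    rw [e2]
    rw [hθ, hθ', hθ2] at e1
    rw [← e1]
    ring
  have hxy : ‖hf x y0‖ ≤ 2 := by
    rw [hy0]
    simp only [hf_add_right, hf_smul_right, map_div₀, map_one, Complex.conj_ofReal]
    refine (norm_add_le _ _).trans ?_
    rw [norm_mul, norm_mul, norm_div, norm_div, Complex.norm_conj, hθn, Complex.norm_real,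
      Complex.norm_real, Real.norm_of_nonneg ha0.le, Real.norm_of_nonneg hb0.le, norm_one]
    have h1 : ‖hf x p‖ = a := by rw [ha, E]
    have h2 : ‖hf x q‖ = b := by rw [hb, E]
    rw [h1, h2, one_div_mul_cancel ha0.ne', one_div_mul_cancel hb0.ne']
    norm_num
  refine ⟨(1 / (N : ℂ)) * (1 / (a : ℂ)), (1 / (N : ℂ)) * (θ / (b : ℂ)), ?_, ?_⟩
  · rw [mul_smul, mul_smul, ← smul_add, ← hy0, hf_smul_left, hf_smul_right, hself, map_div₀,
      map_one, Complex.conj_ofReal]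
    have : (M : ℂ) = (N : ℂ) * N := by rw [← hN2]; push_cast; ring
    rw [this]
    field_simp
  · rw [mul_smul, mul_smul, ← smul_add, ← hy0, E_smul_right, norm_div, norm_one,
      Complex.norm_real, Real.norm_of_nonneg hN0.le, E]
    have h1 : (1 / N * ‖hf x y0‖) ^ 2 ≤ (1 / N * 2) ^ 2 := by
      apply pow_le_pow_left₀ (by positivity)
      exact mul_le_mul_of_nonneg_left hxy (by positivity)
    have h2 : (1 / N * 2) ^ 2 = 4 / M := by
      rw [← hN2]; field_simp; norm_num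
    have h3 : 4 / M * C ≤ 2 * a * b := by
      rw [div_mul_eq_mul_div, div_le_iff₀ hM0]
      have h4 : 2 * C / (a * b) ≤ M := by
        rw [hM]
        have : 0 < 1 / a ^ 2 + 1 / b ^ 2 := by positivity
        linarith
      have h5 : 2 * a * b * (2 * C / (a * b)) = 4 * C := by field_simp; norm_num
      calc 4 * C = 2 * a * b * (2 * C / (a * b)) := h5.symm
        _ ≤ 2 * a * b * M := mul_le_mul_of_nonneg_left h4 (by positivity)
    calc (1 / N * ‖hf x y0‖) ^ 2 * C ≤ (4 / M) * C := by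
          rw [← h2]; exact mul_le_mul_of_nonneg_right h1 hC0.le
      _ ≤ 2 * a * b := h3

end Pool.Agent.YG
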