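import Pool.Agent.YG.L08Alt
import Pool.Agent.YG.L09NF

/-!
# YG-L11: almost multiplicativity

`Alt P`, `Alt Q`: `‖P 0 0‖ ‖Q 0 0‖ ≤ 12.5 ‖(P * gS * Q) 0 0‖`.

Proof. First row of `P`: `(A, B, C)` with `‖C‖ ≤ 0.55 ‖A‖`, `‖A‖^2 = 1 + ‖B‖^2 + ‖C‖^2`. First column of `Q`: `(A2, B2, C2)`; by
`alt_inv` and `U_inv` (`‖Q 2 0‖ = ‖Q⁻¹ 0 2‖`, `‖Q 0 0‖ = ‖Q⁻¹ 0 0‖`, `‖Q 1 0‖ = ‖Q⁻¹ 0 1‖`) also `‖C2‖ ≤ 0.55 ‖A2‖`,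
`‖A2‖^2 = 1 + ‖B2‖^2 + ‖C2‖^2`. `(P gS Q) 0 0 = A A2 + B C2 + C B2`, and
`‖B‖‖C2‖ + ‖C‖‖B2‖ ≤ sqrt(‖A‖^2-‖C‖^2) ‖C2‖ + ‖C‖ sqrt(‖A2‖^2-‖C2‖^2) ≤ ‖A‖‖A2‖ sin(α+β)` with `sin α = ‖C‖/‖A‖ ≤ .55` etc.,
`sin(α+β) ≤ 2 * .55 * sqrt(1-.3025) = 0.9187 ≤ 0.92`. Algebraic version: for `0 ≤ s1, s2 ≤ .55`,
`s2 sqrt(1-s1^2) + s1 sqrt(1-s2^2)` is increasing in `s1` and `s2` (as `s1^2 + s2^2 < 1`).
-/

set_option autoImplicit false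

namespace Pool.Agent.YG

open Matrix

private theorem l11_poly (s t : ℝ) (hs0 : 0 ≤ s) (ht0 : 0 ≤ t) (hs : s ≤ 0.55) (ht : t ≤ 0.55) :
    t * ((1 - s ^ 2) + 0.835 ^ 2) + s * ((1 - t ^ 2) + 0.835 ^ 2) ≤ 0.92 * (2 * 0.835) := by
  have hu : 0 ≤ 0.55 - s := by linarith
  have hv : 0 ≤ 0.55 - t := by linarith
  -- derivative bound: f(s,t) - f(.55,t) = (s - .55) * (1 + k^2 - t^2 - t (s + .55))
  have h1 : 0 ≤ (0.55 - s) * (1 + 0.835 ^ 2 - t ^ 2 - t * (s + 0.55)) := by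
    apply mul_nonneg hu
    nlinarith [mul_nonneg ht0 hu, mul_nonneg ht0 hv, mul_nonneg hs0 hv]
  have h2 : 0 ≤ (0.55 - t) * (1 + 0.835 ^ 2 - 0.55 ^ 2 - 0.55 * (t + 0.55)) := by
    apply mul_nonneg hv
    nlinarith
  nlinarith [h1, h2]

private theorem l11_sin (β s β' t : ℝ) (hs0 : 0 ≤ s) (ht0 : 0 ≤ t) (hs : s ≤ 0.55) (ht : t ≤ 0.55)
    (hβ : β ^ 2 + s ^ 2 ≤ 1) (hβ' : β' ^ 2 + t ^ 2 ≤ 1) : β * t + s * β' ≤ 0.92 := by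
  have h1 : 2 * 0.835 * β ≤ (1 - s ^ 2) + 0.835 ^ 2 := by nlinarith [sq_nonneg (β - 0.835)]
  have h2 : 2 * 0.835 * β' ≤ (1 - t ^ 2) + 0.835 ^ 2 := by nlinarith [sq_nonneg (β' - 0.835)]
  have h3 := mul_le_mul_of_nonneg_left h1 ht0
  have h4 := mul_le_mul_of_nonneg_left h2 hs0
  have h5 := l11_poly s t hs0 ht0 hs ht
  nlinarith [h3, h4, h5]

private theorem l11_real (a b c a' b' c' : ℝ) (ha : 0 < a) (ha' : 0 < a') (hc0 : 0 ≤ c)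
    (hc0' : 0 ≤ c') (h1 : a ^ 2 = 1 + b ^ 2 + c ^ 2) (h2 : a' ^ 2 = 1 + b' ^ 2 + c' ^ 2)
    (hc : c ≤ 0.55 * a) (hc' : c' ≤ 0.55 * a') :
    b * c' + c * b' ≤ 0.92 * (a * a') := by
  have h := l11_sin (b / a) (c / a) (b' / a') (c' / a') (by positivity) (by positivity)
    (by rw [div_le_iff₀ ha]; linarith) (by rw [div_le_iff₀ ha']; linarith)
    (by rw [div_pow, div_pow, ← add_div, div_le_one (by positivity)]; linarith)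
    (by rw [div_pow, div_pow, ← add_div, div_le_one (by positivity)]; linarith)
  have h3 : b / a * (c' / a') + c / a * (b' / a') = (b * c' + c * b') / (a * a') := by
    field_simp
  rw [h3, div_le_iff₀ (by positivity)] at h
  exact h

theorem alt_mult {P Q : GL3} (hP : Alt P) (hQ : Alt Q) :
    ‖(P : M3) 0 0‖ * ‖(Q : M3) 0 0‖ ≤ 12.5 * ‖((P * gS * Q : GL3) : M3) 0 0‖ := by
  have hPU : P ∈ U := hP.mem_U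
  have hQU : Q ∈ U := hQ.mem_U
  have hc := hP.inv.1
  have hQi := (alt_inv hQ).inv.1
  obtain ⟨i1, i2, i3, i4, i5⟩ := U_inv Q hQU
  rw [i1, i3] at hQi
  have hc' : ‖(Q : M3) 2 0‖ ≤ 0.55 * ‖(Q : M3) 0 0‖ := by
    simpa [Complex.norm_conj] using hQi
  have h1 := U_row0 P hPU
  have h2 := U_col0 Q hQU
  have ha : 0 < ‖(P : M3) 0 0‖ := by linarith [hP.one_lt]
  have ha' : 0 < ‖(Q : M3) 0 0‖ := by linarith [hQ.one_lt]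
  have hkey := l11_real ‖(P : M3) 0 0‖ ‖(P : M3) 0 1‖ ‖(P : M3) 0 2‖ ‖(Q : M3) 0 0‖ ‖(Q : M3) 1 0‖
    ‖(Q : M3) 2 0‖ ha ha' (norm_nonneg _) (norm_nonneg _) h1 h2 hc hc'
  have hform : ((P * gS * Q : GL3) : M3) 0 0 =
      (P : M3) 0 0 * (Q : M3) 0 0 + ((P : M3) 0 1 * (Q : M3) 2 0 + (P : M3) 0 2 * (Q : M3) 1 0) := by
    have : ((P * gS * Q : GL3) : M3) = (P : M3) * mS * (Q : M3) := rfl
    rw [this]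
    simp [mS, Matrix.mul_apply, Fin.sum_univ_three]
    ring
  have hn1 : ‖(P : M3) 0 1 * (Q : M3) 2 0 + (P : M3) 0 2 * (Q : M3) 1 0‖ ≤
      ‖(P : M3) 0 1‖ * ‖(Q : M3) 2 0‖ + ‖(P : M3) 0 2‖ * ‖(Q : M3) 1 0‖ := by
    refine (norm_add_le _ _).trans ?_
    rw [norm_mul, norm_mul]
  have hn2 : ‖(P : M3) 0 0 * (Q : M3) 0 0‖ ≤ ‖((P * gS * Q : GL3) : M3) 0 0‖ +
      ‖(P : M3) 0 1 * (Q : M3) 2 0 + (P : M3) 0 2 * (Q : M3) 1 0‖ := by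
    rw [hform]
    have := norm_sub_le ((P : M3) 0 0 * (Q : M3) 0 0 +
      ((P : M3) 0 1 * (Q : M3) 2 0 + (P : M3) 0 2 * (Q : M3) 1 0))
      ((P : M3) 0 1 * (Q : M3) 2 0 + (P : M3) 0 2 * (Q : M3) 1 0)
    rwa [add_sub_cancel_right] at this
  rw [norm_mul] at hn2
  linarith

end Pool.Agent.YG
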