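import Pool.Agent.YG.L07Dense
import Pool.Agent.YG.L11Mult
import Pool.Agent.YG.G03Ptol
import Pool.Agent.YG.G04Mid

/-!
# YG-L12: quasi-convexity of the orbit

Claim: for unit negative `x` and `A, B ∈ Lam` there is `N ∈ Lam` with
`E (A e0) (B e0) * E x (N e0)^2 ≤ K E x (A e0) E x (B e0)` (write `A e0` for `act A e0`).

* `disc_quasi`: for `Q ∈ Lam`, `g ∈ G1`, unit `x`: there is `N ∈ Lam` with
  `E (Q e0) (Q g e0) * E x (N e0)^2 ≤ 23 * E x (Q e0) * E x (Q g e0)`. Replace `x` by `Q⁻¹ x`. `mid` for `p = e0`, `q = act g e0`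
  gives `y = α e0 + β g e0`, third coordinate 0 (`G1_form`), `disc_dense` gives `n ∈ G1` with `E y (n e0) ≤ 5/3`,
  `E x' (n e0) ≤ 2 E x' y * 5/3` (`E_tri`), `N = Q n`, `(10/3)^2 * 2 = 22.3`.
* `alt_quasi`: Let `Alt W`. For a prefix `P` (`Alt P`, `W = P` or `W = P gS Q` with `Alt Q`): put `o = P e0`, `w = W e0`, `v = e0`.
  `E v o * E o w ≤ 12.5 E v w` (`alt_mult`; `E o w = E (P e0) (P gS Q e0) = E e0 (Q e0)` since `gS e0 = e0`).
  `ptol` for `(x, v, o, w)`: `E x o * E v w ≤ 6 max (E x v * E o w) (E v o * E x w)`. So either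
  (F) `E x o * E v o ≤ 75 E x v` or (S) `E x o * E o w ≤ 75 E x w`.
  Claim by induction on `P`: if (S) holds at `P` then the conclusion (with `K = 92 * 75^2`) holds. If `P = g` is a single
  syllable: previous node `o' = e0`, (F) holds trivially there. If `P = P' gS g`: at `o' = P' e0` either (F) or (S);
  if (S) use the induction hypothesis for `P'` (`W = P' gS (g ...)`, `alt_mul`). If (F) at `o'` and (S) at `o`:
  `disc_quasi` with `Q = P' gS` (so `Q e0 = o'`, `Q g e0 = o`) gives `N`; `E v w ≤ 4 E v o' E o' o E o w` (`E_tri` twice), so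
  `E v w E x N^2 ≤ 4*23 E v o' E o w E x o' E x o ≤ 92 * 75^2 E x v E x w`.
  At `P = W` (S) is trivial (`E w w = 1`).
* general: by `E_act` we may take `A = 1` (replace `x` by `A⁻¹ x`, `B` by `A⁻¹ B`, `N` by `A N`). `nf`: `B ∈ SS`: `B e0 ~ e0`
  (`SS_e0`), take `N = 1`. `B = s W s'`: `s' e0 = e0`, replace `x` by `s⁻¹ x`, (`s e0 = e0`).
-/

set_option autoImplicit false

namespace Pool.Agent.YG

open Matrix

theorem act_gS_e0 : act gS e0 = e0 := by
  ext i
  rw [act_e0, gS_coe]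
  fin_cases i <;> simp [mS, e0]

private theorem hf_act' {A : GL3} (hA : A ∈ Lam) {x : V} (hx : hf x x = -1) :
    hf (act A x) (act A x) = -1 := by
  rw [hf_act (Lam_le_U hA), hx]

theorem disc_quasi (Q g : GL3) (hQ : Q ∈ Lam) (hg : g ∈ G1) (x : V) (hx : hf x x = -1) :
    ∃ N ∈ Lam, E (act Q e0) (act (Q * g) e0) * E x (act N e0) ^ 2 ≤
      23 * E x (act Q e0) * E x (act (Q * g) e0) := by
  have hQU : Q ∈ U := Lam_le_U hQ
  have hgU : g ∈ U := G1_le_U hg
  have hx' : hf (act Q⁻¹ x) (act Q⁻¹ x) = -1 := hf_act' (inv_mem hQ) hx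
  have hge : hf (act g e0) (act g e0) = -1 := hf_act_e0 hgU
  obtain ⟨α, β, hy, hE⟩ := mid (act Q⁻¹ x) e0 (act g e0) hx' hf_e0 hge
  set y : V := α • e0 + β • act g e0 with hydef
  have hy2 : y 2 = 0 := by
    have h1 := (G1_form g hg).2.2.1
    have h2 := act_e0 g 2
    rw [h1] at h2
    have h3 : e0 2 = 0 := by simp [e0]
    have h4 : y 2 = α * e0 2 + β * act g e0 2 := by rw [hydef]; rfl
    rw [h4, h2, h3]; simp
  obtain ⟨n, hn, hyn⟩ := disc_dense y hy hy2
  have hnU : n ∈ U := G1_le_U hn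
  have hnL : n ∈ Lam := G1_le_Lam hn
  refine ⟨Q * n, mul_mem hQ hnL, ?_⟩
  have e1 : E (act Q e0) (act (Q * g) e0) = E e0 (act g e0) := by
    rw [act_mul, E_act hQU]
  have e2 : ∀ z, E x (act Q z) = E (act Q⁻¹ x) z := by
    intro z
    have := E_act hQU (act Q⁻¹ x) z
    rw [act_act_inv] at this
    exact this
  rw [e1, act_mul, act_mul, e2, e2, e2]
  have t1 := E_tri (act Q⁻¹ x) (act n e0) y hx' (hf_act_e0 hnU) hy
  have n1 := E_nonneg (act Q⁻¹ x) y
  have n2 := E_nonneg (act Q⁻¹ x) (act n e0)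
  have n3 := E_nonneg e0 (act g e0)
  have n4 := E_nonneg (act Q⁻¹ x) e0
  have n5 := E_nonneg (act Q⁻¹ x) (act g e0)
  have t2 : E (act Q⁻¹ x) (act n e0) ≤ 10 / 3 * E (act Q⁻¹ x) y := by
    have := mul_le_mul_of_nonneg_left hyn (by positivity : 0 ≤ 2 * E (act Q⁻¹ x) y)
    linarith
  have t3 : E (act Q⁻¹ x) (act n e0) ^ 2 ≤ (10 / 3 * E (act Q⁻¹ x) y) ^ 2 :=
    pow_le_pow_left₀ n2 t2 2
  have t4 := mul_le_mul_of_nonneg_left t3 n3
  have t5 : 0 ≤ E (act Q⁻¹ x) e0 * E (act Q⁻¹ x) (act g e0) := mul_nonneg n4 n5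
  nlinarith

private theorem E_self' {w : GL3} (hw : w ∈ U) : E (act w e0) (act w e0) = 1 :=
  E_self _ (hf_act_e0 hw)

/-- the dichotomy at a node of the chain -/
private theorem dich {P Q : GL3} (hP : Alt P) (hQ : Alt Q) (x : V) (hx : hf x x = -1) :
    E x (act P e0) * E e0 (act P e0) ≤ 75 * E x e0 ∨
    E x (act P e0) * E (act P e0) (act (P * gS * Q) e0) ≤ 75 * E x (act (P * gS * Q) e0) := by
  have hPU := hP.mem_U
  have hQU := hQ.mem_U
  have hPS : P * gS ∈ U := mul_mem hPU gS_mem_U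
  have hW : P * gS * Q ∈ U := mul_mem hPS hQU
  have e1 : E e0 (act P e0) = ‖(P : M3) 0 0‖ := E_e0_act P
  have e2 : E (act P e0) (act (P * gS * Q) e0) = ‖(Q : M3) 0 0‖ := by
    have h1 : act P e0 = act (P * gS) e0 := by rw [act_mul, act_gS_e0]
    rw [h1, act_mul (P * gS) Q, E_act hPS, E_e0_act]
  have e3 : E e0 (act (P * gS * Q) e0) = ‖((P * gS * Q : GL3) : M3) 0 0‖ := E_e0_act _
  have hm := alt_mult hP hQ
  rw [← e1, ← e2, ← e3] at hm
  have hpt := ptol x e0 (act P e0) (act (P * gS * Q) e0) hx hf_e0 (hf_act_e0 hPU) (hf_act_e0 hW)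
  have p1 := one_le_E e0 (act P e0) hf_e0 (hf_act_e0 hPU)
  have p2 := one_le_E (act P e0) (act (P * gS * Q) e0) (hf_act_e0 hPU) (hf_act_e0 hW)
  have p3 := E_nonneg x (act P e0)
  have h4 := mul_le_mul_of_nonneg_left hm p3
  rcases max_cases (E x e0 * E (act P e0) (act (P * gS * Q) e0))
    (E e0 (act P e0) * E x (act (P * gS * Q) e0)) with ⟨hmx, -⟩ | ⟨hmx, -⟩
  · left
    rw [hmx] at hpt
    have h5 : (E x (act P e0) * E e0 (act P e0)) * E (act P e0) (act (P * gS * Q) e0) ≤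
        (75 * E x e0) * E (act P e0) (act (P * gS * Q) e0) := by nlinarith
    exact le_of_mul_le_mul_right h5 (by linarith)
  · right
    rw [hmx] at hpt
    have h5 : (E x (act P e0) * E (act P e0) (act (P * gS * Q) e0)) * E e0 (act P e0) ≤
        (75 * E x (act (P * gS * Q) e0)) * E e0 (act P e0) := by nlinarith
    exact le_of_mul_le_mul_right h5 (by linarith)

private theorem chain {w : GL3} (hw : Alt w) (x : V) (hx : hf x x = -1) {P : GL3} (hP : Alt P) :
    (w = P ∨ ∃ Q, Alt Q ∧ w = P * gS * Q) →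
    E x (act P e0) * E (act P e0) (act w e0) ≤ 75 * E x (act w e0) →
    ∃ N ∈ Lam, E e0 (act w e0) * E x (act N e0) ^ 2 ≤
      (92 * 75 ^ 2) * E x e0 * E x (act w e0) := by
  have hwU := hw.mem_U
  induction hP with
  | one g h1 h2 =>
    intro _ hS
    obtain ⟨N, hN, hd⟩ := disc_quasi 1 g (one_mem _) h1 x hx
    refine ⟨N, hN, ?_⟩
    rw [one_mul, act_one] at hd
    have hgU : g ∈ U := G1_le_U h1
    have t1 := E_tri e0 (act w e0) (act g e0) hf_e0 (hf_act_e0 hwU) (hf_act_e0 hgU)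
    have n1 := E_nonneg e0 (act g e0)
    have n2 := E_nonneg (act g e0) (act w e0)
    have n3 := E_nonneg x e0
    have n4 := E_nonneg x (act w e0)
    have n5 : 0 ≤ E x (act N e0) ^ 2 := sq_nonneg _
    have s1 := mul_le_mul_of_nonneg_right t1 n5
    have s2 := mul_le_mul_of_nonneg_left hd n2
    have s3 := mul_le_mul_of_nonneg_left hS n3
    have s4 : 0 ≤ E x e0 * E x (act w e0) := mul_nonneg n3 n4
    nlinarith
  | snoc P' g hP' h1 h2 ih =>
    intro hpre hS
    have hgA : Alt g := Alt.one g h1 h2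
    have hP'U := hP'.mem_U
    have hP'L := hP'.mem_Lam
    -- the decomposition of `w` at `P'`
    obtain ⟨Q', hQ', hwQ⟩ : ∃ Q', Alt Q' ∧ w = P' * gS * Q' := by
      rcases hpre with h | ⟨Q, hQ, h⟩
      · exact ⟨g, hgA, h⟩
      · exact ⟨g * gS * Q, alt_mul hgA hQ, by rw [h]; group⟩
    have hd := dich hP' hQ' x hx
    rw [← hwQ] at hd
    rcases hd with hF | hS'
    · have hQL : P' * gS ∈ Lam := mul_mem hP'L gS_mem_Lam
      obtain ⟨N, hN, hq⟩ := disc_quasi (P' * gS) g hQL h1 x hx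
      have e1 : act (P' * gS) e0 = act P' e0 := by rw [act_mul, act_gS_e0]
      rw [e1] at hq
      refine ⟨N, hN, ?_⟩
      have hPU : P' * gS * g ∈ U := mul_mem (mul_mem hP'U gS_mem_U) (G1_le_U h1)
      have t1 := E_tri e0 (act w e0) (act P' e0) hf_e0 (hf_act_e0 hwU) (hf_act_e0 hP'U)
      have t2 := E_tri (act P' e0) (act w e0) (act (P' * gS * g) e0) (hf_act_e0 hP'U)
        (hf_act_e0 hwU) (hf_act_e0 hPU)
      have n1 := E_nonneg e0 (act P' e0)
      have n2 := E_nonneg (act (P' * gS * g) e0) (act w e0)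
      have n3 := E_nonneg x e0
      have n4 := E_nonneg x (act w e0)
      have n5 : 0 ≤ E x (act N e0) ^ 2 := sq_nonneg _
      have n6 := E_nonneg x (act (P' * gS * g) e0)
      have n7 := E_nonneg x (act P' e0)
      have s1 : E e0 (act w e0) ≤ 4 * E e0 (act P' e0) *
          E (act P' e0) (act (P' * gS * g) e0) * E (act (P' * gS * g) e0) (act w e0) := by
        have := mul_le_mul_of_nonneg_left t2 (by positivity : 0 ≤ 2 * E e0 (act P' e0))
        linarith
      have s2 := mul_le_mul_of_nonneg_right s1 n5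
      have s3 : 0 ≤ 4 * E e0 (act P' e0) * E (act (P' * gS * g) e0) (act w e0) := by positivity
      have s4 := mul_le_mul_of_nonneg_left hq s3
      have s5 : (E x (act P' e0) * E e0 (act P' e0)) *
          (E x (act (P' * gS * g) e0) * E (act (P' * gS * g) e0) (act w e0)) ≤
          (75 * E x e0) * (75 * E x (act w e0)) :=
        mul_le_mul hF hS (mul_nonneg n6 n2) (by positivity)
      calc E e0 (act w e0) * E x (act N e0) ^ 2
          ≤ 4 * E e0 (act P' e0) * E (act P' e0) (act (P' * gS * g) e0) *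
              E (act (P' * gS * g) e0) (act w e0) * E x (act N e0) ^ 2 := s2
        _ = 4 * E e0 (act P' e0) * E (act (P' * gS * g) e0) (act w e0) *
              (E (act P' e0) (act (P' * gS * g) e0) * E x (act N e0) ^ 2) := by ring
        _ ≤ 4 * E e0 (act P' e0) * E (act (P' * gS * g) e0) (act w e0) *
              (23 * E x (act P' e0) * E x (act (P' * gS * g) e0)) := s4
        _ = 92 * ((E x (act P' e0) * E e0 (act P' e0)) *
          (E x (act (P' * gS * g) e0) * E (act (P' * gS * g) e0) (act w e0))) := by ring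
        _ ≤ 92 * ((75 * E x e0) * (75 * E x (act w e0))) := by linarith
        _ = (92 * 75 ^ 2) * E x e0 * E x (act w e0) := by ring
    · exact ih (Or.inr ⟨Q', hQ', hwQ⟩) hS'

theorem alt_quasi {w : GL3} (hw : Alt w) (x : V) (hx : hf x x = -1) :
    ∃ N ∈ Lam, E e0 (act w e0) * E x (act N e0) ^ 2 ≤
      (92 * 75 ^ 2) * E x e0 * E x (act w e0) := by
  refine chain hw x hx hw (Or.inl rfl) ?_
  rw [E_self' hw.mem_U]
  have := E_nonneg x (act w e0)
  linarith

theorem Lam_quasi : ∃ K : ℝ, ∀ x, hf x x = -1 → ∀ A ∈ Lam, ∀ B ∈ Lam, ∃ N ∈ Lam,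
    E (act A e0) (act B e0) * E x (act N e0) ^ 2 ≤ K * E x (act A e0) * E x (act B e0) := by
  refine ⟨92 * 75 ^ 2, ?_⟩
  intro x hx A hA B hB
  have hAU := Lam_le_U hA
  have hB' : A⁻¹ * B ∈ Lam := mul_mem (inv_mem hA) hB
  have hx' : hf (act A⁻¹ x) (act A⁻¹ x) = -1 := hf_act' (inv_mem hA) hx
  have e2 : ∀ z, E x (act A z) = E (act A⁻¹ x) z := by
    intro z
    have := E_act hAU (act A⁻¹ x) z
    rw [act_act_inv] at this
    exact this
  have eB : act B e0 = act A (act (A⁻¹ * B) e0) := by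
    rw [← act_mul, mul_inv_cancel_left]
  rw [eB, E_act hAU, e2, e2]
  rcases nf _ hB' with h | ⟨s, s', w, hs, hs', hw, hBw⟩
  · obtain ⟨μ, hμ, hμe⟩ := SS_e0 _ h
    refine ⟨A, hA, ?_⟩
    rw [hμe, E_smul_right, E_smul_right, hμ, e2, E_self _ hf_e0]
    have := sq_nonneg (E (act A⁻¹ x) e0)
    nlinarith
  · have hse : act s e0 = e0 := by
      rcases hs with rfl | rfl
      · exact act_one _
      · exact act_gS_e0
    have hs'e : act s' e0 = e0 := by
      rcases hs' with rfl | rfl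
      · exact act_one _
      · exact act_gS_e0
    have hsL : s ∈ Lam := by
      rcases hs with rfl | rfl
      · exact one_mem _
      · exact gS_mem_Lam
    have hsU := Lam_le_U hsL
    have hBe : act (A⁻¹ * B) e0 = act s (act w e0) := by
      rw [hBw, act_mul, act_mul, hs'e]
    have hx'' : hf (act s⁻¹ (act A⁻¹ x)) (act s⁻¹ (act A⁻¹ x)) = -1 :=
      hf_act' (inv_mem hsL) hx'
    have e3 : ∀ z, E (act A⁻¹ x) (act s z) = E (act s⁻¹ (act A⁻¹ x)) z := by
      intro z
      have := E_act hsU (act s⁻¹ (act A⁻¹ x)) z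
      rw [act_act_inv] at this
      exact this
    obtain ⟨N, hN, h⟩ := alt_quasi hw (act s⁻¹ (act A⁻¹ x)) hx''
    refine ⟨A * (s * N), mul_mem hA (mul_mem hsL hN), ?_⟩
    have e4 : E e0 (act s (act w e0)) = E e0 (act w e0) := by
      have := E_act hsU e0 (act w e0)
      rw [hse] at this
      exact this
    have e5 : E (act A⁻¹ x) e0 = E (act s⁻¹ (act A⁻¹ x)) e0 := by
      have := e3 e0
      rw [hse] at this
      exact this
    rw [hBe, e4, act_mul A, e2, act_mul s, e3, e3, e5]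
    exact h

end Pool.Agent.YG
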