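import Pool.Agent.YG.L11Mult

/-!
# YG-L13: points far from all nodes

`x_t = (cosh t, sinh t / √2, sinh t / √2)`. For `A ∈ SS`: `E x_t (act A e0) = cosh t`. For `A = s w s'` (`nf`), `Alt w`: `act A e0 = s w e0`,
first column of `w`: `(A, B, C)`, `‖C‖ ≤ .55 ‖A‖`, `‖A‖^2 = 1 + ‖B‖^2 + ‖C‖^2` (as in L11: `alt_inv`, `U_inv`); `s` at most swaps `B` and `C`
and `x_t` is symmetric. `E x_t (act A e0) ≥ cosh t ‖A‖ - sinh t (‖B‖+‖C‖)/√2` and `(‖B‖+‖C‖)^2 ≤ (sqrt(1-.3025) + .55)^2 ‖A‖^2 ≤ 1.92 ‖A‖^2`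
(`sqrt(1-c^2) + c` is increasing for `c ≤ .7`), so `E ≥ ‖A‖ cosh t (1 - 0.98) ≥ 0.02 cosh t`. Choose `t` large.
-/

set_option autoImplicit false

namespace Pool.Agent.YG

open Matrix

private theorem far_aux (co si r N b c : ℝ) (hco : 0 ≤ co) (hsi : 0 ≤ si) (hsc : si ≤ co)
    (hr : 0 ≤ r) (hr2 : r ^ 2 = 1 / 2) (hN : 1 ≤ N) (hb : 0 ≤ b) (hc : 0 ≤ c)
    (h1 : N ^ 2 = 1 + b ^ 2 + c ^ 2) (h2 : c ≤ 0.55 * N) :
    0.02 * co ≤ co * N - si * r * (b + c) := by
  have hc2 : c ^ 2 ≤ 0.3025 * N ^ 2 := by nlinarith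
  have hbc : (b + c) ^ 2 ≤ 1.9208 * N ^ 2 := by
    nlinarith [sq_nonneg (b * 0.66 - c)]
  have hrb : r * (b + c) ≤ 0.98 * N := by
    apply le_of_sq_le_sq _ (by linarith)
    rw [mul_pow, hr2]
    nlinarith
  have h3 : si * (r * (b + c)) ≤ co * (0.98 * N) := by
    apply mul_le_mul hsc hrb (by positivity) hco
  nlinarith [mul_nonneg hco (sub_nonneg.2 hN)]

theorem Lam_far : ∀ R : ℝ, ∃ x, hf x x = -1 ∧ ∀ A ∈ Lam, R < E x (act A e0) := by
  intro R
  set t : ℝ := 100 * |R| + 1 with ht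
  have ht0 : 0 ≤ t := by positivity
  set co := Real.cosh t with hco
  set si := Real.sinh t with hsi
  set r : ℝ := Real.sqrt (1 / 2) with hr
  have hr0 : 0 ≤ r := Real.sqrt_nonneg _
  have hr2 : r ^ 2 = 1 / 2 := Real.sq_sqrt (by norm_num)
  have hcs : co ^ 2 - si ^ 2 = 1 := Real.cosh_sq_sub_sinh_sq t
  have hsi0 : 0 ≤ si := Real.sinh_nonneg_iff.2 ht0
  have hco1 : 1 ≤ co := Real.one_le_cosh t
  have hsc : si ≤ co := (Real.sinh_lt_cosh t).le
  have hbig : (t + 1) / 2 ≤ co := by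
    rw [hco, Real.cosh_eq]
    have := Real.add_one_le_exp t
    have := Real.exp_pos (-t)
    linarith
  have hRbig : R < 0.02 * co := by
    have := le_abs_self R
    nlinarith
  refine ⟨![(co : ℂ), ((si * r : ℝ) : ℂ), ((si * r : ℝ) : ℂ)], ?_, ?_⟩
  · have : (hf ![(co : ℂ), ((si * r : ℝ) : ℂ), ((si * r : ℝ) : ℂ)]
        ![(co : ℂ), ((si * r : ℝ) : ℂ), ((si * r : ℝ) : ℂ)]) =
        ((-(co * co) + (si * r) * (si * r) + (si * r) * (si * r) : ℝ) : ℂ) := by
      simp [hf]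
    rw [this]
    have h : (-(co * co) + (si * r) * (si * r) + (si * r) * (si * r) : ℝ) = -1 := by
      have : (si * r) * (si * r) = si ^ 2 * r ^ 2 := by ring
      rw [this, hr2]; nlinarith
    rw [h]; simp
  · intro A hA
    -- the general lower bound
    have key : ∀ y : V, 1 ≤ ‖y 0‖ →
        ‖y 0‖ ^ 2 = 1 + ‖y 1‖ ^ 2 + ‖y 2‖ ^ 2 →
        (‖y 1‖ ≤ 0.55 * ‖y 0‖ ∨ ‖y 2‖ ≤ 0.55 * ‖y 0‖) →
        0.02 * co ≤ E ![(co : ℂ), ((si * r : ℝ) : ℂ), ((si * r : ℝ) : ℂ)] y := by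
      intro y hy0 hy1 hy2
      have hE : E ![(co : ℂ), ((si * r : ℝ) : ℂ), ((si * r : ℝ) : ℂ)] y ≥
          co * ‖y 0‖ - si * r * (‖y 1‖ + ‖y 2‖) := by
        have e1 : hf ![(co : ℂ), ((si * r : ℝ) : ℂ), ((si * r : ℝ) : ℂ)] y =
            -((co : ℂ) * (starRingEnd ℂ) (y 0)) +
              (((si * r : ℝ) : ℂ) * (starRingEnd ℂ) (y 1) +
                ((si * r : ℝ) : ℂ) * (starRingEnd ℂ) (y 2)) := by
          simp [hf, add_assoc]
        rw [E, e1]
        have n1 : ‖-((co : ℂ) * (starRingEnd ℂ) (y 0))‖ = co * ‖y 0‖ := by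
          rw [norm_neg, norm_mul, Complex.norm_conj, Complex.norm_real, Real.norm_eq_abs,
            abs_of_nonneg (by linarith)]
        have n2 : ‖((si * r : ℝ) : ℂ) * (starRingEnd ℂ) (y 1) +
                ((si * r : ℝ) : ℂ) * (starRingEnd ℂ) (y 2)‖ ≤ si * r * (‖y 1‖ + ‖y 2‖) := by
          refine (norm_add_le _ _).trans ?_
          rw [norm_mul, norm_mul, Complex.norm_conj, Complex.norm_conj, Complex.norm_real,
            Real.norm_eq_abs, abs_of_nonneg (by positivity)]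
          linarith [mul_add (si * r) ‖y 1‖ ‖y 2‖]
        have n3 := norm_sub_norm_le (-((co : ℂ) * (starRingEnd ℂ) (y 0)))
          (-(((si * r : ℝ) : ℂ) * (starRingEnd ℂ) (y 1) +
                ((si * r : ℝ) : ℂ) * (starRingEnd ℂ) (y 2)))
        rw [sub_neg_eq_add, norm_neg (((si * r : ℝ) : ℂ) * (starRingEnd ℂ) (y 1) +
                ((si * r : ℝ) : ℂ) * (starRingEnd ℂ) (y 2)), n1] at n3
        linarith
      refine le_trans ?_ hE
      rcases hy2 with h | h
      · have := far_aux co si r ‖y 0‖ ‖y 2‖ ‖y 1‖ (by linarith) hsi0 hsc hr0 hr2 hy0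
          (norm_nonneg _) (norm_nonneg _) (by linarith) h
        rw [add_comm ‖y 1‖ ‖y 2‖]; exact this
      · exact far_aux co si r ‖y 0‖ ‖y 1‖ ‖y 2‖ (by linarith) hsi0 hsc hr0 hr2 hy0
          (norm_nonneg _) (norm_nonneg _) hy1 h
    refine lt_of_lt_of_le hRbig ?_
    rcases nf A hA with hS | ⟨s, s', w, hs, hs', hw, rfl⟩
    · obtain ⟨μ, hμ, h⟩ := SS_e0 A hS
      apply key
      · rw [h]; simp [e0, hμ]
      · rw [h]; simp [e0, hμ]
      · rw [h]; simp [e0, hμ]; norm_num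
    · have hgS : act gS e0 = e0 := by
        funext i
        rw [act_e0, gS_coe]
        fin_cases i <;> simp [mS, e0]
      have hs'e : act s' e0 = e0 := by
        rcases hs' with rfl | rfl
        · exact act_one _
        · exact hgS
      have hwU := hw.mem_U
      have hcol := U_col0 w hwU
      have hinv := U_inv w hwU
      have hiv := (alt_inv hw).inv.1
      rw [hinv.2.2.1, hinv.1, norm_neg, Complex.norm_conj, Complex.norm_conj] at hiv
      have hN : 1 ≤ ‖(w : M3) 0 0‖ := by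
        have := hw.one_lt
        linarith
      rw [act_mul, act_mul, hs'e]
      rcases hs with rfl | rfl
      · rw [act_one]
        apply key
        · rw [act_e0]; exact hN
        · rw [act_e0, act_e0, act_e0]; exact hcol
        · right; rw [act_e0, act_e0]; exact hiv
      · have e0' : act gS (act w e0) 0 = (w : M3) 0 0 := by
          rw [act, gS_coe]
          simp [mS, Matrix.mulVec, dotProduct, Fin.sum_univ_three, act_e0]
        have e1' : act gS (act w e0) 1 = (w : M3) 2 0 := by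
          rw [act, gS_coe]
          simp [mS, Matrix.mulVec, dotProduct, Fin.sum_univ_three, act_e0]
        have e2' : act gS (act w e0) 2 = (w : M3) 1 0 := by
          rw [act, gS_coe]
          simp [mS, Matrix.mulVec, dotProduct, Fin.sum_univ_three, act_e0]
        apply key
        · rw [e0']; exact hN
        · rw [e0', e1', e2']; linarith
        · left; rw [e0', e1']; exact hiv

end Pool.Agent.YG
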