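import Pool.Agent.YG.P07Iter

/-!
# YG-P08: divergence slightly above exponent 3

Choose `ε = 1/1200`, so `40^ε ≤ 1.005`, and `s = 3 + ε`. Suppose `∑_{A ∈ Lam} ‖A00‖^(-s) = Σ < ∞`. Take `p` from
`start`. For every `n` the map `f ↦ pl p (List.ofFn f)` is injective into `Lam` (`pl_inj`, `pl_alt`, `Alt.mem_Lam`), so
`Σ ≥ ∑_f ‖(pl p f) 00‖^(-s) ≥ ∑_f ‖(pl p f) 00‖^(-3) (‖p00‖ 40^n)^(-ε)` (`pl_upper`), and `Phi w ≤ (1 + 4*.3025) ‖w00‖^(-3) ≤ 2.21 ‖w00‖^(-3)`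
(`Alt.inv`), so `Σ ≥ (1/2.21) ‖p00‖^(-ε) 1.005^(-n) 1.01^n Phi p → ∞`, contradiction.
-/

set_option autoImplicit false

namespace Pool.Agent.YG

open Matrix

private theorem eps_bound : (40 : ℝ) ^ ((1 : ℝ) / 1200) ≤ 1.005 := by
  have h1 : (2 : ℝ) ≤ 1.005 ^ 200 := by
    have h := one_add_mul_le_pow (show (-2 : ℝ) ≤ 0.005 by norm_num) 200
    calc (2 : ℝ) = 1 + ((200 : ℕ) : ℝ) * 0.005 := by norm_num
      _ ≤ (1 + 0.005) ^ 200 := h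
      _ = 1.005 ^ 200 := by norm_num
  have h2 : (40 : ℝ) ≤ 1.005 ^ 1200 := by
    calc (40 : ℝ) ≤ 2 ^ 6 := by norm_num
      _ ≤ (1.005 ^ 200) ^ 6 := pow_le_pow_left₀ (by norm_num) h1 6
      _ = 1.005 ^ 1200 := by rw [← pow_mul]
  calc (40 : ℝ) ^ ((1 : ℝ) / 1200) ≤ ((1.005 : ℝ) ^ 1200) ^ ((1 : ℝ) / 1200) :=
        Real.rpow_le_rpow (by norm_num) h2 (by norm_num)
    _ = 1.005 := by
        rw [← Real.rpow_natCast, ← Real.rpow_mul (by norm_num)]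
        norm_num

private theorem alt_one_le {w : GL3} (h : Alt w) : 1 ≤ ‖(w : M3) 0 0‖ := by
  obtain ⟨-, n, hn, -, hg⟩ := h.inv
  exact le_trans (one_le_pow₀ (by norm_num)) hg

private theorem Phi_le {w : GL3} (h : Alt w) : Phi w ≤ 2.21 * (‖(w : M3) 0 0‖ ^ 3)⁻¹ := by
  have h0 := alt_one_le h
  obtain ⟨h1, -⟩ := h.inv
  have hp : 0 < ‖(w : M3) 0 0‖ := by linarith
  have h2 : ‖(w : M3) 0 2‖ ^ 2 ≤ (0.55 * ‖(w : M3) 0 0‖) ^ 2 :=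
    pow_le_pow_left₀ (norm_nonneg _) h1 2
  have h3 : 4 * ‖(w : M3) 0 2‖ ^ 2 * (‖(w : M3) 0 0‖ ^ 5)⁻¹ ≤
      4 * (0.55 * ‖(w : M3) 0 0‖) ^ 2 * (‖(w : M3) 0 0‖ ^ 5)⁻¹ := by
    gcongr
  have h4 : 4 * (0.55 * ‖(w : M3) 0 0‖) ^ 2 * (‖(w : M3) 0 0‖ ^ 5)⁻¹ =
      1.21 * (‖(w : M3) 0 0‖ ^ 3)⁻¹ := by
    field_simp
    norm_num
  rw [Phi]
  rw [h4] at h3
  linarith

private theorem term_lower {p w : GL3} (hw : Alt w) (n : ℕ) (hp : 1 ≤ ‖(p : M3) 0 0‖)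
    (hle : ‖(w : M3) 0 0‖ ≤ ‖(p : M3) 0 0‖ * 40 ^ n) :
    (2.21 : ℝ)⁻¹ * (‖(p : M3) 0 0‖ ^ ((1 : ℝ) / 1200))⁻¹ * ((1.005 : ℝ) ^ n)⁻¹ * Phi w ≤
      ‖(w : M3) 0 0‖ ^ (-(3 + (1 : ℝ) / 1200)) := by
  have h0 := alt_one_le hw
  have hp' : 0 < ‖(p : M3) 0 0‖ := by linarith
  have hw' : 0 < ‖(w : M3) 0 0‖ := by linarith
  have h1 : ‖(w : M3) 0 0‖ ^ ((1 : ℝ) / 1200) ≤
      ‖(p : M3) 0 0‖ ^ ((1 : ℝ) / 1200) * 1.005 ^ n := by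
    calc ‖(w : M3) 0 0‖ ^ ((1 : ℝ) / 1200)
        ≤ (‖(p : M3) 0 0‖ * 40 ^ n) ^ ((1 : ℝ) / 1200) :=
          Real.rpow_le_rpow hw'.le hle (by norm_num)
      _ = ‖(p : M3) 0 0‖ ^ ((1 : ℝ) / 1200) * ((40 : ℝ) ^ ((1 : ℝ) / 1200)) ^ n := by
          rw [Real.mul_rpow hp'.le (by positivity)]
          congr 1
          rw [← Real.rpow_natCast, ← Real.rpow_natCast, ← Real.rpow_mul (by norm_num),
            ← Real.rpow_mul (by norm_num), mul_comm]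
      _ ≤ ‖(p : M3) 0 0‖ ^ ((1 : ℝ) / 1200) * 1.005 ^ n := by
          gcongr
          exact eps_bound
  have h2 : ‖(w : M3) 0 0‖ ^ (-(3 + (1 : ℝ) / 1200)) =
      (‖(w : M3) 0 0‖ ^ 3)⁻¹ * (‖(w : M3) 0 0‖ ^ ((1 : ℝ) / 1200))⁻¹ := by
    rw [Real.rpow_neg hw'.le, Real.rpow_add hw', mul_inv]
    congr 2
    exact_mod_cast Real.rpow_natCast ‖(w : M3) 0 0‖ 3
  have hpe : 0 < ‖(p : M3) 0 0‖ ^ ((1 : ℝ) / 1200) := Real.rpow_pos_of_pos hp' _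
  have hwe : 0 < ‖(w : M3) 0 0‖ ^ ((1 : ℝ) / 1200) := Real.rpow_pos_of_pos hw' _
  rw [h2]
  have h3 : (‖(p : M3) 0 0‖ ^ ((1 : ℝ) / 1200))⁻¹ * ((1.005 : ℝ) ^ n)⁻¹ ≤
      (‖(w : M3) 0 0‖ ^ ((1 : ℝ) / 1200))⁻¹ := by
    rw [← mul_inv]
    exact inv_anti₀ hwe h1
  have h4 := Phi_le hw
  calc (2.21 : ℝ)⁻¹ * (‖(p : M3) 0 0‖ ^ ((1 : ℝ) / 1200))⁻¹ * ((1.005 : ℝ) ^ n)⁻¹ * Phi w
      ≤ (2.21 : ℝ)⁻¹ * (‖(p : M3) 0 0‖ ^ ((1 : ℝ) / 1200))⁻¹ * ((1.005 : ℝ) ^ n)⁻¹ *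
        (2.21 * (‖(w : M3) 0 0‖ ^ 3)⁻¹) := by gcongr
    _ = (‖(w : M3) 0 0‖ ^ 3)⁻¹ *
        ((‖(p : M3) 0 0‖ ^ ((1 : ℝ) / 1200))⁻¹ * ((1.005 : ℝ) ^ n)⁻¹) := by
        field_simp
    _ ≤ _ := by gcongr

theorem Lam_diverge : ∃ s : ℝ, 3 < s ∧ ¬ Summable fun A : Lam => ‖((A : GL3) : M3) 0 0‖ ^ (-s) := by
  refine ⟨3 + 1 / 1200, by norm_num, fun hsum => ?_⟩
  obtain ⟨p, hp, hp100⟩ := start
  have hp1 : 1 ≤ ‖(p : M3) 0 0‖ := by linarith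
  have hp0 : 0 < ‖(p : M3) 0 0‖ := by linarith
  set F : Lam → ℝ := fun A => ‖((A : GL3) : M3) 0 0‖ ^ (-(3 + (1 : ℝ) / 1200)) with hF
  have hF0 : ∀ A, 0 ≤ F A := fun A => Real.rpow_nonneg (norm_nonneg _) _
  set c : ℝ := (2.21 : ℝ)⁻¹ * (‖(p : M3) 0 0‖ ^ ((1 : ℝ) / 1200))⁻¹ * Phi p with hc
  have hPhi : 0 < Phi p := by
    rw [Phi]
    positivity
  have hpe : 0 < ‖(p : M3) 0 0‖ ^ ((1 : ℝ) / 1200) := Real.rpow_pos_of_pos hp0 _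
  have hc0 : 0 < c := by positivity
  have key : ∀ n : ℕ, c * (1.01 / 1.005) ^ n ≤ ∑' A, F A := by
    intro n
    let g : (Fin n → Fin 20 × Fin 17) → Lam := fun f =>
      ⟨pl p (List.ofFn f), (pl_alt hp _).mem_Lam⟩
    have hg : Function.Injective g := by
      intro f f' h
      have h1 : pl p (List.ofFn f) = pl p (List.ofFn f') := congrArg Subtype.val h
      have h2 := pl_inj hp (List.ofFn f) (List.ofFn f') (by simp) h1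
      exact List.ofFn_injective h2
    have h1 : ∑ f, F (g f) ≤ ∑' A, F A := by
      rw [← Finset.sum_image (s := Finset.univ) (g := g) (f := F) (fun a _ b _ h => hg h)]
      exact hsum.sum_le_tsum _ (fun A _ => hF0 A)
    have h2 : ∀ f, (2.21 : ℝ)⁻¹ * (‖(p : M3) 0 0‖ ^ ((1 : ℝ) / 1200))⁻¹ *
        ((1.005 : ℝ) ^ n)⁻¹ * Phi (pl p (List.ofFn f)) ≤ F (g f) := by
      intro f
      have h3 := pl_upper hp (List.ofFn f)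
      rw [List.length_ofFn] at h3
      exact term_lower (pl_alt hp _) n hp1 h3
    have h4 := Phi_iter hp hp100 n
    calc c * (1.01 / 1.005) ^ n
        = (2.21 : ℝ)⁻¹ * (‖(p : M3) 0 0‖ ^ ((1 : ℝ) / 1200))⁻¹ * ((1.005 : ℝ) ^ n)⁻¹ *
          (1.01 ^ n * Phi p) := by
          rw [hc, div_pow]; ring
      _ ≤ (2.21 : ℝ)⁻¹ * (‖(p : M3) 0 0‖ ^ ((1 : ℝ) / 1200))⁻¹ * ((1.005 : ℝ) ^ n)⁻¹ *
          ∑ f : Fin n → Fin 20 × Fin 17, Phi (pl p (List.ofFn f)) := by gcongr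
      _ = ∑ f : Fin n → Fin 20 × Fin 17, (2.21 : ℝ)⁻¹ *
          (‖(p : M3) 0 0‖ ^ ((1 : ℝ) / 1200))⁻¹ * ((1.005 : ℝ) ^ n)⁻¹ *
            Phi (pl p (List.ofFn f)) := by rw [Finset.mul_sum]
      _ ≤ ∑ f, F (g f) := Finset.sum_le_sum fun f _ => h2 f
      _ ≤ _ := h1
  obtain ⟨n, hn⟩ := pow_unbounded_of_one_lt ((∑' A, F A) / c)
    (show (1 : ℝ) < 1.01 / 1.005 by norm_num)
  have h5 := key n
  rw [div_lt_iff₀ hc0] at hn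
  linarith

end Pool.Agent.YG
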