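import Pool.Agent.YG.L01Rel

/-!
# YG-L02: structure of `S1`, `SS`, `G1`

* `S1_form`: `gZ, gA, gB` commute and have finite order, so every element of the closure is
  `gZ^i gA^j gB^k` (`Subgroup.closure_induction`; inverses: `gA⁻¹ = gA^19`, ...).
* `S1_conj`: `gS gA gS = gB`, `gS gB gS = gA`, `gS gZ gS = gZ`.
* `SS_cases`: the set `S1 ∪ S1 gS` is closed under multiplication by the generators and their inverses.
* `SS_finite`: `S1` is the image of a finite set of exponents (`i < 40`, `j, k < 20`).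
* `SS_row`: `S1` is diagonal with entries of modulus 1; `gS` fixes the base vector.
* `G1_form`: generators are block matrices `[[2x2, 0],[0, unit complex number]]`; for inverses use that the inverse
  of a generator is of the same form (e.g. `gH⁻¹ = gH * gB^7`, from `hh`, `gB_pow_20`).
-/

set_option autoImplicit false

namespace Pool.Agent.YG

open Matrix

private theorem zab_mul (i j k i' j' k' : ℕ) :
    (gZ ^ i * gA ^ j * gB ^ k) * (gZ ^ i' * gA ^ j' * gB ^ k') =
      gZ ^ (i + i') * gA ^ (j + j') * gB ^ (k + k') := by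
  have hA : Commute gZ gA := gZ_comm gA
  have hB : Commute gZ gB := gZ_comm gB
  have hAB : Commute gA gB := gAB_comm
  have h1 : gB ^ k * gZ ^ i' = gZ ^ i' * gB ^ k := (hB.pow_pow i' k).eq.symm
  have h2 : gA ^ j * gZ ^ i' = gZ ^ i' * gA ^ j := (hA.pow_pow i' j).eq.symm
  have h3 : gB ^ k * gA ^ j' = gA ^ j' * gB ^ k := (hAB.pow_pow j' k).eq.symm
  calc (gZ ^ i * gA ^ j * gB ^ k) * (gZ ^ i' * gA ^ j' * gB ^ k')
      = gZ ^ i * gA ^ j * (gB ^ k * gZ ^ i') * gA ^ j' * gB ^ k' := by group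
    _ = gZ ^ i * (gA ^ j * gZ ^ i') * (gB ^ k * gA ^ j') * gB ^ k' := by rw [h1]; group
    _ = gZ ^ (i + i') * gA ^ (j + j') * gB ^ (k + k') := by rw [h2, h3]; group

theorem S1_form (A : GL3) (hA : A ∈ S1) : ∃ i j k : ℕ, A = gZ ^ i * gA ^ j * gB ^ k := by
  unfold S1 at hA
  induction hA using Subgroup.closure_induction with
  | mem x hx =>
    rcases hx with h | h | h
    · exact ⟨0, 1, 0, by rw [h]; simp⟩
    · exact ⟨0, 0, 1, by rw [h]; simp⟩
    · exact ⟨1, 0, 0, by rw [h]; simp⟩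
  | one => exact ⟨0, 0, 0, by simp⟩
  | mul x y _ _ hx hy =>
    obtain ⟨i, j, k, rfl⟩ := hx
    obtain ⟨i', j', k', rfl⟩ := hy
    exact ⟨i + i', j + j', k + k', zab_mul i j k i' j' k'⟩
  | inv x _ hx =>
    obtain ⟨i, j, k, rfl⟩ := hx
    refine ⟨39 * i, 19 * j, 19 * k, ?_⟩
    apply inv_eq_of_mul_eq_one_right
    rw [zab_mul]
    have h1 : gZ ^ (i + 39 * i) = 1 := by
      rw [show i + 39 * i = 40 * i by ring, pow_mul, gZ_pow_40, one_pow]
    have h2 : gA ^ (j + 19 * j) = 1 := by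
      rw [show j + 19 * j = 20 * j by ring, pow_mul, gA_pow_20, one_pow]
    have h3 : gB ^ (k + 19 * k) = 1 := by
      rw [show k + 19 * k = 20 * k by ring, pow_mul, gB_pow_20, one_pow]
    rw [h1, h2, h3]; simp

private theorem mem_S1_A : gA ∈ S1 := Subgroup.subset_closure (by simp)
private theorem mem_S1_B : gB ∈ S1 := Subgroup.subset_closure (by simp)
private theorem mem_S1_Z : gZ ∈ S1 := Subgroup.subset_closure (by simp)

private theorem gS_inv : gS⁻¹ = gS := inv_eq_of_mul_eq_one_right gS_sq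

theorem S1_conj (A : GL3) (hA : A ∈ S1) : gS * A * gS ∈ S1 := by
  unfold S1 at hA
  induction hA using Subgroup.closure_induction with
  | mem x hx =>
    rcases hx with h | h | h
    · rw [h, gSAS]; exact mem_S1_B
    · rw [h, gSBS]; exact mem_S1_A
    · rw [h, ← gZ_comm, mul_assoc, gS_sq, mul_one]; exact mem_S1_Z
  | one => rw [mul_one, gS_sq]; exact S1.one_mem
  | mul x y _ _ hx hy =>
    have h1 : gS * (x * y) * gS = (gS * x * gS) * (gS * y * gS) := by
      calc gS * (x * y) * gS = gS * x * 1 * y * gS := by group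
        _ = gS * x * (gS * gS) * y * gS := by rw [gS_sq]
        _ = (gS * x * gS) * (gS * y * gS) := by group
    rw [h1]
    exact S1.mul_mem hx hy
  | inv x _ hx =>
    have h1 : gS * x⁻¹ * gS = (gS * x * gS)⁻¹ := by
      rw [_root_.mul_inv_rev, _root_.mul_inv_rev, gS_inv, mul_assoc]
    rw [h1]
    exact S1.inv_mem hx

theorem SS_cases (A : GL3) (hA : A ∈ SS) : A ∈ S1 ∨ ∃ B ∈ S1, A = B * gS := by
  have hS : ∀ C : GL3, gS * C = gS * C * gS * gS := fun C => by
    rw [mul_assoc (gS * C) gS gS, gS_sq, mul_one]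
  unfold SS at hA
  induction hA using Subgroup.closure_induction with
  | mem x hx =>
    rcases hx with h | h | h | h
    · left; rw [h]; exact mem_S1_A
    · left; rw [h]; exact mem_S1_B
    · right; exact ⟨1, S1.one_mem, by rw [h, one_mul]⟩
    · left; rw [h]; exact mem_S1_Z
  | one => left; exact S1.one_mem
  | mul x y _ _ hx hy =>
    rcases hx with hx | ⟨B, hB, rfl⟩
    · rcases hy with hy | ⟨C, hC, rfl⟩
      · left; exact S1.mul_mem hx hy
      · right; exact ⟨x * C, S1.mul_mem hx hC, by rw [mul_assoc]⟩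
    · rcases hy with hy | ⟨C, hC, rfl⟩
      · right
        refine ⟨B * (gS * y * gS), S1.mul_mem hB (S1_conj y hy), ?_⟩
        calc B * gS * y = B * (gS * y) := by group
          _ = B * (gS * y * gS * gS) := by rw [← hS y]
          _ = B * (gS * y * gS) * gS := by group
      · left
        have h1 : B * gS * (C * gS) = B * (gS * C * gS) := by group
        rw [h1]
        exact S1.mul_mem hB (S1_conj C hC)
  | inv x _ hx =>
    rcases hx with hx | ⟨B, hB, rfl⟩
    · left; exact S1.inv_mem hx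
    · right
      refine ⟨gS * B⁻¹ * gS, S1_conj _ (S1.inv_mem hB), ?_⟩
      rw [_root_.mul_inv_rev, gS_inv]
      exact hS _

private theorem S1_finite : (S1 : Set GL3).Finite := by
  refine Set.Finite.subset (Set.finite_range
    (fun p : Fin 40 × Fin 20 × Fin 20 => gZ ^ (p.1 : ℕ) * gA ^ (p.2.1 : ℕ) * gB ^ (p.2.2 : ℕ))) ?_
  intro A hA
  obtain ⟨i, j, k, rfl⟩ := S1_form A hA
  refine ⟨(⟨i % 40, Nat.mod_lt _ (by norm_num)⟩, ⟨j % 20, Nat.mod_lt _ (by norm_num)⟩,
    ⟨k % 20, Nat.mod_lt _ (by norm_num)⟩), ?_⟩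
  change gZ ^ (i % 40) * gA ^ (j % 20) * gB ^ (k % 20) = _
  rw [← pow_eq_pow_mod i gZ_pow_40, ← pow_eq_pow_mod j gA_pow_20, ← pow_eq_pow_mod k gB_pow_20]

theorem SS_finite : (SS : Set GL3).Finite := by
  refine Set.Finite.subset (S1_finite.union (S1_finite.image (fun B => B * gS))) ?_
  intro A hA
  rcases SS_cases A hA with h | ⟨B, hB, rfl⟩
  · left; exact h
  · right; exact ⟨B, hB, rfl⟩

private theorem zab_coe (i j k : ℕ) : ((gZ ^ i * gA ^ j * gB ^ k : GL3) : M3) =
    Matrix.diagonal ![ze ^ i, ze ^ i * om ^ j, ze ^ i * om ^ k] := by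
  have hz : mZ = Matrix.diagonal ![ze, ze, ze] := by
    ext a b; fin_cases a <;> fin_cases b <;> simp [mZ]
  have ha : mA = Matrix.diagonal ![1, om, 1] := by
    ext a b; fin_cases a <;> fin_cases b <;> simp [mA]
  have hb : mB = Matrix.diagonal ![1, 1, om] := by
    ext a b; fin_cases a <;> fin_cases b <;> simp [mB]
  have h1 : ((gZ ^ i * gA ^ j * gB ^ k : GL3) : M3) = mZ ^ i * mA ^ j * mB ^ k := by
    rw [Units.val_mul, Units.val_mul, Units.val_pow_eq_pow_val, Units.val_pow_eq_pow_val,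
      Units.val_pow_eq_pow_val, gA_coe, gB_coe, gZ_coe]
  rw [h1, hz, ha, hb, Matrix.diagonal_pow, Matrix.diagonal_pow, Matrix.diagonal_pow,
    Matrix.diagonal_mul_diagonal, Matrix.diagonal_mul_diagonal]
  congr 1
  funext a
  fin_cases a <;> simp

theorem S1_diag (A : GL3) (hA : A ∈ S1) : (A : M3) 0 1 = 0 ∧ (A : M3) 0 2 = 0 ∧
    (A : M3) 1 0 = 0 ∧ (A : M3) 2 0 = 0 ∧ (A : M3) 1 2 = 0 ∧ (A : M3) 2 1 = 0 ∧
    ‖(A : M3) 0 0‖ = 1 ∧ ‖(A : M3) 1 1‖ = 1 ∧ ‖(A : M3) 2 2‖ = 1 := by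
  obtain ⟨i, j, k, rfl⟩ := S1_form A hA
  rw [zab_coe]
  refine ⟨?_, ?_, ?_, ?_, ?_, ?_, ?_, ?_, ?_⟩
  · exact Matrix.diagonal_apply_ne _ (by decide)
  · exact Matrix.diagonal_apply_ne _ (by decide)
  · exact Matrix.diagonal_apply_ne _ (by decide)
  · exact Matrix.diagonal_apply_ne _ (by decide)
  · exact Matrix.diagonal_apply_ne _ (by decide)
  · exact Matrix.diagonal_apply_ne _ (by decide)
  · simp [ze_norm]
  · simp [ze_norm, om_norm]
  · simp [ze_norm, om_norm]

private theorem mul_mS_apply (B : GL3) (a b : Fin 3) : ((B * gS : GL3) : M3) a b =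
    (B : M3) a 0 * mS 0 b + (B : M3) a 1 * mS 1 b + (B : M3) a 2 * mS 2 b := by
  rw [Units.val_mul, gS_coe, Matrix.mul_apply, Fin.sum_univ_three]

/-- entries of the first row and column of elements of `SS` -/
theorem SS_row (A : GL3) (hA : A ∈ SS) : ‖(A : M3) 0 0‖ = 1 ∧ (A : M3) 0 1 = 0 ∧ (A : M3) 0 2 = 0 ∧
    (A : M3) 1 0 = 0 ∧ (A : M3) 2 0 = 0 := by
  rcases SS_cases A hA with h | ⟨B, hB, rfl⟩
  · obtain ⟨h1, h2, h3, h4, h5, h6, h7, h8, h9⟩ := S1_diag A h
    exact ⟨h7, h1, h2, h3, h4⟩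
  · obtain ⟨h1, h2, h3, h4, h5, h6, h7, h8, h9⟩ := S1_diag B hB
    refine ⟨?_, ?_, ?_, ?_, ?_⟩ <;> rw [mul_mS_apply] <;> simp [mS, h1, h2, h3, h4, h7]

/-- elements of `SS` fix the base point up to a phase -/
theorem SS_e0 (A : GL3) (hA : A ∈ SS) : ∃ μ : ℂ, ‖μ‖ = 1 ∧ act A e0 = μ • e0 := by
  obtain ⟨h1, h2, h3, h4, h5⟩ := SS_row A hA
  refine ⟨(A : M3) 0 0, h1, ?_⟩
  funext i
  rw [act_e0]
  fin_cases i
  · simp [e0]
  · simpa [e0] using h4
  · simpa [e0] using h5

private theorem mul_apply3 (A B : GL3) (a b : Fin 3) : ((A * B : GL3) : M3) a b =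
    (A : M3) a 0 * (B : M3) 0 b + (A : M3) a 1 * (B : M3) 1 b + (A : M3) a 2 * (B : M3) 2 b := by
  rw [Units.val_mul, Matrix.mul_apply, Fin.sum_univ_three]

theorem G1_form (A : GL3) (hA : A ∈ G1) : (A : M3) 0 2 = 0 ∧ (A : M3) 1 2 = 0 ∧
    (A : M3) 2 0 = 0 ∧ (A : M3) 2 1 = 0 ∧ ‖(A : M3) 2 2‖ = 1 := by
  unfold G1 at hA
  induction hA using Subgroup.closure_induction with
  | mem x hx =>
    rcases hx with h | h | h | h
    · rw [h, gA_coe]; simp [mA]
    · rw [h, gB_coe]; simp [mB, om_norm]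
    · rw [h, gH_coe]; simp [mH, ka_norm]
    · rw [h, gZ_coe]; simp [mZ, ze_norm]
  | one => simp
  | mul x y _ _ hx hy =>
    obtain ⟨h1, h2, h3, h4, h5⟩ := hx
    obtain ⟨k1, k2, k3, k4, k5⟩ := hy
    refine ⟨?_, ?_, ?_, ?_, ?_⟩ <;> rw [mul_apply3]
    · rw [h1, k1, k2]; ring
    · rw [h2, k1, k2]; ring
    · rw [h3, h4, k3]; ring
    · rw [h3, h4, k4]; ring
    · rw [h3, h4]; simp [h5, k5]
  | inv x _ hx =>
    obtain ⟨h1, h2, h3, h4, h5⟩ := hx
    have hne : (x : M3) 2 2 ≠ 0 := by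
      intro h; rw [h] at h5; simp at h5
    have e1 : ∀ b, ((x * x⁻¹ : GL3) : M3) 2 b = (x : M3) 2 2 * ((x⁻¹ : GL3) : M3) 2 b := by
      intro b; rw [mul_apply3, h3, h4]; ring
    have e2 : ∀ a, ((x⁻¹ * x : GL3) : M3) a 2 = ((x⁻¹ : GL3) : M3) a 2 * (x : M3) 2 2 := by
      intro a; rw [mul_apply3, h1, h2]; ring
    simp only [mul_inv_cancel, Units.val_one] at e1
    simp only [inv_mul_cancel, Units.val_one] at e2
    refine ⟨?_, ?_, ?_, ?_, ?_⟩
    · have := e2 0
      rw [Matrix.one_apply_ne (by decide)] at this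
      rcases mul_eq_zero.1 this.symm with h | h
      · exact h
      · exact absurd h hne
    · have := e2 1
      rw [Matrix.one_apply_ne (by decide)] at this
      rcases mul_eq_zero.1 this.symm with h | h
      · exact h
      · exact absurd h hne
    · have := e1 0
      rw [Matrix.one_apply_ne (by decide)] at this
      rcases mul_eq_zero.1 this.symm with h | h
      · exact absurd h hne
      · exact h
    · have := e1 1
      rw [Matrix.one_apply_ne (by decide)] at this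
      rcases mul_eq_zero.1 this.symm with h | h
      · exact absurd h hne
      · exact h
    · have := e1 2
      rw [Matrix.one_apply_eq] at this
      have h6 := congrArg norm this
      rw [norm_mul, h5, norm_one, one_mul] at h6
      exact h6.symm

/-- relations of the entries of a matrix of `U` -/
theorem U_col0 (A : GL3) (hA : A ∈ U) :
    ‖(A : M3) 0 0‖ ^ 2 = 1 + ‖(A : M3) 1 0‖ ^ 2 + ‖(A : M3) 2 0‖ ^ 2 := by
  have h := hf_self (act A e0)
  rw [hf_act_e0 hA, act_e0, act_e0, act_e0] at h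
  have h2 : ((-1 : ℝ) : ℂ) =
      ((-‖(A : M3) 0 0‖ ^ 2 + ‖(A : M3) 1 0‖ ^ 2 + ‖(A : M3) 2 0‖ ^ 2 : ℝ) : ℂ) := by
    rw [← h]; simp
  have := Complex.ofReal_injective h2
  linarith

private theorem act_single (A : GL3) (i j : Fin 3) :
    act A (Pi.single i 1) j = (A : M3) j i := by
  simp [act]

private theorem U_adj (A : GL3) (hA : A ∈ U) (x y : V) : hf (act A x) y = hf x (act A⁻¹ y) := by
  have h := hf_act hA x (act A⁻¹ y)
  rw [act_act_inv] at h
  exact h

/-- the first row: apply `U_col0` to the inverse; `A⁻¹ = J A^* J`, `J = diag(-1,1,1)` -/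
theorem U_inv (A : GL3) (hA : A ∈ U) :
    ((A⁻¹ : GL3) : M3) 0 0 = (starRingEnd ℂ) ((A : M3) 0 0) ∧
    ((A⁻¹ : GL3) : M3) 0 1 = -(starRingEnd ℂ) ((A : M3) 1 0) ∧
    ((A⁻¹ : GL3) : M3) 0 2 = -(starRingEnd ℂ) ((A : M3) 2 0) ∧
    ((A⁻¹ : GL3) : M3) 1 0 = -(starRingEnd ℂ) ((A : M3) 0 1) ∧
    ((A⁻¹ : GL3) : M3) 2 0 = -(starRingEnd ℂ) ((A : M3) 0 2) := by
  have key : ∀ i j : Fin 3, hf (act A (Pi.single i 1)) (Pi.single j 1) =
      hf (Pi.single i 1) (act A⁻¹ (Pi.single j 1)) := fun i j => U_adj A hA _ _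
  generalize A⁻¹ = B at key ⊢
  have conj2 : ∀ a b : ℂ, a = (starRingEnd ℂ) b → b = (starRingEnd ℂ) a := by
    intro a b h; rw [h, Complex.conj_conj]
  refine ⟨?_, ?_, ?_, ?_, ?_⟩
  · have h := key 0 0
    unfold hf at h
    simp only [act_single] at h
    simp at h
    exact conj2 _ _ h
  · have h := key 0 1
    unfold hf at h
    simp only [act_single] at h
    simp at h
    rw [h, map_neg, Complex.conj_conj, neg_neg]
  · have h := key 0 2
    unfold hf at h
    simp only [act_single] at h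
    simp at h
    rw [h, map_neg, Complex.conj_conj, neg_neg]
  · have h := key 1 0
    unfold hf at h
    simp only [act_single] at h
    simp at h
    have h2 := conj2 _ _ h
    rw [h2, map_neg]
  · have h := key 2 0
    unfold hf at h
    simp only [act_single] at h
    simp at h
    have h2 := conj2 _ _ h
    rw [h2, map_neg]

theorem U_row0 (A : GL3) (hA : A ∈ U) :
    ‖(A : M3) 0 0‖ ^ 2 = 1 + ‖(A : M3) 0 1‖ ^ 2 + ‖(A : M3) 0 2‖ ^ 2 := by
  have h := U_col0 A⁻¹ (U.inv_mem hA)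
  obtain ⟨h1, h2, h3, h4, h5⟩ := U_inv A hA
  rw [h1, h4, h5, norm_neg, norm_neg, Complex.norm_conj, Complex.norm_conj, Complex.norm_conj] at h
  exact h

end Pool.Agent.YG
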