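import Pool.Agent.YG.L01Rel

/-!
# YG-T02: the ring `ℤ[x]/Φ_40`, its embeddings into `ℂ` and into the 41-adic integers

`ι = AdjoinRoot.lift (Int.castRingHom ℂ) ze (..)`: `ze` is a primitive 40th root of unity (`Complex.isPrimitiveRoot_exp`-style:
`ze = exp (2πi/40)`), so a root of `cyclotomic 40`. Injective: if `ι (mk f) = 0` then `Φ_40 = minpoly ℤ ze` (`Polynomial.cyclotomic_eq_minpoly`) divides `f`
(`minpoly.isIntegrallyClosed_dvd`), so `mk f = 0`.
`φ`: `41 ≡ 1 mod 40`, so `ℤ_[41]` contains a primitive 40th root of unity: Hensel's lemma (`hensels_lemma`) for `X^40 - 1` at `6`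
(a primitive root mod 41: `6^20 ≡ -1`, `6^8 ≡ 10 ≢ 1` mod 41; derivative `40 * 6^39` is a unit) gives `z` with `z^40 = 1`, `z ≡ 6 mod 41`,
so `z` has order exactly 40; then the same argument with `minpoly ℤ z = Φ_40` (characteristic 0 domain).
-/

set_option autoImplicit false

namespace Pool.Agent.YG

/-- `ℤ[x]/Φ_40(x)` -/
abbrev R40 := AdjoinRoot (Polynomial.cyclotomic 40 ℤ)

instance : Fact (Nat.Prime 41) := ⟨by norm_num⟩

theorem ze_primitive : IsPrimitiveRoot ze 40 := by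
  have h := Complex.isPrimitiveRoot_exp 40 (by norm_num)
  have h2 : ze = Complex.exp (2 * Real.pi * Complex.I / (40 : ℕ)) := by
    rw [ze]
    congr 1
    push_cast
    ring
  rw [h2]
  exact h

private theorem t02_inj {K : Type*} [Field K] [CharZero K] {μ : K} (h : IsPrimitiveRoot μ 40)
    (f : R40 →+* K) (hf : f (AdjoinRoot.root (Polynomial.cyclotomic 40 ℤ)) = μ) :
    Function.Injective f := by
  rw [injective_iff_map_eq_zero]
  intro a ha
  obtain ⟨p, rfl⟩ := AdjoinRoot.mk_surjective a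
  have h1 : Polynomial.aeval μ p = 0 := by
    have h2 : Polynomial.aeval (f.toIntAlgHom (AdjoinRoot.root (Polynomial.cyclotomic 40 ℤ))) p =
        f.toIntAlgHom (Polynomial.aeval (AdjoinRoot.root (Polynomial.cyclotomic 40 ℤ)) p) :=
      Polynomial.aeval_algHom_apply _ _ _
    rw [AdjoinRoot.aeval_eq] at h2
    have h3 : f.toIntAlgHom (AdjoinRoot.root (Polynomial.cyclotomic 40 ℤ)) = μ := hf
    rw [h3] at h2
    rw [h2]
    exact ha
  rw [AdjoinRoot.mk_eq_zero, Polynomial.cyclotomic_eq_minpoly h (by norm_num)]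
  exact minpoly.isIntegrallyClosed_dvd (h.isIntegral (by norm_num)) h1

private theorem t02_exists {K : Type*} [CommRing K] [IsDomain K] {μ : K} (h : IsPrimitiveRoot μ 40) :
    ∃ f : R40 →+* K, f (AdjoinRoot.root (Polynomial.cyclotomic 40 ℤ)) = μ := by
  have h1 : (Polynomial.cyclotomic 40 ℤ).eval₂ (Int.castRingHom K) μ = 0 := by
    have h2 := h.isRoot_cyclotomic (by norm_num)
    rw [← Polynomial.map_cyclotomic_int, Polynomial.IsRoot.def, Polynomial.eval_map] at h2
    exact h2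
  exact ⟨AdjoinRoot.lift (Int.castRingHom K) μ h1, AdjoinRoot.lift_root h1⟩

theorem exists_iota : ∃ ι : R40 →+* ℂ, Function.Injective ι ∧
    ι (AdjoinRoot.root (Polynomial.cyclotomic 40 ℤ)) = ze := by
  obtain ⟨f, hf⟩ := t02_exists ze_primitive
  exact ⟨f, t02_inj ze_primitive f hf, hf⟩

private theorem t02_norm_int (m : ℤ) (h : ¬ (41 : ℤ) ∣ m) : ‖((m : ℤ) : ℤ_[41])‖ = 1 := by
  by_contra hne
  have h2 : ‖((m : ℤ) : ℤ_[41])‖ < 1 := lt_of_le_of_ne (PadicInt.norm_le_one _) hne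
  rw [PadicInt.norm_int_lt_one_iff_dvd] at h2
  exact h (by exact_mod_cast h2)

private theorem t02_norm_int_lt (m : ℤ) (h : (41 : ℤ) ∣ m) : ‖((m : ℤ) : ℤ_[41])‖ < 1 := by
  rw [PadicInt.norm_int_lt_one_iff_dvd]
  exact_mod_cast h

/-- a primitive 40th root of unity in the 41-adic integers -/
private theorem t02_root : ∃ z : ℤ_[41], IsPrimitiveRoot z 40 := by
  have hder : (Polynomial.aeval ((6 : ℤ) : ℤ_[41]))
      (Polynomial.derivative (Polynomial.X ^ 40 - 1 : Polynomial ℤ_[41])) =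
      ((40 * 6 ^ 39 : ℤ) : ℤ_[41]) := by
    simp
    norm_num
  have hval : (Polynomial.aeval ((6 : ℤ) : ℤ_[41])) (Polynomial.X ^ 40 - 1 : Polynomial ℤ_[41]) =
      ((6 ^ 40 - 1 : ℤ) : ℤ_[41]) := by
    simp
    norm_num
  have hn1 : ‖(Polynomial.aeval ((6 : ℤ) : ℤ_[41]))
      (Polynomial.derivative (Polynomial.X ^ 40 - 1 : Polynomial ℤ_[41]))‖ = 1 := by
    rw [hder]
    exact t02_norm_int _ (by norm_num)
  have hn2 : ‖(Polynomial.aeval ((6 : ℤ) : ℤ_[41])) (Polynomial.X ^ 40 - 1 : Polynomial ℤ_[41])‖ < 1 := by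
    rw [hval]
    exact t02_norm_int_lt _ (by norm_num)
  obtain ⟨z, hz, hz2, -, -⟩ := hensels_lemma (p := 41) (F := (Polynomial.X ^ 40 - 1 : Polynomial ℤ_[41]))
    (a := ((6 : ℤ) : ℤ_[41])) (by rw [hn1]; simpa using hn2)
  rw [hn1] at hz2
  have hz40 : z ^ 40 = 1 := by
    have : z ^ 40 - 1 = 0 := by simpa using hz
    exact sub_eq_zero.mp this
  -- `z ≡ 6` modulo the maximal ideal
  have hzmod : PadicInt.toZMod z = (6 : ZMod 41) := by
    have h1 : z - ((6 : ℤ) : ℤ_[41]) ∈ IsLocalRing.maximalIdeal ℤ_[41] := by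
      rw [PadicInt.maximalIdeal_eq_span_p, Ideal.mem_span_singleton]
      exact PadicInt.norm_lt_one_iff_dvd _ |>.mp hz2
    rw [← PadicInt.ker_toZMod, RingHom.mem_ker, map_sub, sub_eq_zero] at h1
    rw [h1, map_intCast]
    norm_num
  refine ⟨z, IsPrimitiveRoot.mk_of_lt z (by norm_num) hz40 ?_⟩
  intro l hl0 hl40 hl
  have h2 : (6 : ZMod 41) ^ l = 1 := by
    rw [← hzmod, ← map_pow, hl, map_one]
  clear hl hzmod hz40 hz2 hz hn1 hn2 hval hder
  interval_cases l <;> revert h2 <;> decide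

theorem exists_phi : ∃ φ : R40 →+* ℤ_[41], Function.Injective φ := by
  obtain ⟨z, hz⟩ := t02_root
  obtain ⟨f, hf⟩ := t02_exists hz
  have hinj : Function.Injective (PadicInt.Coe.ringHom (p := 41)) := Subtype.coe_injective
  have hz2 : IsPrimitiveRoot (PadicInt.Coe.ringHom (p := 41) z) 40 := hz.map_of_injective hinj
  have h2 : Function.Injective ((PadicInt.Coe.ringHom (p := 41)).comp f) :=
    t02_inj hz2 _ (by rw [RingHom.comp_apply, hf])
  exact ⟨f, fun a b hab => h2 (by simp [hab])⟩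

end Pool.Agent.YG
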