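import Pool.Agent.YG.T01Padic
import Pool.Agent.YG.T02Ring
import Pool.Agent.YG.L02Str

/-!
# YG-T03: a torsion-free subgroup of finite index

`c = cc` lies in `ℤ[ζ]`: `c = -ζ^15 (1+ζ^2)(1+ζ^8)` (`c ω (1-ω) = ζ^33` (`key`) and `1/(1-ω) = ω^2 (1+ω)(1+ω^4)` because
`Φ_20(ω) = ω^8-ω^6+ω^4-ω^2+1 = 0`). Let `c', ζ' ∈ R40` be the corresponding elements, `s2 = c'^2 - 1`, and in `GL (Fin 3) R40`:
`a' = diag(1, ζ'^2, 1)`, `h' = [[c', s2, 0], [-1, -c', 0], [0, 0, ζ'^33]]` (determinant `-ζ'^33`), `σ'` the permutation, `z' = ζ'`. With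
`D = diag(1, 1/ss, 1/ss)` the homomorphism `ρ : GL (Fin 3) R40 →* GL3`, `ρ M = D⁻¹ ι(M) D` is injective and maps them to `gA, gH, gS, gZ`
(`gH = D⁻¹ h' D`: entry (0,1): `s2/ss = ss`; entry (1,0): `-1 * ss`).
`Λ' = closure {a', h', σ', z'}`, `map ρ Λ' = Lam` (`MonoidHom.map_closure`). `red : GL (Fin 3) R40 →* GL (Fin 3) (ZMod 41)` induced by
`PadicInt.toZMod.comp φ`. `Γ' = Λ' ⊓ ker red`, `Γ = map ρ Γ'`. `T`: choose for each element of the finite group `GL (Fin 3) (ZMod 41)` in the image of `Λ'` one preimage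
in `Λ'`; every `A' ∈ Λ'` is `(A' t⁻¹) t` with `A' t⁻¹ ∈ Γ'`.
Torsion: `A = ρ A'`, `A' ∈ Γ'`, `A^k = μ • 1`. Then `ι(A'^k) = μ • 1`, so `A'^k = m • 1` with `m ∈ R40` (injectivity of `ι`). `det` of the generators are `ζ'^2, -ζ'^33, -1, ζ'^3`, all
`40`-th roots of unity, so `det(A')^40 = 1`, `m^(120) = det(A'^k)^40 = 1`, hence `A'^(120 k) = 1`. Apply `padic_tf` (`p = 41`) to `φ(A')`: `A' ∈ ker red` gives
`41 ∣ (φ(A') - 1) i j` (`PadicInt.ker_toZMod`), so `φ(A') = 1`, `A' = 1`.
-/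

set_option autoImplicit false

namespace Pool.Agent.YG

open Matrix

private theorem t03_phi20 : ze ^ 16 - ze ^ 12 + ze ^ 8 - ze ^ 4 + 1 = 0 := by
  have h1 : ze ^ 4 + 1 ≠ 0 := by
    intro h
    have h8 : ze ^ 8 = 1 := by linear_combination (ze ^ 4 - 1) * h
    have := ze_primitive.pow_ne_one_of_pos_of_lt (l := 8) (by norm_num) (by norm_num)
    exact this h8
  have h2 : (ze ^ 4 + 1) * (ze ^ 16 - ze ^ 12 + ze ^ 8 - ze ^ 4 + 1) = 0 := by
    linear_combination ze_pow_20
  exact (mul_eq_zero.mp h2).resolve_left h1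

/-- `cc` is an algebraic integer of the 40th cyclotomic field -/
private theorem t03_cc : (cc : ℂ) = -ze ^ 15 * (1 + ze ^ 2) * (1 + ze ^ 8) := by
  have h := key
  rw [om, ka] at h
  have h5 : (1 - ze ^ 2) * (ze ^ 4 * (1 + ze ^ 2) * (1 + ze ^ 8)) = 1 := by
    linear_combination -t03_phi20
  have hz : ze ^ 20 = -1 := ze_pow_20
  have hne : ze ≠ 0 := ze_ne
  have h6 : (cc : ℂ) * ze ^ 2 = ze ^ 33 * (ze ^ 4 * (1 + ze ^ 2) * (1 + ze ^ 8)) := by
    linear_combination (ze ^ 4 * (1 + ze ^ 2) * (1 + ze ^ 8)) * h - (cc : ℂ) * ze ^ 2 * h5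
  have h7 : (cc : ℂ) * ze ^ 2 = (-ze ^ 15 * (1 + ze ^ 2) * (1 + ze ^ 8)) * ze ^ 2 := by
    rw [h6]
    linear_combination (ze ^ 17 * (1 + ze ^ 2) * (1 + ze ^ 8)) * hz
  exact mul_right_cancel₀ (pow_ne_zero 2 hne) h7

/-- conjugating matrix -/
private noncomputable def dMat : M3 := !![1, 0, 0; 0, (ss : ℂ)⁻¹, 0; 0, 0, (ss : ℂ)⁻¹]

private theorem ss_ne : (ss : ℂ) ≠ 0 := by exact_mod_cast ss_pos.ne'

private theorem dMat_det : dMat.det ≠ 0 := by
  simp [dMat, Matrix.det_fin_three, ss_pos.ne']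

private noncomputable def gD : GL3 := Matrix.GeneralLinearGroup.mkOfDetNeZero dMat dMat_det

private theorem gD_coe : (gD : M3) = dMat := rfl

private theorem t03_conj (x : GL3) (y : GL3) (h : (x : M3) * dMat = dMat * (y : M3)) :
    gD⁻¹ * x * gD = y := by
  have h2 : x * gD = gD * y := by
    apply Units.ext
    exact h
  rw [mul_assoc, h2, inv_mul_cancel_left]

section

variable (ι : R40 →+* ℂ) (x : R40)

private noncomputable def cR : R40 := -x ^ 15 * (1 + x ^ 2) * (1 + x ^ 8)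

private noncomputable def aR : Matrix (Fin 3) (Fin 3) R40 := !![1, 0, 0; 0, x ^ 2, 0; 0, 0, 1]
private noncomputable def hR : Matrix (Fin 3) (Fin 3) R40 :=
  !![cR x, cR x ^ 2 - 1, 0; -1, -cR x, 0; 0, 0, x ^ 33]
private noncomputable def sR : Matrix (Fin 3) (Fin 3) R40 := !![1, 0, 0; 0, 0, 1; 0, 1, 0]
private noncomputable def zR : Matrix (Fin 3) (Fin 3) R40 := !![x, 0, 0; 0, x, 0; 0, 0, x]

private theorem aR_det : (aR x).det = x ^ 2 := by
  simp [aR, Matrix.det_fin_three]
private theorem hR_det : (hR x).det = -x ^ 33 := by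
  simp [hR, Matrix.det_fin_three]
  ring
private theorem sR_det : (sR).det = -1 := by
  simp [sR, Matrix.det_fin_three]
private theorem zR_det : (zR x).det = x ^ 3 := by
  simp [zR, Matrix.det_fin_three]
  ring

end

/-- the abstract part: everything after the algebra of the generators -/
private theorem t03_main (ι : R40 →+* ℂ) (hι : Function.Injective ι)
    (φ : R40 →+* ℤ_[41]) (hφ : Function.Injective φ)
    (gens : Set (GL (Fin 3) R40)) (hdet : ∀ g ∈ gens, (g : Matrix (Fin 3) (Fin 3) R40).det ^ 40 = 1)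
    (himg : (fun g => gD⁻¹ * Matrix.GeneralLinearGroup.map ι g * gD) '' gens = {gA, gH, gS, gZ}) :
    ∃ Γ : Subgroup GL3, Γ ≤ Lam ∧
    (∃ T : Finset GL3, (∀ t ∈ T, t ∈ Lam) ∧ ∀ A ∈ Lam, ∃ γ ∈ Γ, ∃ t ∈ T, A = γ * t) ∧
    ∀ A ∈ Γ, ∀ k : ℕ, 0 < k → ∀ μ : ℂ, ((A ^ k : GL3) : M3) = μ • (1 : M3) → A = 1 := by
  classical
  let ρ : GL (Fin 3) R40 →* GL3 :=
    { toFun := fun g => gD⁻¹ * Matrix.GeneralLinearGroup.map ι g * gD
      map_one' := by simp
      map_mul' := by
        intro a b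
        rw [map_mul]
        group }
  have hρ : ∀ g, ρ g = gD⁻¹ * Matrix.GeneralLinearGroup.map ι g * gD := fun _ => rfl
  let L : Subgroup (GL (Fin 3) R40) := Subgroup.closure gens
  have hLam : Lam = L.map ρ := by
    rw [MonoidHom.map_closure, Lam]
    congr 1
    exact himg.symm
  let red : GL (Fin 3) R40 →* GL (Fin 3) (ZMod 41) :=
    Matrix.GeneralLinearGroup.map ((PadicInt.toZMod (p := 41)).comp φ)
  let Γ' : Subgroup (GL (Fin 3) R40) := L ⊓ red.ker
  refine ⟨Γ'.map ρ, ?_, ?_, ?_⟩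
  · rw [hLam]
    exact Subgroup.map_mono inf_le_left
  · let tt : GL (Fin 3) (ZMod 41) → GL (Fin 3) R40 := fun y =>
      if h : ∃ t ∈ L, red t = y then h.choose else 1
    have htt : ∀ y, tt y ∈ L := by
      intro y
      by_cases h : ∃ t ∈ L, red t = y
      · simp only [tt, dif_pos h]
        exact h.choose_spec.1
      · simp only [tt, dif_neg h]
        exact one_mem _
    have htt2 : ∀ a ∈ L, red (tt (red a)) = red a := by
      intro a ha
      have h : ∃ t ∈ L, red t = red a := ⟨a, ha, rfl⟩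
      simp only [tt, dif_pos h]
      exact h.choose_spec.2
    have : Fintype (GL (Fin 3) (ZMod 41)) := Fintype.ofFinite _
    refine ⟨(Finset.univ : Finset (GL (Fin 3) (ZMod 41))).image (fun y => ρ (tt y)), ?_, ?_⟩
    · intro t ht
      obtain ⟨y, -, rfl⟩ := Finset.mem_image.mp ht
      rw [hLam]
      exact Subgroup.mem_map_of_mem ρ (htt y)
    · intro A hA
      rw [hLam] at hA
      obtain ⟨a, ha, rfl⟩ := hA
      refine ⟨ρ (a * (tt (red a))⁻¹), Subgroup.mem_map_of_mem ρ ⟨?_, ?_⟩, ρ (tt (red a)),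
        Finset.mem_image.mpr ⟨red a, Finset.mem_univ _, rfl⟩, ?_⟩
      · exact L.mul_mem ha (L.inv_mem (htt _))
      · have h1 : red (a * (tt (red a))⁻¹) = 1 := by
          rw [map_mul, map_inv, htt2 a ha, mul_inv_cancel]
        exact h1
      · rw [← map_mul, inv_mul_cancel_right]
  · intro A hA k hk μ hAk
    obtain ⟨a, ⟨haL, hared⟩, rfl⟩ := hA
    have hared' : red a = 1 := hared
    -- the matrix of `ι (a^k)` is scalar
    have h1 : ((Matrix.GeneralLinearGroup.map ι (a ^ k) : GL3) : M3) = μ • (1 : M3) := by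
      rw [← map_pow, hρ] at hAk
      have h2 : Matrix.GeneralLinearGroup.map ι (a ^ k) =
          gD * (gD⁻¹ * Matrix.GeneralLinearGroup.map ι (a ^ k) * gD) * gD⁻¹ := by group
      rw [h2, Units.val_mul, Units.val_mul, hAk, mul_smul_comm, smul_mul_assoc, mul_one,
        ← Units.val_mul, mul_inv_cancel, Units.val_one]
    have h2 : ∀ i j, ι (((a ^ k : GL (Fin 3) R40) : Matrix (Fin 3) (Fin 3) R40) i j) =
        (μ • (1 : M3)) i j := by
      intro i j
      rw [← h1]
      rfl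
    let m : R40 := ((a ^ k : GL (Fin 3) R40) : Matrix (Fin 3) (Fin 3) R40) 0 0
    have hm : ι m = μ := by
      have := h2 0 0
      rw [Matrix.smul_apply, Matrix.one_apply_eq, smul_eq_mul, mul_one] at this
      exact this
    have h3 : ((a ^ k : GL (Fin 3) R40) : Matrix (Fin 3) (Fin 3) R40) =
        m • (1 : Matrix (Fin 3) (Fin 3) R40) := by
      ext i j
      apply hι
      rw [h2 i j]
      rw [Matrix.smul_apply, Matrix.smul_apply, smul_eq_mul, smul_eq_mul, map_mul, hm]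
      by_cases hij : i = j
      · subst hij; simp
      · simp [Matrix.one_apply, hij]
    have hdet40 : ∀ g ∈ L, (g : Matrix (Fin 3) (Fin 3) R40).det ^ 40 = 1 := by
      intro g hg
      induction hg using Subgroup.closure_induction with
      | mem y hy => exact hdet y hy
      | one => simp
      | mul y z _ _ hy hz =>
        rw [Units.val_mul, Matrix.det_mul, mul_pow, hy, hz, one_mul]
      | inv y _ hy =>
        have h4 : (((y * y⁻¹ : GL (Fin 3) R40)) : Matrix (Fin 3) (Fin 3) R40).det ^ 40 = 1 := by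
          rw [mul_inv_cancel]; simp
        rw [Units.val_mul, Matrix.det_mul, mul_pow, hy, one_mul] at h4
        exact h4
    have h5 := hdet40 _ (pow_mem haL k)
    rw [h3, Matrix.det_smul, Matrix.det_one, mul_one, Fintype.card_fin] at h5
    have h6 : ((a : Matrix (Fin 3) (Fin 3) R40)) ^ (k * 120) = 1 := by
      rw [pow_mul, ← Units.val_pow_eq_pow_val, h3, smul_pow, one_pow]
      have : m ^ 120 = 1 := by
        rw [← h5]; ring
      rw [this, one_smul]
    have h7 : ((φ.mapMatrix (a : Matrix (Fin 3) (Fin 3) R40))) ^ (k * 120) = 1 := by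
      rw [← map_pow, h6, map_one]
    have h8 := padic_tf 41 (by norm_num) 3 (φ.mapMatrix (a : Matrix (Fin 3) (Fin 3) R40)) ?_
      (k * 120) (by positivity) h7
    · have h9 : a = 1 := by
        apply Units.ext
        have h10 : φ.mapMatrix (a : Matrix (Fin 3) (Fin 3) R40) =
            φ.mapMatrix (1 : Matrix (Fin 3) (Fin 3) R40) := by rw [h8, map_one]
        ext i j
        apply hφ
        have := congrFun (congrFun h10 i) j
        exact this
      rw [h9, map_one]
    · intro i j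
      have h11 : PadicInt.toZMod (p := 41) ((φ.mapMatrix (a : Matrix (Fin 3) (Fin 3) R40) - 1) i j) = 0 := by
        have h12 : PadicInt.toZMod (p := 41) (φ ((a : Matrix (Fin 3) (Fin 3) R40) i j)) =
            ((1 : GL (Fin 3) (ZMod 41)) : Matrix (Fin 3) (Fin 3) (ZMod 41)) i j := by
          rw [← hared']
          rfl
        rw [Matrix.sub_apply, map_sub]
        have h13 : (φ.mapMatrix (a : Matrix (Fin 3) (Fin 3) R40)) i j =
            φ ((a : Matrix (Fin 3) (Fin 3) R40) i j) := rfl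
        rw [h13, h12]
        by_cases hij : i = j
        · subst hij; simp
        · simp [Matrix.one_apply, hij]
      rw [← RingHom.mem_ker, PadicInt.ker_toZMod, PadicInt.maximalIdeal_eq_span_p,
        Ideal.mem_span_singleton] at h11
      exact h11

theorem exists_tf : ∃ Γ : Subgroup GL3, Γ ≤ Lam ∧
    (∃ T : Finset GL3, (∀ t ∈ T, t ∈ Lam) ∧ ∀ A ∈ Lam, ∃ γ ∈ Γ, ∃ t ∈ T, A = γ * t) ∧
    ∀ A ∈ Γ, ∀ k : ℕ, 0 < k → ∀ μ : ℂ, ((A ^ k : GL3) : M3) = μ • (1 : M3) → A = 1 := by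
  obtain ⟨ι, hι, hx⟩ := exists_iota
  obtain ⟨φ, hφ⟩ := exists_phi
  set x : R40 := AdjoinRoot.root (Polynomial.cyclotomic 40 ℤ) with hxdef
  have hx40 : x ^ 40 = 1 := by
    apply hι
    rw [map_pow, hx, map_one, ze_pow_40]
  have hxu : IsUnit x := IsUnit.of_pow_eq_one hx40 (by norm_num)
  have hcR : ι (cR x) = (cc : ℂ) := by
    rw [t03_cc]
    simp only [cR, map_mul, map_neg, map_pow, map_add, map_one, hx]
  have haU : IsUnit (aR x).det := by rw [aR_det]; exact hxu.pow 2
  have hhU : IsUnit (hR x).det := by rw [hR_det]; exact (hxu.pow 33).neg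
  have hsU : IsUnit (sR).det := by rw [sR_det]; exact isUnit_one.neg
  have hzU : IsUnit (zR x).det := by rw [zR_det]; exact hxu.pow 3
  let a' : GL (Fin 3) R40 := Matrix.GeneralLinearGroup.mk'' (aR x) haU
  let h' : GL (Fin 3) R40 := Matrix.GeneralLinearGroup.mk'' (hR x) hhU
  let s' : GL (Fin 3) R40 := Matrix.GeneralLinearGroup.mk'' (sR) hsU
  let z' : GL (Fin 3) R40 := Matrix.GeneralLinearGroup.mk'' (zR x) hzU
  have hss : (ss : ℂ) ^ 2 = (cc : ℂ) ^ 2 - 1 := by exact_mod_cast ss_sq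
  have hsn := ss_ne
  have ea : gD⁻¹ * Matrix.GeneralLinearGroup.map ι a' * gD = gA := by
    apply t03_conj
    change (aR x).map ι * dMat = dMat * mA
    ext i j
    fin_cases i <;> fin_cases j <;>
      simp [aR, dMat, mA, Matrix.mul_apply, Fin.sum_univ_three, hx, om, mul_comm]
  have eh : gD⁻¹ * Matrix.GeneralLinearGroup.map ι h' * gD = gH := by
    apply t03_conj
    change (hR x).map ι * dMat = dMat * mH
    ext i j
    fin_cases i <;> fin_cases j <;>
      simp [hR, dMat, mH, Matrix.mul_apply, Fin.sum_univ_three, hx, hcR, ka, mul_comm]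
    · rw [← hss]; field_simp
    · rw [mul_inv_cancel₀ hsn]
  have es : gD⁻¹ * Matrix.GeneralLinearGroup.map ι s' * gD = gS := by
    apply t03_conj
    change (sR).map ι * dMat = dMat * mS
    ext i j
    fin_cases i <;> fin_cases j <;>
      simp [sR, dMat, mS, Matrix.mul_apply, Fin.sum_univ_three]
  have ez : gD⁻¹ * Matrix.GeneralLinearGroup.map ι z' * gD = gZ := by
    apply t03_conj
    change (zR x).map ι * dMat = dMat * mZ
    ext i j
    fin_cases i <;> fin_cases j <;>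
      simp [zR, dMat, mZ, Matrix.mul_apply, Fin.sum_univ_three, hx, mul_comm]
  refine t03_main ι hι φ hφ {a', h', s', z'} ?_ ?_
  · intro g hg
    have h40 : ∀ n : ℕ, (x ^ n) ^ 40 = 1 := by
      intro n
      rw [← pow_mul, mul_comm, pow_mul, hx40, one_pow]
    rcases hg with rfl | rfl | rfl | rfl
    · change (aR x).det ^ 40 = 1
      rw [aR_det, h40]
    · change (hR x).det ^ 40 = 1
      rw [hR_det, neg_pow, h40]
      norm_num
    · change (sR).det ^ 40 = 1
      rw [sR_det]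
      norm_num
    · change (zR x).det ^ 40 = 1
      rw [zR_det, h40]
  · rw [Set.image_insert_eq, Set.image_insert_eq, Set.image_insert_eq, Set.image_singleton,
      ea, eh, es, ez]

end Pool.Agent.YG
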