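import Pool.Agent.YG.Main
import Pool.Agent.YG.L10Summ
import Pool.Agent.YG.L12Chain
import Pool.Agent.YG.L13Far
import Pool.Agent.YG.P08Div
import Pool.Agent.YG.T03TF

/-! # The concrete pair satisfies the hypotheses -/

set_option autoImplicit false

namespace Pool.Agent.YG

theorem exists_hyp : ∃ Γ : Subgroup GL3, Hyp Lam Γ := by
  obtain ⟨Γ, h1, h2, h3⟩ := exists_tf
  exact ⟨Γ, ⟨Lam_le_U, Lam_summable, Lam_quasi, Lam_far, Lam_diverge, h1, h2, h3⟩⟩

end Pool.Agent.YG
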