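import Pool.Agent.YG.Basic

/-!
# YG-G01: positivity on orthogonal complements, decomposition, triangle inequality

Everything is elementary linear algebra for the form
`hf x y = -x0 conj y0 + x1 conj y1 + x2 conj y2` on `C^3`.

* `perp_nonneg`: if `hf z z = -1`, `hf u z = 0` then `hf u u >= 0`.  Proof: `hf z z = -1` gives
  `|z0|^2 = 1 + |z1|^2 + |z2|^2`; `hf u z = 0` gives `u0 conj z0 = u1 conj z1 + u2 conj z2`, so by
  Cauchy-Schwarz `|u0|^2 |z0|^2 <= (|u1|^2+|u2|^2)(|z0|^2-1)`, hence `|u0|^2 <= |u1|^2+|u2|^2`, with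
  equality only if `u = 0` (`perp_pos`).
* `perp_cs`: Cauchy-Schwarz on `z^⊥`: standard from positivity (expand `hf (u - λ v) (u - λ v) >= 0`
  with `λ = hf u v / hf v v` if `hf v v > 0`; if `hf v v = 0` then `v = 0`).
* `dec_*`: `x = -(hf x z) z + x'` with `x' = x + hf x z • z` orthogonal to `z` and
  `hf x' x' = |hf x z|^2 - 1` if `hf x x = hf z z = -1`.
* `one_le_E`: from `dec_norm` and `perp_nonneg`.
* `E_tri`: `hf x y = -(hf x z)(conj (hf y z)) + hf x' y'`, so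
  `E x y <= E x z * E y z + sqrt(E x z^2-1) sqrt(E y z^2-1) <= 2 E x z E z y`.
* `E_eq_one`: if `E x y = 1` then `x' = 0` (with `z := y`), so `x = -(hf x y) • y`.
-/

set_option autoImplicit false

namespace Pool.Agent.YG

open Matrix

private theorem key_ineq (z u : V) (hz : hf z z = -1) (hu : hf u z = 0) :
    ‖z 0‖ ^ 2 = 1 + ‖z 1‖ ^ 2 + ‖z 2‖ ^ 2 ∧
    ‖u 0‖ ^ 2 * ‖z 0‖ ^ 2 ≤ (‖u 1‖ ^ 2 + ‖u 2‖ ^ 2) * (‖z 0‖ ^ 2 - 1) := by
  have h1 : (-‖z 0‖ ^ 2 + ‖z 1‖ ^ 2 + ‖z 2‖ ^ 2 : ℝ) = -1 := by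
    have := hf_self z
    rw [hz] at this
    have h2 : ((-1 : ℝ) : ℂ) = ((-‖z 0‖ ^ 2 + ‖z 1‖ ^ 2 + ‖z 2‖ ^ 2 : ℝ) : ℂ) := by
      rw [← this]; simp
    exact (Complex.ofReal_injective h2).symm
  have h3 : u 0 * (starRingEnd ℂ) (z 0) = u 1 * (starRingEnd ℂ) (z 1) + u 2 * (starRingEnd ℂ) (z 2) := by
    have := hu
    rw [hf] at this
    linear_combination -this
  have h4 : ‖u 0‖ * ‖z 0‖ ≤ ‖u 1‖ * ‖z 1‖ + ‖u 2‖ * ‖z 2‖ := by
    have h5 : ‖u 0 * (starRingEnd ℂ) (z 0)‖ = ‖u 0‖ * ‖z 0‖ := by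
      rw [norm_mul, Complex.norm_conj]
    rw [← h5, h3]
    refine (norm_add_le _ _).trans ?_
    rw [norm_mul, norm_mul, Complex.norm_conj, Complex.norm_conj]
  have h6 : (‖u 0‖ * ‖z 0‖) ^ 2 ≤ (‖u 1‖ * ‖z 1‖ + ‖u 2‖ * ‖z 2‖) ^ 2 :=
    pow_le_pow_left₀ (by positivity) h4 2
  refine ⟨by linarith, ?_⟩
  have h7 : ‖z 0‖ ^ 2 - 1 = ‖z 1‖ ^ 2 + ‖z 2‖ ^ 2 := by linarith
  rw [h7]
  nlinarith [sq_nonneg (‖u 1‖ * ‖z 2‖ - ‖u 2‖ * ‖z 1‖)]

private theorem hf_self_re (u : V) : (hf u u).re = -‖u 0‖ ^ 2 + ‖u 1‖ ^ 2 + ‖u 2‖ ^ 2 := by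
  rw [hf_self, Complex.ofReal_re]

private theorem hf_self_eq (u : V) : hf u u = (((hf u u).re : ℝ) : ℂ) := by
  rw [hf_self_re, hf_self]

private theorem key2 (z u : V) (hz : hf z z = -1) (hu : hf u z = 0) :
    ‖u 1‖ ^ 2 + ‖u 2‖ ^ 2 ≤ (hf u u).re * ‖z 0‖ ^ 2 ∧ 1 ≤ ‖z 0‖ ^ 2 := by
  obtain ⟨h1, h2⟩ := key_ineq z u hz hu
  rw [hf_self_re]
  constructor
  · nlinarith
  · nlinarith [sq_nonneg ‖z 1‖, sq_nonneg ‖z 2‖]

theorem perp_nonneg (z u : V) (hz : hf z z = -1) (hu : hf u z = 0) : 0 ≤ (hf u u).re := by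
  obtain ⟨h1, h2⟩ := key2 z u hz hu
  by_contra h
  push Not at h
  nlinarith [sq_nonneg ‖u 1‖, sq_nonneg ‖u 2‖]

theorem perp_eq_zero (z u : V) (hz : hf z z = -1) (hu : hf u z = 0) (h : (hf u u).re ≤ 0) :
    u = 0 := by
  obtain ⟨h1, h2⟩ := key2 z u hz hu
  have h3 : ‖u 1‖ ^ 2 + ‖u 2‖ ^ 2 ≤ 0 := by nlinarith
  have h4 : ‖u 1‖ ^ 2 = 0 := by nlinarith [sq_nonneg ‖u 1‖, sq_nonneg ‖u 2‖]
  have h5 : ‖u 2‖ ^ 2 = 0 := by nlinarith [sq_nonneg ‖u 1‖, sq_nonneg ‖u 2‖]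
  obtain ⟨-, h7⟩ := key_ineq z u hz hu
  have h6 : ‖u 0‖ ^ 2 = 0 := by
    rw [h4, h5] at h7
    nlinarith [sq_nonneg ‖u 0‖]
  funext i
  fin_cases i
  · simpa using h6
  · simpa using h4
  · simpa using h5

theorem perp_cs (z u v : V) (hz : hf z z = -1) (hu : hf u z = 0) (hv : hf v z = 0) :
    ‖hf u v‖ ^ 2 ≤ (hf u u).re * (hf v v).re := by
  by_cases hr : (hf v v).re ≤ 0
  · have h0 := perp_eq_zero z v hz hv hr
    subst h0
    simp [hf]
  push Not at hr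
  have h1 : hf (hf v v • u - hf u v • v) z = 0 := by
    rw [hf_sub_left, hf_smul_left, hf_smul_left, hu, hv]; simp
  have h2 := perp_nonneg z _ hz h1
  have h3 : hf (hf v v • u - hf u v • v) (hf v v • u - hf u v • v) =
      (((hf v v).re * ((hf u u).re * (hf v v).re - ‖hf u v‖ ^ 2) : ℝ) : ℂ) := by
    rw [hf_sub_left, hf_sub_right, hf_sub_right]
    simp only [hf_smul_left, hf_smul_right]
    have h4 : (((hf v v).re : ℝ) : ℂ) = hf v v := (hf_self_eq v).symm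
    have h5 : (((hf u u).re : ℝ) : ℂ) = hf u u := (hf_self_eq u).symm
    have h6 : ((‖hf u v‖ ^ 2 : ℝ) : ℂ) = hf u v * (starRingEnd ℂ) (hf u v) := by
      rw [Complex.mul_conj, Complex.normSq_eq_norm_sq]
    have h7 : (starRingEnd ℂ) (hf v v) = hf v v := (hf_conj v v).symm
    have h8 : hf v u = (starRingEnd ℂ) (hf u v) := hf_conj u v
    rw [Complex.ofReal_mul, Complex.ofReal_sub, Complex.ofReal_mul, h4, h5, h6, h7, h8]
    ring
  rw [h3, Complex.ofReal_re] at h2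
  have h9 := nonneg_of_mul_nonneg_right h2 hr
  linarith

theorem dec_perp (x z : V) (hz : hf z z = -1) : hf (x + hf x z • z) z = 0 := by
  rw [hf_add_left, hf_smul_left, hz]; ring

theorem dec_inner (x y z : V) (hz : hf z z = -1) :
    hf x y = -(hf x z * (starRingEnd ℂ) (hf y z)) + hf (x + hf x z • z) (y + hf y z • z) := by
  rw [hf_add_left, hf_add_right, hf_add_right]
  simp only [hf_smul_left, hf_smul_right]
  rw [hz, hf_conj y z]
  ring

theorem dec_norm (x z : V) (hx : hf x x = -1) (hz : hf z z = -1) :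
    hf (x + hf x z • z) (x + hf x z • z) = ((E x z ^ 2 - 1 : ℝ) : ℂ) := by
  have h1 := dec_inner x x z hz
  have h6 : ((E x z ^ 2 : ℝ) : ℂ) = hf x z * (starRingEnd ℂ) (hf x z) := by
    rw [Complex.mul_conj, Complex.normSq_eq_norm_sq, E]
  rw [Complex.ofReal_sub, h6, Complex.ofReal_one]
  rw [hx] at h1
  linear_combination -h1

theorem one_le_E (x y : V) (hx : hf x x = -1) (hy : hf y y = -1) : 1 ≤ E x y := by
  have h1 := perp_nonneg y _ hy (dec_perp x y hy)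
  rw [dec_norm x y hx hy, Complex.ofReal_re] at h1
  nlinarith [E_nonneg x y]

theorem E_tri (x y z : V) (hx : hf x x = -1) (hy : hf y y = -1) (hz : hf z z = -1) :
    E x y ≤ 2 * E x z * E z y := by
  have h1 := dec_inner x y z hz
  have h2 := perp_cs z _ _ hz (dec_perp x z hz) (dec_perp y z hz)
  rw [dec_norm x z hx hz, dec_norm y z hy hz, Complex.ofReal_re, Complex.ofReal_re] at h2
  have h3 : ‖hf (x + hf x z • z) (y + hf y z • z)‖ ≤ E x z * E z y := by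
    rw [E_symm z y]
    refine le_of_sq_le_sq ?_ (mul_nonneg (E_nonneg _ _) (E_nonneg _ _))
    have h4 := one_le_E x z hx hz
    have h5 := one_le_E y z hy hz
    nlinarith [sq_nonneg (E x z), sq_nonneg (E y z)]
  have h4 : E x y ≤ E x z * E z y + ‖hf (x + hf x z • z) (y + hf y z • z)‖ := by
    rw [E, h1]
    refine (norm_add_le _ _).trans ?_
    rw [norm_neg, norm_mul, Complex.norm_conj]
    rw [E_symm z y]
    exact le_refl _
  linarith

theorem E_eq_one (x y : V) (hx : hf x x = -1) (hy : hf y y = -1) (h : E x y = 1) :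
    ∃ t : ℂ, ‖t‖ = 1 ∧ x = t • y := by
  have h1 : x + hf x y • y = 0 := by
    apply perp_eq_zero y _ hy (dec_perp x y hy)
    rw [dec_norm x y hx hy, Complex.ofReal_re, h]
    norm_num
  refine ⟨-hf x y, ?_, ?_⟩
  · rw [norm_neg]; exact h
  · rw [neg_smul]
    exact eq_neg_of_add_eq_zero_left h1

theorem E_self (x : V) (hx : hf x x = -1) : E x x = 1 := by
  rw [E, hx]; simp

end Pool.Agent.YG
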