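import Pool.Agent.YG.BDefs
import Pool.Agent.YG.G01Pos

/-!
# YG-B01: dictionary between the ball and unit negative vectors

* `lft_unit`: `hf (emb z) (emb z) = -(1 - |z|^2)`.
* `E_lft`: `hf (emb z) (emb w) = -(1 - inner ℂ w z)`, `inner ℂ w z = z 0 conj (w 0) + z 1 conj (w 1)`
  and `inner ℂ z w` is its conjugate.
* `prj_*`: for unit negative `x`: `|x 0|^2 = 1 + |x 1|^2 + |x 2|^2`, so `x 0 ≠ 0`, `|prj x|^2 < 1`,
  `emb (prj x) = (x 0)⁻¹ • x`, `lft (prj x) = t • x` with `t = (x 0)⁻¹ / sqrt(1-|prj x|^2)`, `|t| = 1`.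
* `lft_bfun`: for `A ∈ U` and `‖z‖ < 1`: `bfun A z = prj (act A (emb z)) = prj (act A (lft z))`
  (`prj (c • x) = prj x` for `c ≠ 0`), and `act A (lft z)` is unit negative.
-/

set_option autoImplicit false

namespace Pool.Agent.YG

open Matrix

private theorem hf_emb (z w : B2) : hf (emb z) (emb w) = -(1 - inner ℂ w z) := by
  simp only [hf, emb, PiLp.inner_apply, Fin.sum_univ_two]
  simp
  ring

private theorem hf_emb_self (z : B2) : hf (emb z) (emb z) = ((-(1 - ‖z‖ ^ 2) : ℝ) : ℂ) := by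
  rw [hf_self, norm_sq_B2]
  congr 1
  simp [emb]
  ring

private theorem one_sub_pos (z : B2) (hz : ‖z‖ < 1) : 0 < 1 - ‖z‖ ^ 2 := by
  nlinarith [norm_nonneg z]

private theorem hf_real_smul (a b : ℝ) (x y : V) :
    hf ((a : ℂ) • x) ((b : ℂ) • y) = ((a * b : ℝ) : ℂ) * hf x y := by
  rw [hf_smul_left, hf_smul_right, Complex.conj_ofReal, Complex.ofReal_mul]; ring

theorem lft_unit (z : B2) (hz : ‖z‖ < 1) : hf (lft z) (lft z) = -1 := by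
  have h0 := one_sub_pos z hz
  have h1 : Real.sqrt (1 - ‖z‖ ^ 2) * Real.sqrt (1 - ‖z‖ ^ 2) = 1 - ‖z‖ ^ 2 :=
    Real.mul_self_sqrt h0.le
  have h2 : 0 < Real.sqrt (1 - ‖z‖ ^ 2) := Real.sqrt_pos.mpr h0
  rw [lft, hf_real_smul, hf_emb_self, ← Complex.ofReal_mul]
  have h3 : 1 / Real.sqrt (1 - ‖z‖ ^ 2) * (1 / Real.sqrt (1 - ‖z‖ ^ 2)) * -(1 - ‖z‖ ^ 2) = -1 := by
    rw [div_mul_div_comm, h1]
    field_simp
  rw [h3]; simp

theorem E_lft (z w : B2) (hz : ‖z‖ < 1) (hw : ‖w‖ < 1) :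
    E (lft z) (lft w) = ‖(1 : ℂ) - inner ℂ z w‖ / Real.sqrt ((1 - ‖z‖ ^ 2) * (1 - ‖w‖ ^ 2)) := by
  have h0 := one_sub_pos z hz
  have h0' := one_sub_pos w hw
  rw [E_symm, E, lft, lft, hf_real_smul, hf_emb, norm_mul, norm_neg, Complex.norm_real,
    Real.norm_eq_abs, Real.sqrt_mul h0.le]
  have h2 : 0 < Real.sqrt (1 - ‖z‖ ^ 2) := Real.sqrt_pos.mpr h0
  have h3 : 0 < Real.sqrt (1 - ‖w‖ ^ 2) := Real.sqrt_pos.mpr h0'
  rw [abs_of_pos (by positivity)]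
  field_simp

theorem lft_zero : lft 0 = e0 := by
  unfold lft emb e0
  simp

private theorem unit_norm (x : V) (hx : hf x x = -1) : ‖x 0‖ ^ 2 = 1 + ‖x 1‖ ^ 2 + ‖x 2‖ ^ 2 := by
  have h := hf_self x
  rw [hx] at h
  have h2 : ((-1 : ℝ) : ℂ) = ((-‖x 0‖ ^ 2 + ‖x 1‖ ^ 2 + ‖x 2‖ ^ 2 : ℝ) : ℂ) := by
    rw [← h]; simp
  have := Complex.ofReal_injective h2
  linarith

theorem unit_ne_zero (x : V) (hx : hf x x = -1) : x 0 ≠ 0 := by
  intro h
  have := unit_norm x hx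
  rw [h] at this
  simp at this
  nlinarith [sq_nonneg ‖x 1‖, sq_nonneg ‖x 2‖]

private theorem prj_norm_sq (x : V) (hx : hf x x = -1) : ‖prj x‖ ^ 2 = 1 - 1 / ‖x 0‖ ^ 2 := by
  have h0 : ‖x 0‖ ≠ 0 := norm_ne_zero_iff.mpr (unit_ne_zero x hx)
  have h1 := unit_norm x hx
  rw [norm_sq_B2]
  have h2 : (prj x) 0 = x 1 / x 0 := rfl
  have h3 : (prj x) 1 = x 2 / x 0 := rfl
  rw [h2, h3, norm_div, norm_div]
  field_simp
  linarith

theorem prj_norm (x : V) (hx : hf x x = -1) : ‖prj x‖ < 1 := by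
  have h0 : 0 < ‖x 0‖ := norm_pos_iff.mpr (unit_ne_zero x hx)
  have h1 := prj_norm_sq x hx
  have h2 : 0 < 1 / ‖x 0‖ ^ 2 := by positivity
  nlinarith [norm_nonneg (prj x)]

theorem prj_smul (c : ℂ) (hc : c ≠ 0) (x : V) : prj (c • x) = prj x := by
  unfold prj
  simp only [Pi.smul_apply, smul_eq_mul]
  rw [mul_div_mul_left _ _ hc, mul_div_mul_left _ _ hc]

theorem prj_emb (z : B2) : prj (emb z) = z := by
  ext i
  fin_cases i <;> simp [prj, emb]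

private theorem emb_prj (x : V) (h : x 0 ≠ 0) : emb (prj x) = (x 0)⁻¹ • x := by
  funext i
  fin_cases i
  · simp [prj, emb, h]
  · simp [prj, emb, div_eq_inv_mul]
  · simp [prj, emb, div_eq_inv_mul]

theorem lft_prj (x : V) (hx : hf x x = -1) : ∃ t : ℂ, ‖t‖ = 1 ∧ lft (prj x) = t • x := by
  have h0 := unit_ne_zero x hx
  have h1 : 0 < ‖x 0‖ := norm_pos_iff.mpr h0
  refine ⟨((1 / Real.sqrt (1 - ‖prj x‖ ^ 2) : ℝ) : ℂ) * (x 0)⁻¹, ?_, ?_⟩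
  · have h2 : 1 - ‖prj x‖ ^ 2 = (1 / ‖x 0‖) ^ 2 := by
      rw [prj_norm_sq x hx]; field_simp; ring
    rw [h2, Real.sqrt_sq (by positivity), norm_mul, Complex.norm_real, norm_inv]
    simp
    field_simp
  · rw [lft, emb_prj x h0, smul_smul]

/-- `E` of points of the ball determines the norm: `E (lft z) e0 = 1 / sqrt(1-|z|^2)` -/
theorem E_lft_e0 (z : B2) (hz : ‖z‖ < 1) : E (lft z) e0 = 1 / Real.sqrt (1 - ‖z‖ ^ 2) := by
  rw [← lft_zero, E_lft z 0 hz (by simp)]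
  simp

private theorem bfun_eq (A : GL3) (z : B2) (hz : ‖z‖ < 1) : bfun A z = prj (act A (lft z)) := by
  rw [bfun_of_lt A z hz, lft, act_smul, prj_smul]
  have h2 : 0 < Real.sqrt (1 - ‖z‖ ^ 2) := Real.sqrt_pos.mpr (one_sub_pos z hz)
  have h3 : (1 / Real.sqrt (1 - ‖z‖ ^ 2) : ℝ) ≠ 0 := by positivity
  exact_mod_cast h3

private theorem act_unit (A : GL3) (hA : A ∈ U) (z : B2) (hz : ‖z‖ < 1) :
    hf (act A (lft z)) (act A (lft z)) = -1 := by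
  rw [hf_act hA, lft_unit z hz]

theorem bfun_norm (A : GL3) (hA : A ∈ U) (z : B2) (hz : ‖z‖ < 1) : ‖bfun A z‖ < 1 := by
  rw [bfun_eq A z hz]
  exact prj_norm _ (act_unit A hA z hz)

theorem lft_bfun (A : GL3) (hA : A ∈ U) (z : B2) (hz : ‖z‖ < 1) :
    ∃ t : ℂ, ‖t‖ = 1 ∧ lft (bfun A z) = t • act A (lft z) := by
  rw [bfun_eq A z hz]
  exact lft_prj _ (act_unit A hA z hz)

end Pool.Agent.YG
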