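import Pool.Agent.YG.B01Ball

/-!
# YG-B02: the homomorphism `bact : U →* Perm B2`

`bfun (A*B) z = bfun A (bfun B z)` (`A, B ∈ U`): outside the ball both sides are `z`; inside,
`emb (prj y) = (y 0)⁻¹ • y` for `y = act B (emb z)` (`y 0 ≠ 0` because `hf y y = hf (emb z)(emb z) < 0`) and `prj`
ignores scalars. `bfun 1 z = z`. So `bact A = ⟨bfun A, bfun A⁻¹, ..⟩`.
* `bfun_differentiable`: coordinates are quotients of affine maps with non-vanishing denominator on the
  ball.
* `bfun_trivial`: if `bfun A z = z` for all `z` in the ball then `act A (emb z) = λ(z) • emb z`; apply to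
  `z = 0, (1/2,0), (0,1/2), (1/4,1/4)`-type points to see that `A = μ • 1` (or: `λ(z) = A00 + A01 z0 + A02 z1` and
  `A10 + A11 z0 + A12 z1 = z0 λ(z)` for all small `z`, compare coefficients).
-/

set_option autoImplicit false

namespace Pool.Agent.YG

open Matrix

private theorem lft_eq (z : B2) (hz : ‖z‖ < 1) : ∃ c : ℂ, c ≠ 0 ∧ lft z = c • emb z := by
  refine ⟨((1 / Real.sqrt (1 - ‖z‖ ^ 2) : ℝ) : ℂ), ?_, rfl⟩
  have h0 : 0 ≤ ‖z‖ := norm_nonneg z
  have h1 : 0 < 1 - ‖z‖ ^ 2 := by nlinarith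
  have h2 : 0 < Real.sqrt (1 - ‖z‖ ^ 2) := Real.sqrt_pos.mpr h1
  have h3 : (1 / Real.sqrt (1 - ‖z‖ ^ 2) : ℝ) ≠ 0 := by positivity
  exact_mod_cast h3

private theorem bfun_lft (A : GL3) (z : B2) (hz : ‖z‖ < 1) : bfun A z = prj (act A (lft z)) := by
  obtain ⟨c, hc, h⟩ := lft_eq z hz
  rw [bfun_of_lt A z hz, h, act_smul, prj_smul c hc]

private theorem act_lft_unit (A : GL3) (hA : A ∈ U) (z : B2) (hz : ‖z‖ < 1) :
    hf (act A (lft z)) (act A (lft z)) = -1 := by
  rw [hf_act hA, lft_unit z hz]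

private theorem den_ne (A : GL3) (hA : A ∈ U) (z : B2) (hz : ‖z‖ < 1) :
    act A (emb z) 0 ≠ 0 := by
  obtain ⟨c, hc, h⟩ := lft_eq z hz
  have h1 := unit_ne_zero _ (act_lft_unit A hA z hz)
  rw [h, act_smul] at h1
  intro h2
  apply h1
  simp [h2]

private theorem bfun_mul (A B : GL3) (_hA : A ∈ U) (hB : B ∈ U) (z : B2) :
    bfun (A * B) z = bfun A (bfun B z) := by
  by_cases hz : ‖z‖ < 1
  · have hn := bfun_norm B hB z hz
    obtain ⟨t, ht, h⟩ := lft_bfun B hB z hz
    have ht0 : t ≠ 0 := by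
      intro h0
      rw [h0] at ht
      simp at ht
    rw [bfun_lft A _ hn, h, act_smul, prj_smul t ht0, bfun_lft (A * B) z hz, act_mul]
  · rw [bfun_of_not_lt B z hz, bfun_of_not_lt A z hz, bfun_of_not_lt _ z hz]

private theorem bfun_one (z : B2) : bfun 1 z = z := by
  by_cases hz : ‖z‖ < 1
  · rw [bfun_of_lt 1 z hz, act_one, prj_emb]
  · rw [bfun_of_not_lt _ z hz]

theorem exists_bact : ∃ bact : U →* Equiv.Perm B2, ∀ (A : U) (z : B2), bact A z = bfun (A : GL3) z := by
  have hl : ∀ A : U, Function.LeftInverse (bfun ((A : GL3)⁻¹)) (bfun (A : GL3)) := by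
    intro A z
    rw [← bfun_mul _ _ (U.inv_mem A.2) A.2, inv_mul_cancel, bfun_one]
  have hr : ∀ A : U, Function.RightInverse (bfun ((A : GL3)⁻¹)) (bfun (A : GL3)) := by
    intro A z
    rw [← bfun_mul _ _ A.2 (U.inv_mem A.2), mul_inv_cancel, bfun_one]
  let f : U → Equiv.Perm B2 := fun A => ⟨bfun (A : GL3), bfun ((A : GL3)⁻¹), hl A, hr A⟩
  refine ⟨MonoidHom.mk' f ?_, ?_⟩
  · intro A B
    ext1 z
    exact bfun_mul (A : GL3) (B : GL3) A.2 B.2 z
  · intro A z
    rfl

private theorem act_emb (A : GL3) (z : B2) (i : Fin 3) :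
    act A (emb z) i = (A : M3) i 0 + (A : M3) i 1 * z 0 + (A : M3) i 2 * z 1 := by
  simp [act, emb, Matrix.mulVec, dotProduct, Fin.sum_univ_three]

theorem bfun_differentiable (A : GL3) (hA : A ∈ U) :
    DifferentiableOn ℂ (bfun A) (Metric.ball (0 : B2) 1) := by
  have hb : ∀ z ∈ Metric.ball (0 : B2) 1, ‖z‖ < 1 := by
    intro z hz
    simpa using hz
  have hd : ∀ i : Fin 3, DifferentiableOn ℂ (fun z : B2 => act A (emb z) i) (Metric.ball (0 : B2) 1) := by
    intro i
    have h0 : Differentiable ℂ (fun z : B2 => z 0) := by fun_prop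
    have h1 : Differentiable ℂ (fun z : B2 => z 1) := by fun_prop
    have h2 : (fun z : B2 => act A (emb z) i) =
        fun z : B2 => (A : M3) i 0 + (A : M3) i 1 * z 0 + (A : M3) i 2 * z 1 := by
      funext z
      exact act_emb A z i
    rw [h2]
    exact (((differentiable_const _).add ((differentiable_const _).mul h0)).add
      ((differentiable_const _).mul h1)).differentiableOn
  have key : DifferentiableOn ℂ (fun z : B2 => prj (act A (emb z))) (Metric.ball (0 : B2) 1) := by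
    have hi : DifferentiableOn ℂ (fun z : B2 => (act A (emb z) 0)⁻¹) (Metric.ball (0 : B2) 1) :=
      (hd 0).fun_inv (fun z hz => den_ne A hA z (hb z hz))
    rw [differentiableOn_euclidean]
    intro i
    fin_cases i
    · have h1 : (fun z : B2 => prj (act A (emb z)) 0) =
          fun z : B2 => act A (emb z) 1 * (act A (emb z) 0)⁻¹ := by
        funext z
        simp [prj, div_eq_mul_inv]
      change DifferentiableOn ℂ (fun z : B2 => prj (act A (emb z)) 0) (Metric.ball (0 : B2) 1)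
      rw [h1]
      exact (hd 1).mul hi
    · have h1 : (fun z : B2 => prj (act A (emb z)) 1) =
          fun z : B2 => act A (emb z) 2 * (act A (emb z) 0)⁻¹ := by
        funext z
        simp [prj, div_eq_mul_inv]
      change DifferentiableOn ℂ (fun z : B2 => prj (act A (emb z)) 1) (Metric.ball (0 : B2) 1)
      rw [h1]
      exact (hd 2).mul hi
  exact key.congr (fun z hz => bfun_of_lt A z (hb z hz))

private theorem triv_aux (A : GL3) (hA : A ∈ U) (h : ∀ z : B2, ‖z‖ < 1 → bfun A z = z) (a b : ℂ)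
    (hab : ‖a‖ ^ 2 + ‖b‖ ^ 2 < 1) :
    (A : M3) 1 0 + (A : M3) 1 1 * a + (A : M3) 1 2 * b
      = a * ((A : M3) 0 0 + (A : M3) 0 1 * a + (A : M3) 0 2 * b) ∧
    (A : M3) 2 0 + (A : M3) 2 1 * a + (A : M3) 2 2 * b
      = b * ((A : M3) 0 0 + (A : M3) 0 1 * a + (A : M3) 0 2 * b) := by
  let z : B2 := !₂[a, b]
  have z0 : z 0 = a := rfl
  have z1 : z 1 = b := rfl
  have hz : ‖z‖ < 1 := by
    have h1 : ‖z‖ ^ 2 < 1 := by rw [norm_sq_B2, z0, z1]; exact hab
    nlinarith [norm_nonneg z]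
  have h1 := h z hz
  rw [bfun_of_lt A z hz] at h1
  have hd := den_ne A hA z hz
  have e1 : act A (emb z) 1 / act A (emb z) 0 = a := by
    have := congrArg (fun w : B2 => w 0) h1
    simpa [prj, z0] using this
  have e2 : act A (emb z) 2 / act A (emb z) 0 = b := by
    have := congrArg (fun w : B2 => w 1) h1
    simpa [prj, z1] using this
  rw [div_eq_iff hd] at e1 e2
  rw [act_emb, act_emb, z0, z1] at e1 e2
  exact ⟨e1, e2⟩

theorem bfun_trivial (A : GL3) (hA : A ∈ U) (h : ∀ z : B2, ‖z‖ < 1 → bfun A z = z) :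
    ∃ μ : ℂ, (A : M3) = μ • (1 : M3) := by
  obtain ⟨p1, p2⟩ := triv_aux A hA h 0 0 (by norm_num)
  obtain ⟨q1, q2⟩ := triv_aux A hA h (1 / 2) 0 (by norm_num)
  obtain ⟨r1, r2⟩ := triv_aux A hA h (-(1 / 2)) 0 (by norm_num)
  obtain ⟨s1, s2⟩ := triv_aux A hA h 0 (1 / 2) (by norm_num)
  obtain ⟨t1, t2⟩ := triv_aux A hA h 0 (-(1 / 2)) (by norm_num)
  have a10 : (A : M3) 1 0 = 0 := by linear_combination p1
  have a20 : (A : M3) 2 0 = 0 := by linear_combination p2
  have a21 : (A : M3) 2 1 = 0 := by linear_combination 2 * q2 - 2 * p2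
  have a12 : (A : M3) 1 2 = 0 := by linear_combination 2 * s1 - 2 * p1
  have a01 : (A : M3) 0 1 = 0 := by linear_combination 4 * p1 - 2 * q1 - 2 * r1
  have a11 : (A : M3) 1 1 = (A : M3) 0 0 := by linear_combination q1 - r1
  have a02 : (A : M3) 0 2 = 0 := by linear_combination 4 * p2 - 2 * s2 - 2 * t2
  have a22 : (A : M3) 2 2 = (A : M3) 0 0 := by linear_combination s2 - t2
  refine ⟨(A : M3) 0 0, ?_⟩
  ext i j
  fin_cases i <;> fin_cases j <;> simp [a10, a20, a21, a12, a01, a11, a02, a22]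

end Pool.Agent.YG
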