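import Mathlib

/-!
# YG-B03: `d = log (c + sqrt(c^2-1))`, real variable facts

`f c = Real.log (c + Real.sqrt (c^2-1))` for `c ≥ 1`: `f c ≥ 0`, `cosh (f c) = c`
(`exp (f c) = c + sqrt(c^2-1)`, `exp (-f c) = c - sqrt(c^2-1)`), `sinh (f c) = sqrt(c^2-1)`.
* `dist_add`: if `f a + f b = f c` then `c = cosh (f a + f b) = a b + sqrt(a^2-1) sqrt(b^2-1)`.
* `dist_le`: `f c ≤ R → c ≤ cosh R`. (`c = cosh (f c)`, `0 ≤ f c ≤ R`.)
* `exp_dist`: for `s > 0`: `exp (-(s f c)) ≥ (2c)^(-s)` since `f c ≤ log (2c)`.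
-/

set_option autoImplicit false

namespace Pool.Agent.YG

private theorem b03_sq (a : ℝ) (ha : 1 ≤ a) :
    0 ≤ Real.sqrt (a ^ 2 - 1) ∧ Real.sqrt (a ^ 2 - 1) * Real.sqrt (a ^ 2 - 1) = a ^ 2 - 1 :=
  ⟨Real.sqrt_nonneg _, Real.mul_self_sqrt (by nlinarith)⟩

theorem dist_add (a b c : ℝ) (ha : 1 ≤ a) (hb : 1 ≤ b) (hc : 1 ≤ c)
    (h : Real.log (a + Real.sqrt (a ^ 2 - 1)) + Real.log (b + Real.sqrt (b ^ 2 - 1)) =
      Real.log (c + Real.sqrt (c ^ 2 - 1))) :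
    c = a * b + Real.sqrt (a ^ 2 - 1) * Real.sqrt (b ^ 2 - 1) := by
  obtain ⟨a1, a2⟩ := b03_sq a ha
  obtain ⟨b1, b2⟩ := b03_sq b hb
  obtain ⟨c1, c2⟩ := b03_sq c hc
  set x := Real.sqrt (a ^ 2 - 1) with hx
  set y := Real.sqrt (b ^ 2 - 1) with hy
  set z := Real.sqrt (c ^ 2 - 1) with hz
  have hax : 0 < a + x := by linarith
  have hby : 0 < b + y := by linarith
  have hcz : 0 < c + z := by linarith
  rw [← Real.log_mul hax.ne' hby.ne'] at h
  have h1 : (a + x) * (b + y) = c + z :=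
    Real.log_injOn_pos (Set.mem_Ioi.mpr (mul_pos hax hby)) (Set.mem_Ioi.mpr hcz) h
  have e1 : (a + x) * (a - x) = 1 := by linear_combination -a2
  have e2 : (b + y) * (b - y) = 1 := by linear_combination -b2
  have e3 : (c + z) * (c - z) = 1 := by linear_combination -c2
  have h2 : (a - x) * (b - y) = c - z := by
    apply mul_left_cancel₀ hcz.ne'
    rw [e3, ← h1]
    linear_combination (b + y) * (b - y) * e1 + e2
  linear_combination -(h1 + h2) / 2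

theorem dist_le (c R : ℝ) (hc : 1 ≤ c) (h : Real.log (c + Real.sqrt (c ^ 2 - 1)) ≤ R) :
    c ≤ Real.cosh R := by
  obtain ⟨c1, c2⟩ := b03_sq c hc
  have hcz : 0 < c + Real.sqrt (c ^ 2 - 1) := by linarith
  have h0 : 0 ≤ Real.log (c + Real.sqrt (c ^ 2 - 1)) := Real.log_nonneg (by linarith)
  have h1 : Real.cosh (Real.log (c + Real.sqrt (c ^ 2 - 1))) = c := by
    rw [Real.cosh_eq, Real.exp_neg, Real.exp_log hcz]
    have h2 : (c + Real.sqrt (c ^ 2 - 1))⁻¹ = c - Real.sqrt (c ^ 2 - 1) := by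
      apply inv_eq_of_mul_eq_one_right
      linear_combination -c2
    rw [h2]
    ring
  calc c = Real.cosh (Real.log (c + Real.sqrt (c ^ 2 - 1))) := h1.symm
    _ ≤ Real.cosh R := by
      rw [Real.cosh_le_cosh, abs_of_nonneg h0, abs_of_nonneg (h0.trans h)]
      exact h

theorem exp_dist (c s : ℝ) (hc : 1 ≤ c) (hs : 0 < s) :
    (2 * c) ^ (-s) ≤ Real.exp (-(s * Real.log (c + Real.sqrt (c ^ 2 - 1)))) := by
  obtain ⟨c1, c2⟩ := b03_sq c hc
  have hcz : 0 < c + Real.sqrt (c ^ 2 - 1) := by linarith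
  have h1 : c + Real.sqrt (c ^ 2 - 1) ≤ 2 * c := by nlinarith
  have h2 : (2 * c) ^ (-s) ≤ (c + Real.sqrt (c ^ 2 - 1)) ^ (-s) :=
    Real.rpow_le_rpow_of_nonpos hcz h1 (by linarith)
  refine h2.trans (le_of_eq ?_)
  rw [Real.rpow_def_of_pos hcz]
  congr 1
  ring

end Pool.Agent.YG
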