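import Pool.Agent.YG.Basic

/-! The ball model: definitions. -/

set_option autoImplicit false

namespace Pool.Agent.YG

open Matrix

noncomputable section

abbrev B2 := EuclideanSpace ℂ (Fin 2)

/-- homogeneous coordinates of a point of the ball -/
def emb (z : B2) : V := ![1, z 0, z 1]

/-- the affine point of a vector -/
def prj (x : V) : B2 := !₂[x 1 / x 0, x 2 / x 0]

/-- the action of a matrix on the ball (identity outside the ball) -/
def bfun (A : GL3) (z : B2) : B2 := by
  classical exact if ‖z‖ < 1 then prj (act A (emb z)) else z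

/-- unit negative vector over a point of the ball -/
def lft (z : B2) : V := ((1 / Real.sqrt (1 - ‖z‖ ^ 2) : ℝ) : ℂ) • emb z

theorem bfun_of_lt (A : GL3) (z : B2) (hz : ‖z‖ < 1) : bfun A z = prj (act A (emb z)) := by
  classical
  unfold bfun
  rw [if_pos hz]

theorem bfun_of_not_lt (A : GL3) (z : B2) (hz : ¬ ‖z‖ < 1) : bfun A z = z := by
  classical
  unfold bfun
  rw [if_neg hz]

theorem norm_sq_B2 (z : B2) : ‖z‖ ^ 2 = ‖z 0‖ ^ 2 + ‖z 1‖ ^ 2 := by
  rw [EuclideanSpace.norm_sq_eq]; simp [Fin.sum_univ_two]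

end

end Pool.Agent.YG
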