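import Pool.Agent.YG.Defs

/-! Basic algebra of the Hermitian form. -/

set_option autoImplicit false

namespace Pool.Agent.YG

open Matrix

theorem hf_add_left (x y z : V) : hf (x + y) z = hf x z + hf y z := by
  simp [hf]; ring

theorem hf_add_right (x y z : V) : hf x (y + z) = hf x y + hf x z := by
  simp [hf]; ring

theorem hf_sub_left (x y z : V) : hf (x - y) z = hf x z - hf y z := by
  simp [hf]; ring

theorem hf_sub_right (x y z : V) : hf x (y - z) = hf x y - hf x z := by
  simp [hf]; ring

theorem hf_smul_left (t : ℂ) (x y : V) : hf (t • x) y = t * hf x y := by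
  simp [hf]; ring

theorem hf_smul_right (t : ℂ) (x y : V) : hf x (t • y) = (starRingEnd ℂ) t * hf x y := by
  simp [hf]; ring

theorem hf_neg_left (x y : V) : hf (-x) y = -hf x y := by
  simp [hf]; ring

theorem hf_neg_right (x y : V) : hf x (-y) = -hf x y := by
  simp [hf]; ring

theorem hf_conj (x y : V) : hf y x = (starRingEnd ℂ) (hf x y) := by
  simp [hf]; ring

theorem hf_self (x : V) : hf x x = ((-‖x 0‖ ^ 2 + ‖x 1‖ ^ 2 + ‖x 2‖ ^ 2 : ℝ) : ℂ) := by
  simp only [hf, Complex.mul_conj, Complex.normSq_eq_norm_sq]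
  push_cast; ring

theorem E_symm (x y : V) : E x y = E y x := by
  rw [E, E, hf_conj x y, Complex.norm_conj]

theorem E_nonneg (x y : V) : 0 ≤ E x y := norm_nonneg _

theorem E_smul_left (t : ℂ) (x y : V) : E (t • x) y = ‖t‖ * E x y := by
  rw [E, hf_smul_left, norm_mul, E]

theorem E_smul_right (t : ℂ) (x y : V) : E x (t • y) = ‖t‖ * E x y := by
  rw [E, hf_smul_right, norm_mul, Complex.norm_conj, E]

theorem hf_act_e0 {A : GL3} (hA : A ∈ U) : hf (act A e0) (act A e0) = -1 := by
  rw [hf_act hA, hf_e0]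

/-- the point at parameter `t` on the geodesic through `z` in direction `u` -/
noncomputable def geo (z u : V) (t : ℝ) : V := ((Real.cosh t : ℝ) : ℂ) • z + ((Real.sinh t : ℝ) : ℂ) • u

end Pool.Agent.YG
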