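import Pool.Agent.YG.CDefs
import Pool.Agent.YG.B03Dist

/-!
# YG-C01: the easy properties of the permutation group `GP Γ`

* `gp_maps`: `bfun_norm`, `bfun_differentiable`.
* `gp_faithful`: elements of `GP Γ` are the identity off the ball.
* `bact_inj`: for `A, B ∈ Γ` with `bact A = bact B`: `bact (A⁻¹ B) = 1`, so `A⁻¹ B = μ • 1`
  (`bfun_trivial`), so `A⁻¹ B = 1` by `htf` with `k = 1`.
* `gp_tf`: `bact A ^ k = bact (A^k) = 1` implies `A^k = μ • 1`, so `A = 1`.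
* `gp_disc`: `c 0 (γ 0) = ‖A 0 0‖` for `γ = bact A` (`c 0 w = E (lft 0) (lft w)`, `lft_zero`, `lft_bfun`, `E_e0_act`).
  If `d ≤ R` then `‖A 0 0‖ ≤ cosh R` (`dist_le`); the set of `A ∈ Γ` with `‖A 0 0‖ ≤ cosh R` is finite by
  `hS1` (a summable family has only finitely many terms `≥ (1/cosh R)^κ`:
  `Summable.tendsto_cofinite_zero`), and the set of `γ` is contained in its image.
-/

set_option autoImplicit false

namespace Pool.Agent.YG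

open Matrix

theorem gp_maps (Λ Γ : Subgroup GL3) (h : Hyp Λ Γ) : ∀ γ ∈ GP Γ,
    Set.MapsTo (⇑γ) (Metric.ball (0 : B2) 1) (Metric.ball (0 : B2) 1) ∧
      DifferentiableOn ℂ (⇑γ) (Metric.ball (0 : B2) 1) := by
  intro γ hγ
  obtain ⟨A, hA, rfl⟩ := (mem_GP Γ h.hΓU γ).mp hγ
  have hfun : (⇑(bact ⟨A, h.hΓU hA⟩) : B2 → B2) = bfun A := by
    funext z; exact bact_apply ⟨A, h.hΓU hA⟩ z
  rw [hfun]
  refine ⟨?_, bfun_differentiable A (h.hΓU hA)⟩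
  intro z hz
  rw [mem_ball_zero_iff] at hz ⊢
  exact bfun_norm A (h.hΓU hA) z hz

theorem gp_faithful (Λ Γ : Subgroup GL3) (h : Hyp Λ Γ) : ∀ γ ∈ GP Γ,
    (∀ z ∈ Metric.ball (0 : B2) 1, γ z = z) → γ = 1 := by
  intro γ hγ hz
  obtain ⟨A, hA, rfl⟩ := (mem_GP Γ h.hΓU γ).mp hγ
  apply Equiv.ext
  intro z
  by_cases hlt : ‖z‖ < 1
  · exact hz z (by rw [mem_ball_zero_iff]; exact hlt)
  · rw [bact_apply, bfun_of_not_lt _ _ hlt]; rfl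

private theorem scalar_of_bact (A : U) (h : bact A = 1) : ∃ μ : ℂ, ((A : GL3) : M3) = μ • (1 : M3) := by
  apply bfun_trivial (A : GL3) A.2
  intro z _
  rw [← bact_apply, h]; rfl

theorem bact_inj (Λ Γ : Subgroup GL3) (h : Hyp Λ Γ) (A B : GL3) (hA : A ∈ Γ) (hB : B ∈ Γ)
    (hAB : bact ⟨A, h.hΓU hA⟩ = bact ⟨B, h.hΓU hB⟩) : A = B := by
  have h1 : bact ((⟨A, h.hΓU hA⟩ : U)⁻¹ * ⟨B, h.hΓU hB⟩) = 1 := by
    rw [map_mul, map_inv, hAB, inv_mul_cancel]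
  obtain ⟨μ, hμ⟩ := scalar_of_bact _ h1
  have h2 : (((A⁻¹ * B) ^ 1 : GL3) : M3) = μ • (1 : M3) := by
    rw [pow_one]; exact hμ
  have h3 := h.htf (A⁻¹ * B) (Γ.mul_mem (Γ.inv_mem hA) hB) 1 one_pos μ h2
  exact inv_mul_eq_one.mp h3

theorem gp_tf (Λ Γ : Subgroup GL3) (h : Hyp Λ Γ) : ∀ γ ∈ GP Γ, ∀ k : ℕ, 0 < k → γ ^ k = 1 → γ = 1 := by
  intro γ hγ k hk hγk
  obtain ⟨A, hA, rfl⟩ := (mem_GP Γ h.hΓU γ).mp hγ
  rw [← map_pow] at hγk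
  obtain ⟨μ, hμ⟩ := scalar_of_bact _ hγk
  have h3 := h.htf A hA k hk μ hμ
  subst h3
  exact map_one bact

theorem c_bact (A : U) :
    ‖(1 : ℂ) - inner ℂ (0 : B2) (bact A 0)‖ / Real.sqrt ((1 - ‖(0 : B2)‖ ^ 2) * (1 - ‖bact A 0‖ ^ 2)) =
      ‖((A : GL3) : M3) 0 0‖ := by
  have h0 : ‖(0 : B2)‖ < 1 := by simp
  have h1 : ‖bfun (A : GL3) 0‖ < 1 := bfun_norm _ A.2 0 h0
  rw [bact_apply, ← E_lft 0 _ h0 h1]
  obtain ⟨t, ht, hl⟩ := lft_bfun (A : GL3) A.2 0 h0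
  rw [hl, lft_zero, E_smul_right, ht, one_mul, E_e0_act]

private theorem one_le_norm (A : U) : 1 ≤ ‖((A : GL3) : M3) 0 0‖ := by
  have h1 := hf_act_e0 A.2
  rw [hf_self, act_e0, act_e0, act_e0] at h1
  have h2 : (-‖((A : GL3) : M3) 0 0‖ ^ 2 + ‖((A : GL3) : M3) 1 0‖ ^ 2 +
      ‖((A : GL3) : M3) 2 0‖ ^ 2 : ℝ) = -1 := by
    exact_mod_cast h1
  have h3 := norm_nonneg (((A : GL3) : M3) 0 0)
  nlinarith [sq_nonneg ‖((A : GL3) : M3) 1 0‖, sq_nonneg ‖((A : GL3) : M3) 2 0‖]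

theorem gp_disc (Λ Γ : Subgroup GL3) (h : Hyp Λ Γ) (c d : B2 → B2 → ℝ)
    (hc : ∀ z w, c z w = ‖(1 : ℂ) - inner ℂ z w‖ / Real.sqrt ((1 - ‖z‖ ^ 2) * (1 - ‖w‖ ^ 2)))
    (hd : ∀ z w, d z w = Real.log (c z w + Real.sqrt (c z w ^ 2 - 1))) :
    ∀ R : ℝ, {γ : Equiv.Perm B2 | γ ∈ GP Γ ∧ d 0 (γ 0) ≤ R}.Finite := by
  intro R
  obtain ⟨κ, hκ⟩ := h.hS1
  have hpos : 0 < ((Real.cosh R)⁻¹) ^ κ := by
    have := Real.cosh_pos R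
    positivity
  have hev := hκ.tendsto_cofinite_zero.eventually (gt_mem_nhds hpos)
  rw [Filter.eventually_cofinite] at hev
  have himg := hev.image (fun A : Λ => bact ⟨(A : GL3), h.hU A.2⟩)
  refine himg.subset ?_
  rintro γ ⟨hγ, hR⟩
  obtain ⟨A, hA, rfl⟩ := (mem_GP Γ h.hΓU γ).mp hγ
  refine ⟨⟨A, h.hΓ hA⟩, ?_, rfl⟩
  have h1 := one_le_norm ⟨A, h.hΓU hA⟩
  rw [hd, hc, c_bact] at hR
  have h2 := dist_le _ R h1 hR
  simp only [Set.mem_ofPred_eq, not_lt]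
  apply pow_le_pow_left₀ (by have := Real.cosh_pos R; positivity)
  apply inv_anti₀ (by linarith) h2

end Pool.Agent.YG
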