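import Pool.Agent.YG.G08Local

/-!
# YG-G09: continuity of `t ↦ fsum (geo z u t)`

Proof. On `|t| ≤ T`: `E z (v i) ≤ 2 * E z (geo z u t) * E (geo z u t) (v i) = 2 cosh t * E (geo z u t) (v i)`
(`E_tri`, `E_z_geo`, `geo_unit`), so the `i`-th term is `≤ (2 cosh T)^(2m) * (E z (v i)^(2m))⁻¹`, summable.
Each term is continuous in `t` (`E ≥ 1`, continuity of `geo`, `hf`, norm).
Use `continuousOn_tsum` on `Set.Icc (-T) T` (or `Metric.ball 0 T`) for every `T` and
`continuous_iff_continuousAt`.
-/

set_option autoImplicit false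

namespace Pool.Agent.YG

open Matrix

private theorem E_geo_cont (z u w : V) : Continuous fun t : ℝ => E (geo z u t) w := by
  have h : (fun t : ℝ => E (geo z u t) w) = fun t : ℝ =>
      ‖((Real.cosh t : ℝ) : ℂ) * hf z w + ((Real.sinh t : ℝ) : ℂ) * hf u w‖ := by
    funext t
    rw [E, geo, hf_add_left, hf_smul_left, hf_smul_left]
  rw [h]
  exact ((((Complex.continuous_ofReal.comp Real.continuous_cosh).mul continuous_const).add
    ((Complex.continuous_ofReal.comp Real.continuous_sinh).mul continuous_const))).norm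

theorem fsum_geo_continuous {ι : Type*} (v : ι → V) (hv : ∀ i, hf (v i) (v i) = -1) (m : ℕ)
    (hS : ∀ x, hf x x = -1 → Summable fun i => (E x (v i) ^ (2 * m))⁻¹)
    (z u : V) (hz : hf z z = -1) (hu : hf u u = 1) (huz : hf u z = 0) :
    Continuous fun t : ℝ => fsum v m (geo z u t) := by
  rw [continuous_iff_continuousAt]
  intro t0
  have hon : ContinuousOn (fun t : ℝ => fsum v m (geo z u t))
      (Set.Icc (-(|t0| + 1)) (|t0| + 1)) := by
    refine continuousOn_tsum (u := fun i => (2 * Real.cosh (|t0| + 1)) ^ (2 * m) *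
      (E z (v i) ^ (2 * m))⁻¹) ?_ ((hS z hz).mul_left _) ?_
    · intro i
      refine Continuous.continuousOn (((E_geo_cont z u (v i)).pow _).inv₀ ?_)
      intro t
      have h1 := one_le_E (geo z u t) (v i) (geo_unit z u hz hu huz t) (hv i)
      exact pow_ne_zero _ (by linarith)
    · intro i t ht
      have h1 := one_le_E (geo z u t) (v i) (geo_unit z u hz hu huz t) (hv i)
      have h2 := one_le_E z (v i) hz (hv i)
      have h3 := E_tri z (v i) (geo z u t) hz (hv i) (geo_unit z u hz hu huz t)
      rw [E_z_geo z u hz hu huz t] at h3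
      have h4 : Real.cosh t ≤ Real.cosh (|t0| + 1) := by
        rw [Real.cosh_le_cosh, abs_of_nonneg (by positivity : (0:ℝ) ≤ |t0| + 1)]
        exact abs_le.mpr ht
      have h5 : 0 < Real.cosh (|t0| + 1) := Real.cosh_pos _
      have h6 : E z (v i) ≤ 2 * Real.cosh (|t0| + 1) * E (geo z u t) (v i) := by
        refine h3.trans ?_
        gcongr
      rw [Real.norm_of_nonneg (by positivity)]
      rw [← div_eq_mul_inv, inv_eq_one_div, div_le_div_iff₀ (by positivity) (by positivity),
        one_mul, ← mul_pow]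
      exact pow_le_pow_left₀ (by linarith) h6 _
  refine hon.continuousAt (Icc_mem_nhds ?_ ?_)
  · have := neg_abs_le t0
    linarith
  · have := le_abs_self t0
    linarith

end Pool.Agent.YG
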