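import Pool.Agent.YG.G05Geod
import Pool.Agent.YG.G09Cont

/-!
# YG-G10: superlevel sets `fsum ≥ R^(-2m)` are convex

Proof. If `E x z = 1` then `x = t • z` with `|t| = 1` (`E_eq_one`), so `fsum z = fsum x`
(`E_smul_left`). Same if `E z y = 1`. Otherwise `geod` gives `u, t1, t2` with
`x = c1 • geo z u t1`, `y = c2 • geo z u (-t2)`. Suppose `fsum z < R^(-2m)`. The continuous function
`φ t = fsum (geo z u t)` (`fsum_geo_continuous`) has a minimum on `[-t2, t1]` at some `s`;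
`φ s ≤ φ 0 = fsum z < R^(-2m)` (`geo z u 0 = z`) while `φ t1 = fsum x ≥ R^(-2m)`,
`φ (-t2) = fsum y ≥ R^(-2m)`, so `s` is an interior point. Re-centre with `geo_shift` (new base point
`geo z u s`, `geo_unit`) and apply `local_contra` with `δ = min (t1 - s) (s + t2)`.
-/

set_option autoImplicit false

namespace Pool.Agent.YG

open Matrix

theorem superlevel_convex {ι : Type*} [Nonempty ι] (v : ι → V) (hv : ∀ i, hf (v i) (v i) = -1)
    (m : ℕ) (hm : 1 ≤ m)
    (hS : ∀ x, hf x x = -1 → Summable fun i => (E x (v i) ^ (2 * m))⁻¹)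
    (K R : ℝ) (hR0 : 0 < R) (hR : 2 * K * (2 * (m : ℝ) + 4) < R ^ 2)
    (hK : ∀ x, hf x x = -1 → ∀ i j, ∃ n, E (v i) (v j) * E x (v n) ^ 2 ≤ K * E x (v i) * E x (v j))
    (x y z : V) (hx : hf x x = -1) (hy : hf y y = -1) (hz : hf z z = -1)
    (hb : E x y = E x z * E z y + Real.sqrt (E x z ^ 2 - 1) * Real.sqrt (E z y ^ 2 - 1))
    (hfx : (R ^ (2 * m))⁻¹ ≤ fsum v m x) (hfy : (R ^ (2 * m))⁻¹ ≤ fsum v m y) :
    (R ^ (2 * m))⁻¹ ≤ fsum v m z := by
  have hphase : ∀ (c : ℂ) (w : V), ‖c‖ = 1 → fsum v m (c • w) = fsum v m w := by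
    intro c w hc
    unfold fsum
    refine tsum_congr (fun i => ?_)
    rw [E_smul_left, hc, one_mul]
  have hxz : 1 ≤ E x z := one_le_E x z hx hz
  have hzy : 1 ≤ E z y := one_le_E z y hz hy
  rcases eq_or_lt_of_le hxz with h1 | h1
  · obtain ⟨t, ht, hxt⟩ := E_eq_one x z hx hz h1.symm
    rw [hxt, hphase t z ht] at hfx
    exact hfx
  rcases eq_or_lt_of_le hzy with h2 | h2
  · obtain ⟨t, ht, hyt⟩ := E_eq_one y z hy hz (by rw [E_symm]; exact h2.symm)
    rw [hyt, hphase t z ht] at hfy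
    exact hfy
  obtain ⟨u, huz, hu, t1, t2, ht1, ht2, ⟨c1, hc1, hx1⟩, ⟨c2, hc2, hy2⟩⟩ :=
    geod x y z hx hy hz hb h1 h2
  by_contra hcon
  have hlt : fsum v m z < (R ^ (2 * m))⁻¹ := not_le.mp hcon
  have hcont : Continuous fun t : ℝ => fsum v m (geo z u t) :=
    fsum_geo_continuous v hv m hS z u hz hu huz
  have hφ1 : (R ^ (2 * m))⁻¹ ≤ fsum v m (geo z u t1) := by
    rw [hx1, hphase c1 _ hc1] at hfx
    exact hfx
  have hφ2 : (R ^ (2 * m))⁻¹ ≤ fsum v m (geo z u (-t2)) := by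
    rw [hy2, hphase c2 _ hc2] at hfy
    exact hfy
  have hgeo0 : geo z u 0 = z := by
    simp [geo]
  obtain ⟨s, hs, hsmin⟩ := (isCompact_Icc (a := -t2) (b := t1)).exists_isMinOn
    ⟨0, by constructor <;> linarith⟩ hcont.continuousOn
  have hsmin' : ∀ t ∈ Set.Icc (-t2) t1, fsum v m (geo z u s) ≤ fsum v m (geo z u t) := by
    intro t ht
    exact hsmin ht
  have hs0 : fsum v m (geo z u s) < (R ^ (2 * m))⁻¹ := by
    have := hsmin' 0 ⟨by linarith, by linarith⟩
    rw [hgeo0] at this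
    linarith
  have hs1 : s < t1 := by
    rcases lt_or_eq_of_le hs.2 with h | h
    · exact h
    · rw [h] at hs0
      linarith
  have hs2 : -t2 < s := by
    rcases lt_or_eq_of_le hs.1 with h | h
    · exact h
    · rw [← h] at hs0
      linarith
  obtain ⟨u', hu', huz', hsh⟩ := geo_shift z u hz hu huz s
  have hz' : hf (geo z u s) (geo z u s) = -1 := geo_unit z u hz hu huz s
  refine local_contra v hv m hm hS K R hR0 hR (geo z u s) u' hz' hu' huz' (hK _ hz') hs0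
    (min (t1 - s) (s + t2)) (lt_min (by linarith) (by linarith)) (fun t ht => ?_)
  rw [hsh]
  have h3 := lt_of_lt_of_le ht (min_le_left _ _)
  have h4 := lt_of_lt_of_le ht (min_le_right _ _)
  have h5 := abs_lt.mp h3
  have h6 := abs_lt.mp h4
  exact hsmin' _ ⟨by linarith, by linarith⟩

end Pool.Agent.YG
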