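import Pool.Agent.YG.G08Local

/-!
# YG-G11: summability and invariance of `fsum` for a group, superlevel sets are near the orbit

`Λ ≤ U`, `∑_{A ∈ Λ} ‖A 0 0‖^(-κ) < ∞`, `2m = 6(κ+1)`, `vv A = act A e0`.
* `fsum_summable`: `E e0 (act A e0) = ‖A 0 0‖ ≥ 1` and `‖A 0 0‖ ≤ 2 E e0 x E x (act A e0)` (`E_tri`), so
  `(E x (act A e0)^(2m))⁻¹ ≤ (2 E e0 x)^(2m) ‖A 0 0‖^(-2m) ≤ C ‖A 0 0‖^(-κ)`.
* `fsum_inv`: for `B ∈ Λ`: `fsum (act B x) = fsum x` (reindex `A ↦ B A`, `E_act`).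
* `near`: Let `x` be unit negative with `fsum x ≥ ε`. Let `I = inf_A E x (act A e0) ≥ 1` and choose `A0` with
  `E x (act A0 e0) ≤ 2 I`. By invariance replace `x` by `act A0⁻¹ x`; then `m0 := E x e0 ≤ 2 I`, so
  `E x (act A e0) ≥ I ≥ m0/2` for all `A`, and `‖A 0 0‖ = E e0 (act A e0) ≤ 2 E e0 x E x (act A e0) ≤ 4 E x (act A e0)^2`.
  With `E = E x (act A e0)`: `E^(-6(κ+1)) = E^(-2(κ+1)) E^(-4(κ+1)) ≤ (2/m0)^(2(κ+1)) (4/‖A 0 0‖)^(2(κ+1))`, sum: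
  `ε ≤ fsum x ≤ m0^(-2(κ+1)) * C`, with `C = 8^(2(κ+1)) ∑ ‖A 0 0‖^(-2(κ+1)) < ∞`. So `m0` is bounded by a constant
  depending on `ε` only.
-/

set_option autoImplicit false

namespace Pool.Agent.YG

open Matrix

private theorem one_le_A (Λ : Subgroup GL3) (hU : Λ ≤ U) (A : Λ) :
    1 ≤ ‖((A : GL3) : M3) 0 0‖ := by
  rw [← E_e0_act]
  exact one_le_E _ _ hf_e0 (hf_act_e0 (hU A.2))

private theorem A_le (Λ : Subgroup GL3) (hU : Λ ≤ U) (x : V) (hx : hf x x = -1) (A : Λ) :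
    ‖((A : GL3) : M3) 0 0‖ ≤ 2 * E e0 x * E x (act (A : GL3) e0) := by
  rw [← E_e0_act]
  exact E_tri _ _ _ hf_e0 (hf_act_e0 (hU A.2)) hx

theorem fsum_summable (Λ : Subgroup GL3) (hU : Λ ≤ U) (κ : ℕ)
    (hS : Summable fun A : Λ => (‖((A : GL3) : M3) 0 0‖⁻¹) ^ κ) (m : ℕ) (hm : 2 * m = 6 * (κ + 1))
    (x : V) (hx : hf x x = -1) :
    Summable fun A : Λ => (E x (act (A : GL3) e0) ^ (2 * m))⁻¹ := by
  refine Summable.of_nonneg_of_le (fun A => inv_nonneg.mpr (pow_nonneg (E_nonneg _ _) _))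
    (fun A => ?_) (hS.mul_left ((2 * E e0 x) ^ (2 * m)))
  have h1 := one_le_A Λ hU A
  have h2 := A_le Λ hU x hx A
  have h3 := one_le_E x (act (A : GL3) e0) hx (hf_act_e0 (hU A.2))
  have h4 := one_le_E e0 x hf_e0 hx
  have h5 : (‖((A : GL3) : M3) 0 0‖⁻¹) ^ (2 * m) ≤ (‖((A : GL3) : M3) 0 0‖⁻¹) ^ κ :=
    pow_le_pow_of_le_one (by positivity) (inv_le_one_of_one_le₀ h1) (by omega)
  calc (E x (act (A : GL3) e0) ^ (2 * m))⁻¹
      ≤ (2 * E e0 x) ^ (2 * m) * (‖((A : GL3) : M3) 0 0‖⁻¹) ^ (2 * m) := by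
        rw [inv_pow, ← div_eq_mul_inv, inv_eq_one_div,
          div_le_div_iff₀ (by positivity) (by positivity), one_mul, ← mul_pow]
        exact pow_le_pow_left₀ (by positivity) h2 _
    _ ≤ (2 * E e0 x) ^ (2 * m) * (‖((A : GL3) : M3) 0 0‖⁻¹) ^ κ := by
        gcongr

theorem fsum_inv (Λ : Subgroup GL3) (hU : Λ ≤ U) (m : ℕ) (B : GL3) (hB : B ∈ Λ) (x : V) :
    fsum (fun A : Λ => act (A : GL3) e0) m (act B x) = fsum (fun A : Λ => act (A : GL3) e0) m x := by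
  unfold fsum
  rw [← (Equiv.mulLeft (⟨B, hB⟩ : Λ)).tsum_eq]
  refine tsum_congr (fun A => ?_)
  simp only [Equiv.coe_mulLeft, Subgroup.coe_mul]
  rw [act_mul, E_act (hU hB)]

theorem near (Λ : Subgroup GL3) (hU : Λ ≤ U) (κ : ℕ)
    (hS : Summable fun A : Λ => (‖((A : GL3) : M3) 0 0‖⁻¹) ^ κ) (m : ℕ) (hm : 2 * m = 6 * (κ + 1))
    (ε : ℝ) (hε : 0 < ε) :
    ∃ R' : ℝ, ∀ x, hf x x = -1 → ε ≤ fsum (fun A : Λ => act (A : GL3) e0) m x →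
      ∃ A ∈ Λ, E x (act A e0) ≤ R' := by
  have hS2 : Summable fun A : Λ => (‖((A : GL3) : M3) 0 0‖⁻¹) ^ (2 * (κ + 1)) := by
    refine Summable.of_nonneg_of_le (fun A => by positivity) (fun A => ?_) hS
    exact pow_le_pow_of_le_one (by positivity) (inv_le_one_of_one_le₀ (one_le_A Λ hU A))
      (by omega)
  refine ⟨8 ^ (2 * (κ + 1)) *
    (∑' A : Λ, (‖((A : GL3) : M3) 0 0‖⁻¹) ^ (2 * (κ + 1))) / ε, ?_⟩
  intro x hx hfx
  -- nearly closest orbit point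
  obtain ⟨A0, hA0⟩ : ∃ A0 : Λ, ∀ A : Λ,
      E x (act (A0 : GL3) e0) ≤ 2 * E x (act (A : GL3) e0) := by
    have hbd : BddBelow (Set.range fun A : Λ => E x (act (A : GL3) e0)) :=
      ⟨0, by rintro _ ⟨A, rfl⟩; exact E_nonneg _ _⟩
    have hI : 1 ≤ ⨅ A : Λ, E x (act (A : GL3) e0) :=
      le_ciInf (fun A => one_le_E x _ hx (hf_act_e0 (hU A.2)))
    obtain ⟨A0, hA0⟩ := exists_lt_of_ciInf_lt
      (show (⨅ A : Λ, E x (act (A : GL3) e0)) < 2 * ⨅ A : Λ, E x (act (A : GL3) e0) by linarith)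
    refine ⟨A0, fun A => ?_⟩
    have := ciInf_le hbd A
    linarith
  refine ⟨A0, A0.2, ?_⟩
  set m0 : ℝ := E x (act (A0 : GL3) e0) with hm0
  have hm1 : 1 ≤ m0 := one_le_E x _ hx (hf_act_e0 (hU A0.2))
  set y : V := act (A0 : GL3)⁻¹ x with hy
  have hA0i : (A0 : GL3)⁻¹ ∈ Λ := Λ.inv_mem A0.2
  have hyy : hf y y = -1 := by rw [hy, hf_act (hU hA0i), hx]
  have hEy : ∀ B : GL3, E y (act B e0) = E x (act ((A0 : GL3) * B) e0) := by
    intro B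
    rw [← E_act (hU A0.2) y (act B e0), hy, act_act_inv, act_mul]
  have hEe : E e0 y = m0 := by
    have := hEy 1
    rw [act_one, mul_one] at this
    rw [E_symm, this]
  have hfy : ε ≤ fsum (fun A : Λ => act (A : GL3) e0) m y := by
    rw [hy, fsum_inv Λ hU m _ hA0i x]
    exact hfx
  have hterm : ∀ A : Λ, (E y (act (A : GL3) e0) ^ (2 * m))⁻¹ ≤
      (8 / m0) ^ (2 * (κ + 1)) * (‖((A : GL3) : M3) 0 0‖⁻¹) ^ (2 * (κ + 1)) := by
    intro A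
    have h1 := one_le_A Λ hU A
    have h2 := A_le Λ hU y hyy A
    rw [hEe] at h2
    have h3 : m0 ≤ 2 * E y (act (A : GL3) e0) := by
      rw [hEy]
      exact hA0 (A0 * A)
    have h4 := one_le_E y (act (A : GL3) e0) hyy (hf_act_e0 (hU A.2))
    set e : ℝ := E y (act (A : GL3) e0) with he
    set a : ℝ := ‖((A : GL3) : M3) 0 0‖ with ha
    have h5 : a ≤ 4 * e ^ 2 := by nlinarith
    have h6 : m0 * a ≤ 8 * e ^ 3 := by
      calc m0 * a ≤ (2 * e) * (4 * e ^ 2) := by gcongr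
        _ = 8 * e ^ 3 := by ring
    rw [← mul_pow, hm, show 6 * (κ + 1) = 3 * (2 * (κ + 1)) by ring, pow_mul, ← inv_pow]
    refine pow_le_pow_left₀ (by positivity) ?_ _
    rw [← div_eq_mul_inv, div_div, inv_eq_one_div, div_le_div_iff₀ (by positivity) (by positivity),
      one_mul]
    exact h6
  have hsum : fsum (fun A : Λ => act (A : GL3) e0) m y ≤
      (8 / m0) ^ (2 * (κ + 1)) * ∑' A : Λ, (‖((A : GL3) : M3) 0 0‖⁻¹) ^ (2 * (κ + 1)) := by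
    rw [fsum, ← tsum_mul_left]
    exact Summable.tsum_le_tsum hterm (fsum_summable Λ hU κ hS m hm y hyy) (hS2.mul_left _)
  have h7 := hfy.trans hsum
  rw [le_div_iff₀ hε]
  have h8 : m0 ≤ m0 ^ (2 * (κ + 1)) := le_self_pow₀ hm1 (by omega)
  have h9 : 0 < m0 ^ (2 * (κ + 1)) := by positivity
  calc m0 * ε ≤ m0 ^ (2 * (κ + 1)) * ε := by gcongr
    _ ≤ m0 ^ (2 * (κ + 1)) * ((8 / m0) ^ (2 * (κ + 1)) *
        ∑' A : Λ, (‖((A : GL3) : M3) 0 0‖⁻¹) ^ (2 * (κ + 1))) := by gcongr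
    _ = 8 ^ (2 * (κ + 1)) * ∑' A : Λ, (‖((A : GL3) : M3) 0 0‖⁻¹) ^ (2 * (κ + 1)) := by
        rw [div_pow]
        field_simp

end Pool.Agent.YG
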