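import Pool.Agent.YG.CDefs
import Pool.Agent.YG.B03Dist
import Pool.Agent.YG.G10Conv
import Pool.Agent.YG.G11Near

/-!
# YG-C02: the convex set

Take `κ` from `hS1`, `m = 3(κ+1)` (`≥ 1`), `v A = act A e0` (`A ∈ Λ`), `K` from `hS2`, `R > 1` with
`2 K (2m+4) < R^2`. `C = {z | ‖z‖ < 1 ∧ (R^(2m))⁻¹ ≤ fsum v m (lft z)}`.
* nonempty: `0 ∈ C` because `fsum v m e0 ≥` term of `A = 1` `= 1`.
* invariant under `γ = bact A`, `A ∈ Γ ≤ Λ`: `lft (bfun A z) = t • act A (lft z)` (`lft_bfun`), `fsum_inv`,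
  `E_smul_left`.
* convex: `c x y = E (lft x) (lft y)` (`E_lft`), `dist_add` gives the hypothesis `hb` of `superlevel_convex`
  (`one_le_E`).
* compact: by `near` there is `R'` such that each `x ∈ C` has `A ∈ Λ` with `E (lft x) (act A e0) ≤ R'`; write
  `A = γ t` (`hT`): `E (lft x) (act γ (act t e0)) ≤ R'`, so `y := bact γ⁻¹ x` has
  `E (lft y) (act t e0) ≤ R'`, and `E (lft y) e0 ≤ 2 R' E (act t e0) e0 ≤ R''`
  (`R'' = 2 R' * sum` over the finite set `T`; `E_tri`), i.e. `1/sqrt(1-|y|^2) ≤ R''` (`E_lft_e0`), so `y` lies in the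
  closed ball of radius `sqrt (1 - 1/R''^2) < 1` =: `K'`, compact; `x = bact γ y`.
-/

set_option autoImplicit false

namespace Pool.Agent.YG

open Matrix

/-- from a bound on `E y e0` to a closed ball -/
theorem ball_of_E (R : ℝ) : ∃ K : Set B2, IsCompact K ∧ K ⊆ Metric.ball (0 : B2) 1 ∧
    ∀ y : B2, ‖y‖ < 1 → E (lft y) e0 ≤ R → y ∈ K := by
  have hR1 : (1 : ℝ) ≤ max R 1 := le_max_right _ _
  have hR0 : (0 : ℝ) < max R 1 := lt_of_lt_of_le one_pos hR1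
  have hRR : R ≤ max R 1 := le_max_left _ _
  generalize max R 1 = R1 at hR1 hR0 hRR
  have hpos : (0 : ℝ) < 1 / R1 ^ 2 := by positivity
  refine ⟨Metric.closedBall (0 : B2) (Real.sqrt (1 - 1 / R1 ^ 2)), isCompact_closedBall _ _, ?_, ?_⟩
  · refine Metric.closedBall_subset_ball ?_
    rw [Real.sqrt_lt' one_pos]
    linarith
  · intro y hy hE
    rw [E_lft_e0 y hy] at hE
    rw [mem_closedBall_zero_iff]
    have h0 : 0 < 1 - ‖y‖ ^ 2 := by nlinarith [norm_nonneg y]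
    have hs : 0 < Real.sqrt (1 - ‖y‖ ^ 2) := Real.sqrt_pos.mpr h0
    have h1 : 1 / Real.sqrt (1 - ‖y‖ ^ 2) ≤ R1 := hE.trans hRR
    have h2 : 1 / R1 ≤ Real.sqrt (1 - ‖y‖ ^ 2) := by
      rw [div_le_iff₀ hR0]
      rw [div_le_iff₀ hs] at h1
      linarith [mul_comm R1 (Real.sqrt (1 - ‖y‖ ^ 2))]
    have h3 : (1 / R1) ^ 2 ≤ 1 - ‖y‖ ^ 2 := by
      have h4 : (1 / R1) ^ 2 ≤ Real.sqrt (1 - ‖y‖ ^ 2) ^ 2 :=
        pow_le_pow_left₀ (by positivity) h2 2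
      rwa [Real.sq_sqrt h0.le] at h4
    apply Real.le_sqrt_of_sq_le
    have h5 : (1 / R1) ^ 2 = 1 / R1 ^ 2 := by rw [div_pow, one_pow]
    linarith

private theorem fsum_smul {ι : Type*} (v : ι → V) (m : ℕ) (t : ℂ) (ht : ‖t‖ = 1) (x : V) :
    fsum v m (t • x) = fsum v m x := by
  unfold fsum
  refine tsum_congr (fun i => ?_)
  rw [E_smul_left, ht, one_mul]

theorem gp_convex (Λ Γ : Subgroup GL3) (h : Hyp Λ Γ) (c d : B2 → B2 → ℝ)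
    (hc : ∀ z w, c z w = ‖(1 : ℂ) - inner ℂ z w‖ / Real.sqrt ((1 - ‖z‖ ^ 2) * (1 - ‖w‖ ^ 2)))
    (hd : ∀ z w, d z w = Real.log (c z w + Real.sqrt (c z w ^ 2 - 1))) :
    ∃ C : Set B2, C.Nonempty ∧
      C ⊆ Metric.ball (0 : B2) 1 ∧
      (∀ γ ∈ GP Γ, ∀ z ∈ C, γ z ∈ C) ∧
      (∀ x ∈ C, ∀ y ∈ C, ∀ z ∈ Metric.ball (0 : B2) 1, d x z + d z y = d x y → z ∈ C) ∧
      ∃ K : Set B2, IsCompact K ∧ K ⊆ Metric.ball (0 : B2) 1 ∧ C ⊆ ⋃ γ ∈ GP Γ, (⇑γ) '' K := by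
  obtain ⟨κ, hκ⟩ := h.hS1
  obtain ⟨K, hK⟩ := h.hS2
  obtain ⟨m, hmdef⟩ : ∃ m : ℕ, m = 3 * (κ + 1) := ⟨_, rfl⟩
  have hm : 2 * m = 6 * (κ + 1) := by omega
  have hm1 : 1 ≤ m := by omega
  obtain ⟨R, hRdef⟩ : ∃ R : ℝ, R = |2 * K * (2 * (m : ℝ) + 4)| + 1 := ⟨_, rfl⟩
  have hR1 : 1 ≤ R := by
    rw [hRdef]; linarith [abs_nonneg (2 * K * (2 * (m : ℝ) + 4))]
  have hR0 : 0 < R := by linarith
  have hRK : 2 * K * (2 * (m : ℝ) + 4) < R ^ 2 := by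
    have h1 : 2 * K * (2 * (m : ℝ) + 4) < R := by
      rw [hRdef]; linarith [le_abs_self (2 * K * (2 * (m : ℝ) + 4))]
    nlinarith
  have hv : ∀ A : Λ, hf (act (A : GL3) e0) (act (A : GL3) e0) = -1 :=
    fun A => hf_act_e0 (h.hU A.2)
  have hS : ∀ x, hf x x = -1 → Summable fun A : Λ => (E x (act (A : GL3) e0) ^ (2 * m))⁻¹ :=
    fun x hx => fsum_summable Λ h.hU κ hκ m hm x hx
  have hcE : ∀ z w : B2, ‖z‖ < 1 → ‖w‖ < 1 → c z w = E (lft z) (lft w) := by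
    intro z w hz hw
    rw [hc, E_lft z w hz hw]
  have hε : 0 < (R ^ (2 * m))⁻¹ := inv_pos.mpr (pow_pos hR0 _)
  refine ⟨{z | ‖z‖ < 1 ∧ (R ^ (2 * m))⁻¹ ≤ fsum (fun A : Λ => act (A : GL3) e0) m (lft z)},
    ?_, ?_, ?_, ?_, ?_⟩
  · refine ⟨0, by simp, ?_⟩
    rw [lft_zero]
    have h1 : (R ^ (2 * m))⁻¹ ≤ 1 := inv_le_one_of_one_le₀ (one_le_pow₀ hR1)
    have h2 : (E e0 (act ((1 : Λ) : GL3) e0) ^ (2 * m))⁻¹ = 1 := by
      rw [OneMemClass.coe_one, act_one, E_self e0 hf_e0, one_pow, inv_one]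
    have h3 : (E e0 (act ((1 : Λ) : GL3) e0) ^ (2 * m))⁻¹ ≤
        fsum (fun A : Λ => act (A : GL3) e0) m e0 :=
      (hS e0 hf_e0).le_tsum (1 : Λ) (fun A _ => inv_nonneg.mpr (pow_nonneg (E_nonneg _ _) _))
    rw [h2] at h3
    exact h1.trans h3
  · intro z hz
    rw [mem_ball_zero_iff]
    exact hz.1
  · intro γ hγ z hz
    obtain ⟨A, hA, rfl⟩ := (mem_GP Γ h.hΓU γ).1 hγ
    have hAU : A ∈ U := h.hΓU hA
    change ‖bact ⟨A, h.hΓU hA⟩ z‖ < 1 ∧ _ ≤ fsum _ m (lft (bact ⟨A, h.hΓU hA⟩ z))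
    rw [bact_apply]
    obtain ⟨t, ht, hlt⟩ := lft_bfun A hAU z hz.1
    refine ⟨bfun_norm A hAU z hz.1, ?_⟩
    rw [hlt, fsum_smul _ m t ht, fsum_inv Λ h.hU m A (h.hΓ hA)]
    exact hz.2
  · intro x hx y hy z hz hdz
    have hz1 : ‖z‖ < 1 := by rwa [mem_ball_zero_iff] at hz
    have hux := lft_unit x hx.1
    have huy := lft_unit y hy.1
    have huz := lft_unit z hz1
    refine ⟨hz1, ?_⟩
    rw [hd, hd, hd, hcE x z hx.1 hz1, hcE z y hz1 hy.1, hcE x y hx.1 hy.1] at hdz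
    have hb := dist_add _ _ _ (one_le_E _ _ hux huz) (one_le_E _ _ huz huy)
      (one_le_E _ _ hux huy) hdz
    refine superlevel_convex (fun A : Λ => act (A : GL3) e0) hv m hm1 hS K R hR0 hRK ?_
      (lft x) (lft y) (lft z) hux huy huz hb hx.2 hy.2
    intro w hw A B
    obtain ⟨N, hN, hN2⟩ := hK w hw A A.2 B B.2
    exact ⟨⟨N, hN⟩, hN2⟩
  · obtain ⟨R', hR'⟩ := near Λ h.hU κ hκ m hm _ hε
    obtain ⟨T, hTΛ, hT⟩ := h.hT
    obtain ⟨K', hK'c, hK'b, hK'm⟩ := ball_of_E (2 * R' * ∑ t ∈ T, E (act t e0) e0)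
    refine ⟨K', hK'c, hK'b, ?_⟩
    intro x hx
    have hux := lft_unit x hx.1
    obtain ⟨A, hA, hAE⟩ := hR' (lft x) hux hx.2
    obtain ⟨g, hg, t, ht, rfl⟩ := hT A hA
    have hgU : g ∈ U := h.hΓU hg
    have hgU' : g⁻¹ ∈ U := U.inv_mem hgU
    have htU : t ∈ U := h.hU (hTΛ t ht)
    obtain ⟨s, hs, hls⟩ := lft_bfun g⁻¹ hgU' x hx.1
    have hy1 : ‖bfun g⁻¹ x‖ < 1 := bfun_norm g⁻¹ hgU' x hx.1
    have huy := lft_unit _ hy1
    have hEy : E (lft (bfun g⁻¹ x)) (act t e0) ≤ R' := by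
      have h1 : E (lft (bfun g⁻¹ x)) (act t e0) = E (lft x) (act (g * t) e0) := by
        rw [hls, E_smul_left, hs, one_mul, ← E_act hgU, act_act_inv, act_mul]
      rw [h1]
      exact hAE
    have hR'0 : 0 ≤ R' := (E_nonneg _ _).trans hEy
    have hEt : E (act t e0) e0 ≤ ∑ t ∈ T, E (act t e0) e0 :=
      Finset.single_le_sum (f := fun t => E (act t e0) e0) (fun _ _ => E_nonneg _ _) ht
    have hEy0 : E (lft (bfun g⁻¹ x)) e0 ≤ 2 * R' * ∑ t ∈ T, E (act t e0) e0 := by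
      have h1 := E_tri (lft (bfun g⁻¹ x)) e0 (act t e0) huy hf_e0 (hf_act_e0 htU)
      have h2 : E (lft (bfun g⁻¹ x)) (act t e0) * E (act t e0) e0 ≤
          R' * ∑ t ∈ T, E (act t e0) e0 :=
        mul_le_mul hEy hEt (E_nonneg _ _) hR'0
      linarith [mul_assoc 2 (E (lft (bfun g⁻¹ x)) (act t e0)) (E (act t e0) e0),
        mul_assoc 2 R' (∑ t ∈ T, E (act t e0) e0)]
    have hyK : bfun g⁻¹ x ∈ K' := hK'm _ hy1 hEy0
    have hγ : bact ⟨g, hgU⟩ ∈ GP Γ := (mem_GP Γ h.hΓU _).2 ⟨g, hg, rfl⟩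
    refine Set.mem_iUnion₂.mpr ⟨bact ⟨g, hgU⟩, hγ, bfun g⁻¹ x, hyK, ?_⟩
    have h1 : bfun g⁻¹ x = bact (⟨g, hgU⟩⁻¹ : U) x := by
      rw [bact_apply]
      rfl
    rw [h1, map_inv]
    rw [← Equiv.Perm.mul_apply, mul_inv_cancel]
    rfl

end Pool.Agent.YG
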