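import Pool.Agent.YG.C01Easy

/-!
# YG-C03: not cocompact on the ball, divergence

* `gp_not_cocompact`: Let `K` be compact in the ball, so `‖y‖ ≤ r < 1` on `K` (or `K` empty) and
  `E (lft y) e0 ≤ R` on `K` (`E_lft_e0`). Take `x` from `hS3` for this `R` (`x' = prj x`, `lft x' = t • x`,
  `lft_prj`). If `x' = bact A y` with `y ∈ K`, `A ∈ Γ`, then `E x (act A e0) = E (lft x') (act A e0) =
  E (act A (lft y)) (act A e0) = E (lft y) e0 ≤ R`, contradiction.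
* `gp_diverge`: take `s` from `hS4` and assume `∑_{γ ∈ GP Γ} exp(-s d(0, γ 0)) < ∞`. With `c_bact`, `exp_dist`
  (`‖A 0 0‖ ≥ 1`: `one_le_E`) and the bijection `Γ ≃ GP Γ` (`bact_inj`):
  `∑_{A ∈ Γ} ‖A 0 0‖^(-s) < ∞`. Then for each `t ∈ T`: `‖A 0 0‖ = E e0 (act A e0) ≤ 2 E e0 (act (A t) e0) E (act (A t) e0) (act A e0)
  = 2 ‖(A t) 0 0‖ ‖t 0 0‖` (`E_tri`, `E_act`), so `‖(At) 0 0‖^(-s) ≤ (2‖t 0 0‖)^s ‖A 0 0‖^(-s)` is summable over
  `A ∈ Γ`; hence so is the family over `Γ × T`, and `Λ` is the image of `Γ × T` under `(A,t) ↦ A t` (choose for every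
  `B ∈ Λ` one pair; injection `Λ → Γ × T`; `Summable.comp_injective`), so `∑_Λ < ∞`, contradiction.
-/

set_option autoImplicit false

namespace Pool.Agent.YG

open Matrix

theorem gp_not_cocompact (Λ Γ : Subgroup GL3) (h : Hyp Λ Γ) :
    ¬ ∃ K : Set B2, IsCompact K ∧ K ⊆ Metric.ball (0 : B2) 1 ∧
        Metric.ball (0 : B2) 1 ⊆ ⋃ γ ∈ GP Γ, (⇑γ) '' K := by
  rintro ⟨K, hK, hKb, hcov⟩
  have hlt : ∀ y ∈ K, ‖y‖ < 1 := fun y hy => by
    have := hKb hy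
    rwa [mem_ball_zero_iff] at this
  have hcont : ContinuousOn (fun y : B2 => 1 / Real.sqrt (1 - ‖y‖ ^ 2)) K := by
    refine ContinuousOn.div continuousOn_const ?_ ?_
    · exact (Real.continuous_sqrt.comp (by fun_prop)).continuousOn
    · intro y hy
      have h1 := hlt y hy
      have h2 : 0 < 1 - ‖y‖ ^ 2 := by nlinarith [norm_nonneg y]
      exact (Real.sqrt_pos.2 h2).ne'
  obtain ⟨R, hR⟩ := hK.bddAbove_image hcont
  obtain ⟨x, hx, hxR⟩ := h.hS3 R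
  have hp := prj_norm x hx
  have hmem := hcov (mem_ball_zero_iff.2 hp)
  simp only [Set.mem_iUnion, Set.mem_image, exists_prop] at hmem
  obtain ⟨γ, hγ, y, hyK, hyx⟩ := hmem
  obtain ⟨A, hA, rfl⟩ := (mem_GP Γ h.hΓU γ).1 hγ
  rw [bact_apply] at hyx
  have hAU : A ∈ U := h.hΓU hA
  obtain ⟨t, ht, hl⟩ := lft_bfun A hAU y (hlt y hyK)
  obtain ⟨t', ht', hlp⟩ := lft_prj x hx
  have e1 : t' • x = t • act A (lft y) := by
    rw [← hlp, ← hl]
    change lft (prj x) = lft (bfun A y)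
    rw [← hyx]
  have e2 : E x (act A e0) = E (lft y) e0 := by
    have h1 : E (t' • x) (act A e0) = E x (act A e0) := by rw [E_smul_left, ht', one_mul]
    have h2 : E (t • act A (lft y)) (act A e0) = E (lft y) e0 := by
      rw [E_smul_left, ht, one_mul, E_act hAU]
    rw [← h1, e1, h2]
  have h3 := hxR A (h.hΓ hA)
  rw [e2, E_lft_e0 y (hlt y hyK)] at h3
  have h4 := hR (Set.mem_image_of_mem _ hyK)
  linarith

theorem gp_diverge (Λ Γ : Subgroup GL3) (h : Hyp Λ Γ) (c d : B2 → B2 → ℝ)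
    (hc : ∀ z w, c z w = ‖(1 : ℂ) - inner ℂ z w‖ / Real.sqrt ((1 - ‖z‖ ^ 2) * (1 - ‖w‖ ^ 2)))
    (hd : ∀ z w, d z w = Real.log (c z w + Real.sqrt (c z w ^ 2 - 1))) :
    ∃ s : ℝ, 3 < s ∧ ¬ Summable (fun γ : GP Γ => Real.exp (-(s * d 0 ((γ : Equiv.Perm B2) 0)))) := by
  obtain ⟨s, hs3, hs⟩ := h.hS4
  refine ⟨s, hs3, fun hsum => hs ?_⟩
  have hs0 : 0 < s := by linarith
  have hge : ∀ A : GL3, A ∈ U → 1 ≤ ‖(A : M3) 0 0‖ := by
    intro A hA
    rw [← E_e0_act]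
    exact one_le_E _ _ hf_e0 (hf_act_e0 hA)
  -- the injection of `Γ` into `GP Γ`
  let F : Γ → GP Γ := fun A => ⟨bact ⟨(A : GL3), h.hΓU A.2⟩,
    (mem_GP Γ h.hΓU _).2 ⟨(A : GL3), A.2, rfl⟩⟩
  have hF : Function.Injective F := by
    intro A B hAB
    have h1 : bact ⟨(A : GL3), h.hΓU A.2⟩ = bact ⟨(B : GL3), h.hΓU B.2⟩ :=
      congrArg Subtype.val hAB
    exact Subtype.ext (bact_inj Λ Γ h _ _ A.2 B.2 h1)
  have s1 := hsum.comp_injective hF
  have s2 : Summable (fun A : Γ => (2 * ‖((A : GL3) : M3) 0 0‖) ^ (-s)) := by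
    refine Summable.of_nonneg_of_le (fun A => by positivity) (fun A => ?_) s1
    have hcA : c 0 (bact ⟨(A : GL3), h.hΓU A.2⟩ 0) = ‖((A : GL3) : M3) 0 0‖ := by
      rw [hc, c_bact]
    have h1 := exp_dist (‖((A : GL3) : M3) 0 0‖) s (hge _ (h.hΓU A.2)) hs0
    refine h1.trans (le_of_eq ?_)
    simp only [Function.comp_apply, F]
    rw [hd, hcA]
  obtain ⟨T, hTΛ, hT⟩ := h.hT
  have s3 : Summable (fun t : {t // t ∈ T} => (4 * ‖((t : GL3) : M3) 0 0‖) ^ s) :=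
    Summable.of_finite
  have s4 := Summable.mul_of_nonneg s2 s3 (fun A => by simp only [Pi.zero_apply]; positivity)
    (fun t => by simp only [Pi.zero_apply]; positivity)
  -- the injection of `Λ` into `Γ × T`
  choose g hg t ht hgt using hT
  let i : Λ → Γ × {t // t ∈ T} := fun B => (⟨g B B.2, hg B B.2⟩, ⟨t B B.2, ht B B.2⟩)
  have hi : Function.Injective i := by
    intro B B' hBB
    have h1 : g B B.2 = g B' B'.2 := congrArg (fun x => ((x.1 : Γ) : GL3)) hBB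
    have h2 : t B B.2 = t B' B'.2 := congrArg (fun x => (x.2 : GL3)) hBB
    apply Subtype.ext
    rw [hgt B B.2, hgt B' B'.2, h1, h2]
  refine Summable.of_nonneg_of_le (fun B => by positivity) (fun B => ?_) (s4.comp_injective hi)
  simp only [Function.comp_apply, i]
  set A : GL3 := g B B.2 with hA
  set τ : GL3 := t B B.2 with hτ
  have hAΓ : A ∈ Γ := hg B B.2
  have hAU : A ∈ U := h.hΓU hAΓ
  have hτU : τ ∈ U := h.hU (hTΛ τ (ht B B.2))
  have hB : (B : GL3) = A * τ := hgt B B.2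
  have hBU : (B : GL3) ∈ U := h.hU B.2
  have k1 : ‖(A : M3) 0 0‖ ≤ 2 * ‖((B : GL3) : M3) 0 0‖ * ‖(τ : M3) 0 0‖ := by
    have h1 := E_tri e0 (act A e0) (act (B : GL3) e0) hf_e0 (hf_act_e0 hAU) (hf_act_e0 hBU)
    have h2 : E (act (B : GL3) e0) (act A e0) = ‖(τ : M3) 0 0‖ := by
      rw [hB, act_mul, E_act hAU, E_symm, E_e0_act]
    rw [E_e0_act, E_e0_act, h2] at h1
    exact h1
  have a1 := hge A hAU
  have b1 := hge (B : GL3) hBU
  have t1 := hge τ hτU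
  have k2 : (‖((B : GL3) : M3) 0 0‖) ^ (-s) ≤
      ((2 * ‖(A : M3) 0 0‖) * (4 * ‖(τ : M3) 0 0‖)⁻¹) ^ (-s) := by
    refine Real.rpow_le_rpow_of_nonpos (by positivity) ?_ (by linarith)
    rw [← div_eq_mul_inv, div_le_iff₀ (by positivity)]
    nlinarith
  refine k2.trans (le_of_eq ?_)
  rw [Real.mul_rpow (by positivity) (by positivity), Real.inv_rpow (by positivity),
    Real.rpow_neg (by positivity : (0 : ℝ) ≤ 4 * ‖(τ : M3) 0 0‖), inv_inv]

end Pool.Agent.YG
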