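import Pool.Agent.YG.B02Act

/-! The group of permutations of `B2` attached to a subgroup of `U`, and the hypotheses of the general
theorem. -/

set_option autoImplicit false

namespace Pool.Agent.YG

open Matrix

noncomputable section

def bact : U →* Equiv.Perm B2 := exists_bact.choose

theorem bact_apply (A : U) (z : B2) : bact A z = bfun (A : GL3) z := exists_bact.choose_spec A z

/-- permutations given by the elements of `Γ` -/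
def GP (Γ : Subgroup GL3) : Subgroup (Equiv.Perm B2) := (Γ.subgroupOf U).map bact

theorem mem_GP (Γ : Subgroup GL3) (hU : Γ ≤ U) (γ : Equiv.Perm B2) :
    γ ∈ GP Γ ↔ ∃ A : GL3, ∃ hA : A ∈ Γ, γ = bact ⟨A, hU hA⟩ := by
  constructor
  · rintro ⟨A, hA, rfl⟩
    exact ⟨(A : GL3), hA, rfl⟩
  · rintro ⟨A, hA, rfl⟩
    exact ⟨⟨A, hU hA⟩, hA, rfl⟩

/-- the hypotheses on the pair `Γ ≤ Λ` used by the general theorem -/
structure Hyp (Λ Γ : Subgroup GL3) : Prop where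
  hU : Λ ≤ U
  hS1 : ∃ κ : ℕ, Summable fun A : Λ => (‖((A : GL3) : M3) 0 0‖⁻¹) ^ κ
  hS2 : ∃ K : ℝ, ∀ x, hf x x = -1 → ∀ A ∈ Λ, ∀ B ∈ Λ, ∃ N ∈ Λ,
    E (act A e0) (act B e0) * E x (act N e0) ^ 2 ≤ K * E x (act A e0) * E x (act B e0)
  hS3 : ∀ R : ℝ, ∃ x, hf x x = -1 ∧ ∀ A ∈ Λ, R < E x (act A e0)
  hS4 : ∃ s : ℝ, 3 < s ∧ ¬ Summable fun A : Λ => ‖((A : GL3) : M3) 0 0‖ ^ (-s)
  hΓ : Γ ≤ Λ
  hT : ∃ T : Finset GL3, (∀ t ∈ T, t ∈ Λ) ∧ ∀ A ∈ Λ, ∃ γ ∈ Γ, ∃ t ∈ T, A = γ * t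
  htf : ∀ A ∈ Γ, ∀ k : ℕ, 0 < k → ∀ μ : ℂ, ((A ^ k : GL3) : M3) = μ • (1 : M3) → A = 1

theorem Hyp.hΓU {Λ Γ : Subgroup GL3} (h : Hyp Λ Γ) : Γ ≤ U := h.hΓ.trans h.hU

end

end Pool.Agent.YG
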