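import Mathlib

/-!
# Disproof of Yue's gap conjecture (MP_b0ef7e_gt): definitions

`V = C^3` with the Hermitian form `hf` of signature (2,1); `E x y = |hf x y| = cosh d(x,y)` for
vectors with `hf x x = -1`.  `U` = matrices preserving the form.  The discrete group `Lam` is generated
by `gA, gH, gS, gZ`.
-/

set_option autoImplicit false

namespace Pool.Agent.YG

open Matrix

noncomputable section

/-- vectors of `C^{2,1}` -/
abbrev V := Fin 3 → ℂ

/-- 3x3 complex matrices -/
abbrev M3 := Matrix (Fin 3) (Fin 3) ℂ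

/-- invertible 3x3 complex matrices -/
abbrev GL3 := GL (Fin 3) ℂ

/-- the Hermitian form of signature (2,1) (linear in the first variable) -/
def hf (x y : V) : ℂ :=
  -(x 0 * (starRingEnd ℂ) (y 0)) + x 1 * (starRingEnd ℂ) (y 1) + x 2 * (starRingEnd ℂ) (y 2)

/-- `cosh` of the distance (for vectors with `hf x x = -1`) -/
def E (x y : V) : ℝ := ‖hf x y‖

/-- base point -/
def e0 : V := ![1, 0, 0]

/-- action of a matrix on a vector -/
def act (A : GL3) (x : V) : V := (A : M3) *ᵥ x

/-- the matrices preserving the form -/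
def U : Subgroup GL3 where
  carrier := {A | ∀ x y, hf (act A x) (act A y) = hf x y}
  mul_mem' := by
    intro A B hA hB x y
    have h1 : ∀ x, act (A * B) x = act A (act B x) := by
      intro x; simp [act, Matrix.mulVec_mulVec]
    rw [h1, h1, hA, hB]
  one_mem' := by
    intro x y; simp [act]
  inv_mem' := by
    intro A hA x y
    have h1 : ∀ x, act A (act A⁻¹ x) = x := by
      intro x
      have : act A (act A⁻¹ x) = act (A * A⁻¹) x := by simp [act, Matrix.mulVec_mulVec]
      rw [this, mul_inv_cancel]; simp [act]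
    have h2 := hA (act A⁻¹ x) (act A⁻¹ y)
    rw [h1, h1] at h2
    exact h2.symm

theorem act_mul (A B : GL3) (x : V) : act (A * B) x = act A (act B x) := by
  simp [act, Matrix.mulVec_mulVec]

theorem act_one (x : V) : act 1 x = x := by simp [act]

theorem act_smul (A : GL3) (t : ℂ) (x : V) : act A (t • x) = t • act A x := by
  simp [act, Matrix.mulVec_smul]

theorem act_add (A : GL3) (x y : V) : act A (x + y) = act A x + act A y := by
  simp [act, Matrix.mulVec_add]

theorem hf_act {A : GL3} (hA : A ∈ U) (x y : V) : hf (act A x) (act A y) = hf x y := hA x y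

theorem E_act {A : GL3} (hA : A ∈ U) (x y : V) : E (act A x) (act A y) = E x y := by
  rw [E, hf_act hA, E]

theorem act_inv_act (A : GL3) (x : V) : act A⁻¹ (act A x) = x := by
  rw [← act_mul]; simp [act_one]

theorem act_act_inv (A : GL3) (x : V) : act A (act A⁻¹ x) = x := by
  rw [← act_mul]; simp [act_one]

theorem hf_e0 : hf e0 e0 = -1 := by simp [hf, e0]

theorem act_e0 (A : GL3) (i : Fin 3) : act A e0 i = (A : M3) i 0 := by
  fin_cases i <;> simp [act, e0, Matrix.mulVec, dotProduct, Fin.sum_univ_three]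

theorem E_e0_act (A : GL3) : E e0 (act A e0) = ‖(A : M3) 0 0‖ := by
  have h := act_e0 A 0
  simp [E, hf, e0] at *
  rw [h]

/-! ## The concrete group -/

/-- edge length of the `{3,20}` tiling: `cosh` of the distance of neighbouring nodes, `3.19622...` -/
def cc : ℝ := 1 / (2 * Real.sin (Real.pi / 20))

/-- `sinh` of the distance of neighbouring nodes, `3.0357...` -/
def ss : ℝ := Real.sqrt (cc ^ 2 - 1)

/-- primitive 40th root of unity -/
def ze : ℂ := Complex.exp (Real.pi / 20 * Complex.I)

/-- primitive 20th root of unity -/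
def om : ℂ := ze ^ 2

/-- `ζ^{-7}` -/
def ka : ℂ := ze ^ 33

/-- rotation of the first disc about the base node -/
def mA : M3 := !![1, 0, 0; 0, om, 0; 0, 0, 1]

/-- rotation of the second disc about the base node -/
def mB : M3 := !![1, 0, 0; 0, 1, 0; 0, 0, om]

/-- half turn about the midpoint of an edge in the first disc -/
def mH : M3 := !![(cc : ℂ), (ss : ℂ), 0; -(ss : ℂ), -(cc : ℂ), 0; 0, 0, ka]

/-- swap of the two discs at the base node -/
def mS : M3 := !![1, 0, 0; 0, 0, 1; 0, 1, 0]

/-- the scalar `ζ` -/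
def mZ : M3 := !![ze, 0, 0; 0, ze, 0; 0, 0, ze]

theorem ze_ne : ze ≠ 0 := Complex.exp_ne_zero _

theorem ze_norm : ‖ze‖ = 1 := by
  have : ze = Complex.exp (((Real.pi / 20 : ℝ) : ℂ) * Complex.I) := by simp [ze]
  rw [this, Complex.norm_exp_ofReal_mul_I]

theorem om_ne : om ≠ 0 := pow_ne_zero _ ze_ne
theorem ka_ne : ka ≠ 0 := pow_ne_zero _ ze_ne
theorem om_norm : ‖om‖ = 1 := by simp [om, ze_norm]
theorem ka_norm : ‖ka‖ = 1 := by simp [ka, ze_norm]

theorem sin20_pos : 0 < Real.sin (Real.pi / 20) :=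
  Real.sin_pos_of_pos_of_lt_pi (by positivity) (by linarith [Real.pi_pos])

theorem sin20_lt : Real.sin (Real.pi / 20) < 1 / 2 := by
  have h := Real.sin_lt (x := Real.pi / 20) (by positivity)
  linarith [Real.pi_lt_four]

theorem cc_gt : 1 < cc := by
  rw [cc, lt_div_iff₀ (by linarith [sin20_pos])]
  linarith [sin20_lt]

theorem ss_sq : ss ^ 2 = cc ^ 2 - 1 := by
  rw [ss, Real.sq_sqrt]; nlinarith [cc_gt]

theorem ss_pos : 0 < ss := Real.sqrt_pos.mpr (by nlinarith [cc_gt])

theorem det_mA : mA.det ≠ 0 := by simp [mA, Matrix.det_fin_three, om_ne]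
theorem det_mB : mB.det ≠ 0 := by simp [mB, Matrix.det_fin_three, om_ne]
theorem det_mS : mS.det ≠ 0 := by simp [mS, Matrix.det_fin_three]
theorem det_mZ : mZ.det ≠ 0 := by simp [mZ, Matrix.det_fin_three, ze_ne]
theorem det_mH : mH.det ≠ 0 := by
  have h : mH.det = -ka := by
    simp [mH, Matrix.det_fin_three]
    have : (ss : ℂ) ^ 2 = (cc : ℂ) ^ 2 - 1 := by exact_mod_cast ss_sq
    linear_combination ka * this
  rw [h]; simp [ka_ne]

def gA : GL3 := Matrix.GeneralLinearGroup.mkOfDetNeZero mA det_mA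
def gB : GL3 := Matrix.GeneralLinearGroup.mkOfDetNeZero mB det_mB
def gH : GL3 := Matrix.GeneralLinearGroup.mkOfDetNeZero mH det_mH
def gS : GL3 := Matrix.GeneralLinearGroup.mkOfDetNeZero mS det_mS
def gZ : GL3 := Matrix.GeneralLinearGroup.mkOfDetNeZero mZ det_mZ

/-- the whole group: nodes are the points `act A e0`, `A ∈ Lam` -/
def Lam : Subgroup GL3 := Subgroup.closure {gA, gH, gS, gZ}

/-- the stabiliser of the first disc -/
def G1 : Subgroup GL3 := Subgroup.closure {gA, gB, gH, gZ}

/-- the diagonal part of the stabiliser of the base node -/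
def S1 : Subgroup GL3 := Subgroup.closure {gA, gB, gZ}

/-- the stabiliser of the base node -/
def SS : Subgroup GL3 := Subgroup.closure {gA, gB, gS, gZ}

/-- products of `n` half turns `gH` and elements of `SS` -/
def W : ℕ → Set GL3
  | 0 => (SS : Set GL3)
  | (n + 1) => {x | ∃ y ∈ W n, ∃ t ∈ SS, x = y * gH * t}

/-- alternating products `g_1 σ g_2 σ ... σ g_m` with `g_i ∈ G1 \ S1`, `m ≥ 1` -/
inductive Alt : GL3 → Prop
  | one (g : GL3) (h1 : g ∈ G1) (h2 : g ∉ S1) : Alt g
  | snoc (w g : GL3) (hw : Alt w) (h1 : g ∈ G1) (h2 : g ∉ S1) : Alt (w * gS * g)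

end

end Pool.Agent.YG
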