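import Pool.Agent.YG.G01Pos

/-!
# YG-G05: equality in the triangle inequality = geodesic

Let `x y z` be unit negative, `a = E x z > 1`, `b = E z y > 1` and
`E x y = a b + sqrt(a^2-1) sqrt(b^2-1)`. Then `z` lies on a geodesic `geo z u t = cosh t z + sinh t u`
with `x ~ geo z u t1`, `y ~ geo z u (-t2)` up to phases, `t1, t2 > 0`.

Proof. `p = hf x z`, `q = hf y z`, `x' = x + p z`, `y' = y + q z` (orthogonal to `z`, with
`hf x' x' = a^2-1`, `hf y' y' = b^2-1`, lemmas `dec_perp`, `dec_norm`). `hf x y = -p conj q + hf x' y'`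
(`dec_inner`), `|p conj q| = a b`, `|hf x' y'| ≤ sqrt(a^2-1) sqrt(b^2-1)` (`perp_cs`). So the norm of
the sum of the two complex numbers `-p conj q` and `hf x' y'` equals `a b + sqrt.. sqrt..`, hence
`|hf x' y'| = sqrt.. sqrt..` and `hf x' y' = -λ p conj q` with real `λ > 0`,
`λ a b = sqrt(a^2-1) sqrt(b^2-1)`.
Put `u = -(a / (p sqrt(a^2-1))) x'`, `u2 = -(b / (q sqrt(b^2-1))) y'`; both are unit vectors of `z^⊥`
and `hf u u2 = -1`, so `hf (u+u2) (u+u2) = 1 + 1 - 1 - 1 = 0`, hence `u2 = -u` (`perp_eq_zero`).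
`x = -p z + x' = (-p/a) (a z + sqrt(a^2-1) u)`, `y = (-q/b)(b z - sqrt(b^2-1) u)`. Finally
`t1 = arcosh a` (`Real.cosh` is onto `[1,∞)`: e.g. `t1 = Real.log (a + sqrt(a^2-1))` or
`Real.arsinh (sqrt(a^2-1))`: `sinh t1 = sqrt(a^2-1)`, `cosh t1 = sqrt(1+sinh^2) = a`).
-/

set_option autoImplicit false

namespace Pool.Agent.YG

open Matrix

private theorem exists_t (a : ℝ) (h : 1 < a) :
    ∃ t : ℝ, 0 < t ∧ Real.cosh t = a ∧ Real.sinh t = Real.sqrt (a ^ 2 - 1) := by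
  have hp : 0 < Real.sqrt (a ^ 2 - 1) := Real.sqrt_pos.mpr (by nlinarith)
  refine ⟨Real.arsinh (Real.sqrt (a ^ 2 - 1)), Real.arsinh_pos_iff.mpr hp, ?_, Real.sinh_arsinh _⟩
  rw [Real.cosh_arsinh, Real.sq_sqrt (by nlinarith)]
  rw [show 1 + (a ^ 2 - 1) = a ^ 2 by ring, Real.sqrt_sq (by linarith)]

private theorem ray_eq (v w : ℂ) (r s : ℝ) (hv : ‖v‖ = r) (hw : ‖w‖ ≤ s)
    (h : ‖v + w‖ = r + s) : (s : ℂ) * v = (r : ℂ) * w := by
  have h1 : ‖w‖ = s := by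
    have := norm_add_le v w
    linarith
  have h2 : SameRay ℝ v w := by
    rw [sameRay_iff_norm_add, h, hv, h1]
  have h3 := h2.norm_smul_eq
  rw [hv, h1] at h3
  simpa using h3.symm

theorem geod (x y z : V) (hx : hf x x = -1) (hy : hf y y = -1) (hz : hf z z = -1)
    (h : E x y = E x z * E z y + Real.sqrt (E x z ^ 2 - 1) * Real.sqrt (E z y ^ 2 - 1))
    (h1 : 1 < E x z) (h2 : 1 < E z y) :
    ∃ u : V, hf u z = 0 ∧ hf u u = 1 ∧ ∃ t1 t2 : ℝ, 0 < t1 ∧ 0 < t2 ∧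
      (∃ c1 : ℂ, ‖c1‖ = 1 ∧ x = c1 • geo z u t1) ∧
      (∃ c2 : ℂ, ‖c2‖ = 1 ∧ y = c2 • geo z u (-t2)) := by
  obtain ⟨t1, ht1, hc1, hs1⟩ := exists_t _ h1
  obtain ⟨t2, ht2, hc2, hs2⟩ := exists_t _ h2
  obtain ⟨a, ha⟩ : ∃ a, a = E x z := ⟨_, rfl⟩
  obtain ⟨b, hb⟩ : ∃ b, b = E z y := ⟨_, rfl⟩
  obtain ⟨A, hA⟩ : ∃ A, A = Real.sqrt (E x z ^ 2 - 1) := ⟨_, rfl⟩
  obtain ⟨B, hB⟩ : ∃ B, B = Real.sqrt (E z y ^ 2 - 1) := ⟨_, rfl⟩
  have hA2 : A ^ 2 = a ^ 2 - 1 := by rw [hA, ha, Real.sq_sqrt]; nlinarith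
  have hB2 : B ^ 2 = b ^ 2 - 1 := by rw [hB, hb, Real.sq_sqrt]; nlinarith
  have hA0 : 0 < A := by rw [hA]; exact Real.sqrt_pos.mpr (by nlinarith)
  have hB0 : 0 < B := by rw [hB]; exact Real.sqrt_pos.mpr (by nlinarith)
  rw [← ha] at h1
  rw [← hb] at h2
  rw [← hA, ← hB, ← ha, ← hb] at h
  rw [← ha] at hc1
  rw [← hb] at hc2
  rw [← hA] at hs1
  rw [← hB] at hs2
  obtain ⟨p, hp⟩ : ∃ p, p = hf x z := ⟨_, rfl⟩
  obtain ⟨q, hq⟩ : ∃ q, q = hf y z := ⟨_, rfl⟩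
  have hpn : ‖p‖ = a := by rw [hp, ha, E]
  have hqn : ‖q‖ = b := by rw [hq, hb, E_symm, E]
  have hp0 : p ≠ 0 := by
    intro h0; rw [h0] at hpn; simp at hpn; linarith
  have hq0 : q ≠ 0 := by
    intro h0; rw [h0] at hqn; simp at hqn; linarith
  obtain ⟨x', hx'⟩ : ∃ x', x' = x + hf x z • z := ⟨_, rfl⟩
  obtain ⟨y', hy'⟩ : ∃ y', y' = y + hf y z • z := ⟨_, rfl⟩
  have hxz : hf x' z = 0 := by rw [hx']; exact dec_perp x z hz
  have hyz : hf y' z = 0 := by rw [hy']; exact dec_perp y z hz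
  have hxx : hf x' x' = ((A ^ 2 : ℝ) : ℂ) := by
    rw [hx', dec_norm x z hx hz, hA2, ha]
  have hyy : hf y' y' = ((B ^ 2 : ℝ) : ℂ) := by
    rw [hy', dec_norm y z hy hz, hB2, hb, E_symm y z]
  obtain ⟨w, hw⟩ : ∃ w, w = hf x' y' := ⟨_, rfl⟩
  have hxy : hf x y = -(p * (starRingEnd ℂ) q) + w := by
    rw [hw, hx', hy', hp, hq]; exact dec_inner x y z hz
  have hwn : ‖w‖ ≤ A * B := by
    have h3 := perp_cs z x' y' hz hxz hyz
    rw [hxx, hyy, ← hw, Complex.ofReal_re, Complex.ofReal_re] at h3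
    have h4 : ‖w‖ ^ 2 ≤ (A * B) ^ 2 := by rw [mul_pow]; exact h3
    exact le_of_sq_le_sq h4 (by positivity)
  have hvn : ‖-(p * (starRingEnd ℂ) q)‖ = a * b := by
    rw [norm_neg, norm_mul, Complex.norm_conj, hpn, hqn]
  have hsum : ‖-(p * (starRingEnd ℂ) q) + w‖ = a * b + A * B := by
    rw [← hxy, ← h, E]
  have hray := ray_eq _ w (a * b) (A * B) hvn hwn hsum
  have ha0 : (a : ℂ) ≠ 0 := by exact_mod_cast (by linarith : a ≠ 0)
  have hb0 : (b : ℂ) ≠ 0 := by exact_mod_cast (by linarith : b ≠ 0)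
  have hAc : (A : ℂ) ≠ 0 := by exact_mod_cast hA0.ne'
  have hBc : (B : ℂ) ≠ 0 := by exact_mod_cast hB0.ne'
  have hqc : (starRingEnd ℂ) q ≠ 0 := by simpa using hq0
  have hpc : (starRingEnd ℂ) p ≠ 0 := by simpa using hp0
  have hpp : p * (starRingEnd ℂ) p = (a : ℂ) ^ 2 := by
    rw [Complex.mul_conj, Complex.normSq_eq_norm_sq, hpn]; push_cast; ring
  have hqq : q * (starRingEnd ℂ) q = (b : ℂ) ^ 2 := by
    rw [Complex.mul_conj, Complex.normSq_eq_norm_sq, hqn]; push_cast; ring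
  obtain ⟨u, hu⟩ : ∃ u : V, u = (-((a : ℂ) / (p * A))) • x' := ⟨_, rfl⟩
  obtain ⟨u2, hu2⟩ : ∃ u2 : V, u2 = (-((b : ℂ) / (q * B))) • y' := ⟨_, rfl⟩
  have huz : hf u z = 0 := by rw [hu, hf_smul_left, hxz, mul_zero]
  have hu2z : hf u2 z = 0 := by rw [hu2, hf_smul_left, hyz, mul_zero]
  have huu : hf u u = 1 := by
    rw [hu, hf_smul_left, hf_smul_right, hxx]
    simp only [map_neg, map_div₀, map_mul, Complex.conj_ofReal]
    push_cast
    field_simp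
    linear_combination -hpp
  have huu2 : hf u2 u2 = 1 := by
    rw [hu2, hf_smul_left, hf_smul_right, hyy]
    simp only [map_neg, map_div₀, map_mul, Complex.conj_ofReal]
    push_cast
    field_simp
    linear_combination -hqq
  have hcross : hf u u2 = -1 := by
    rw [hu, hu2, hf_smul_left, hf_smul_right, ← hw]
    simp only [map_neg, map_div₀, map_mul, Complex.conj_ofReal]
    push_cast at hray
    field_simp
    linear_combination -hray
  have hcross2 : hf u2 u = -1 := by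
    rw [hf_conj u u2, hcross]; simp
  have hsum0 : u + u2 = 0 := by
    apply perp_eq_zero z _ hz
    · rw [hf_add_left, huz, hu2z, add_zero]
    · rw [hf_add_left, hf_add_right, hf_add_right, huu, huu2, hcross, hcross2]; simp
  have hu2' : u = -u2 := eq_neg_of_add_eq_zero_left hsum0
  refine ⟨u, huz, huu, t1, t2, ht1, ht2, ⟨-(p / a), ?_, ?_⟩, ⟨-(q / b), ?_, ?_⟩⟩
  · rw [norm_neg, norm_div, hpn, Complex.norm_real, Real.norm_of_nonneg (by linarith)]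
    exact div_self (by linarith)
  · rw [geo, hc1, hs1, hu, smul_add, smul_smul, smul_smul, smul_smul]
    have e1 : -(p / (a : ℂ)) * (a : ℂ) = -p := by field_simp
    have e2 : -(p / (a : ℂ)) * (A : ℂ) * -((a : ℂ) / (p * A)) = 1 := by field_simp
    rw [e1, e2, one_smul, hx', ← hp, neg_smul]
    abel
  · rw [norm_neg, norm_div, hqn, Complex.norm_real, Real.norm_of_nonneg (by linarith)]
    exact div_self (by linarith)
  · rw [geo, Real.cosh_neg, Real.sinh_neg, hc2, hs2, hu2', hu2, smul_add, smul_smul, smul_neg,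
      smul_smul, smul_neg, smul_smul]
    have e1 : -(q / (b : ℂ)) * (b : ℂ) = -q := by field_simp
    have e2 : -(-(q / (b : ℂ)) * (((-B : ℝ) : ℂ) * -((b : ℂ) / (q * B)))) = 1 := by
      push_cast; field_simp
    rw [e1, ← neg_smul, e2, one_smul, hy', ← hq, neg_smul]
    abel

end Pool.Agent.YG
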