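import Pool.Agent.YG.G01Pos

/-!
# YG-G06: logarithmic derivatives of `E` along geodesics

`z` unit negative, `u ⟂ z` with `hf u u = 1`; for a unit negative `v` put `β v = hf u v / hf z v`.

* `E_geo`: `E (geo z u t) v = E z v * |cosh t + sinh t β|`.
* `beta_diff`: `|β v - β w|^2 ≤ 2 E v w / (E z v E z w)`. Proof: put `v1 = (1/hf v z) • v`,
  `w1 = (1/hf w z) • w`: `hf v1 z = hf w1 z = 1`, so `v1 - w1 ⟂ z` and
  `hf (v1-w1)(v1-w1) = -1/E^2 - 1/E^2 - 2 Re hf v1 w1 ≤ 2 E v w/(E z v E z w)`, while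
  `hf (v1-w1) u = conj (β v) - conj (β w)`; conclude by `perp_cs z (v1-w1) u`.
-/

set_option autoImplicit false

namespace Pool.Agent.YG

open Matrix

theorem geo_unit (z u : V) (hz : hf z z = -1) (hu : hf u u = 1) (huz : hf u z = 0) (t : ℝ) :
    hf (geo z u t) (geo z u t) = -1 := by
  have huz' : hf z u = 0 := by rw [hf_conj u z, huz]; simp
  have h := Real.cosh_sq t
  have h' : ((Real.cosh t : ℝ) : ℂ) ^ 2 = ((Real.sinh t : ℝ) : ℂ) ^ 2 + 1 := by exact_mod_cast h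
  simp only [geo, hf_add_left, hf_add_right, hf_smul_left, hf_smul_right, Complex.conj_ofReal, hz, hu,
    huz, huz']
  linear_combination -h'

theorem E_z_geo (z u : V) (hz : hf z z = -1) (hu : hf u u = 1) (huz : hf u z = 0) (t : ℝ) :
    E z (geo z u t) = Real.cosh t := by
  have huz' : hf z u = 0 := by rw [hf_conj u z, huz]; simp
  have h : hf z (geo z u t) = ((-Real.cosh t : ℝ) : ℂ) := by
    simp only [geo, hf_add_right, hf_smul_right, Complex.conj_ofReal, hz, huz']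
    push_cast
    ring
  rw [E, h, Complex.norm_real, Real.norm_eq_abs, abs_neg, abs_of_pos (Real.cosh_pos t)]

theorem hf_ne_zero (z v : V) (hz : hf z z = -1) (hv : hf v v = -1) : hf z v ≠ 0 := by
  intro h
  have h1 := one_le_E z v hz hv
  rw [E, h, norm_zero] at h1
  linarith

theorem E_geo (z u v : V) (hz : hf z z = -1) (hv : hf v v = -1) (t : ℝ) :
    E (geo z u t) v = E z v * ‖((Real.cosh t : ℝ) : ℂ) + ((Real.sinh t : ℝ) : ℂ) * (hf u v / hf z v)‖ := by
  have h0 := hf_ne_zero z v hz hv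
  rw [E, E, ← norm_mul]
  congr 1
  simp only [geo, hf_add_left, hf_smul_left]
  field_simp

theorem beta_diff (z u v w : V) (hz : hf z z = -1) (hu : hf u u = 1) (huz : hf u z = 0)
    (hv : hf v v = -1) (hw : hf w w = -1) :
    ‖hf u v / hf z v - hf u w / hf z w‖ ^ 2 ≤ 2 * E v w / (E z v * E z w) := by
  have hv0 := hf_ne_zero z v hz hv
  have hw0 := hf_ne_zero z w hz hw
  obtain ⟨a, ha⟩ : ∃ a, a = hf v z := ⟨_, rfl⟩
  obtain ⟨b, hb⟩ : ∃ b, b = hf w z := ⟨_, rfl⟩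
  have hav : hf z v = (starRingEnd ℂ) a := by rw [ha, ← hf_conj]
  have hbw : hf z w = (starRingEnd ℂ) b := by rw [hb, ← hf_conj]
  have ha0 : a ≠ 0 := by
    rintro rfl
    exact hv0 (by rw [hav]; simp)
  have hb0 : b ≠ 0 := by
    rintro rfl
    exact hw0 (by rw [hbw]; simp)
  have hca0 : (starRingEnd ℂ) a ≠ 0 := (map_ne_zero _).mpr ha0
  have hcb0 : (starRingEnd ℂ) b ≠ 0 := (map_ne_zero _).mpr hb0
  have hd : hf (a⁻¹ • v - b⁻¹ • w) z = 0 := by
    rw [hf_sub_left, hf_smul_left, hf_smul_left, ← ha, ← hb, inv_mul_cancel₀ ha0,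
      inv_mul_cancel₀ hb0, sub_self]
  have hcs := perp_cs z (a⁻¹ • v - b⁻¹ • w) u hz hd huz
  have h1 : hf (a⁻¹ • v - b⁻¹ • w) u =
      (starRingEnd ℂ) (hf u v / hf z v - hf u w / hf z w) := by
    rw [hf_sub_left, hf_smul_left, hf_smul_left, hav, hbw, map_sub, map_div₀, map_div₀,
      Complex.conj_conj, Complex.conj_conj, ← hf_conj u v, ← hf_conj u w]
    field_simp
  rw [h1, Complex.norm_conj, hu, Complex.one_re, mul_one] at hcs
  refine hcs.trans ?_
  have hEa : E z v = ‖a‖ := by rw [E, hav, Complex.norm_conj]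
  have hEb : E z w = ‖b‖ := by rw [E, hbw, Complex.norm_conj]
  have hna : 0 < ‖a‖ := norm_pos_iff.mpr ha0
  have hnb : 0 < ‖b‖ := norm_pos_iff.mpr hb0
  have hexp : hf (a⁻¹ • v - b⁻¹ • w) (a⁻¹ • v - b⁻¹ • w) =
      -(a⁻¹ * (starRingEnd ℂ) a⁻¹) - (b⁻¹ * (starRingEnd ℂ) b⁻¹)
        - (a⁻¹ * ((starRingEnd ℂ) b⁻¹ * hf v w) + (starRingEnd ℂ) (a⁻¹ * ((starRingEnd ℂ) b⁻¹ * hf v w))) := by
    have hwv : hf w v = (starRingEnd ℂ) (hf v w) := hf_conj v w
    simp only [hf_sub_left, hf_sub_right, hf_smul_left, hf_smul_right, hv, hw, hwv, map_mul,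
      Complex.conj_conj]
    ring
  have hre : (hf (a⁻¹ • v - b⁻¹ • w) (a⁻¹ • v - b⁻¹ • w)).re =
      -(Complex.normSq a⁻¹) - Complex.normSq b⁻¹ - 2 * (a⁻¹ * ((starRingEnd ℂ) b⁻¹ * hf v w)).re := by
    rw [hexp, Complex.mul_conj, Complex.mul_conj]
    simp only [Complex.sub_re, Complex.neg_re, Complex.add_re, Complex.conj_re, Complex.ofReal_re]
    ring
  have hn : ‖a⁻¹ * ((starRingEnd ℂ) b⁻¹ * hf v w)‖ = E v w / (E z v * E z w) := by
    rw [norm_mul, norm_mul, Complex.norm_conj, norm_inv, norm_inv, hEa, hEb, E]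
    field_simp
  have hle : -(a⁻¹ * ((starRingEnd ℂ) b⁻¹ * hf v w)).re ≤ E v w / (E z v * E z w) := by
    rw [← hn]
    have := Complex.abs_re_le_norm (a⁻¹ * ((starRingEnd ℂ) b⁻¹ * hf v w))
    exact (neg_le_abs _).trans this
  have hA := Complex.normSq_nonneg a⁻¹
  have hB := Complex.normSq_nonneg b⁻¹
  have h2 : 2 * E v w / (E z v * E z w) = 2 * (E v w / (E z v * E z w)) := by ring
  rw [hre, h2]
  linarith

/-- moving the base point along the geodesic: new base point `geo z u s`, new direction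
`sinh s z + cosh s u` -/
theorem geo_shift (z u : V) (hz : hf z z = -1) (hu : hf u u = 1) (huz : hf u z = 0) (s : ℝ) :
    ∃ u' : V, hf u' u' = 1 ∧ hf u' (geo z u s) = 0 ∧
      ∀ t : ℝ, geo (geo z u s) u' t = geo z u (s + t) := by
  have huz' : hf z u = 0 := by rw [hf_conj u z, huz]; simp
  have h := Real.cosh_sq s
  have h' : ((Real.cosh s : ℝ) : ℂ) ^ 2 = ((Real.sinh s : ℝ) : ℂ) ^ 2 + 1 := by exact_mod_cast h
  refine ⟨((Real.sinh s : ℝ) : ℂ) • z + ((Real.cosh s : ℝ) : ℂ) • u, ?_, ?_, ?_⟩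
  · simp only [hf_add_left, hf_add_right, hf_smul_left, hf_smul_right, Complex.conj_ofReal, hz, hu,
      huz, huz']
    linear_combination h'
  · simp only [geo, hf_add_left, hf_add_right, hf_smul_left, hf_smul_right, Complex.conj_ofReal, hz,
      hu, huz, huz']
    ring
  · intro t
    simp only [geo, Real.cosh_add, Real.sinh_add]
    push_cast
    module

end Pool.Agent.YG
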