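import Mathlib

/-!
# YG-G07: the scalar second difference inequality

`scal2`: for `m ≥ 1`, `(2m+4) (Re β)^2 < 1` and `h ≠ 0`:
`|cosh h + sinh h β|^(-2m) + |cosh h - sinh h β|^(-2m) < 2`.

Proof. WLOG `h > 0`; `T = tanh h ∈ (0,1)`, `p = Re β`, `q = |β|^2 ≥ p^2`.
`|cosh h + sinh h β|^2 = cosh^2 h (1 + 2pT + qT^2)` and `cosh^2 h = 1/(1-T^2)`. Since
`1 ± 2pT + qT^2 ≥ 1 ± 2pT > 0` (`|p| < 1/2`), the sum is at most
`(1-T^2)^m [ (1+2pT)^(-m) + (1-2pT)^(-m) ] = (1-T^2)^m [ (1-x)^m + (1+x)^m ] / (1-x^2)^m`, `x = 2pT`.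
`(1+x)^m + (1-x)^m ≤ e^{mx} + e^{-mx} = 2 cosh(mx) ≤ 2 e^{m^2x^2/2}` (`Real.cosh_le_exp_half_sq`), so the sum
is `≤ 2 [ (1-T^2) e^{m x^2/2} / (1-x^2) ]^m` and it suffices that
`(1-T^2) e^{2 m p^2 T^2} < 1 - 4 p^2 T^2`. With `e^u ≤ 1/(1-u)` (`u = 2mp^2T^2 < 1`) it suffices
`1 - T^2 < (1 - 2mp^2T^2)(1 - 4p^2T^2)`, and the right side is `≥ 1 - (2m+4)p^2T^2 > 1 - T^2`.
(If `1 - T^2`... everything is positive.)

`scal3`: if `Re β ≥ 0`, `h > 0`, `m ≥ 1` then `|cosh h + sinh h β| ≥ cosh h > 1`, so its `-2m`-th power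
is `< 1`. Likewise with `Re β ≤ 0` and `-`.
-/

set_option autoImplicit false

namespace Pool.Agent.YG

private theorem normsq_eq (c s : ℝ) (β : ℂ) :
    ‖(c : ℂ) + (s : ℂ) * β‖ ^ 2 = (c + s * β.re) ^ 2 + (s * β.im) ^ 2 := by
  rw [← Complex.normSq_eq_norm_sq, Complex.normSq_apply]
  simp
  ring

private theorem expo_aux (m : ℕ) (hm : 1 ≤ m) (c s p : ℝ) (hcs : c ^ 2 - s ^ 2 = 1) (hc : 0 < c)
    (hs : s ≠ 0) (hp : (2 * (m : ℝ) + 4) * p ^ 2 < 1) :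
    0 < c ^ 2 + 2 * c * s * p ∧ 0 < c ^ 2 - 2 * c * s * p ∧
      ((c ^ 2 + 2 * c * s * p) ^ m)⁻¹ + ((c ^ 2 - 2 * c * s * p) ^ m)⁻¹ < 2 := by
  have hm1 : (1 : ℝ) ≤ (m : ℝ) := by exact_mod_cast hm
  set T : ℝ := s / c with hT
  have hsT : s = T * c := by rw [hT]; field_simp
  have hT2 : c ^ 2 * (1 - T ^ 2) = 1 := by
    rw [hT]; field_simp; linarith
  have hc2 : 0 < c ^ 2 := by positivity
  have hTpos : 0 < T ^ 2 := by
    have : T ≠ 0 := by rw [hT]; positivity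
    positivity
  have hT1 : T ^ 2 < 1 := by
    have : 0 < 1 - T ^ 2 := by
      by_contra hcon
      push Not at hcon
      nlinarith
    linarith
  set x : ℝ := 2 * p * T with hx
  have hp2 : 0 ≤ p ^ 2 := sq_nonneg p
  have h4p : 4 * p ^ 2 < 1 := by nlinarith
  have hx2 : x ^ 2 < 1 := by
    rw [hx]
    have : (2 * p * T) ^ 2 = 4 * p ^ 2 * T ^ 2 := by ring
    rw [this]; nlinarith
  have hxabs : |x| < 1 := by
    rw [← sq_lt_one_iff_abs_lt_one]; exact hx2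
  obtain ⟨hxl, hxu⟩ := abs_lt.mp hxabs
  have hA : c ^ 2 + 2 * c * s * p = c ^ 2 * (1 + x) := by
    rw [hx, hsT]; ring
  have hB : c ^ 2 - 2 * c * s * p = c ^ 2 * (1 - x) := by
    rw [hx, hsT]; ring
  have hApos : 0 < c ^ 2 * (1 + x) := by
    apply mul_pos hc2; linarith
  have hBpos : 0 < c ^ 2 * (1 - x) := by
    apply mul_pos hc2; linarith
  rw [hA, hB]
  refine ⟨hApos, hBpos, ?_⟩
  -- sum of inverses
  have hsum : ((c ^ 2 * (1 + x)) ^ m)⁻¹ + ((c ^ 2 * (1 - x)) ^ m)⁻¹ =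
      ((1 + x) ^ m + (1 - x) ^ m) / (c ^ 2 * (1 - x ^ 2)) ^ m := by
    have e1 : (1 - x ^ 2) = (1 + x) * (1 - x) := by ring
    have h1 : (1 + x) ^ m ≠ 0 := by
      have : 0 < 1 + x := by linarith
      positivity
    have h2 : (1 - x) ^ m ≠ 0 := by
      have : 0 < 1 - x := by linarith
      positivity
    rw [e1, mul_pow, mul_pow, mul_pow, mul_pow]
    field_simp
    ring
  have hle : (1 + x) ^ m + (1 - x) ^ m ≤ 2 * Real.exp (m * x ^ 2 / 2) ^ m := by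
    have e1 : (1 + x) ^ m ≤ Real.exp (m * x) := by
      have h1 : 1 + x ≤ Real.exp x := by
        have := Real.add_one_le_exp x; linarith
      calc (1 + x) ^ m ≤ (Real.exp x) ^ m := pow_le_pow_left₀ (by linarith) h1 m
        _ = Real.exp (m * x) := by rw [← Real.exp_nat_mul]
    have e2 : (1 - x) ^ m ≤ Real.exp (-(m * x)) := by
      have h1 : 1 - x ≤ Real.exp (-x) := by
        have := Real.add_one_le_exp (-x); linarith
      calc (1 - x) ^ m ≤ (Real.exp (-x)) ^ m := pow_le_pow_left₀ (by linarith) h1 m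
        _ = Real.exp (-(m * x)) := by rw [← Real.exp_nat_mul]; ring_nf
    have e3 := Real.cosh_le_exp_half_sq (m * x)
    rw [Real.cosh_eq] at e3
    have e4 : Real.exp ((m * x) ^ 2 / 2) = Real.exp (m * x ^ 2 / 2) ^ m := by
      rw [← Real.exp_nat_mul]; congr 1; ring
    rw [← e4]
    linarith
  have hD : 0 < c ^ 2 * (1 - x ^ 2) := by
    apply mul_pos hc2; linarith
  have hkey : Real.exp (m * x ^ 2 / 2) < c ^ 2 * (1 - x ^ 2) := by
    set u : ℝ := 2 * m * p ^ 2 * T ^ 2 with hu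
    have hxu' : m * x ^ 2 / 2 = u := by rw [hu, hx]; ring
    have hu0 : 0 ≤ u := by positivity
    have hmp : 2 * (m : ℝ) * p ^ 2 < 1 := by nlinarith
    have hu1 : u < 1 := by
      rw [hu]
      have : 2 * (m : ℝ) * p ^ 2 * T ^ 2 ≤ 1 * T ^ 2 := by
        apply mul_le_mul_of_nonneg_right hmp.le hTpos.le
      linarith
    have hexp : Real.exp u ≤ 1 / (1 - u) := by
      have h1 : 1 - u ≤ Real.exp (-u) := by
        have := Real.add_one_le_exp (-u); linarith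
      rw [Real.exp_neg] at h1
      have h2 : 0 < Real.exp u := Real.exp_pos u
      rw [le_div_iff₀ (by linarith)]
      calc Real.exp u * (1 - u) ≤ Real.exp u * (Real.exp u)⁻¹ :=
            mul_le_mul_of_nonneg_left h1 h2.le
        _ = 1 := mul_inv_cancel₀ h2.ne'
    rw [hxu']
    refine lt_of_le_of_lt hexp ?_
    rw [div_lt_iff₀ (by linarith)]
    have hx3 : x ^ 2 = 4 * p ^ 2 * T ^ 2 := by rw [hx]; ring
    rw [hx3]
    have h5 : 1 - T ^ 2 < (1 - 4 * p ^ 2 * T ^ 2) * (1 - u) := by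
      have h6 : 0 ≤ 4 * p ^ 2 * T ^ 2 * u := by positivity
      have h7 : (2 * (m : ℝ) + 4) * p ^ 2 * T ^ 2 < 1 * T ^ 2 :=
        mul_lt_mul_of_pos_right hp hTpos
      have h8 : (1 - 4 * p ^ 2 * T ^ 2) * (1 - u) =
          1 - (2 * (m : ℝ) + 4) * p ^ 2 * T ^ 2 + 4 * p ^ 2 * T ^ 2 * u := by
        rw [hu]; ring
      rw [h8]; linarith
    calc (1 : ℝ) = c ^ 2 * (1 - T ^ 2) := hT2.symm
      _ < c ^ 2 * ((1 - 4 * p ^ 2 * T ^ 2) * (1 - u)) := mul_lt_mul_of_pos_left h5 hc2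
      _ = c ^ 2 * (1 - 4 * p ^ 2 * T ^ 2) * (1 - u) := by ring
  rw [hsum, div_lt_iff₀ (pow_pos hD m)]
  refine lt_of_le_of_lt hle ?_
  have := pow_lt_pow_left₀ hkey (Real.exp_pos _).le (by omega : m ≠ 0)
  linarith

theorem scal2 (m : ℕ) (hm : 1 ≤ m) (β : ℂ) (hβ : (2 * (m : ℝ) + 4) * β.re ^ 2 < 1) (h : ℝ)
    (h0 : h ≠ 0) :
    (‖((Real.cosh h : ℝ) : ℂ) + ((Real.sinh h : ℝ) : ℂ) * β‖ ^ (2 * m))⁻¹ +
      (‖((Real.cosh (-h) : ℝ) : ℂ) + ((Real.sinh (-h) : ℝ) : ℂ) * β‖ ^ (2 * m))⁻¹ < 2 := by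
  have hs : Real.sinh h ≠ 0 := by
    rw [Ne, Real.sinh_eq_zero]; exact h0
  obtain ⟨hA, hB, hlt⟩ := expo_aux m hm (Real.cosh h) (Real.sinh h) β.re (Real.cosh_sq_sub_sinh_sq h)
    (Real.cosh_pos h) hs hβ
  rw [Real.cosh_neg, Real.sinh_neg, pow_mul, pow_mul, normsq_eq, normsq_eq]
  refine lt_of_le_of_lt (add_le_add ?_ ?_) hlt
  · apply inv_anti₀ (pow_pos hA m)
    apply pow_le_pow_left₀ hA.le
    nlinarith [sq_nonneg (Real.sinh h * β.re), sq_nonneg (Real.sinh h * β.im)]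
  · apply inv_anti₀ (pow_pos hB m)
    apply pow_le_pow_left₀ hB.le
    nlinarith [sq_nonneg (Real.sinh h * β.re), sq_nonneg (-Real.sinh h * β.im)]

theorem scal3 (m : ℕ) (hm : 1 ≤ m) (β : ℂ) (h : ℝ) (h0 : 0 < h * β.re ∨ (h ≠ 0 ∧ β.re = 0)) :
    (‖((Real.cosh h : ℝ) : ℂ) + ((Real.sinh h : ℝ) : ℂ) * β‖ ^ (2 * m))⁻¹ < 1 := by
  have hne : h ≠ 0 := by
    rcases h0 with h1 | h1
    · intro hh; rw [hh] at h1; simp at h1
    · exact h1.1
  have hc1 : 1 < Real.cosh h := Real.one_lt_cosh.mpr hne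
  have hsp : 0 ≤ Real.sinh h * β.re := by
    rcases h0 with h1 | h1
    · rcases lt_or_gt_of_ne hne with hh | hh
      · have h2 : Real.sinh h < 0 := Real.sinh_neg_iff.mpr hh
        have h3 : β.re < 0 := by
          by_contra hcon
          push Not at hcon
          nlinarith
        nlinarith
      · have h2 : 0 < Real.sinh h := Real.sinh_pos_iff.mpr hh
        have h3 : 0 < β.re := by
          by_contra hcon
          push Not at hcon
          nlinarith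
        positivity
    · rw [h1.2]; simp
  rw [pow_mul, normsq_eq]
  apply inv_lt_one_of_one_lt₀
  apply one_lt_pow₀ _ (by omega)
  nlinarith [sq_nonneg (Real.sinh h * β.im)]

end Pool.Agent.YG
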