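import Pool.Agent.YG.G06Beta
import Pool.Agent.YG.G07Scal

/-!
# YG-G08: the local contradiction at a minimum

`fsum v m x = ∑ i, E x (v i) ^ (-2m)`. Suppose `z` unit negative, `u ⟂ z` unit, `fsum v m z < R^(-2m)`, and
`z` is a local minimum of `fsum` along `geo z u`. With the quasi-convexity bound (hK) this is impossible.

Proof. `β i = hf u (v i) / hf z (v i)`. Every term of `fsum v m z` is `≤ fsum v m z < R^(-2m)`, so
`E z (v i) > R` for all `i`. By `beta_diff` and `hK`: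
`|β i - β j|^2 ≤ 2 E (v i) (v j) / (E z (v i) E z (v j)) ≤ 2K / E z (v n)^2 < 2K/R^2` (if `K ≤ 0`... K is positive
automatically because `E ≥ 1` (`hK` with `i = j` gives `1 * E^2 ≤ K * E^2`)).
Write `E (geo z u t) (v i) = E z (v i) * |cosh t + sinh t β i|` (`E_geo`).
(1) Not all `Re β i ≥ 0`: otherwise for a small `t > 0` every term strictly decreases
(`scal3`), so `fsum (geo z u t) < fsum z` (`Summable.tsum_lt_tsum` / `tsum_lt_tsum`, `ι` nonempty), contradicting `hmin`.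
Not all `Re β i ≤ 0` (small `t < 0`). So some `Re β i < 0 < Re β j`, and then for every `k`:
`|Re β k| ≤ max |Re β k - Re β i|, |Re β k - Re β j| < sqrt(2K)/R`
(if `Re β k ≥ 0` then `0 ≤ Re β k < Re β k - Re β i`, else similarly), so
`(2m+4) (Re β k)^2 ≤ (2m+4) 2K/R^2 < 1`.
(2) By `scal2` every `E z^(-2m) (|..h..|^(-2m) + |..-h..|^(-2m)) < 2 E z^(-2m)`; sum over `i`:
`fsum (geo z u h) + fsum (geo z u (-h)) < 2 fsum z`, contradicting `hmin` for `h = δ/2`.
-/

set_option autoImplicit false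

namespace Pool.Agent.YG

open Matrix

/-- the function whose superlevel sets are convex -/
noncomputable def fsum {ι : Type*} (v : ι → V) (m : ℕ) (x : V) : ℝ := ∑' i, (E x (v i) ^ (2 * m))⁻¹

theorem local_contra {ι : Type*} [Nonempty ι] (v : ι → V) (hv : ∀ i, hf (v i) (v i) = -1)
    (m : ℕ) (hm : 1 ≤ m)
    (hS : ∀ x, hf x x = -1 → Summable fun i => (E x (v i) ^ (2 * m))⁻¹)
    (K R : ℝ) (hR0 : 0 < R) (hR : 2 * K * (2 * (m : ℝ) + 4) < R ^ 2)
    (z u : V) (hz : hf z z = -1) (hu : hf u u = 1) (huz : hf u z = 0)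
    (hK : ∀ i j, ∃ n, E (v i) (v j) * E z (v n) ^ 2 ≤ K * E z (v i) * E z (v j))
    (hlt : fsum v m z < (R ^ (2 * m))⁻¹)
    (δ : ℝ) (hδ : 0 < δ) (hmin : ∀ t : ℝ, |t| < δ → fsum v m z ≤ fsum v m (geo z u t)) : False := by
  -- positivity of the `E`
  have hpos : ∀ i, 0 < E z (v i) := fun i => norm_pos_iff.2 (hf_ne_zero z (v i) hz (hv i))
  have hposij : ∀ i j, 0 < E (v i) (v j) := fun i j =>
    norm_pos_iff.2 (hf_ne_zero (v i) (v j) (hv i) (hv j))
  -- `R < E z (v i)`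
  have hbig : ∀ i, R < E z (v i) := by
    intro i
    have h1 : (E z (v i) ^ (2 * m))⁻¹ ≤ fsum v m z :=
      (hS z hz).le_tsum i (fun j _ => inv_nonneg.2 (pow_nonneg (hpos j).le _))
    have h2 : (E z (v i) ^ (2 * m))⁻¹ < (R ^ (2 * m))⁻¹ := lt_of_le_of_lt h1 hlt
    have h3 : R ^ (2 * m) < E z (v i) ^ (2 * m) :=
      (inv_lt_inv₀ (pow_pos (hpos i) _) (pow_pos hR0 _)).1 h2
    exact lt_of_pow_lt_pow_left₀ _ (hpos i).le h3
  -- the logarithmic derivatives
  obtain ⟨β, hβ⟩ : ∃ β : ι → ℂ, ∀ i, β i = hf u (v i) / hf z (v i) := ⟨_, fun _ => rfl⟩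
  have hR2 : 0 < R ^ 2 := by positivity
  have hdiff : ∀ i j, ‖β i - β j‖ ^ 2 ≤ 2 * K / R ^ 2 := by
    intro i j
    obtain ⟨n, hn⟩ := hK i j
    have h1 := beta_diff z u (v i) (v j) hz hu huz (hv i) (hv j)
    rw [← hβ, ← hβ] at h1
    refine h1.trans ?_
    have hij : 0 < E z (v i) * E z (v j) := mul_pos (hpos i) (hpos j)
    rw [div_le_div_iff₀ hij hR2]
    have h2 : R ^ 2 ≤ E z (v n) ^ 2 := by
      have := (hbig n).le
      gcongr
    have h3 : E (v i) (v j) * R ^ 2 ≤ E (v i) (v j) * E z (v n) ^ 2 :=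
      mul_le_mul_of_nonneg_left h2 (hposij i j).le
    nlinarith [h3, hn]
  -- the terms along the geodesic
  have hterm : ∀ (t : ℝ) i, (E (geo z u t) (v i) ^ (2 * m))⁻¹ = (E z (v i) ^ (2 * m))⁻¹ *
      (‖((Real.cosh t : ℝ) : ℂ) + ((Real.sinh t : ℝ) : ℂ) * β i‖ ^ (2 * m))⁻¹ := by
    intro t i
    rw [E_geo z u (v i) hz (hv i) t, hβ, mul_pow, mul_inv]
  have hSg : ∀ t : ℝ, Summable fun i => (E (geo z u t) (v i) ^ (2 * m))⁻¹ := fun t =>
    hS _ (geo_unit z u hz hu huz t)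
  -- (1)
  have hone : ∀ t : ℝ, |t| < δ → t ≠ 0 → ¬ ∀ i, 0 ≤ t * (β i).re := by
    intro t ht ht0 hall
    obtain ⟨i0⟩ := ‹Nonempty ι›
    have hlt' : ∀ i, (E (geo z u t) (v i) ^ (2 * m))⁻¹ < (E z (v i) ^ (2 * m))⁻¹ := by
      intro i
      rw [hterm t i]
      have h1 : 0 < t * (β i).re ∨ (t ≠ 0 ∧ (β i).re = 0) := by
        rcases (hall i).lt_or_eq with h | h
        · exact Or.inl h
        · right
          refine ⟨ht0, ?_⟩
          rcases mul_eq_zero.1 h.symm with h' | h'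
          · exact absurd h' ht0
          · exact h'
      have h2 := scal3 m hm (β i) t h1
      have h3 : 0 < (E z (v i) ^ (2 * m))⁻¹ := inv_pos.2 (pow_pos (hpos i) _)
      calc (E z (v i) ^ (2 * m))⁻¹ *
          (‖((Real.cosh t : ℝ) : ℂ) + ((Real.sinh t : ℝ) : ℂ) * β i‖ ^ (2 * m))⁻¹
          < (E z (v i) ^ (2 * m))⁻¹ * 1 := mul_lt_mul_of_pos_left h2 h3
        _ = (E z (v i) ^ (2 * m))⁻¹ := mul_one _
    have h4 : fsum v m (geo z u t) < fsum v m z :=
      Summable.tsum_lt_tsum (fun i => (hlt' i).le) (hlt' i0) (hSg t) (hS z hz)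
    linarith [hmin t ht]
  have hδ2 : |δ / 2| < δ := by rw [abs_of_pos (by linarith)]; linarith
  have hδ2' : |-(δ / 2)| < δ := by rw [abs_neg]; exact hδ2
  obtain ⟨i, hi⟩ : ∃ i, (β i).re < 0 := by
    by_contra hcon
    push Not at hcon
    exact hone (δ / 2) hδ2 (by linarith) (fun i => mul_nonneg (by linarith) (hcon i))
  obtain ⟨j, hj⟩ : ∃ j, 0 < (β j).re := by
    by_contra hcon
    push Not at hcon
    exact hone (-(δ / 2)) hδ2' (by linarith) (fun i => by nlinarith [hcon i])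
  have hre : ∀ k, (2 * (m : ℝ) + 4) * (β k).re ^ 2 < 1 := by
    intro k
    have h1 : (β k).re ^ 2 ≤ 2 * K / R ^ 2 := by
      rcases le_or_gt 0 (β k).re with h | h
      · refine le_trans ?_ (hdiff k i)
        have h2 : (β k).re ≤ ‖β k - β i‖ := by
          have := Complex.re_le_norm (β k - β i)
          rw [Complex.sub_re] at this
          linarith
        gcongr
      · refine le_trans ?_ (hdiff j k)
        have h2 : -(β k).re ≤ ‖β j - β k‖ := by
          have := Complex.re_le_norm (β j - β k)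
          rw [Complex.sub_re] at this
          linarith
        have h3 : (-(β k).re) ^ 2 ≤ ‖β j - β k‖ ^ 2 := by
          have : 0 ≤ -(β k).re := by linarith
          gcongr
        simpa using h3
    have h4 : (2 * (m : ℝ) + 4) * (2 * K / R ^ 2) < 1 := by
      rw [← mul_div_assoc, div_lt_one hR2]
      linarith
    have h5 : (2 * (m : ℝ) + 4) * (β k).re ^ 2 ≤ (2 * (m : ℝ) + 4) * (2 * K / R ^ 2) :=
      mul_le_mul_of_nonneg_left h1 (by positivity)
    linarith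
  -- (2)
  have hlt2 : ∀ k, (E (geo z u (δ / 2)) (v k) ^ (2 * m))⁻¹ + (E (geo z u (-(δ / 2))) (v k) ^ (2 * m))⁻¹ <
      (E z (v k) ^ (2 * m))⁻¹ + (E z (v k) ^ (2 * m))⁻¹ := by
    intro k
    rw [hterm, hterm, ← mul_add]
    have h1 := scal2 m hm (β k) (hre k) (δ / 2) (by linarith)
    have h3 : 0 < (E z (v k) ^ (2 * m))⁻¹ := inv_pos.2 (pow_pos (hpos k) _)
    have h4 := mul_lt_mul_of_pos_left h1 h3
    linarith
  have h5 : fsum v m (geo z u (δ / 2)) + fsum v m (geo z u (-(δ / 2))) < fsum v m z + fsum v m z := by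
    unfold fsum
    rw [← (hSg (δ / 2)).tsum_add (hSg (-(δ / 2))), ← (hS z hz).tsum_add (hS z hz)]
    exact Summable.tsum_lt_tsum (fun k => (hlt2 k).le) (hlt2 i) ((hSg (δ / 2)).add (hSg (-(δ / 2))))
      ((hS z hz).add (hS z hz))
  linarith [hmin (δ / 2) hδ2, hmin (-(δ / 2)) hδ2']

end Pool.Agent.YG
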