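import Pool.Agent.YG.Basic

/-!
# YG-L01: numerical values and relations of the generators

* Numbers: `cos (π/5) = (1+√5)/4` (`Real.cos_pi_div_five`), `cos^2 (π/10) = (1 + cos (π/5))/2`,
  `sin^2 (π/20) = (1 - cos (π/10))/2`, so `cc^2 = 1/(4 sin^2(π/20)) = 1/(2 - 2 cos(π/10))`.
  Values: `cos (π/10) = 0.95105651..`, `cc = 3.19622661..`, `ss = 3.03576..`.
* `key`: `1 - ω = 1 - e^{iπ/10} = -2i sin(π/20) e^{iπ/20}`, `cc * 2 sin(π/20) = 1`, so
  `cc ω (1-ω) = -i ζ^3 = ζ^{-10} ζ^3 = ζ^{-7} = ζ^{33}` (`ζ^{10} = i`, `ζ^{20} = -1`, `ζ^{40} = 1`).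
* `hah`: with `c = cc, s = ss, κ = ka = c ω (1-ω)`, `s^2 = c^2-1`: the upper left block of `h a h` is
  `[[c^2 - s^2 ω, c s (1-ω)], [-c s (1-ω), -s^2 + c^2 ω]]`, that of `a⁻¹ h a⁻¹` is `[[c, s/ω],[-s/ω, -c/ω^2]]`;
  `κ c = c^2 - s^2 ω` because `c^2 (1-ω)^2 = -ω` (`key2`), etc. Lower right entries: `κ^2 = κ κ`.
  (Prove matrix identities in `M3` after multiplying out inverses, e.g. `gA*gH*gA*gH*gA = gZ^33 * gH`, then
  deduce the group identity; `Units.ext`, `Matrix.ext`, `fin_cases`, `simp [mA, mH, ...]`, `linear_combination`.)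
* `hh`: `h^2 = diag(1,1,κ^2)`, `κ^2 = ζ^{66} = ζ^{26} = ω^{13}`.
* membership in `U`: expand `hf` (for `gH` use `ss_sq`).
-/

set_option autoImplicit false

namespace Pool.Agent.YG

open Matrix

private theorem cos10_sq : Real.cos (Real.pi / 10) ^ 2 = (1 + (1 + Real.sqrt 5) / 4) / 2 := by
  have h := Real.cos_sq (Real.pi / 10)
  have h2 : 2 * (Real.pi / 10) = Real.pi / 5 := by ring
  rw [h2, Real.cos_pi_div_five] at h
  rw [h]; ring

private theorem cos10_pos : 0 < Real.cos (Real.pi / 10) :=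
  Real.cos_pos_of_mem_Ioo ⟨by linarith [Real.pi_pos], by linarith [Real.pi_pos]⟩

private theorem sqrt5_lo : 2.2360679 < Real.sqrt 5 := by
  rw [Real.lt_sqrt (by norm_num)]; norm_num

private theorem sqrt5_hi : Real.sqrt 5 < 2.2360680 := by
  rw [Real.sqrt_lt' (by norm_num)]; norm_num

theorem cos10_lo : 0.951056 < Real.cos (Real.pi / 10) := by
  have h := cos10_sq
  have h1 := sqrt5_lo
  have h2 := cos10_pos
  by_contra hc
  push Not at hc
  have : Real.cos (Real.pi / 10) ^ 2 ≤ 0.951056 ^ 2 := pow_le_pow_left₀ h2.le hc 2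
  norm_num at this h1
  linarith

theorem cos10_hi : Real.cos (Real.pi / 10) < 0.951057 := by
  have h := cos10_sq
  have h1 := sqrt5_hi
  have h2 := cos10_pos
  by_contra hc
  push Not at hc
  have : (0.951057 : ℝ) ^ 2 ≤ Real.cos (Real.pi / 10) ^ 2 :=
    pow_le_pow_left₀ (by norm_num) hc 2
  norm_num at this h1
  linarith

theorem cc_sq_mul : cc ^ 2 * (2 - 2 * Real.cos (Real.pi / 10)) = 1 := by
  have h := Real.cos_sq' (Real.pi / 20)
  have h2 := Real.cos_two_mul (Real.pi / 20)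
  have h3 : 2 * (Real.pi / 20) = Real.pi / 10 := by ring
  rw [h3, h] at h2
  have h4 : 2 - 2 * Real.cos (Real.pi / 10) = (2 * Real.sin (Real.pi / 20)) ^ 2 := by
    rw [h2]; ring
  have h5 : 2 * Real.sin (Real.pi / 20) ≠ 0 := by
    have := sin20_pos; positivity
  rw [h4, cc, div_pow, one_pow, one_div, inv_mul_cancel₀ (pow_ne_zero 2 h5)]

theorem cc_lo : 3.1962 < cc := by
  have h := cc_sq_mul
  have h1 := cos10_lo
  have h2 := cc_gt
  by_contra hc
  push Not at hc
  have h3 : cc ^ 2 ≤ 3.1962 ^ 2 := pow_le_pow_left₀ (by linarith) hc 2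
  have h4 : 2 - 2 * Real.cos (Real.pi / 10) ≤ 0.097888 := by
    norm_num at h1 ⊢; linarith
  have h5 : 0 ≤ 2 - 2 * Real.cos (Real.pi / 10) := by linarith [Real.cos_le_one (Real.pi / 10)]
  have h6 : cc ^ 2 * (2 - 2 * Real.cos (Real.pi / 10)) ≤ 3.1962 ^ 2 * 0.097888 :=
    mul_le_mul h3 h4 h5 (by norm_num)
  rw [h] at h6
  norm_num at h6

theorem cc_hi : cc < 3.1963 := by
  have h := cc_sq_mul
  have h1 := cos10_hi
  by_contra hc
  push Not at hc
  have h3 : (3.1963 : ℝ) ^ 2 ≤ cc ^ 2 := pow_le_pow_left₀ (by norm_num) hc 2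
  have h4 : 0.097886 ≤ 2 - 2 * Real.cos (Real.pi / 10) := by
    norm_num at h1 ⊢; linarith
  have h6 : (3.1963 : ℝ) ^ 2 * 0.097886 ≤ cc ^ 2 * (2 - 2 * Real.cos (Real.pi / 10)) :=
    mul_le_mul h3 h4 (by norm_num) (by positivity)
  rw [h] at h6
  norm_num at h6

private theorem cc_sq_lo : 10.21575 < cc ^ 2 := by
  have h := cc_sq_mul
  have h1 := cos10_lo
  by_contra hc
  push Not at hc
  have h4 : 2 - 2 * Real.cos (Real.pi / 10) ≤ 0.097888 := by
    norm_num at h1 ⊢; linarith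
  have h5 : 0 ≤ 2 - 2 * Real.cos (Real.pi / 10) := by linarith [Real.cos_le_one (Real.pi / 10)]
  have h6 : cc ^ 2 * (2 - 2 * Real.cos (Real.pi / 10)) ≤ 10.21575 * 0.097888 :=
    mul_le_mul hc h4 h5 (by norm_num)
  rw [h] at h6
  norm_num at h6

private theorem cc_sq_hi : cc ^ 2 < 10.215967 := by
  have h := cc_sq_mul
  have h1 := cos10_hi
  by_contra hc
  push Not at hc
  have h4 : 0.097886 ≤ 2 - 2 * Real.cos (Real.pi / 10) := by
    norm_num at h1 ⊢; linarith
  have h6 : (10.215967 : ℝ) * 0.097886 ≤ cc ^ 2 * (2 - 2 * Real.cos (Real.pi / 10)) :=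
    mul_le_mul hc h4 (by norm_num) (by positivity)
  rw [h] at h6
  norm_num at h6

theorem ss_lo : 3.0357 < ss := by
  have h := ss_sq
  have h1 := cc_sq_lo
  have h2 := ss_pos
  by_contra hc
  push Not at hc
  have h3 : ss ^ 2 ≤ 3.0357 ^ 2 := pow_le_pow_left₀ h2.le hc 2
  norm_num at h1 h3
  linarith

theorem ss_hi : ss < 3.0358 := by
  have h := ss_sq
  have h1 := cc_sq_hi
  by_contra hc
  push Not at hc
  have h3 : (3.0358 : ℝ) ^ 2 ≤ ss ^ 2 := pow_le_pow_left₀ (by norm_num) hc 2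
  norm_num at h1 h3
  linarith

theorem ze_pow_10 : ze ^ 10 = Complex.I := by
  rw [ze, ← Complex.exp_nat_mul]
  have : ((10 : ℕ) : ℂ) * ((Real.pi : ℂ) / 20 * Complex.I) = (Real.pi : ℂ) / 2 * Complex.I := by
    push_cast; ring
  rw [this, Complex.exp_pi_div_two_mul_I]

theorem ze_pow_20 : ze ^ 20 = -1 := by
  have : ze ^ 20 = (ze ^ 10) ^ 2 := by ring
  rw [this, ze_pow_10, Complex.I_sq]

theorem ze_pow_40 : ze ^ 40 = 1 := by
  have : ze ^ 40 = (ze ^ 20) ^ 2 := by ring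
  rw [this, ze_pow_20]; norm_num

theorem om_pow_20 : om ^ 20 = 1 := by
  have : om ^ 20 = ze ^ 40 := by rw [om]; ring
  rw [this, ze_pow_40]

theorem om_pow (k : ℕ) : om ^ k = ((Real.cos (Real.pi * k / 10) : ℝ) : ℂ) +
    ((Real.sin (Real.pi * k / 10) : ℝ) : ℂ) * Complex.I := by
  have h1 : om ^ k = ze ^ (2 * k) := by rw [om, ← pow_mul]
  rw [h1, ze, ← Complex.exp_nat_mul]
  have h2 : ((2 * k : ℕ) : ℂ) * ((Real.pi : ℂ) / 20 * Complex.I)
      = ((Real.pi * k / 10 : ℝ) : ℂ) * Complex.I := by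
    push_cast; ring
  rw [h2, Complex.exp_mul_I, Complex.ofReal_cos, Complex.ofReal_sin]

private theorem ze_eq : ze = ((Real.cos (Real.pi / 20) : ℝ) : ℂ) +
    ((Real.sin (Real.pi / 20) : ℝ) : ℂ) * Complex.I := by
  have h2 : (Real.pi : ℂ) / 20 * Complex.I = ((Real.pi / 20 : ℝ) : ℂ) * Complex.I := by
    push_cast; ring
  rw [ze, h2, Complex.exp_mul_I, Complex.ofReal_cos, Complex.ofReal_sin]

private theorem one_sub_om : 1 - om = -2 * Complex.I * ((Real.sin (Real.pi / 20) : ℝ) : ℂ) * ze := by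
  have h1 : ((Real.cos (Real.pi / 20) : ℝ) : ℂ) ^ 2 + ((Real.sin (Real.pi / 20) : ℝ) : ℂ) ^ 2 = 1 := by
    exact_mod_cast Real.cos_sq_add_sin_sq (Real.pi / 20)
  rw [om, ze_eq]
  generalize ((Real.cos (Real.pi / 20) : ℝ) : ℂ) = c at h1 ⊢
  generalize ((Real.sin (Real.pi / 20) : ℝ) : ℂ) = s at h1 ⊢
  linear_combination (-1 : ℂ) * h1 + (s ^ 2) * Complex.I_sq

private theorem ka_eq : ka = -Complex.I * ze ^ 3 := by
  have h1 : ka = ze ^ 20 * ze ^ 10 * ze ^ 3 := by rw [ka]; ring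
  rw [h1, ze_pow_20, ze_pow_10]; ring

theorem key : (cc : ℂ) * om * (1 - om) = ka := by
  have h5 : ((Real.sin (Real.pi / 20) : ℝ) : ℂ) ≠ 0 := by exact_mod_cast sin20_pos.ne'
  have h6 : (cc : ℂ) = 1 / (2 * ((Real.sin (Real.pi / 20) : ℝ) : ℂ)) := by
    rw [cc]; push_cast; ring
  rw [one_sub_om, ka_eq, h6, om]
  generalize ((Real.sin (Real.pi / 20) : ℝ) : ℂ) = s at h5 ⊢
  field_simp

theorem key2 : (cc : ℂ) ^ 2 * (1 - om) ^ 2 = -om := by
  have h1 : ((cc : ℂ) * om * (1 - om)) ^ 2 = ka ^ 2 := by rw [key]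
  have h2 : ka ^ 2 = -om ^ 3 := by
    have : ka ^ 2 = ze ^ 20 * ze ^ 40 * ze ^ 6 := by rw [ka]; ring
    rw [this, ze_pow_20, ze_pow_40, om]; ring
  have h3 := pow_ne_zero 2 om_ne
  apply mul_left_cancel₀ h3
  rw [h2] at h1
  linear_combination h1

theorem gA_coe : (gA : M3) = mA := rfl
theorem gB_coe : (gB : M3) = mB := rfl
theorem gH_coe : (gH : M3) = mH := rfl
theorem gS_coe : (gS : M3) = mS := rfl
theorem gZ_coe : (gZ : M3) = mZ := rfl

private theorem mZ_eq : mZ = ze • (1 : M3) := by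
  ext i j; fin_cases i <;> fin_cases j <;> simp [mZ]

theorem gZ_comm (A : GL3) : gZ * A = A * gZ := by
  apply Units.ext
  rw [Units.val_mul, Units.val_mul, gZ_coe, mZ_eq]
  simp

theorem gAB_comm : gA * gB = gB * gA := by
  apply Units.ext
  rw [Units.val_mul, Units.val_mul, gA_coe, gB_coe]
  ext i j; fin_cases i <;> fin_cases j <;> simp [mA, mB, Matrix.mul_apply, Fin.sum_univ_three]

theorem gBH_comm : gB * gH = gH * gB := by
  apply Units.ext
  rw [Units.val_mul, Units.val_mul, gH_coe, gB_coe]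
  ext i j; fin_cases i <;> fin_cases j <;>
    simp [mH, mB, Matrix.mul_apply, Fin.sum_univ_three, mul_comm]

private theorem mA_eq : mA = Matrix.diagonal ![1, om, 1] := by
  ext i j; fin_cases i <;> fin_cases j <;> simp [mA]

private theorem mB_eq : mB = Matrix.diagonal ![1, 1, om] := by
  ext i j; fin_cases i <;> fin_cases j <;> simp [mB]

private theorem mA_pow (k : ℕ) : mA ^ k = !![1, 0, 0; 0, om ^ k, 0; 0, 0, 1] := by
  rw [mA_eq, Matrix.diagonal_pow]
  ext i j; fin_cases i <;> fin_cases j <;> simp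

private theorem mB_pow (k : ℕ) : mB ^ k = !![1, 0, 0; 0, 1, 0; 0, 0, om ^ k] := by
  rw [mB_eq, Matrix.diagonal_pow]
  ext i j; fin_cases i <;> fin_cases j <;> simp

private theorem mZ_pow (k : ℕ) : mZ ^ k = (ze ^ k) • (1 : M3) := by
  rw [mZ_eq, smul_pow, one_pow]

private theorem m_one : (1 : M3) = !![1, 0, 0; 0, 1, 0; 0, 0, 1] := by
  ext i j; fin_cases i <;> fin_cases j <;> simp

theorem gA_pow_20 : gA ^ 20 = 1 := by
  apply Units.ext
  rw [Units.val_pow_eq_pow_val, gA_coe, mA_pow, om_pow_20, Units.val_one, ← m_one]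

theorem gB_pow_20 : gB ^ 20 = 1 := by
  apply Units.ext
  rw [Units.val_pow_eq_pow_val, gB_coe, mB_pow, om_pow_20, Units.val_one, ← m_one]

theorem gZ_pow_40 : gZ ^ 40 = 1 := by
  apply Units.ext
  rw [Units.val_pow_eq_pow_val, gZ_coe, mZ_pow, ze_pow_40, Units.val_one, one_smul]

theorem gS_sq : gS * gS = 1 := by
  apply Units.ext
  rw [Units.val_mul, gS_coe, Units.val_one]
  ext i j; fin_cases i <;> fin_cases j <;> simp [mS, Matrix.mul_apply, Fin.sum_univ_three]

theorem gSAS : gS * gA * gS = gB := by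
  apply Units.ext
  rw [Units.val_mul, Units.val_mul, gS_coe, gA_coe, gB_coe]
  ext i j; fin_cases i <;> fin_cases j <;>
    simp [mS, mA, mB, Matrix.mul_apply, Fin.sum_univ_three]

theorem gSBS : gS * gB * gS = gA := by
  apply Units.ext
  rw [Units.val_mul, Units.val_mul, gS_coe, gA_coe, gB_coe]
  ext i j; fin_cases i <;> fin_cases j <;>
    simp [mS, mA, mB, Matrix.mul_apply, Fin.sum_univ_three]

private theorem ssc_sq : (ss : ℂ) ^ 2 = (cc : ℂ) ^ 2 - 1 := by exact_mod_cast ss_sq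

private theorem ka_sq : ka ^ 2 = om ^ 13 := by
  have : ka ^ 2 = ze ^ 40 * ze ^ 26 := by rw [ka]; ring
  rw [this, ze_pow_40, om]; ring

theorem hh : gH * gH = gB ^ 13 := by
  apply Units.ext
  rw [Units.val_mul, Units.val_pow_eq_pow_val, gH_coe, gB_coe, mB_pow]
  have h1 := ssc_sq
  have h2 := ka_sq
  ext i j
  fin_cases i <;> fin_cases j <;> simp [mH, Matrix.mul_apply, Fin.sum_univ_three]
  · linear_combination -h1
  · ring
  · ring
  · linear_combination -h1
  · linear_combination h2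

private theorem ahaha : mA * mH * mA * mH * mA = mZ ^ 33 * mH := by
  have h1 := ssc_sq
  have h2 := key
  have h3 := key2
  have h4 : ze ^ 33 = ka := rfl
  rw [mZ_pow, h4]
  generalize hc : (cc : ℂ) = c at h1 h2 h3
  generalize hs : (ss : ℂ) = s at h1
  ext i j
  fin_cases i <;> fin_cases j <;> simp [mH, mA, Matrix.mul_apply, Fin.sum_univ_three, hc, hs]
  · rw [← h2]; linear_combination (-om) * h1 + h3
  · rw [← h2]; ring
  · rw [← h2]; ring
  · rw [← h2]; linear_combination (-om ^ 2) * h1 + om * h3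

theorem hah : gH * gA * gH = gZ ^ 33 * (gA⁻¹ * gH * gA⁻¹) := by
  have h1 : gA * gH * gA * gH * gA = gZ ^ 33 * gH := by
    apply Units.ext
    rw [Units.val_mul, Units.val_mul, Units.val_mul, Units.val_mul, Units.val_mul,
      Units.val_pow_eq_pow_val, gA_coe, gH_coe, gZ_coe]
    exact ahaha
  have h2 : ∀ n : ℕ, ∀ A : GL3, gZ ^ n * A = A * gZ ^ n := by
    intro n A
    exact (Commute.pow_left (gZ_comm A : Commute gZ A) n)
  have h3 : gH * gA * gH = gA⁻¹ * (gA * gH * gA * gH * gA) * gA⁻¹ := by group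
  rw [h3, h1, ← mul_assoc, ← h2, mul_assoc, mul_assoc, mul_assoc]

private theorem om_conj : om * (starRingEnd ℂ) om = 1 := by
  rw [Complex.mul_conj, Complex.normSq_eq_norm_sq, om_norm]; norm_num

private theorem ka_conj : ka * (starRingEnd ℂ) ka = 1 := by
  rw [Complex.mul_conj, Complex.normSq_eq_norm_sq, ka_norm]; norm_num

private theorem ze_conj : ze * (starRingEnd ℂ) ze = 1 := by
  rw [Complex.mul_conj, Complex.normSq_eq_norm_sq, ze_norm]; norm_num

theorem gA_mem_U : gA ∈ U := by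
  intro x y
  simp only [act, gA_coe, hf]
  simp [mA, Matrix.mulVec, dotProduct, Fin.sum_univ_three]
  linear_combination (x 1 * (starRingEnd ℂ) (y 1)) * om_conj

theorem gB_mem_U : gB ∈ U := by
  intro x y
  simp only [act, gB_coe, hf]
  simp [mB, Matrix.mulVec, dotProduct, Fin.sum_univ_three]
  linear_combination (x 2 * (starRingEnd ℂ) (y 2)) * om_conj

theorem gH_mem_U : gH ∈ U := by
  intro x y
  simp only [act, gH_coe, hf]
  simp [mH, Matrix.mulVec, dotProduct, Fin.sum_univ_three]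
  linear_combination (x 2 * (starRingEnd ℂ) (y 2)) * ka_conj
    + (x 0 * (starRingEnd ℂ) (y 0) - x 1 * (starRingEnd ℂ) (y 1)) * ssc_sq

theorem gS_mem_U : gS ∈ U := by
  intro x y
  simp only [act, gS_coe, hf]
  simp [mS, Matrix.mulVec, dotProduct, Fin.sum_univ_three]
  ring

theorem gZ_mem_U : gZ ∈ U := by
  intro x y
  simp only [act, gZ_coe, hf]
  simp [mZ, Matrix.mulVec, dotProduct, Fin.sum_univ_three]
  linear_combination (-(x 0 * (starRingEnd ℂ) (y 0)) + x 1 * (starRingEnd ℂ) (y 1)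
    + x 2 * (starRingEnd ℂ) (y 2)) * ze_conj

theorem Lam_le_U : Lam ≤ U := by
  rw [Lam, Subgroup.closure_le]
  rintro g (rfl | rfl | rfl | rfl)
  exacts [gA_mem_U, gH_mem_U, gS_mem_U, gZ_mem_U]

theorem G1_le_U : G1 ≤ U := by
  rw [G1, Subgroup.closure_le]
  rintro g (rfl | rfl | rfl | rfl)
  exacts [gA_mem_U, gB_mem_U, gH_mem_U, gZ_mem_U]

theorem S1_le_G1 : S1 ≤ G1 := by
  rw [S1, Subgroup.closure_le]
  rintro g (rfl | rfl | rfl)
  all_goals exact Subgroup.subset_closure (by simp)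

theorem S1_le_SS : S1 ≤ SS := by
  rw [S1, Subgroup.closure_le]
  rintro g (rfl | rfl | rfl)
  all_goals exact Subgroup.subset_closure (by simp)

private theorem gB_mem_Lam : gB ∈ Lam := by
  rw [← gSAS]
  have h1 : gS ∈ Lam := Subgroup.subset_closure (by simp)
  have h2 : gA ∈ Lam := Subgroup.subset_closure (by simp)
  exact Lam.mul_mem (Lam.mul_mem h1 h2) h1

theorem SS_le_Lam : SS ≤ Lam := by
  rw [SS, Subgroup.closure_le]
  rintro g (rfl | rfl | rfl | rfl)
  · exact Subgroup.subset_closure (by simp)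
  · exact gB_mem_Lam
  · exact Subgroup.subset_closure (by simp)
  · exact Subgroup.subset_closure (by simp)

theorem G1_le_Lam : G1 ≤ Lam := by
  rw [G1, Subgroup.closure_le]
  rintro g (rfl | rfl | rfl | rfl)
  · exact Subgroup.subset_closure (by simp)
  · exact gB_mem_Lam
  · exact Subgroup.subset_closure (by simp)
  · exact Subgroup.subset_closure (by simp)

theorem gS_mem_SS : gS ∈ SS := Subgroup.subset_closure (by simp)
theorem gS_mem_Lam : gS ∈ Lam := Subgroup.subset_closure (by simp)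
theorem gH_mem_G1 : gH ∈ G1 := Subgroup.subset_closure (by simp)
theorem gA_mem_S1 : gA ∈ S1 := Subgroup.subset_closure (by simp)

end Pool.Agent.YG
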