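import Pool.Agent.YG.L01Rel

/-!
# YG-L03: cones for the disc recursion

Row vectors `(A, B)` (first row of the word read so far, restricted to the first disc). A letter `a^k h` acts by
`A' = c A - s ω^k B`, `B' = s A - c ω^k B`.
Put `P = ω^k B conj A = x + iy`, `a = |A|^2`, `b = |B|^2`, `x^2 + y^2 = a b`. Then
`B' conj A' = s c (a+b) - s^2 conj P - c^2 P`, i.e. real part `s c (a+b) - (s^2+c^2) x`, imaginary part `-(c^2-s^2) y = -y`;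
`|A'|^2 = c^2 a + s^2 b - 2 c s x`, `|A'|^2 - |B'|^2 = a - b`. `a + b ≥ 2 |P|`.
* `cone_N`: if `x ≤ 1.15 |y|` then `7 |y| ≤ s c (a+b) - (s^2+c^2) x`: as `a+b ≥ 2 sqrt(x^2+y^2)` it suffices
  `2 s c sqrt(x^2+y^2) ≥ 7|y| + (c^2+s^2) x` (`2sc = 19.406`, `c^2+s^2 = 19.4317`); at `x = 1.15, |y| = 1` the difference is
  `0.227`; for `x ≤ 0` it is clear, in between by squaring (it is a statement about a homogeneous quadratic form).
* `cone_C`: if `x ≤ 1.95 |y|` then `4.5 |y| ≤ s c (a+b) - (s^2+c^2) x` (difference at the corner `0.135`).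
* `grow`: if `x ≤ 1.95 |y|`, `b ≤ a` then `|A'|^2 ≥ 1.42^2 a`: for `x ≤ 0` clear (`c^2 > 2.0164`); else
  `y^2 ≥ x^2/1.95^2`, so `a b ≥ x^2 (1 + 1/3.8025)` and
  `a (|A'|^2 - 2.0164 a) ≥ (c^2-2.0164) a^2 - 2cs a x + 1.26298 s^2 x^2 ≥ 0` (discriminant: `c^2 ≤ 1.26298 (c^2-2.0164)`, true since `c^2 > 10.2`).
The real statements are given for plain real numbers; use `cc_lo, cc_hi, ss_lo, ss_hi, ss_sq`.
-/

set_option autoImplicit false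

namespace Pool.Agent.YG

open Matrix

/-- one letter: new first coordinate -/
noncomputable def stA (k : ℕ) (A B : ℂ) : ℂ := (cc : ℂ) * A - om ^ k * (ss : ℂ) * B

/-- one letter: new second coordinate -/
noncomputable def stB (k : ℕ) (A B : ℂ) : ℂ := (ss : ℂ) * A - om ^ k * (cc : ℂ) * B

/-- `B conj A` -/
noncomputable def pr (A B : ℂ) : ℂ := B * (starRingEnd ℂ) A

private theorem om_pow_conj (k : ℕ) : om ^ k * (starRingEnd ℂ) (om ^ k) = 1 := by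
  rw [Complex.mul_conj', norm_pow, om_norm]; simp

private theorem st_pr (k : ℕ) (A B : ℂ) : pr (stA k A B) (stB k A B) =
    ((ss * cc * (‖A‖ ^ 2 + ‖B‖ ^ 2) : ℝ) : ℂ) - (ss : ℂ) ^ 2 * (starRingEnd ℂ) (om ^ k * pr A B) -
      (cc : ℂ) ^ 2 * (om ^ k * pr A B) := by
  have hw := om_pow_conj k
  simp only [pr, stA, stB, map_sub, map_mul, Complex.conj_ofReal, Complex.conj_conj]
  push_cast
  rw [← Complex.mul_conj' A, ← Complex.mul_conj' B]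
  linear_combination ((ss : ℂ) * cc * B * (starRingEnd ℂ) B) * hw

theorem st_im (k : ℕ) (A B : ℂ) : (pr (stA k A B) (stB k A B)).im = -(om ^ k * pr A B).im := by
  rw [st_pr]
  have h : ss ^ 2 = cc ^ 2 - 1 := ss_sq
  have e1 : ((ss : ℂ) ^ 2) = ((ss ^ 2 : ℝ) : ℂ) := by push_cast; ring
  have e2 : ((cc : ℂ) ^ 2) = ((cc ^ 2 : ℝ) : ℂ) := by push_cast; ring
  rw [e1, e2]
  simp only [Complex.sub_im, Complex.ofReal_im, Complex.im_ofReal_mul, Complex.conj_im]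
  rw [h]; ring

theorem st_re (k : ℕ) (A B : ℂ) : (pr (stA k A B) (stB k A B)).re =
    ss * cc * (‖A‖ ^ 2 + ‖B‖ ^ 2) - (ss ^ 2 + cc ^ 2) * (om ^ k * pr A B).re := by
  rw [st_pr]
  have e1 : ((ss : ℂ) ^ 2) = ((ss ^ 2 : ℝ) : ℂ) := by push_cast; ring
  have e2 : ((cc : ℂ) ^ 2) = ((cc ^ 2 : ℝ) : ℂ) := by push_cast; ring
  rw [e1, e2]
  simp only [Complex.sub_re, Complex.ofReal_re, Complex.re_ofReal_mul, Complex.conj_re]
  ring

private theorem st_norm_c (k : ℕ) (A B : ℂ) (c s : ℝ) :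
    ‖(c : ℂ) * A - om ^ k * (s : ℂ) * B‖ ^ 2 =
    c ^ 2 * ‖A‖ ^ 2 + s ^ 2 * ‖B‖ ^ 2 - 2 * c * s * (om ^ k * pr A B).re := by
  have hw := om_pow_conj k
  have h1 : ((‖(c : ℂ) * A - om ^ k * (s : ℂ) * B‖ ^ 2 : ℝ) : ℂ) =
      ((c ^ 2 * ‖A‖ ^ 2 + s ^ 2 * ‖B‖ ^ 2 : ℝ) : ℂ) -
        ((c * s : ℝ) : ℂ) * (om ^ k * pr A B + (starRingEnd ℂ) (om ^ k * pr A B)) := by
    push_cast
    rw [← Complex.mul_conj', ← Complex.mul_conj' A, ← Complex.mul_conj' B]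
    simp only [pr, map_sub, map_mul, Complex.conj_ofReal, Complex.conj_conj]
    linear_combination ((s : ℂ) ^ 2 * B * (starRingEnd ℂ) B) * hw
  rw [Complex.add_conj] at h1
  have h2 : (‖(c : ℂ) * A - om ^ k * (s : ℂ) * B‖ ^ 2 : ℝ) =
      (c ^ 2 * ‖A‖ ^ 2 + s ^ 2 * ‖B‖ ^ 2) - (c * s) * (2 * (om ^ k * pr A B).re) := by
    exact_mod_cast h1
  rw [h2]; ring

theorem st_norm (k : ℕ) (A B : ℂ) : ‖stA k A B‖ ^ 2 =
    cc ^ 2 * ‖A‖ ^ 2 + ss ^ 2 * ‖B‖ ^ 2 - 2 * cc * ss * (om ^ k * pr A B).re := by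
  rw [stA]; exact st_norm_c k A B cc ss

private theorem st_normB (k : ℕ) (A B : ℂ) : ‖stB k A B‖ ^ 2 =
    ss ^ 2 * ‖A‖ ^ 2 + cc ^ 2 * ‖B‖ ^ 2 - 2 * ss * cc * (om ^ k * pr A B).re := by
  rw [stB]; exact st_norm_c k A B ss cc

theorem st_le (k : ℕ) (A B : ℂ) (h : ‖B‖ ≤ ‖A‖) : ‖stB k A B‖ ≤ ‖stA k A B‖ := by
  have h1 : ‖stB k A B‖ ^ 2 ≤ ‖stA k A B‖ ^ 2 := by
    rw [st_norm, st_normB, ss_sq]
    have := norm_nonneg B
    nlinarith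
  exact (pow_le_pow_iff_left₀ (norm_nonneg _) (norm_nonneg _) two_ne_zero).mp h1

private theorem pr_sq (k : ℕ) (A B : ℂ) :
    (om ^ k * pr A B).re ^ 2 + (om ^ k * pr A B).im ^ 2 = ‖A‖ ^ 2 * ‖B‖ ^ 2 := by
  have h1 : ‖om ^ k * pr A B‖ ^ 2 = ‖A‖ ^ 2 * ‖B‖ ^ 2 := by
    rw [norm_mul, norm_pow, om_norm, pr, norm_mul, Complex.norm_conj]; ring
  rw [← h1, ← Complex.normSq_eq_norm_sq, Complex.normSq_apply]; ring

private theorem quad_neg (n M K2 x Y : ℝ) (hY : 0 ≤ Y) (hn : 0 ≤ n) (hn10 : n ≤ 10) (hM : 19 ≤ M)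
    (hK2 : 376 ≤ K2) (hx : x ≤ 0) (h0 : 0 < n * Y + M * x) :
    0 ≤ -x ^ 2 + (K2 - n ^ 2) * Y ^ 2 - 2 * n * M * (x * Y) := by
  have h4 : M * x ≤ 19 * x := by nlinarith
  have h5 : n * Y ≤ 10 * Y := mul_le_mul_of_nonneg_right hn10 hY
  have h51 : -x ≤ Y := by linarith
  have h6 : x ^ 2 ≤ Y ^ 2 := by nlinarith
  have h7 : 0 ≤ n * M * (-x * Y) := by
    apply mul_nonneg (mul_nonneg hn (by linarith))
    exact mul_nonneg (by linarith) hY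
  have h8 : n ^ 2 ≤ 100 := by nlinarith
  have h9 : 276 * Y ^ 2 ≤ (K2 - n ^ 2) * Y ^ 2 := mul_le_mul_of_nonneg_right (by linarith) (sq_nonneg Y)
  have h10 : 2 * n * M * (x * Y) = - (2 * (n * M * (-x * Y))) := by ring
  rw [h10]
  have := sq_nonneg Y
  linarith

private theorem quad_pos (n t M K2 x Y : ℝ) (hY : 0 ≤ Y) (hn : 0 ≤ n) (ht : 0 ≤ t)
    (hM : M ≤ 19.433) (hnum : n ^ 2 + t ^ 2 + 2 * n * t * 19.433 ≤ K2) (hx : 0 < x)
    (hxt : x ≤ t * Y) :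
    0 ≤ -x ^ 2 + (K2 - n ^ 2) * Y ^ 2 - 2 * n * M * (x * Y) := by
  have h5 : x ^ 2 ≤ t ^ 2 * Y ^ 2 := by
    rw [← mul_pow]; exact pow_le_pow_left₀ hx.le hxt 2
  have h6 : x * Y ≤ t * Y ^ 2 := by
    have := mul_le_mul_of_nonneg_right hxt hY
    linarith [show t * Y * Y = t * Y ^ 2 by ring]
  have h7 : n * M * (x * Y) ≤ n * 19.433 * (t * Y ^ 2) := by
    have h71 : n * M ≤ n * 19.433 := mul_le_mul_of_nonneg_left hM hn
    have h72 : 0 ≤ x * Y := mul_nonneg hx.le hY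
    calc n * M * (x * Y) ≤ n * 19.433 * (x * Y) := mul_le_mul_of_nonneg_right h71 h72
      _ ≤ n * 19.433 * (t * Y ^ 2) := mul_le_mul_of_nonneg_left h6 (by positivity)
  have h8 : (n ^ 2 + t ^ 2 + 2 * n * t * 19.433) * Y ^ 2 ≤ K2 * Y ^ 2 :=
    mul_le_mul_of_nonneg_right hnum (sq_nonneg Y)
  have e1 : (K2 - n ^ 2) * Y ^ 2 = K2 * Y ^ 2 - n ^ 2 * Y ^ 2 := by ring
  have e2 : 2 * n * M * (x * Y) = 2 * (n * M * (x * Y)) := by ring
  have e3 : (n ^ 2 + t ^ 2 + 2 * n * t * 19.433) * Y ^ 2 =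
    n ^ 2 * Y ^ 2 + t ^ 2 * Y ^ 2 + 2 * (n * 19.433 * (t * Y ^ 2)) := by ring
  rw [e1, e2]; rw [e3] at h8
  linarith

private theorem cone_aux (n t c s a b x y : ℝ) (hcl : 3.1962 < c) (hcu : c < 3.1963)
    (hsl : 3.0357 < s) (hsu : s < 3.0358) (ha : 0 ≤ a) (hb : 0 ≤ b) (hab : x ^ 2 + y ^ 2 = a ^ 2 * b ^ 2)
    (hx : x ≤ t * |y|) (hcs : s ^ 2 = c ^ 2 - 1) (ht : 0 ≤ t) (hn : 0 ≤ n) (hn19 : n ≤ 10)
    (hnum : n ^ 2 + t ^ 2 + 2 * n * t * 19.433 ≤ 376.5) :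
    n * |y| ≤ s * c * (a ^ 2 + b ^ 2) - (s ^ 2 + c ^ 2) * x := by
  have hY0 : 0 ≤ |y| := abs_nonneg y
  have hYy : |y| ^ 2 = y ^ 2 := sq_abs y
  obtain ⟨M, hM⟩ : ∃ M, M = s ^ 2 + c ^ 2 := ⟨_, rfl⟩
  obtain ⟨K, hK⟩ : ∃ K, K = 2 * (s * c) := ⟨_, rfl⟩
  have hsc : 9.7027 ≤ s * c := by
    have := mul_le_mul hsl.le hcl.le (by norm_num) (by linarith)
    norm_num at this ⊢
    linarith
  have hc2 : c ^ 2 ≤ 10.21634 := by
    have := pow_le_pow_left₀ (by linarith) hcu.le 2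
    norm_num at this ⊢
    linarith
  have hc3 : 10.2156 ≤ c ^ 2 := by
    have := pow_le_pow_left₀ (by norm_num) hcl.le 2
    norm_num at this ⊢
    linarith
  have hM1 : M ≤ 19.433 := by rw [hM, hcs]; norm_num at hc2 ⊢; linarith
  have hM2 : 19 ≤ M := by rw [hM, hcs]; norm_num at hc3 ⊢; linarith
  have hK1 : 19.405 ≤ K := by rw [hK]; norm_num at hsc ⊢; linarith
  have hK2 : 376.5 ≤ K ^ 2 := by
    have := pow_le_pow_left₀ (by norm_num) hK1 2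
    norm_num at this ⊢
    linarith
  have hMK : M ^ 2 = K ^ 2 + 1 := by
    rw [hM, hK]
    have : (s ^ 2 + c ^ 2) ^ 2 = (2 * (s * c)) ^ 2 + (c ^ 2 - s ^ 2) ^ 2 := by ring
    rw [this, hcs]; ring
  have hab0 : 0 ≤ a * b := mul_nonneg ha hb
  have h1 : K * (a * b) ≤ s * c * (a ^ 2 + b ^ 2) := by
    have h2 : 0 ≤ s * c := by linarith
    have h3 := mul_nonneg h2 (sq_nonneg (a - b))
    rw [hK]
    linarith [show s * c * (a - b) ^ 2 = s * c * (a ^ 2 + b ^ 2) - 2 * (s * c) * (a * b) by ring]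
  have h3 : n * |y| + M * x ≤ K * (a * b) := by
    have hK0 : 0 ≤ K := by linarith
    rcases le_or_gt (n * |y| + M * x) 0 with h0 | h0
    · have : 0 ≤ K * (a * b) := mul_nonneg hK0 hab0
      linarith
    · apply (pow_le_pow_iff_left₀ h0.le (mul_nonneg hK0 hab0) two_ne_zero).mp
      have e1 : (K * (a * b)) ^ 2 = K ^ 2 * (x ^ 2 + |y| ^ 2) := by
        rw [hYy, hab]; ring
      rw [e1]
      have e2 : K ^ 2 * (x ^ 2 + |y| ^ 2) - (n * |y| + M * x) ^ 2 =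
          -x ^ 2 + (K ^ 2 - n ^ 2) * |y| ^ 2 - 2 * n * M * (x * |y|) := by
        have : (n * |y| + M * x) ^ 2 = n ^ 2 * |y| ^ 2 + 2 * n * M * (x * |y|) + M ^ 2 * x ^ 2 := by
          ring
        rw [this, hMK]; ring
      have e3 : 0 ≤ -x ^ 2 + (K ^ 2 - n ^ 2) * |y| ^ 2 - 2 * n * M * (x * |y|) := by
        rcases le_or_gt x 0 with hx0 | hx0
        · exact quad_neg n M (K ^ 2) x |y| hY0 hn hn19 hM2 (by linarith) hx0 h0
        · exact quad_pos n t M (K ^ 2) x |y| hY0 hn ht hM1 (by linarith) hx0 hx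
      linarith
  rw [← hM]
  linarith

theorem cone_N (k : ℕ) (A B : ℂ) (h : (om ^ k * pr A B).re ≤ 1.15 * |(om ^ k * pr A B).im|) :
    7 * |(pr (stA k A B) (stB k A B)).im| ≤ (pr (stA k A B) (stB k A B)).re := by
  rw [st_im, st_re, abs_neg]
  exact cone_aux 7 1.15 cc ss ‖A‖ ‖B‖ _ _ cc_lo cc_hi ss_lo ss_hi (norm_nonneg _) (norm_nonneg _)
    (pr_sq k A B) h ss_sq (by norm_num) (by norm_num) (by norm_num) (by norm_num)

theorem cone_C (k : ℕ) (A B : ℂ) (h : (om ^ k * pr A B).re ≤ 1.95 * |(om ^ k * pr A B).im|) :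
    4.5 * |(pr (stA k A B) (stB k A B)).im| ≤ (pr (stA k A B) (stB k A B)).re := by
  rw [st_im, st_re, abs_neg]
  exact cone_aux 4.5 1.95 cc ss ‖A‖ ‖B‖ _ _ cc_lo cc_hi ss_lo ss_hi (norm_nonneg _) (norm_nonneg _)
    (pr_sq k A B) h ss_sq (by norm_num) (by norm_num) (by norm_num) (by norm_num)

theorem grow (k : ℕ) (A B : ℂ) (hB : ‖B‖ ≤ ‖A‖)
    (h : (om ^ k * pr A B).re ≤ 1.95 * |(om ^ k * pr A B).im|) :
    1.42 * ‖A‖ ≤ ‖stA k A B‖ := by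
  have hcl := cc_lo
  have hcu := cc_hi
  have hsl := ss_lo
  have hsu := ss_hi
  have hpr := pr_sq k A B
  set x := (om ^ k * pr A B).re with hx
  set y := (om ^ k * pr A B).im with hy
  have hY0 : 0 ≤ |y| := abs_nonneg y
  have hYy : |y| ^ 2 = y ^ 2 := sq_abs y
  have hA0 : 0 ≤ ‖A‖ := norm_nonneg A
  have hB0 : 0 ≤ ‖B‖ := norm_nonneg B
  have key : (1.42 * ‖A‖) ^ 2 ≤ ‖stA k A B‖ ^ 2 := by
    rw [st_norm]
    rw [← hx]
    rcases hA0.eq_or_lt with hA1 | hA1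
    · have hB1 : ‖B‖ = 0 := le_antisymm (by linarith) hB0
      rw [hB1, ← hA1] at hpr ⊢
      have : x = 0 := by nlinarith [sq_nonneg x, sq_nonneg y]
      rw [this]; simp
    · rcases le_or_gt x 0 with hx0 | hx0
      · have h1 : 0 ≤ 2 * cc * ss * (-x) := by
          apply mul_nonneg _ (by linarith)
          nlinarith
        have h2 : (1.42 * ‖A‖) ^ 2 ≤ cc ^ 2 * ‖A‖ ^ 2 := by
          have : (1.42 : ℝ) ^ 2 ≤ cc ^ 2 := by nlinarith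
          calc (1.42 * ‖A‖) ^ 2 = 1.42 ^ 2 * ‖A‖ ^ 2 := by ring
            _ ≤ cc ^ 2 * ‖A‖ ^ 2 := mul_le_mul_of_nonneg_right this (sq_nonneg _)
        have h3 : 0 ≤ ss ^ 2 * ‖B‖ ^ 2 := by positivity
        linarith
      · -- multiply by a
        have hxy : x ^ 2 ≤ 3.8025 * y ^ 2 := by
          rw [← hYy]; nlinarith
        have hab : 1.26298 * x ^ 2 ≤ ‖A‖ ^ 2 * ‖B‖ ^ 2 := by
          rw [← hpr]; nlinarith
        have hc2 : 10.215 < cc ^ 2 := by nlinarith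
        have hD : 0 < cc ^ 2 - 2.0164 := by linarith
        have hs2 : 0 ≤ ss ^ 2 * x ^ 2 := by positivity
        have h1 : 0 ≤ (cc ^ 2 - 2.0164) * ((cc ^ 2 - 2.0164) * (‖A‖ ^ 2) ^ 2 - 2 * cc * ss * ‖A‖ ^ 2 * x +
            1.26298 * ss ^ 2 * x ^ 2) := by
          have e : (cc ^ 2 - 2.0164) * ((cc ^ 2 - 2.0164) * (‖A‖ ^ 2) ^ 2 - 2 * cc * ss * ‖A‖ ^ 2 * x +
            1.26298 * ss ^ 2 * x ^ 2) = ((cc ^ 2 - 2.0164) * ‖A‖ ^ 2 - cc * ss * x) ^ 2 +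
              (1.26298 * (cc ^ 2 - 2.0164) - cc ^ 2) * (ss ^ 2 * x ^ 2) := by ring
          rw [e]
          apply add_nonneg (sq_nonneg _)
          apply mul_nonneg _ hs2
          linarith
        have h2 : 0 ≤ (cc ^ 2 - 2.0164) * (‖A‖ ^ 2) ^ 2 - 2 * cc * ss * ‖A‖ ^ 2 * x +
            1.26298 * ss ^ 2 * x ^ 2 := by
          by_contra hcon
          push Not at hcon
          have := mul_neg_of_pos_of_neg hD hcon
          linarith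
        have h3 : ss ^ 2 * (1.26298 * x ^ 2) ≤ ss ^ 2 * (‖A‖ ^ 2 * ‖B‖ ^ 2) :=
          mul_le_mul_of_nonneg_left hab (sq_nonneg _)
        have h4 : 0 ≤ ‖A‖ ^ 2 * ((cc ^ 2 - 2.0164) * ‖A‖ ^ 2 + ss ^ 2 * ‖B‖ ^ 2 - 2 * cc * ss * x) := by
          nlinarith
        have hA2 : 0 < ‖A‖ ^ 2 := by positivity
        have h5 : 0 ≤ (cc ^ 2 - 2.0164) * ‖A‖ ^ 2 + ss ^ 2 * ‖B‖ ^ 2 - 2 * cc * ss * x := by
          by_contra hcon
          push Not at hcon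
          have := mul_neg_of_pos_of_neg hA2 hcon
          linarith
        nlinarith
  exact (pow_le_pow_iff_left₀ (by positivity) (norm_nonneg _) two_ne_zero).mp key

end Pool.Agent.YG
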