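import Pool.Agent.YG.L01Rel

/-!
# YG-L04: rotations of the cones

`om^k = cos(18k°) + i sin(18k°)` (`om_pow`). For `P0` in a cone around the positive real axis and a letter `k`,
`P = om^k P0`:
* `rot_mid`: `3 ≤ k ≤ 17` and `|arg P0| ≤ 12.53°` on the wide cone `4.5 |y0| ≤ x0`, where for `k ≤ 3` only `7`-narrow or the
  half cone on the near side occurs... precisely: `P0` in the cone N (`7|y0| ≤ x0`), or in the half cone P (`y0 ≤ 0`,
  `4.5 |y0| ≤ x0`) or in the half cone M (`y0 ≥ 0`, `4.5 y0 ≤ x0`); all are contained in `4.5 |y0| ≤ x0`, and for every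
  `P0` with `4.5 |y0| ≤ x0`: the angle of `om^k P0` is in `[54° - 12.53°, 306° + 12.53°]`, i.e. at least `41.47°` away from the
  positive real axis, and `cot 41.47° = 1.1315 < 1.15`.
  Proof for fixed `k`: `x = x0 cos φ - y0 sin φ`, `y = x0 sin φ + y0 cos φ`, `φ = 18k°`. By symmetry (`conj`,
  `k ↦ 20-k`) only `3 ≤ k ≤ 10`. `k = 3`: `cos 54° = .5878, sin 54° = .8090`: `x ≤ x0 (.5878 + .8090/4.5) = .7676 x0`,
  `y ≥ x0 (.8090 - .5878/4.5) = .6784 x0`, `.7676 < 1.15 * .6784 = .7801`. `k = 4, 5, ...` more room; for `k ≥ 6`: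
  if `x ≤ 0` done ...(each `k` separately with numerical bounds, or `interval_cases k`).
* `rot_two_*`: `P0` in N or M, `k = 2`: angle in `[36° - 8.13°, 36° + 12.53°]`, so `y ≥ 0`, `x ≤ 1.8911 y ≤ 1.95 y`.
  `P0` in N or P, `k = 18`: mirror image.
Numerical values: `cos 36° = (1+√5)/4`, `cos 18° = sqrt((5+√5)/8)`, `sin 18° = (√5-1)/4`, `sin 36° = sqrt((5-√5)/8)`, the other
multiples of 18° by symmetry. A table of bounds for `cos(πk/10)`, `sin(πk/10)`, `k = 2..10` first.
-/

set_option autoImplicit false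

namespace Pool.Agent.YG

open Matrix

private theorem a_bd : 0.80901 < Real.cos (Real.pi / 5) ∧ Real.cos (Real.pi / 5) < 0.80902 := by
  rw [Real.cos_pi_div_five]
  have h1 : 2.23606 < Real.sqrt 5 := by
    rw [Real.lt_sqrt (by norm_num)]; norm_num
  have h2 : Real.sqrt 5 < 2.23607 := by
    rw [Real.sqrt_lt' (by norm_num)]; norm_num
  constructor <;> norm_num at h1 h2 ⊢ <;> linarith

private theorem b_bd : 0.58778 < Real.sin (Real.pi / 5) ∧ Real.sin (Real.pi / 5) < 0.58780 := by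
  have h0 : 0 < Real.sin (Real.pi / 5) :=
    Real.sin_pos_of_pos_of_lt_pi (by positivity) (by linarith [Real.pi_pos])
  have h1 := Real.sin_sq_add_cos_sq (Real.pi / 5)
  obtain ⟨h2, h3⟩ := a_bd
  have h4 : 0 < Real.cos (Real.pi / 5) := by linarith
  have h5 := pow_le_pow_left₀ (by norm_num) h2.le 2
  have h6 := pow_le_pow_left₀ h4.le h3.le 2
  constructor
  · by_contra hcon
    push Not at hcon
    have := pow_le_pow_left₀ h0.le hcon 2
    norm_num [-Real.cos_pi_div_five] at this h5 h6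
    linarith
  · by_contra hcon
    push Not at hcon
    have := pow_le_pow_left₀ (by norm_num) hcon 2
    norm_num [-Real.cos_pi_div_five] at this h5 h6
    linarith

private theorem q_bd : 0.30901 < Real.sin (Real.pi / 10) ∧ Real.sin (Real.pi / 10) < 0.30902 := by
  have h0 : 0 < Real.sin (Real.pi / 10) :=
    Real.sin_pos_of_pos_of_lt_pi (by positivity) (by linarith [Real.pi_pos])
  have h1 := Real.sin_sq_add_cos_sq (Real.pi / 10)
  have h2 := cos10_lo
  have h3 := cos10_hi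
  have h4 : 0 < Real.cos (Real.pi / 10) := by linarith
  have h5 := pow_le_pow_left₀ (by norm_num) h2.le 2
  have h6 := pow_le_pow_left₀ h4.le h3.le 2
  constructor
  · by_contra hcon
    push Not at hcon
    have := pow_le_pow_left₀ h0.le hcon 2
    norm_num at this h5 h6
    linarith
  · by_contra hcon
    push Not at hcon
    have := pow_le_pow_left₀ (by norm_num) hcon 2
    norm_num at this h5 h6
    linarith

private theorem rot_re_im (k : ℕ) (c s : ℝ) (hc : Real.cos (Real.pi * k / 10) = c)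
    (hs : Real.sin (Real.pi * k / 10) = s) (P : ℂ) :
    (om ^ k * P).re = c * P.re - s * P.im ∧ (om ^ k * P).im = s * P.re + c * P.im := by
  rw [om_pow, hc, hs]
  constructor
  · simp
  · simp; ring

private theorem up_aux (k : ℕ) (c s : ℝ) (hc : Real.cos (Real.pi * k / 10) = c)
    (hs : Real.sin (Real.pi * k / 10) = s) (P : ℂ) (hP : 4.5 * |P.im| ≤ P.re)
    (h1 : s + 1.15 * c ≤ 4.5 * (1.15 * s - c)) (h2 : -(s + 1.15 * c) ≤ 4.5 * (1.15 * s - c)) :
    (om ^ k * P).re ≤ 1.15 * |(om ^ k * P).im| := by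
  obtain ⟨e1, e2⟩ := rot_re_im k c s hc hs P
  rw [e1, e2]
  have hD : 0 ≤ 1.15 * s - c := by linarith
  have h3 : (1.15 * s - c) * (4.5 * |P.im|) ≤ (1.15 * s - c) * P.re :=
    mul_le_mul_of_nonneg_left hP hD
  have h4 : -(P.im * (s + 1.15 * c)) ≤ |P.im| * (4.5 * (1.15 * s - c)) := by
    have h5 : |s + 1.15 * c| ≤ 4.5 * (1.15 * s - c) := abs_le.mpr ⟨by linarith, h1⟩
    calc -(P.im * (s + 1.15 * c)) ≤ |P.im * (s + 1.15 * c)| := neg_le_abs _
      _ = |P.im| * |s + 1.15 * c| := abs_mul _ _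
      _ ≤ |P.im| * (4.5 * (1.15 * s - c)) := mul_le_mul_of_nonneg_left h5 (abs_nonneg _)
  have h6 : c * P.re - s * P.im ≤ 1.15 * (s * P.re + c * P.im) := by
    have h7 : (1.15 * s - c) * (4.5 * |P.im|) = |P.im| * (4.5 * (1.15 * s - c)) := by ring
    rw [h7] at h3
    linarith
  have h8 := le_abs_self (s * P.re + c * P.im)
  linarith

private theorem down_aux (k : ℕ) (c s : ℝ) (hc : Real.cos (Real.pi * k / 10) = c)
    (hs : Real.sin (Real.pi * k / 10) = s) (P : ℂ) (hP : 4.5 * |P.im| ≤ P.re)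
    (h1 : -s + 1.15 * c ≤ 4.5 * (1.15 * (-s) - c)) (h2 : -(-s + 1.15 * c) ≤ 4.5 * (1.15 * (-s) - c)) :
    (om ^ k * P).re ≤ 1.15 * |(om ^ k * P).im| := by
  obtain ⟨e1, e2⟩ := rot_re_im k c s hc hs P
  rw [e1, e2]
  have hD : 0 ≤ 1.15 * (-s) - c := by linarith
  have h3 : (1.15 * (-s) - c) * (4.5 * |P.im|) ≤ (1.15 * (-s) - c) * P.re :=
    mul_le_mul_of_nonneg_left hP hD
  have h4 : P.im * (-s + 1.15 * c) ≤ |P.im| * (4.5 * (1.15 * (-s) - c)) := by
    have h5 : |-s + 1.15 * c| ≤ 4.5 * (1.15 * (-s) - c) := abs_le.mpr ⟨by linarith, h1⟩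
    calc P.im * (-s + 1.15 * c) ≤ |P.im * (-s + 1.15 * c)| := le_abs_self _
      _ = |P.im| * |-s + 1.15 * c| := abs_mul _ _
      _ ≤ |P.im| * (4.5 * (1.15 * (-s) - c)) := mul_le_mul_of_nonneg_left h5 (abs_nonneg _)
  have h6 : c * P.re - s * P.im ≤ 1.15 * (-(s * P.re + c * P.im)) := by
    have h7 : (1.15 * (-s) - c) * (4.5 * |P.im|) = |P.im| * (4.5 * (1.15 * (-s) - c)) := by ring
    rw [h7] at h3
    linarith
  have h8 := neg_le_abs (s * P.re + c * P.im)
  linarith

private theorem c3 : Real.cos (Real.pi * (3 : ℕ) / 10) = Real.sin (Real.pi / 5) := by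
  rw [← Real.cos_pi_div_two_sub]; congr 1; push_cast; ring
private theorem s3 : Real.sin (Real.pi * (3 : ℕ) / 10) = Real.cos (Real.pi / 5) := by
  rw [← Real.sin_pi_div_two_sub]; congr 1; push_cast; ring
private theorem c4 : Real.cos (Real.pi * (4 : ℕ) / 10) = Real.sin (Real.pi / 10) := by
  rw [← Real.cos_pi_div_two_sub]; congr 1; push_cast; ring
private theorem s4 : Real.sin (Real.pi * (4 : ℕ) / 10) = Real.cos (Real.pi / 10) := by
  rw [← Real.sin_pi_div_two_sub]; congr 1; push_cast; ring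
private theorem c5 : Real.cos (Real.pi * (5 : ℕ) / 10) = 0 := by
  rw [← Real.cos_pi_div_two]; congr 1; push_cast; ring
private theorem s5 : Real.sin (Real.pi * (5 : ℕ) / 10) = 1 := by
  rw [← Real.sin_pi_div_two]; congr 1; push_cast; ring
private theorem c6 : Real.cos (Real.pi * (6 : ℕ) / 10) = -Real.sin (Real.pi / 10) := by
  rw [← Real.cos_add_pi_div_two]; congr 1; push_cast; ring
private theorem s6 : Real.sin (Real.pi * (6 : ℕ) / 10) = Real.cos (Real.pi / 10) := by
  rw [← Real.sin_add_pi_div_two]; congr 1; push_cast; ring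
private theorem c7 : Real.cos (Real.pi * (7 : ℕ) / 10) = -Real.sin (Real.pi / 5) := by
  rw [← Real.cos_add_pi_div_two]; congr 1; push_cast; ring
private theorem s7 : Real.sin (Real.pi * (7 : ℕ) / 10) = Real.cos (Real.pi / 5) := by
  rw [← Real.sin_add_pi_div_two]; congr 1; push_cast; ring
private theorem c8 : Real.cos (Real.pi * (8 : ℕ) / 10) = -Real.cos (Real.pi / 5) := by
  rw [← Real.cos_pi_sub]; congr 1; push_cast; ring
private theorem s8 : Real.sin (Real.pi * (8 : ℕ) / 10) = Real.sin (Real.pi / 5) := by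
  rw [← Real.sin_pi_sub (Real.pi / 5)]; congr 1; push_cast; ring
private theorem c9 : Real.cos (Real.pi * (9 : ℕ) / 10) = -Real.cos (Real.pi / 10) := by
  rw [← Real.cos_pi_sub]; congr 1; push_cast; ring
private theorem s9 : Real.sin (Real.pi * (9 : ℕ) / 10) = Real.sin (Real.pi / 10) := by
  rw [← Real.sin_pi_sub (Real.pi / 10)]; congr 1; push_cast; ring
private theorem c10 : Real.cos (Real.pi * (10 : ℕ) / 10) = -1 := by
  rw [← Real.cos_pi]; congr 1; push_cast; ring
private theorem s10 : Real.sin (Real.pi * (10 : ℕ) / 10) = 0 := by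
  rw [← Real.sin_pi]; congr 1; push_cast; ring

private theorem cpi (k l : ℕ) (h : l = k + 10) :
    Real.cos (Real.pi * (l : ℕ) / 10) = -Real.cos (Real.pi * (k : ℕ) / 10) := by
  rw [← Real.cos_add_pi, h]; congr 1; push_cast; ring
private theorem spi (k l : ℕ) (h : l = k + 10) :
    Real.sin (Real.pi * (l : ℕ) / 10) = -Real.sin (Real.pi * (k : ℕ) / 10) := by
  rw [← Real.sin_add_pi, h]; congr 1; push_cast; ring
private theorem c1 : Real.cos (Real.pi * (1 : ℕ) / 10) = Real.cos (Real.pi / 10) := by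
  congr 1; push_cast; ring
private theorem s1 : Real.sin (Real.pi * (1 : ℕ) / 10) = Real.sin (Real.pi / 10) := by
  congr 1; push_cast; ring
private theorem c2 : Real.cos (Real.pi * (2 : ℕ) / 10) = Real.cos (Real.pi / 5) := by
  congr 1; push_cast; ring
private theorem s2 : Real.sin (Real.pi * (2 : ℕ) / 10) = Real.sin (Real.pi / 5) := by
  congr 1; push_cast; ring

theorem rot_mid (k : ℕ) (h3 : 3 ≤ k) (h17 : k ≤ 17) (P : ℂ) (hP : 4.5 * |P.im| ≤ P.re) :
    (om ^ k * P).re ≤ 1.15 * |(om ^ k * P).im| := by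
  obtain ⟨a1, a2⟩ := a_bd
  obtain ⟨b1, b2⟩ := b_bd
  obtain ⟨q1, q2⟩ := q_bd
  have p1 := cos10_lo
  have p2 := cos10_hi
  norm_num at a1 a2 b1 b2 q1 q2 p1 p2
  interval_cases k
  · exact up_aux 3 _ _ c3 s3 P hP (by norm_num; linarith) (by norm_num; linarith)
  · exact up_aux 4 _ _ c4 s4 P hP (by norm_num; linarith) (by norm_num; linarith)
  · exact up_aux 5 _ _ c5 s5 P hP (by norm_num) (by norm_num)
  · exact up_aux 6 _ _ c6 s6 P hP (by norm_num; linarith) (by norm_num; linarith)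
  · exact up_aux 7 _ _ c7 s7 P hP (by norm_num; linarith) (by norm_num; linarith)
  · exact up_aux 8 _ _ c8 s8 P hP (by norm_num; linarith) (by norm_num; linarith)
  · exact up_aux 9 _ _ c9 s9 P hP (by norm_num; linarith) (by norm_num; linarith)
  · exact up_aux 10 _ _ c10 s10 P hP (by norm_num) (by norm_num)
  · exact down_aux 11 _ _ (cpi 1 11 rfl) (spi 1 11 rfl) P hP
      (by rw [c1, s1]; norm_num; linarith) (by rw [c1, s1]; norm_num; linarith)
  · exact down_aux 12 _ _ (cpi 2 12 rfl) (spi 2 12 rfl) P hP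
      (by rw [c2, s2]; norm_num; linarith) (by rw [c2, s2]; norm_num; linarith)
  · exact down_aux 13 _ _ (cpi 3 13 rfl) (spi 3 13 rfl) P hP
      (by rw [c3, s3]; norm_num; linarith) (by rw [c3, s3]; norm_num; linarith)
  · exact down_aux 14 _ _ (cpi 4 14 rfl) (spi 4 14 rfl) P hP
      (by rw [c4, s4]; norm_num; linarith) (by rw [c4, s4]; norm_num; linarith)
  · exact down_aux 15 _ _ (cpi 5 15 rfl) (spi 5 15 rfl) P hP
      (by rw [c5, s5]; norm_num) (by rw [c5, s5]; norm_num)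
  · exact down_aux 16 _ _ (cpi 6 16 rfl) (spi 6 16 rfl) P hP
      (by rw [c6, s6]; norm_num; linarith) (by rw [c6, s6]; norm_num; linarith)
  · exact down_aux 17 _ _ (cpi 7 17 rfl) (spi 7 17 rfl) P hP
      (by rw [c7, s7]; norm_num; linarith) (by rw [c7, s7]; norm_num; linarith)

theorem rot_two_up (P : ℂ) (hP : 4.5 * P.im ≤ P.re) (hP' : -7 * P.im ≤ P.re) :
    0 ≤ (om ^ 2 * P).im ∧ (om ^ 2 * P).re ≤ 1.95 * (om ^ 2 * P).im := by
  obtain ⟨e1, e2⟩ := rot_re_im 2 _ _ c2 s2 P
  obtain ⟨a1, a2⟩ := a_bd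
  obtain ⟨b1, b2⟩ := b_bd
  rw [e1, e2]
  set x := P.re
  set y := P.im
  set a := Real.cos (Real.pi / 5)
  set b := Real.sin (Real.pi / 5)
  norm_num at a1 a2 b1 b2 hP hP' ⊢
  rcases le_or_gt 0 y with hy | hy
  · have hx : 0 ≤ x := by linarith
    constructor
    · have h1 : 0 ≤ b * x := mul_nonneg (by linarith) hx
      have h2 : 0 ≤ a * y := mul_nonneg (by linarith) hy
      linarith
    · have h1 : 0 ≤ (39 / 20 * b - a) * x := mul_nonneg (by linarith) hx
      have h2 : 0 ≤ (39 / 20 * a + b) * y := mul_nonneg (by linarith) hy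
      linarith
  · have hx : 0 ≤ x := by linarith
    constructor
    · have h1 : 0 ≤ (b - a / 7) * x := mul_nonneg (by linarith) hx
      have h2 : 0 ≤ (a / 7) * (x + 7 * y) := mul_nonneg (by linarith) (by linarith)
      linarith
    · have h1 : 0 ≤ (39 / 20 * b - a - (39 / 20 * a + b) / 7) * x := mul_nonneg (by linarith) hx
      have h2 : 0 ≤ ((39 / 20 * a + b) / 7) * (x + 7 * y) := mul_nonneg (by linarith) (by linarith)
      linarith

theorem rot_two_down (P : ℂ) (hP : 7 * P.im ≤ P.re) (hP' : -4.5 * P.im ≤ P.re) :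
    (om ^ 18 * P).im ≤ 0 ∧ (om ^ 18 * P).re ≤ 1.95 * (-(om ^ 18 * P).im) := by
  obtain ⟨e1, e2⟩ := rot_re_im 18 (Real.cos (Real.pi / 5)) (-Real.sin (Real.pi / 5))
    (by rw [cpi 8 18 rfl, c8, neg_neg]) (by rw [spi 8 18 rfl, s8]) P
  obtain ⟨a1, a2⟩ := a_bd
  obtain ⟨b1, b2⟩ := b_bd
  rw [e1, e2]
  set x := P.re
  set y := P.im
  set a := Real.cos (Real.pi / 5)
  set b := Real.sin (Real.pi / 5)
  norm_num at a1 a2 b1 b2 hP hP' ⊢
  rcases le_or_gt y 0 with hy | hy
  · have hx : 0 ≤ x := by linarith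
    constructor
    · have h1 : 0 ≤ b * x := mul_nonneg (by linarith) hx
      have h2 : 0 ≤ a * (-y) := mul_nonneg (by linarith) (by linarith)
      linarith
    · have h1 : 0 ≤ (39 / 20 * b - a) * x := mul_nonneg (by linarith) hx
      have h2 : 0 ≤ (39 / 20 * a + b) * (-y) := mul_nonneg (by linarith) (by linarith)
      linarith
  · have hx : 0 ≤ x := by linarith
    constructor
    · have h1 : 0 ≤ (b - a / 7) * x := mul_nonneg (by linarith) hx
      have h2 : 0 ≤ (a / 7) * (x - 7 * y) := mul_nonneg (by linarith) (by linarith)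
      linarith
    · have h1 : 0 ≤ (39 / 20 * b - a - (39 / 20 * a + b) / 7) * x := mul_nonneg (by linarith) hx
      have h2 : 0 ≤ ((39 / 20 * a + b) / 7) * (x - 7 * y) := mul_nonneg (by linarith) (by linarith)
      linarith

end Pool.Agent.YG
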