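import Pool.Agent.YG.L02Str

/-!
# YG-L05: reduced words in the stabiliser of the first disc

Every `g ∈ G1 \ S1` is `p * gH * wd l * q` with `p, q ∈ S1`, `wd l = ∏ gA^k * gH` over the list `l` of interior letters and
`l` reduced (`Good`): all letters in `2..18` and no two consecutive letters `2,2` or `18,18`.

Proof. The central part: `gB`, `gZ` commute with `gA`, `gH`. (1) Every element of `G1` is in `S1` or of the form
`p * gH * wd l * q` with arbitrary letters (closure induction from the left; generators `gA, gB, gZ` are absorbed in `p`;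
`gH * p * gH * wd l * q` with `p = gZ^i gA^j gB^k` (`S1_form`) is `(gZ^i gB^k) * gH * wd (j :: l) * q`; inverses of
generators are positive powers / `gH⁻¹ = gH * gB^7`). (2) Choose such a representation of `g` with `l.length` minimal
(letters may be taken mod 20: `gA^20 = 1`). If `l` is not reduced then it can be shortened:
 - letter `0`: `gH * gH = gB^13`;
 - letter `1`: `gH gA gH = gZ^33 gA⁻¹ gH gA⁻¹` (`hah`);
 - letter `19`: the inverse relation `gH gA⁻¹ gH = central * gA gH gA`;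
 - letters `2, 2`: `h a² h a² h = h a (a h a) a h`, with `a h a = central * h a⁻¹ h` this is
   `central * (h a h) a⁻¹ (h a h) = central * a⁻¹ h a⁻³ h a⁻¹`, i.e. three `h` become two;
 - letters `18, 18`: mirror image (`a ↔ a⁻¹`).
In all cases the neighbouring letters (or `p`, `q`) absorb the powers of `a`, the number of `gH` decreases, and the
result cannot be in `S1` because `g ∉ S1`.
-/

set_option autoImplicit false

namespace Pool.Agent.YG

open Matrix

/-- `∏ gA^k * gH` -/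
noncomputable def wd : List ℕ → GL3
  | [] => 1
  | (k :: l) => gA ^ k * gH * wd l

/-- reduced lists of interior letters -/
def Good (l : List ℕ) : Prop :=
  (∀ k ∈ l, 2 ≤ k ∧ k ≤ 18) ∧ l.IsChain (fun i j => ¬ (i = 2 ∧ j = 2) ∧ ¬ (i = 18 ∧ j = 18))

/-! ### auxiliary notions -/

/-- elements of `S1` which commute with `gA` and `gH` -/
private def Cn : Subgroup GL3 := S1 ⊓ Subgroup.centralizer {gA, gH}

private theorem mem_Cn {z : GL3} : z ∈ Cn ↔ z ∈ S1 ∧ gA * z = z * gA ∧ gH * z = z * gH := by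
  rw [Cn, Subgroup.mem_inf, Subgroup.mem_centralizer_iff]
  constructor
  · rintro ⟨h1, h2⟩
    exact ⟨h1, h2 gA (by simp), h2 gH (by simp)⟩
  · rintro ⟨h1, h2, h3⟩
    refine ⟨h1, fun y hy => ?_⟩
    rcases hy with rfl | hy
    · exact h2
    · rw [Set.mem_singleton_iff.mp hy]
      exact h3

private theorem gZ_mem_Cn : gZ ∈ Cn :=
  mem_Cn.mpr ⟨Subgroup.subset_closure (by simp), (gZ_comm gA).symm, (gZ_comm gH).symm⟩

private theorem gB_mem_Cn : gB ∈ Cn :=
  mem_Cn.mpr ⟨Subgroup.subset_closure (by simp), gAB_comm, gBH_comm.symm⟩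

/-- `∏ gH * gA^b` -/
private noncomputable def ww : List ℕ → GL3
  | [] => 1
  | (b :: l) => gH * gA ^ b * ww l

private theorem ww_append (l1 l2 : List ℕ) : ww (l1 ++ l2) = ww l1 * ww l2 := by
  induction l1 with
  | nil => simp [ww]
  | cons b l ih => simp only [List.cons_append, ww, ih, mul_assoc]

private theorem comm_gA_pow {z : GL3} (hz : z ∈ Cn) (a : ℕ) : gA ^ a * z = z * gA ^ a :=
  (Commute.pow_left (mem_Cn.mp hz).2.1 a : Commute (gA ^ a) z)

private theorem comm_ww {z : GL3} (hz : z ∈ Cn) (l : List ℕ) : ww l * z = z * ww l := by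
  induction l with
  | nil => simp [ww]
  | cons b l ih =>
    simp only [ww]
    rw [mul_assoc, ih, ← mul_assoc, mul_assoc gH, comm_gA_pow hz, ← mul_assoc,
      (mem_Cn.mp hz).2.2]
    simp only [mul_assoc]

private theorem ww_shift (a : ℕ) (l : List ℕ) (c : ℕ) :
    ∃ (a' : ℕ) (l' : List ℕ), l'.length = l.length ∧ gA ^ a * ww l * gA ^ c = gA ^ a' * ww l' := by
  induction l generalizing a with
  | nil => exact ⟨a + c, [], rfl, by simp [ww, pow_add]⟩
  | cons b l ih =>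
    obtain ⟨a', l', h1, h2⟩ := ih b
    refine ⟨a, a' :: l', by simp [h1], ?_⟩
    simp only [ww]
    calc gA ^ a * (gH * gA ^ b * ww l) * gA ^ c
        = gA ^ a * gH * (gA ^ b * ww l * gA ^ c) := by simp only [mul_assoc]
      _ = gA ^ a * gH * (gA ^ a' * ww l') := by rw [h2]
      _ = gA ^ a * (gH * gA ^ a' * ww l') := by simp only [mul_assoc]

/-- elements with a word containing at most `m` letters `gH` -/
private def RR (m : ℕ) : Set GL3 :=
  {x | ∃ z ∈ Cn, ∃ (a : ℕ) (l : List ℕ), l.length ≤ m ∧ x = z * (gA ^ a * ww l)}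

private theorem RR_mono {m n : ℕ} (h : m ≤ n) {x : GL3} (hx : x ∈ RR m) : x ∈ RR n := by
  obtain ⟨z, hz, a, l, hl, e⟩ := hx
  exact ⟨z, hz, a, l, hl.trans h, e⟩

private theorem RR_mul {m n : ℕ} {x y : GL3} (hx : x ∈ RR m) (hy : y ∈ RR n) :
    x * y ∈ RR (m + n) := by
  obtain ⟨z, hz, a, l, hl, rfl⟩ := hx
  obtain ⟨z', hz', a', l', hl', rfl⟩ := hy
  obtain ⟨a'', l'', h1, h2⟩ := ww_shift a l a'
  refine ⟨z * z', mul_mem hz hz', a'', l'' ++ l', by rw [List.length_append]; omega, ?_⟩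
  calc z * (gA ^ a * ww l) * (z' * (gA ^ a' * ww l'))
      = z * (gA ^ a * (ww l * z')) * (gA ^ a' * ww l') := by simp only [mul_assoc]
    _ = z * (gA ^ a * z') * ww l * (gA ^ a' * ww l') := by rw [comm_ww hz']; simp only [mul_assoc]
    _ = z * z' * ((gA ^ a * ww l * gA ^ a') * ww l') := by
      rw [comm_gA_pow hz']; simp only [mul_assoc]
    _ = z * z' * (gA ^ a'' * ww (l'' ++ l')) := by rw [h2, ww_append]; simp only [mul_assoc]

private theorem RR_Cn {z : GL3} (hz : z ∈ Cn) : z ∈ RR 0 :=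
  ⟨z, hz, 0, [], le_rfl, by simp [ww]⟩

private theorem RR_A (a : ℕ) : gA ^ a ∈ RR 0 :=
  ⟨1, one_mem _, a, [], le_rfl, by simp [ww]⟩

private theorem RR_H : gH ∈ RR 1 :=
  ⟨1, one_mem _, 0, [0], le_rfl, by simp [ww]⟩

private theorem gA_inv : gA⁻¹ = gA ^ 19 := by
  rw [inv_eq_iff_mul_eq_one, ← pow_succ', gA_pow_20]

private theorem RR_Ai : gA⁻¹ ∈ RR 0 := by
  rw [gA_inv]
  exact RR_A 19

private theorem gHH_mem : gH * gH ∈ Cn := by
  rw [hh]
  exact pow_mem gB_mem_Cn 13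

private theorem RR_Hi : gH⁻¹ ∈ RR 1 := by
  have h : gH⁻¹ = (gH * gH)⁻¹ * gH := by group
  rw [h]
  exact RR_mul (RR_Cn (inv_mem gHH_mem)) RR_H

private theorem RR_inv {m : ℕ} {x : GL3} (hx : x ∈ RR m) : x⁻¹ ∈ RR m := by
  have key : ∀ l : List ℕ, (ww l)⁻¹ ∈ RR l.length := by
    intro l
    induction l with
    | nil => simpa [ww] using RR_A 0
    | cons b l ih =>
      simp only [ww, _root_.mul_inv_rev, List.length_cons]
      have h1 : (gA ^ b)⁻¹ ∈ RR 0 := by
        have : (gA ^ b)⁻¹ = gA ^ (19 * b) := by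
          rw [← inv_pow, gA_inv, pow_mul]
        rw [this]
        exact RR_A _
      exact RR_mul ih (RR_mul h1 RR_Hi)
  obtain ⟨z, hz, a, l, hl, rfl⟩ := hx
  have h1 : (gA ^ a)⁻¹ ∈ RR 0 := by
    have : (gA ^ a)⁻¹ = gA ^ (19 * a) := by
      rw [← inv_pow, gA_inv, pow_mul]
    rw [this]
    exact RR_A _
  simp only [_root_.mul_inv_rev]
  exact RR_mono (by simpa using hl) (RR_mul (RR_mul (key l) h1) (RR_Cn (inv_mem hz)))

private theorem G1_RR (g : GL3) (hg : g ∈ G1) : ∃ m, g ∈ RR m := by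
  induction hg using Subgroup.closure_induction with
  | mem x hx =>
    rcases hx with rfl | rfl | rfl | hx
    · exact ⟨0, by simpa using RR_A 1⟩
    · exact ⟨0, RR_Cn gB_mem_Cn⟩
    · exact ⟨1, RR_H⟩
    · rw [Set.mem_singleton_iff.mp hx]
      exact ⟨0, RR_Cn gZ_mem_Cn⟩
  | one => exact ⟨0, RR_Cn (one_mem _)⟩
  | mul x y _ _ hx hy =>
    obtain ⟨m, hm⟩ := hx
    obtain ⟨n, hn⟩ := hy
    exact ⟨m + n, RR_mul hm hn⟩
  | inv x _ hx =>
    obtain ⟨m, hm⟩ := hx
    exact ⟨m, RR_inv hm⟩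

/-! ### relations -/

private theorem rel_B1 {G : Type*} [Group G] (a h z : G) (hza : z * a = a * z)
    (hwa : h * h * a = a * (h * h)) (e : h * a * h = z * (a⁻¹ * h * a⁻¹)) :
    a * h * a = z * (h * h)⁻¹ * (h * a⁻¹ * h) := by
  have e3 : a * h * a * h * a = z * h := by
    calc a * h * a * h * a = a * (h * a * h) * a := by group
      _ = a * z * (a⁻¹ * h * a⁻¹) * a := by rw [e]; group
      _ = z * h := by rw [← hza]; group
  have e4 : a * h * a = z * h * a⁻¹ * h⁻¹ := by rw [← e3]; group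
  have e5 : a⁻¹ * (h * h) = h * h * a⁻¹ := by
    calc a⁻¹ * (h * h) = a⁻¹ * (h * h * a) * a⁻¹ := by group
      _ = h * h * a⁻¹ := by rw [hwa]; group
  rw [e4]
  calc z * h * a⁻¹ * h⁻¹ = z * h⁻¹ * (h * h * a⁻¹) * h⁻¹ := by group
    _ = z * (h * h)⁻¹ * (h * a⁻¹ * h) := by rw [← e5]; group

private theorem A1 : gH * gA * gH ∈ RR 1 := by
  rw [hah]
  exact RR_mul (RR_Cn (pow_mem gZ_mem_Cn 33)) (RR_mul (RR_mul RR_Ai RR_H) RR_Ai)

private theorem B1 : ∃ c ∈ Cn, gA * gH * gA = c * (gH * gA⁻¹ * gH) := by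
  refine ⟨gZ ^ 33 * (gH * gH)⁻¹, mul_mem (pow_mem gZ_mem_Cn 33) (inv_mem gHH_mem), ?_⟩
  exact rel_B1 gA gH (gZ ^ 33) (mem_Cn.mp (pow_mem gZ_mem_Cn 33)).2.1.symm
    (mem_Cn.mp gHH_mem).2.1.symm hah

private theorem A2 : gH * gA⁻¹ * gH ∈ RR 1 := by
  obtain ⟨c, hc, h⟩ := B1
  have h1 : gH * gA⁻¹ * gH = c⁻¹ * (gA * gH * gA) := by
    rw [h]; group
  rw [h1]
  have hA : gA ∈ RR 0 := by simpa using RR_A 1
  exact RR_mul (RR_Cn (inv_mem hc)) (RR_mul (RR_mul hA RR_H) hA)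

private theorem B2 : ∃ c ∈ Cn, gA⁻¹ * gH * gA⁻¹ = c * (gH * gA * gH) :=
  ⟨(gZ ^ 33)⁻¹, inv_mem (pow_mem gZ_mem_Cn 33), by rw [hah]; group⟩

private theorem C1 : gH * gA ^ 2 * gH * gA ^ 2 * gH ∈ RR 2 := by
  obtain ⟨c, hc, h⟩ := B1
  have h1 : gH * gA ^ 2 * gH * gA ^ 2 * gH = c * ((gH * gA * gH) * gA⁻¹ * (gH * gA * gH)) := by
    calc gH * gA ^ 2 * gH * gA ^ 2 * gH = gH * gA * (gA * gH * gA) * gA * gH := by
          simp only [pow_two, mul_assoc]
      _ = gH * (gA * c) * (gH * gA⁻¹ * gH) * gA * gH := by rw [h]; simp only [mul_assoc]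
      _ = gH * c * gA * (gH * gA⁻¹ * gH) * gA * gH := by
          rw [(mem_Cn.mp hc).2.1]; simp only [mul_assoc]
      _ = c * ((gH * gA * gH) * gA⁻¹ * (gH * gA * gH)) := by
          rw [(mem_Cn.mp hc).2.2]; simp only [mul_assoc]
  rw [h1]
  exact RR_mul (RR_Cn hc) (RR_mul (RR_mul A1 RR_Ai) A1)

private theorem C2 : gH * gA⁻¹ ^ 2 * gH * gA⁻¹ ^ 2 * gH ∈ RR 2 := by
  obtain ⟨c, hc, h⟩ := B2
  have hcA : gA⁻¹ * c = c * gA⁻¹ := by
    have := (mem_Cn.mp hc).2.1
    calc gA⁻¹ * c = gA⁻¹ * (c * gA) * gA⁻¹ := by group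
      _ = c * gA⁻¹ := by rw [← this]; group
  have h1 : gH * gA⁻¹ ^ 2 * gH * gA⁻¹ ^ 2 * gH =
      c * ((gH * gA⁻¹ * gH) * gA * (gH * gA⁻¹ * gH)) := by
    calc gH * gA⁻¹ ^ 2 * gH * gA⁻¹ ^ 2 * gH
        = gH * gA⁻¹ * (gA⁻¹ * gH * gA⁻¹) * gA⁻¹ * gH := by
          simp only [pow_two, mul_assoc]
      _ = gH * (gA⁻¹ * c) * (gH * gA * gH) * gA⁻¹ * gH := by rw [h]; simp only [mul_assoc]
      _ = gH * c * gA⁻¹ * (gH * gA * gH) * gA⁻¹ * gH := by
          rw [hcA]; simp only [mul_assoc]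
      _ = c * ((gH * gA⁻¹ * gH) * gA * (gH * gA⁻¹ * gH)) := by
          rw [(mem_Cn.mp hc).2.2]; simp only [mul_assoc]
  rw [h1]
  have hA : gA ∈ RR 0 := by simpa using RR_A 1
  exact RR_mul (RR_Cn hc) (RR_mul (RR_mul A2 hA) A2)

private theorem gA_mod (b : ℕ) : gA ^ b = gA ^ (b % 20) := by
  conv_lhs => rw [← Nat.div_add_mod b 20, pow_add, pow_mul, gA_pow_20, one_pow, one_mul]

private theorem one_letter (b : ℕ) (hb : ¬ (2 ≤ b % 20 ∧ b % 20 ≤ 18)) :
    gH * gA ^ b * gH ∈ RR 1 := by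
  have h3 : b % 20 = 0 ∨ b % 20 = 1 ∨ b % 20 = 19 := by omega
  rw [gA_mod b]
  rcases h3 with h | h | h
  · rw [h, pow_zero, mul_one]
    exact RR_mono (by omega) (RR_Cn gHH_mem)
  · rw [h, pow_one]
    exact A1
  · rw [h, ← gA_inv]
    exact A2

private theorem two_letters (b b' : ℕ) (hb : (b % 20 = 2 ∧ b' % 20 = 2) ∨
    (b % 20 = 18 ∧ b' % 20 = 18)) : gH * gA ^ b * gH * gA ^ b' * gH ∈ RR 2 := by
  rw [gA_mod b, gA_mod b']
  rcases hb with ⟨h1, h2⟩ | ⟨h1, h2⟩
  · rw [h1, h2]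
    exact C1
  · rw [h1, h2]
    have h : gA ^ 18 = gA⁻¹ ^ 2 := by
      have h20 := gA_pow_20
      calc gA ^ 18 = gA ^ 20 * gA⁻¹ ^ 2 := by group
        _ = gA⁻¹ ^ 2 := by rw [h20, one_mul]
    rw [h]
    exact C2

/-- the interior letters modulo 20 -/
private def fl : List ℕ → List ℕ
  | [] => []
  | [_] => []
  | (b :: b' :: t) => (b % 20) :: fl (b' :: t)

private theorem ww_fl (l : List ℕ) (hl : l ≠ []) : ∃ c : ℕ, ww l = gH * wd (fl l) * gA ^ c := by
  induction l with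
  | nil => exact absurd rfl hl
  | cons b l ih =>
    cases l with
    | nil => exact ⟨b, by simp [ww, fl, wd]⟩
    | cons b' t =>
      obtain ⟨c, hc⟩ := ih (by simp)
      refine ⟨c, ?_⟩
      rw [ww, hc, fl, wd, gA_mod b]
      simp only [mul_assoc]

private theorem good_fl (l : List ℕ)
    (h1 : ∀ l1 b b' l2, l = l1 ++ b :: b' :: l2 → 2 ≤ b % 20 ∧ b % 20 ≤ 18)
    (h2 : ∀ l1 b b' b'' l2, l = l1 ++ b :: b' :: b'' :: l2 →
      ¬ ((b % 20 = 2 ∧ b' % 20 = 2) ∨ (b % 20 = 18 ∧ b' % 20 = 18))) : Good (fl l) := by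
  induction l with
  | nil => exact ⟨by simp [fl], by simp [fl]⟩
  | cons b l ih =>
    cases l with
    | nil => exact ⟨by simp [fl], by simp [fl]⟩
    | cons b' t =>
      have ih' := ih (fun l1 c c' l2 h => h1 (b :: l1) c c' l2 (by rw [h]; rfl))
        (fun l1 c c' c'' l2 h => h2 (b :: l1) c c' c'' l2 (by rw [h]; rfl))
      have hb := h1 [] b b' t rfl
      rw [fl]
      refine ⟨?_, ?_⟩
      · intro k hk
        rcases List.mem_cons.mp hk with rfl | hk
        · exact hb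
        · exact ih'.1 k hk
      · cases t with
        | nil => simp [fl]
        | cons c t' =>
          have h3 := ih'.2
          rw [fl] at h3 ⊢
          refine List.IsChain.cons_cons ?_ h3
          have h4 := h2 [] b b' c t' rfl
          refine ⟨fun h => h4 (Or.inl h), fun h => h4 (Or.inr h)⟩

theorem G1_word (g : GL3) (hg : g ∈ G1) (hg' : g ∉ S1) :
    ∃ p ∈ S1, ∃ q ∈ S1, ∃ l : List ℕ, Good l ∧ g = p * gH * wd l * q := by
  classical
  have hex := G1_RR g hg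
  set m := Nat.find hex with hm
  have hgm : g ∈ RR m := Nat.find_spec hex
  have hmin : ∀ n < m, g ∉ RR n := fun n hn => Nat.find_min hex hn
  obtain ⟨z, hz, a, l, hl, hgl⟩ := hgm
  have hlm : l.length = m := by
    by_contra hne
    exact hmin l.length (lt_of_le_of_ne hl hne) ⟨z, hz, a, l, le_rfl, hgl⟩
  have hl0 : l ≠ [] := by
    rintro rfl
    apply hg'
    rw [hgl]
    simp only [ww, mul_one]
    exact mul_mem (mem_Cn.mp hz).1 (pow_mem gA_mem_S1 a)
  have hgood : Good (fl l) := by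
    refine good_fl l ?_ ?_
    · intro l1 b b' l2 hdec
      by_contra hcon
      have h1 := one_letter b hcon
      have h2 : g = (z * (gA ^ a * ww l1)) * (gH * gA ^ b * gH) * (1 * (gA ^ b' * ww l2)) := by
        rw [hgl, hdec, ww_append, ww, ww]
        simp only [mul_assoc, one_mul]
      have h3 : g ∈ RR (l1.length + 1 + l2.length) := by
        rw [h2]
        exact RR_mul (RR_mul ⟨z, hz, a, l1, le_rfl, rfl⟩ h1) ⟨1, one_mem _, b', l2, le_rfl, rfl⟩
      refine hmin _ ?_ h3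
      rw [← hlm, hdec]
      simp only [List.length_append, List.length_cons]
      omega
    · intro l1 b b' b'' l2 hdec hcon
      have h1 := two_letters b b' hcon
      have h2 : g = (z * (gA ^ a * ww l1)) * (gH * gA ^ b * gH * gA ^ b' * gH) *
          (1 * (gA ^ b'' * ww l2)) := by
        rw [hgl, hdec, ww_append, ww, ww, ww]
        simp only [mul_assoc, one_mul]
      have h3 : g ∈ RR (l1.length + 2 + l2.length) := by
        rw [h2]
        exact RR_mul (RR_mul ⟨z, hz, a, l1, le_rfl, rfl⟩ h1) ⟨1, one_mem _, b'', l2, le_rfl, rfl⟩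
      refine hmin _ ?_ h3
      rw [← hlm, hdec]
      simp only [List.length_append, List.length_cons]
      omega
  obtain ⟨c, hc⟩ := ww_fl l hl0
  refine ⟨z * gA ^ a, mul_mem (mem_Cn.mp hz).1 (pow_mem gA_mem_S1 a), gA ^ c,
    pow_mem gA_mem_S1 c, fl l, hgood, ?_⟩
  rw [hgl, hc]
  simp only [mul_assoc]

end Pool.Agent.YG
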