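import Pool.Agent.YG.L03Cone
import Pool.Agent.YG.L04Rot
import Pool.Agent.YG.L05Words

/-!
# YG-L06: growth in the disc

For a reduced list `l` and `p, q ∈ S1`: `‖(p * gH * wd l * q) 0 0‖ ≥ cc * 1.42 ^ l.length`.

Proof. The first row of `p * gH` is `p00 * (cc, ss, 0)` (`S1_diag`). Read the letters of `l` from the left; the first row
`(A, B, 0)` changes by `(stA k A B, stB k A B, 0)`. State: `‖B‖ ≤ ‖A‖` and `P0 = pr A B = B conj A` lies in
 - N: `7 |Im P0| ≤ Re P0` at the beginning (`P0 = c s > 0`) and after a letter `3..17`,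
 - P: `Im P0 ≤ 0`, `4.5 |Im P0| ≤ Re P0` after the letter `2` (next letter is not `2`),
 - M: `Im P0 ≥ 0`, `4.5 |Im P0| ≤ Re P0` after the letter `18` (next letter is not `18`).
Transitions: letter `3..17`: `rot_mid`, `cone_N`, `grow`; letter `2` from N or M: `rot_two_up` then `cone_C` and
`st_im` (`Im' = -Im P ≤ 0`), `grow`; letter `18` from N or P: `rot_two_down`. So `‖A‖` grows by `1.42` per letter.
Finally `q` does not change `‖A‖`.
-/

set_option autoImplicit false

namespace Pool.Agent.YG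

open Matrix

/-- the states of the automaton, depending on the remaining word -/
private def StN (A B : ℂ) (l : List ℕ) : Prop :=
  7 * |(pr A B).im| ≤ (pr A B).re ∨
  ((pr A B).im ≤ 0 ∧ 4.5 * |(pr A B).im| ≤ (pr A B).re ∧ ∀ k ∈ l.head?, k ≠ 2) ∨
  (0 ≤ (pr A B).im ∧ 4.5 * |(pr A B).im| ≤ (pr A B).re ∧ ∀ k ∈ l.head?, k ≠ 18)

private theorem stn_wide {A B : ℂ} {l : List ℕ} (h : StN A B l) : 4.5 * |(pr A B).im| ≤ (pr A B).re := by
  rcases h with h | h | h
  · have := abs_nonneg (pr A B).im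
    linarith
  · exact h.2.1
  · exact h.2.1

private theorem row_step (M : M3) (k : ℕ) (A B : ℂ) (h0 : M 0 0 = A) (h1 : M 0 1 = B) (h2 : M 0 2 = 0) :
    (M * (mA ^ k * mH)) 0 0 = stA k A B ∧ (M * (mA ^ k * mH)) 0 1 = stB k A B ∧
    (M * (mA ^ k * mH)) 0 2 = 0 := by
  have hk : mA ^ k = !![1, 0, 0; 0, om ^ k, 0; 0, 0, 1] := by
    induction k with
    | zero =>
      ext i j; fin_cases i <;> fin_cases j <;> simp
    | succ n ih =>
      rw [pow_succ, ih]
      ext i j; fin_cases i <;> fin_cases j <;> simp [mA, Matrix.mul_apply, Fin.sum_univ_three, pow_succ]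
  rw [hk]
  refine ⟨?_, ?_, ?_⟩
  · simp [mH, Matrix.mul_apply, Fin.sum_univ_three, h0, h1, h2, stA]; ring
  · simp [mH, Matrix.mul_apply, Fin.sum_univ_three, h0, h1, h2, stB]; ring
  · simp [mH, Matrix.mul_apply, Fin.sum_univ_three, h0, h1, h2]

private theorem grow_list (l : List ℕ) : ∀ (M : M3) (A B : ℂ), M 0 0 = A → M 0 1 = B → M 0 2 = 0 →
    ‖B‖ ≤ ‖A‖ → StN A B l → Good l → 
    ‖A‖ * 1.42 ^ l.length ≤ ‖(M * ((wd l : GL3) : M3)) 0 0‖ ∧ (M * ((wd l : GL3) : M3)) 0 2 = 0 := by
  induction l with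
  | nil =>
    intro M A B h0 h1 h2 hBA hs hg
    simp [wd, h0, h2]
  | cons k l ih =>
    intro M A B h0 h1 h2 hBA hs hg
    have hw : M * ((wd (k :: l) : GL3) : M3) = (M * (mA ^ k * mH)) * ((wd l : GL3) : M3) := by
      simp [wd, gA_coe, gH_coe, Matrix.mul_assoc]
    obtain ⟨r0, r1, r2⟩ := row_step M k A B h0 h1 h2
    have hk : 2 ≤ k ∧ k ≤ 18 := hg.1 k (by simp)
    have hg' : Good l := ⟨fun i hi => hg.1 i (by simp [hi]), by
      have := hg.2
      cases l with
      | nil => simp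
      | cons a l => simp only [List.isChain_cons_cons] at this; exact this.2⟩
    have hhead : ∀ i ∈ l.head?, ¬ (k = 2 ∧ i = 2) ∧ ¬ (k = 18 ∧ i = 18) := by
      intro i hi
      have := hg.2
      cases l with
      | nil => simp at hi
      | cons a l =>
        simp only [List.isChain_cons_cons] at this
        simp only [List.head?_cons, Option.mem_def, Option.some.injEq] at hi
        subst hi
        exact this.1
    have hwide := stn_wide hs
    -- the three kinds of letters
    have key : (om ^ k * pr A B).re ≤ 1.95 * |(om ^ k * pr A B).im| ∧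
        StN (stA k A B) (stB k A B) l := by
      by_cases hk2 : k = 2
      · subst hk2
        have hPP : 4.5 * (pr A B).im ≤ (pr A B).re ∧ -7 * (pr A B).im ≤ (pr A B).re := by
          rcases hs with h | h | h
          · have h1 := le_abs_self (pr A B).im
            have h2 := neg_abs_le (pr A B).im
            have h3 := abs_nonneg (pr A B).im
            constructor <;> linarith
          · exact absurd rfl (h.2.2 2 (by simp))
          · have h1 := le_abs_self (pr A B).im
            have h3 := abs_nonneg (pr A B).im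
            constructor <;> linarith [h.1, h.2.1]
        obtain ⟨c1, c2⟩ := rot_two_up (pr A B) hPP.1 hPP.2
        have c3 : (om ^ 2 * pr A B).re ≤ 1.95 * |(om ^ 2 * pr A B).im| := by
          rw [abs_of_nonneg c1]; exact c2
        refine ⟨c3, Or.inr (Or.inl ⟨?_, cone_C 2 A B c3, ?_⟩)⟩
        · rw [st_im]; linarith
        · intro i hi hi2
          exact (hhead i hi).1 ⟨rfl, hi2⟩
      · by_cases hk18 : k = 18
        · subst hk18
          have hPP : 7 * (pr A B).im ≤ (pr A B).re ∧ -4.5 * (pr A B).im ≤ (pr A B).re := by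
            rcases hs with h | h | h
            · have h1 := le_abs_self (pr A B).im
              have h2 := neg_abs_le (pr A B).im
              have h3 := abs_nonneg (pr A B).im
              constructor <;> linarith
            · have h1 := neg_abs_le (pr A B).im
              have h3 := abs_nonneg (pr A B).im
              constructor <;> linarith [h.1, h.2.1]
            · exact absurd rfl (h.2.2 18 (by simp))
          obtain ⟨c1, c2⟩ := rot_two_down (pr A B) hPP.1 hPP.2
          have c3 : (om ^ 18 * pr A B).re ≤ 1.95 * |(om ^ 18 * pr A B).im| := by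
            rw [abs_of_nonpos c1]; exact c2
          refine ⟨c3, Or.inr (Or.inr ⟨?_, cone_C 18 A B c3, ?_⟩)⟩
          · rw [st_im]; linarith
          · intro i hi hi2
            exact (hhead i hi).2 ⟨rfl, hi2⟩
        · have c := rot_mid k (by omega) (by omega) (pr A B) hwide
          refine ⟨?_, Or.inl (cone_N k A B c)⟩
          have h3 := abs_nonneg (om ^ k * pr A B).im
          linarith
    obtain ⟨i1, i2⟩ := ih (M * (mA ^ k * mH)) _ _ r0 r1 r2 (st_le k A B hBA) key.2 hg'
    rw [hw]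
    refine ⟨?_, i2⟩
    refine le_trans ?_ i1
    have hgr := grow k A B hBA key.1
    have hpos : (0 : ℝ) ≤ 1.42 ^ l.length := by positivity
    calc ‖A‖ * 1.42 ^ (k :: l).length = (1.42 * ‖A‖) * 1.42 ^ l.length := by
          rw [List.length_cons, pow_succ]; ring
      _ ≤ _ := mul_le_mul_of_nonneg_right hgr hpos

theorem wd_growth (l : List ℕ) (hl : Good l) (p q : GL3) (hp : p ∈ S1) (hq : q ∈ S1) :
    cc * 1.42 ^ l.length ≤ ‖((p * gH * wd l * q : GL3) : M3) 0 0‖ := by
  obtain ⟨p01, p02, p10, p20, p12, p21, n0, n1, n2⟩ := S1_diag p hp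
  obtain ⟨q01, q02, q10, q20, q12, q21, m0, m1, m2⟩ := S1_diag q hq
  set M : M3 := (p : M3) * mH with hM
  have hcc : 0 < cc := lt_trans one_pos cc_gt
  have h0 : M 0 0 = (p : M3) 0 0 * cc := by
    simp [hM, mH, Matrix.mul_apply, Fin.sum_univ_three, p01, p02]
  have h1 : M 0 1 = (p : M3) 0 0 * ss := by
    simp [hM, mH, Matrix.mul_apply, Fin.sum_univ_three, p01, p02]
  have h2 : M 0 2 = 0 := by
    simp [hM, mH, Matrix.mul_apply, Fin.sum_univ_three, p01, p02]
  have hnA : ‖(p : M3) 0 0 * (cc : ℂ)‖ = cc := by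
    rw [norm_mul, n0, one_mul, Complex.norm_real, Real.norm_of_nonneg hcc.le]
  have hnB : ‖(p : M3) 0 0 * (ss : ℂ)‖ = ss := by
    rw [norm_mul, n0, one_mul, Complex.norm_real, Real.norm_of_nonneg ss_pos.le]
  have hBA : ‖(p : M3) 0 0 * (ss : ℂ)‖ ≤ ‖(p : M3) 0 0 * (cc : ℂ)‖ := by
    rw [hnA, hnB]
    nlinarith [ss_sq, ss_pos, hcc]
  have hpr : pr ((p : M3) 0 0 * (cc : ℂ)) ((p : M3) 0 0 * (ss : ℂ)) = ((ss * cc : ℝ) : ℂ) := by
    have hn : (p : M3) 0 0 * (starRingEnd ℂ) ((p : M3) 0 0) = 1 := by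
      rw [Complex.mul_conj, Complex.normSq_eq_norm_sq, n0]; simp
    simp only [pr, map_mul, Complex.conj_ofReal]
    push_cast
    linear_combination (ss : ℂ) * (cc : ℂ) * hn
  have hst : StN ((p : M3) 0 0 * (cc : ℂ)) ((p : M3) 0 0 * (ss : ℂ)) l := by
    left
    rw [hpr, Complex.ofReal_im, Complex.ofReal_re]
    simp only [abs_zero, mul_zero]
    exact (mul_pos ss_pos hcc).le
  obtain ⟨e1, e2⟩ := grow_list l M _ _ h0 h1 h2 hBA hst hl
  rw [hnA] at e1
  have hfin : ((p * gH * wd l * q : GL3) : M3) 0 0 = (M * ((wd l : GL3) : M3)) 0 0 * (q : M3) 0 0 := by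
    have : ((p * gH * wd l * q : GL3) : M3) = (M * ((wd l : GL3) : M3)) * (q : M3) := by
      simp [hM, gH_coe]
    rw [this, Matrix.mul_apply, Fin.sum_univ_three, q10, q20]
    simp
  rw [hfin, norm_mul, m0, mul_one]
  exact e1

private theorem W_mul_SS (n : ℕ) (x q : GL3) (hx : x ∈ W n) (hq : q ∈ SS) : x * q ∈ W n := by
  cases n with
  | zero => exact SS.mul_mem hx hq
  | succ n =>
    obtain ⟨y, hy, t, ht, rfl⟩ := hx
    exact ⟨y, hy, t * q, SS.mul_mem ht hq, by group⟩

private theorem wd_W_aux (l : List ℕ) : ∀ (x : GL3) (n : ℕ), x ∈ W n → x * wd l ∈ W (n + l.length) := by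
  induction l with
  | nil => intro x n hx; simpa [wd] using hx
  | cons k l ih =>
    intro x n hx
    have hA : gA ^ k ∈ SS := SS.pow_mem (S1_le_SS gA_mem_S1) k
    have h1 : x * gA ^ k ∈ W n := W_mul_SS n x _ hx hA
    have h2 : x * gA ^ k * gH ∈ W (n + 1) := ⟨x * gA ^ k, h1, 1, SS.one_mem, by simp⟩
    have h3 := ih _ _ h2
    have e : x * wd (k :: l) = x * gA ^ k * gH * wd l := by
      simp [wd, mul_assoc]
    rw [e, List.length_cons, show n + (l.length + 1) = n + 1 + l.length by omega]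
    exact h3

theorem wd_W (l : List ℕ) (p q : GL3) (hp : p ∈ S1) (hq : q ∈ S1) :
    p * gH * wd l * q ∈ W (l.length + 1) := by
  have h0 : p ∈ W 0 := S1_le_SS hp
  have h1 : p * gH ∈ W 1 := ⟨p, h0, 1, SS.one_mem, by simp⟩
  have h2 := wd_W_aux l _ _ h1
  rw [show l.length + 1 = 1 + l.length by omega]
  exact W_mul_SS _ _ _ h2 (S1_le_SS hq)

theorem G1_growth (g : GL3) (hg : g ∈ G1) (hg' : g ∉ S1) :
    ∃ n : ℕ, g ∈ W (n + 1) ∧ cc * 1.42 ^ n ≤ ‖(g : M3) 0 0‖ := by
  obtain ⟨p, hp, q, hq, l, hl, rfl⟩ := G1_word g hg hg'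
  exact ⟨l.length, wd_W l p q hp hq, wd_growth l hl p q hp hq⟩

end Pool.Agent.YG
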