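import Pool.Agent.YG.L02Str
import Pool.Agent.YG.G01Pos

/-!
# YG-L07: the nodes of the first disc are dense in it

For a unit negative `y` with `y 2 = 0` there is `g ∈ G1` with `E y (act g e0) ≤ 5/3`.

Proof. Step: if `E y e0 = |y 0| > 5/3` there is `k` with `E y (act (gA^k * gH) e0) ≤ 0.9 * E y e0`:
`act (gA^k * gH) e0 = (c, -ω^k s, 0)`, `hf y (..) = -(c y0 + s ω^{-k} y1)`. Let `z = y1/y0`, `ρ = |z|`,
`ρ^2 = 1 - 1/|y0|^2 ≥ 16/25`, `ρ < 1`. Choose `k` with `Re(-ω^{-k} z) ≥ ρ cos 9° ≥ 0.98768 ρ` (some multiple of 18° is within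
9° of any angle). Then `|c + s ω^{-k} z|^2 = c^2 + s^2 ρ^2 + 2cs Re(ω^{-k} z) ≤ c^2 + s^2ρ^2 - 2 * 0.98768 * c s ρ`, a convex
function of `ρ ∈ [0.8, 1]` with values `0.78` at `0.8` and `0.265` at `1`, so `≤ 0.81`.
Descent: let `I = inf_{g ∈ G1} E y (act g e0) ≥ 1`; choose `g` with `E y (act g e0) < I / 0.9`. If it were `> 5/3` then the step
for `act g⁻¹ y` (again unit negative with third coordinate 0, `G1_form`) gives `g' = g * gA^k * gH ∈ G1` with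
`E y (act g' e0) ≤ 0.9 E y (act g e0) < I`, contradiction.
-/

set_option autoImplicit false

namespace Pool.Agent.YG

open Matrix

private theorem mA_pow' (k : ℕ) : mA ^ k = !![1, 0, 0; 0, om ^ k, 0; 0, 0, 1] := by
  have h : mA = Matrix.diagonal ![1, om, 1] := by
    ext i j; fin_cases i <;> fin_cases j <;> simp [mA]
  rw [h, Matrix.diagonal_pow]
  ext i j; fin_cases i <;> fin_cases j <;> simp

private theorem act_kH (k : ℕ) : act (gA ^ k * gH) e0 = ![(cc : ℂ), -(om ^ k * (ss : ℂ)), 0] := by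
  have h : ((gA ^ k * gH : GL3) : M3) = mA ^ k * mH := by
    rw [Units.val_mul, Units.val_pow_eq_pow_val, gA_coe, gH_coe]
  funext i
  rw [act_e0, h, mA_pow']
  fin_cases i <;> simp [mH, Matrix.mul_apply, Fin.sum_univ_three]

private theorem cos20_lo : 0.98768 ≤ Real.cos (Real.pi / 20) := by
  have h := Real.cos_sq (Real.pi / 20)
  have h2 : 2 * (Real.pi / 20) = Real.pi / 10 := by ring
  rw [h2] at h
  have h3 := cos10_lo
  have h4 : 0 < Real.cos (Real.pi / 20) :=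
    Real.cos_pos_of_mem_Ioo ⟨by linarith [Real.pi_pos], by linarith [Real.pi_pos]⟩
  by_contra hc
  push Not at hc
  have h5 : Real.cos (Real.pi / 20) ^ 2 ≤ 0.98768 ^ 2 := pow_le_pow_left₀ h4.le hc.le 2
  norm_num at h3 h5
  linarith

private theorem choose_k (φ : ℝ) (h1 : -Real.pi < φ) :
    ∃ k : ℕ, 0.98768 ≤ Real.cos (φ + Real.pi - Real.pi * k / 10) := by
  have hpi := Real.pi_pos
  refine ⟨⌊(φ + Real.pi) * 10 / Real.pi + 1 / 2⌋₊, ?_⟩
  have h0 : 0 ≤ (φ + Real.pi) * 10 / Real.pi + 1 / 2 := by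
    have : 0 < (φ + Real.pi) * 10 / Real.pi := by
      apply div_pos _ hpi
      linarith
    linarith
  have ha := Nat.floor_le h0
  have hb := Nat.lt_floor_add_one ((φ + Real.pi) * 10 / Real.pi + 1 / 2)
  generalize ((⌊(φ + Real.pi) * 10 / Real.pi + 1 / 2⌋₊ : ℕ) : ℝ) = t at ha hb ⊢
  have e : (φ + Real.pi) * 10 / Real.pi * (Real.pi / 10) = φ + Real.pi := by
    field_simp
  have ha' : t * (Real.pi / 10) ≤ ((φ + Real.pi) * 10 / Real.pi + 1 / 2) * (Real.pi / 10) :=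
    mul_le_mul_of_nonneg_right ha (by positivity)
  have hb' : ((φ + Real.pi) * 10 / Real.pi + 1 / 2) * (Real.pi / 10) ≤ (t + 1) * (Real.pi / 10) :=
    mul_le_mul_of_nonneg_right hb.le (by positivity)
  rw [add_mul, e] at ha' hb'
  have habs : |φ + Real.pi - Real.pi * t / 10| ≤ Real.pi / 20 := by
    rw [abs_le]; constructor <;> linarith
  calc (0.98768 : ℝ) ≤ Real.cos (Real.pi / 20) := cos20_lo
    _ ≤ Real.cos |φ + Real.pi - Real.pi * t / 10| := by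
        apply Real.cos_le_cos_of_nonneg_of_le_pi (abs_nonneg _) (by linarith) habs
    _ = _ := Real.cos_abs _

private theorem step (w : V) (hw : hf w w = -1) (hw2 : w 2 = 0) (hbig : 5 / 3 < ‖w 0‖) :
    ∃ k : ℕ, E w (act (gA ^ k * gH) e0) ≤ 0.9 * ‖w 0‖ := by
  obtain ⟨k, hk⟩ := choose_k (Complex.arg ((starRingEnd ℂ) (w 0) * w 1)) (Complex.neg_pi_lt_arg _)
  refine ⟨k, ?_⟩
  have hab : ‖w 0‖ ^ 2 = 1 + ‖w 1‖ ^ 2 := by
    have h := hf_self w
    rw [hw, hw2] at h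
    have h' : (-1 : ℝ) = -‖w 0‖ ^ 2 + ‖w 1‖ ^ 2 + ‖(0 : ℂ)‖ ^ 2 := by exact_mod_cast h
    simp at h'
    linarith
  have hE : E w (act (gA ^ k * gH) e0)
      = ‖(cc : ℂ) * w 0 + (ss : ℂ) * ((starRingEnd ℂ) (om ^ k) * w 1)‖ := by
    rw [E, act_kH, hf]
    simp only [Matrix.cons_val_zero, Matrix.cons_val_one, Matrix.cons_val_two, Matrix.head_cons,
      Matrix.tail_cons, map_neg, map_mul, Complex.conj_ofReal, map_zero, mul_zero, add_zero]
    rw [← norm_neg]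
    congr 1
    simp
    ring
  rw [hE]
  obtain ⟨ζ, hζ⟩ : ∃ ζ, ζ = (starRingEnd ℂ) (w 0) * w 1 := ⟨_, rfl⟩
  rw [← hζ] at hk
  have hζn : ‖ζ‖ = ‖w 0‖ * ‖w 1‖ := by rw [hζ, norm_mul, Complex.norm_conj]
  have hsq : ‖(cc : ℂ) * w 0 + (ss : ℂ) * ((starRingEnd ℂ) (om ^ k) * w 1)‖ ^ 2
      = cc ^ 2 * ‖w 0‖ ^ 2 + ss ^ 2 * ‖w 1‖ ^ 2
        + 2 * cc * ss * ((starRingEnd ℂ) (om ^ k) * ζ).re := by
    have hu : om ^ k * (starRingEnd ℂ) (om ^ k) = 1 := by
      rw [Complex.mul_conj, Complex.normSq_eq_norm_sq, norm_pow, om_norm]; norm_num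
    generalize om ^ k = u at hu ⊢
    have h1 : ∀ z : ℂ, ((‖z‖ ^ 2 : ℝ) : ℂ) = z * (starRingEnd ℂ) z := by
      intro z
      rw [Complex.mul_conj, Complex.normSq_eq_norm_sq]
    have h2 : ∀ z : ℂ, ((2 * z.re : ℝ) : ℂ) = z + (starRingEnd ℂ) z := by
      intro z
      rw [Complex.add_conj]
    have h3 : (((cc ^ 2 * ‖w 0‖ ^ 2 + ss ^ 2 * ‖w 1‖ ^ 2
        + 2 * cc * ss * ((starRingEnd ℂ) u * ζ).re) : ℝ) : ℂ)
        = (cc : ℂ) ^ 2 * (w 0 * (starRingEnd ℂ) (w 0)) + (ss : ℂ) ^ 2 * (w 1 * (starRingEnd ℂ) (w 1))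
          + (cc : ℂ) * ss * (((starRingEnd ℂ) u * ζ) + (starRingEnd ℂ) ((starRingEnd ℂ) u * ζ)) := by
      rw [← h1, ← h1, ← h2]; push_cast; ring
    have h4 : ((‖(cc : ℂ) * w 0 + (ss : ℂ) * ((starRingEnd ℂ) u * w 1)‖ ^ 2 : ℝ) : ℂ)
        = (((cc ^ 2 * ‖w 0‖ ^ 2 + ss ^ 2 * ‖w 1‖ ^ 2
        + 2 * cc * ss * ((starRingEnd ℂ) u * ζ).re) : ℝ) : ℂ) := by
      rw [h3, h1, hζ]
      simp only [map_add, map_mul, Complex.conj_ofReal, Complex.conj_conj]
      linear_combination ((ss : ℂ) ^ 2 * (w 1 * (starRingEnd ℂ) (w 1))) * hu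
    exact_mod_cast h4
  have hre : ((starRingEnd ℂ) (om ^ k) * ζ).re
      = -(‖w 0‖ * ‖w 1‖ * Real.cos (Complex.arg ζ + Real.pi - Real.pi * k / 10)) := by
    have h1 := Complex.norm_mul_cos_arg ζ
    have h2 := Complex.norm_mul_sin_arg ζ
    have h3 : Real.cos (Complex.arg ζ + Real.pi - Real.pi * k / 10)
        = -(Real.cos (Complex.arg ζ) * Real.cos (Real.pi * k / 10)
            + Real.sin (Complex.arg ζ) * Real.sin (Real.pi * k / 10)) := by
      rw [show Complex.arg ζ + Real.pi - Real.pi * k / 10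
        = (Complex.arg ζ - Real.pi * k / 10) + Real.pi by ring, Real.cos_add_pi, Real.cos_sub]
    rw [h3, ← hζn, om_pow k, Complex.mul_re]
    simp only [map_add, map_mul, Complex.conj_ofReal, Complex.conj_I, Complex.add_re,
      Complex.ofReal_re, Complex.mul_re, Complex.neg_re, Complex.I_re, Complex.ofReal_im,
      Complex.add_im, Complex.mul_im, Complex.neg_im, Complex.I_im]
    rw [← h1, ← h2]
    ring
  have ha0 : 0 ≤ ‖w 0‖ := norm_nonneg _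
  have hb0 : 0 ≤ ‖w 1‖ := norm_nonneg _
  generalize ‖w 0‖ = a at *
  generalize ‖w 1‖ = b at *
  have hba : b ≤ a := by
    by_contra hc
    push Not at hc
    nlinarith
  have hba2 : 0.8 * a ≤ b := by
    have h1 : (0.8 * a) ^ 2 ≤ b ^ 2 := by nlinarith
    exact (pow_le_pow_iff_left₀ (by positivity) hb0 two_ne_zero).mp h1
  have hc1 := cc_lo
  have hc2 := cc_hi
  have hs1 := ss_lo
  have hs2 := ss_sq
  have hcs : 9.7027 ≤ cc * ss := by
    have : (3.1962 : ℝ) * 3.0357 ≤ cc * ss := mul_le_mul hc1.le hs1.le (by norm_num) (by linarith)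
    norm_num at this ⊢
    linarith
  have hcc : cc ^ 2 ≤ 10.21634 := by
    have : cc ^ 2 ≤ 3.1963 ^ 2 := pow_le_pow_left₀ (by linarith) hc2.le 2
    norm_num at this ⊢
    linarith
  have hab0 : 0 ≤ a * b := mul_nonneg ha0 hb0
  have hT : 9.7027 * 0.98768 * (a * b)
      ≤ cc * ss * (a * b * Real.cos (Complex.arg ζ + Real.pi - Real.pi * k / 10)) := by
    have h1 : 9.7027 * 0.98768 ≤ cc * ss * Real.cos (Complex.arg ζ + Real.pi - Real.pi * k / 10) :=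
      mul_le_mul hcs hk (by norm_num) (by linarith)
    calc 9.7027 * 0.98768 * (a * b)
        ≤ (cc * ss * Real.cos (Complex.arg ζ + Real.pi - Real.pi * k / 10)) * (a * b) :=
          mul_le_mul_of_nonneg_right h1 hab0
      _ = _ := by ring
  have hfin : ‖(cc : ℂ) * w 0 + (ss : ℂ) * ((starRingEnd ℂ) (om ^ k) * w 1)‖ ^ 2
      ≤ (0.9 * a) ^ 2 := by
    rw [hsq, hre, hs2]
    have hq : b ^ 2 ≤ 1.8 * (a * b) - 0.8 * a ^ 2 := by nlinarith
    have hr : 0.8 * a ^ 2 ≤ a * b := by nlinarith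
    have h1 : cc ^ 2 * a ^ 2 ≤ 10.21634 * a ^ 2 := mul_le_mul_of_nonneg_right hcc (by positivity)
    have h2 : (cc ^ 2 - 1) * b ^ 2 ≤ 9.21634 * b ^ 2 :=
      mul_le_mul_of_nonneg_right (by linarith) (by positivity)
    have h3 : 2 * cc * ss * -(a * b * Real.cos (Complex.arg ζ + Real.pi - Real.pi * k / 10))
        ≤ -(2 * (9.7027 * 0.98768 * (a * b))) := by linarith
    have h4 : 0 ≤ a ^ 2 := by positivity
    norm_num at *
    nlinarith
  exact (pow_le_pow_iff_left₀ (norm_nonneg _) (by positivity) two_ne_zero).mp hfin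

theorem disc_dense (y : V) (hy : hf y y = -1) (hy2 : y 2 = 0) :
    ∃ g ∈ G1, E y (act g e0) ≤ 5 / 3 := by
  by_contra hcon
  push Not at hcon
  obtain ⟨S, hS⟩ : ∃ S : Set ℝ, S = {r | ∃ g ∈ G1, r = E y (act g e0)} := ⟨_, rfl⟩
  have hne : S.Nonempty := ⟨E y (act 1 e0), by rw [hS]; exact ⟨1, G1.one_mem, rfl⟩⟩
  have hbd : ∀ r ∈ S, 5 / 3 ≤ r := by
    intro r hr
    rw [hS] at hr
    obtain ⟨g, hg, rfl⟩ := hr
    exact (hcon g hg).le
  have hI : 5 / 3 ≤ sInf S := le_csInf hne hbd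
  have hlt : sInf S < sInf S / 0.9 := by
    rw [lt_div_iff₀ (by norm_num)]
    linarith
  obtain ⟨r, hr, hr2⟩ := exists_lt_of_csInf_lt hne hlt
  rw [hS] at hr
  obtain ⟨g, hg, rfl⟩ := hr
  have hgU : g ∈ U := G1_le_U hg
  have hgi : g⁻¹ ∈ G1 := G1.inv_mem hg
  obtain ⟨w, hw⟩ : ∃ w, w = act g⁻¹ y := ⟨_, rfl⟩
  have hgw : act g w = y := by rw [hw, act_act_inv]
  have hww : hf w w = -1 := by rw [hw, hf_act (G1_le_U hgi), hy]
  have hw2 : w 2 = 0 := by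
    have h := G1_form g⁻¹ hgi
    rw [hw, act]
    simp only [Matrix.mulVec, dotProduct, Fin.sum_univ_three]
    rw [h.2.2.1, h.2.2.2.1, hy2]; simp
  have hw0 : ‖w 0‖ = E y (act g e0) := by
    have h1 : E w e0 = ‖w 0‖ := by simp [E, hf, e0]
    rw [← h1, ← E_act hgU, hgw]
  obtain ⟨k, hk⟩ := step w hww hw2 (by rw [hw0]; exact hcon g hg)
  have hmem : g * (gA ^ k * gH) ∈ G1 :=
    G1.mul_mem hg (G1.mul_mem (G1.pow_mem (S1_le_G1 gA_mem_S1) k) gH_mem_G1)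
  have hval : E y (act (g * (gA ^ k * gH)) e0) ≤ 0.9 * E y (act g e0) := by
    rw [act_mul]
    nth_rewrite 1 [← hgw]
    rw [E_act hgU, ← hw0]
    exact hk
  have h5 : sInf S ≤ E y (act (g * (gA ^ k * gH)) e0) := by
    apply csInf_le ⟨5 / 3, hbd⟩
    rw [hS]; exact ⟨_, hmem, rfl⟩
  rw [lt_div_iff₀ (by norm_num)] at hr2
  linarith

end Pool.Agent.YG
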