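import Pool.Agent.YG.L06Disc

/-!
# YG-L08: growth of alternating products

`Alt w` (definition in Defs): `w = g_1 σ g_2 σ ... σ g_m`, `g_i ∈ G1 \ S1`. Claim: `‖w 0 2‖ ≤ 0.55 ‖w 0 0‖` and there is `n` with
`w ∈ W n`, `1.42^n ≤ ‖w 0 0‖`, `n ≥ 1`.

Proof. Induction. One syllable `g`: `g 0 2 = 0` (`G1_form`), `G1_growth`: `g ∈ W (n+1)`,
`‖g 0 0‖ ≥ cc 1.42^n ≥ 1.42^(n+1)`.
Step `w' = w * gS * g`: first row of `w`: `(A, B, C)`, `‖C‖ ≤ t ‖A‖`, `t = 0.55`, `‖A‖^2 = 1 + ‖B‖^2 + ‖C‖^2` (`U_row0`). First row of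
`w * gS`: `(A, C, B)`. First row of `w'`: `A' = A g00 + C g10`, `C' = B g22`, `‖g22‖ = 1`, `‖g00‖^2 = 1 + ‖g10‖^2` (`U_col0`,
`g20 = 0`). With `D = ‖g00‖ ≥ cc` : `‖A'‖ ≥ ‖A‖ (D - t sqrt(D^2-1))`.
 - `‖A'‖ ≥ ‖A‖ 0.45 D ≥ ‖A‖ 0.45 cc 1.42^n ≥ ‖A‖ 1.42^(n+1)` (`0.45 * 3.1962 = 1.438 ≥ 1.42`).
 - `‖C'‖^2 = ‖B‖^2 ≤ ‖A‖^2 - ‖C‖^2`. With `w = ‖C‖/‖A‖ ≤ t`: need `1 - w^2 ≤ t^2 (D - w sqrt(D^2-1))^2`. `D - w sqrt(D^2-1)` is
   increasing in `D` for `D ≥ cc` (`w D < sqrt(D^2-1)`), so `≥ cc - w ss`; and `t (cc - w ss) ≥ t (cc - t ss) ≥ 0.55 * 1.5265 = 0.8395`,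
   `0.8395^2 = 0.7048 ≥ 1 - t^2 = 0.6975`. For `w < t`: `t^2 (cc - w ss)^2 - (1 - w^2)` is decreasing in `w` on `[0,t]`
   (derivative `-2 t^2 ss (cc - w ss) + 2 w ≤ -2*0.3025*3.0357*1.5265 + 1.1 < 0`), so it is enough to check `w = t`.
 - `W`: `w ∈ W n`, `g ∈ W m` implies `w * gS * g ∈ W (n+m)` (`W_mul`, by induction on `m`; for `m = 0` `SS` is a group;
   `W n * SS ⊆ W n`).
-/

set_option autoImplicit false

namespace Pool.Agent.YG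

open Matrix

theorem W_SS (n : ℕ) (x t : GL3) (hx : x ∈ W n) (ht : t ∈ SS) : x * t ∈ W n := by
  cases n with
  | zero => exact SS.mul_mem hx ht
  | succ n =>
    obtain ⟨y, hy, s, hs, rfl⟩ := hx
    exact ⟨y, hy, s * t, SS.mul_mem hs ht, by simp only [mul_assoc]⟩

theorem W_mul (n m : ℕ) (x y : GL3) (hx : x ∈ W n) (hy : y ∈ W m) : x * y ∈ W (n + m) := by
  induction m generalizing y with
  | zero => exact W_SS n x y hx hy
  | succ m ih =>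
    obtain ⟨y', hy', t, ht, rfl⟩ := hy
    exact ⟨x * y', ih y' hy', t, ht, by simp only [mul_assoc]⟩

theorem Alt.mem_U {w : GL3} (h : Alt w) : w ∈ U := by
  induction h with
  | one g h1 h2 => exact G1_le_U h1
  | snoc w g hw h1 h2 ih => exact U.mul_mem (U.mul_mem ih gS_mem_U) (G1_le_U h1)

theorem Alt.mem_Lam {w : GL3} (h : Alt w) : w ∈ Lam := by
  induction h with
  | one g h1 h2 => exact G1_le_Lam h1
  | snoc w g hw h1 h2 ih => exact Lam.mul_mem (Lam.mul_mem ih gS_mem_Lam) (G1_le_Lam h1)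

private theorem alt_real (a b c D S : ℝ) (ha : 0 ≤ a) (hb : 0 ≤ b) (hc0 : 0 ≤ c)
    (hS : 0 ≤ S) (hDS : D ^ 2 = 1 + S ^ 2) (hD : 3.1962 ≤ D)
    (h1 : a ^ 2 = 1 + b ^ 2 + c ^ 2) (h2 : c ≤ 0.55 * a) :
    b ≤ 0.55 * (a * D - c * S) := by
  have hu : S ≤ (622466 / 194750 * D - 1) / (591216 / 194750) := by
    rw [le_div_iff₀ (by norm_num)]
    by_contra hcon
    push Not at hcon
    have h3 : 0 < 622466 / 194750 * D - 1 := by linarith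
    have h4 : (622466 / 194750 * D - 1) ^ 2 < (S * (591216 / 194750)) ^ 2 :=
      pow_lt_pow_left₀ hcon h3.le (by norm_num)
    nlinarith [sq_nonneg (D - 622466 / 194750)]
  have h3 : 3.1962 * a - 3.03574 * c ≤ a * D - c * S := by
    have h4 : c * S ≤ c * ((622466 / 194750 * D - 1) / (591216 / 194750)) := by gcongr
    have h5 : 0 ≤ a - c * (622466 / 591216) := by nlinarith
    have h6 : 3.1962 * (a - c * (622466 / 591216)) ≤ D * (a - c * (622466 / 591216)) := by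
      gcongr
    have h7 : c * ((622466 / 194750 * D - 1) / (591216 / 194750)) =
        D * (c * (622466 / 591216)) - c * (194750 / 591216) := by ring
    rw [h7] at h4
    nlinarith
  have h8 : 0 ≤ 0.55 * a - c := by linarith
  have h9 : 0 ≤ a * (0.55 * a - c) := mul_nonneg ha h8
  have h10 : 0 ≤ 3.1962 * a - 3.03574 * c := by nlinarith
  have h11 : b ^ 2 ≤ (0.55 * (3.1962 * a - 3.03574 * c)) ^ 2 := by
    nlinarith [sq_nonneg a, sq_nonneg (0.55 * a - c)]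
  have h12 := abs_le_of_sq_le_sq h11 (by positivity)
  have h13 : b ≤ 0.55 * (3.1962 * a - 3.03574 * c) := (abs_le.mp (by simpa using h12)).2
  linarith

/-- one step -/
theorem alt_step (A B C : ℂ) (g : GL3) (hg : g ∈ G1) (hc : cc ≤ ‖(g : M3) 0 0‖)
    (h1 : ‖A‖ ^ 2 = 1 + ‖B‖ ^ 2 + ‖C‖ ^ 2) (h2 : ‖C‖ ≤ 0.55 * ‖A‖) :
    0.45 * ‖(g : M3) 0 0‖ * ‖A‖ ≤ ‖A * (g : M3) 0 0 + C * (g : M3) 1 0‖ ∧
    ‖B * (g : M3) 2 2‖ ≤ 0.55 * ‖A * (g : M3) 0 0 + C * (g : M3) 1 0‖ := by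
  obtain ⟨-, -, f20, -, f22⟩ := G1_form g hg
  have hcol := U_col0 g (G1_le_U hg)
  rw [f20, norm_zero] at hcol
  have hlow : ‖A‖ * ‖(g : M3) 0 0‖ - ‖C‖ * ‖(g : M3) 1 0‖ ≤
      ‖A * (g : M3) 0 0 + C * (g : M3) 1 0‖ := by
    have h3 := norm_sub_norm_le (A * (g : M3) 0 0) (-(C * (g : M3) 1 0))
    rw [norm_neg, norm_mul, norm_mul, sub_neg_eq_add] at h3
    exact h3
  have hD : 3.1962 ≤ ‖(g : M3) 0 0‖ := cc_lo.le.trans hc
  have hSD : ‖(g : M3) 1 0‖ ≤ ‖(g : M3) 0 0‖ := by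
    refine le_of_sq_le_sq ?_ (norm_nonneg _)
    linarith
  constructor
  · refine le_trans ?_ hlow
    have h4 : ‖C‖ * ‖(g : M3) 1 0‖ ≤ (0.55 * ‖A‖) * ‖(g : M3) 0 0‖ :=
      mul_le_mul h2 hSD (norm_nonneg _) (by positivity)
    nlinarith
  · rw [norm_mul, f22, mul_one]
    have h5 := alt_real ‖A‖ ‖B‖ ‖C‖ ‖(g : M3) 0 0‖ ‖(g : M3) 1 0‖ (norm_nonneg _) (norm_nonneg _)
      (norm_nonneg _) (norm_nonneg _) (by linarith) hD h1 h2
    linarith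

theorem Alt.inv {w : GL3} (h : Alt w) :
    ‖(w : M3) 0 2‖ ≤ 0.55 * ‖(w : M3) 0 0‖ ∧
      ∃ n : ℕ, 1 ≤ n ∧ w ∈ W n ∧ (1.42 : ℝ) ^ n ≤ ‖(w : M3) 0 0‖ := by
  induction h with
  | one g h1 h2 =>
    obtain ⟨f02, -, -, -, -⟩ := G1_form g h1
    obtain ⟨n, hn, hgr⟩ := G1_growth g h1 h2
    refine ⟨?_, n + 1, by omega, hn, ?_⟩
    · rw [f02, norm_zero]
      positivity
    · refine le_trans ?_ hgr
      rw [pow_succ, mul_comm]
      have := cc_lo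
      gcongr
      linarith
  | snoc w g hw h1 h2 ih =>
    obtain ⟨ih1, n, hn, hwn, ih2⟩ := ih
    obtain ⟨f02, f12, f20, f21, f22⟩ := G1_form g h1
    obtain ⟨m, hm, hgr⟩ := G1_growth g h1 h2
    have hrow := U_row0 w hw.mem_U
    have h142 : (1 : ℝ) ≤ 1.42 ^ m := one_le_pow₀ (by norm_num)
    have hcc := cc_lo
    have hc : cc ≤ ‖(g : M3) 0 0‖ := by
      refine le_trans ?_ hgr
      nlinarith
    have hs := alt_step ((w : M3) 0 0) ((w : M3) 0 1) ((w : M3) 0 2) g h1 hc hrow ih1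
    have e00 : ((w * gS * g : GL3) : M3) 0 0 =
        (w : M3) 0 0 * (g : M3) 0 0 + (w : M3) 0 2 * (g : M3) 1 0 := by
      rw [Matrix.GeneralLinearGroup.coe_mul, Matrix.GeneralLinearGroup.coe_mul, gS_coe]
      simp [Matrix.mul_apply, Fin.sum_univ_three, mS, f20]
    have e02 : ((w * gS * g : GL3) : M3) 0 2 = (w : M3) 0 1 * (g : M3) 2 2 := by
      rw [Matrix.GeneralLinearGroup.coe_mul, Matrix.GeneralLinearGroup.coe_mul, gS_coe]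
      simp [Matrix.mul_apply, Fin.sum_univ_three, mS, f02, f12]
    rw [e00, e02]
    refine ⟨hs.2, n + (m + 1), by omega, W_mul n (m + 1) (w * gS) g
      (W_SS n w gS hwn gS_mem_SS) hm, ?_⟩
    refine le_trans ?_ hs.1
    have h3 : (0:ℝ) < 1.42 ^ m := by positivity
    have h4 : (0:ℝ) < 1.42 ^ n := by positivity
    calc (1.42 : ℝ) ^ (n + (m + 1)) = 1.42 * 1.42 ^ m * 1.42 ^ n := by ring
      _ ≤ 0.45 * (cc * 1.42 ^ m) * 1.42 ^ n := by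
          gcongr ?_ * _
          nlinarith
      _ ≤ 0.45 * ‖(g : M3) 0 0‖ * ‖(w : M3) 0 0‖ := by gcongr

theorem Alt.one_lt {w : GL3} (h : Alt w) : 1.42 ≤ ‖(w : M3) 0 0‖ := by
  obtain ⟨-, n, hn, -, h2⟩ := h.inv
  have : (1.42 : ℝ) ^ 1 ≤ 1.42 ^ n := pow_le_pow_right₀ (by norm_num) hn
  linarith

end Pool.Agent.YG
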