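import Pool.Agent.YG.L01Rel

/-!
# YG-P01: power sums over the 20 rotations; tangent inequalities

* `powsum_even/odd`: `Re w = (w + conj w)/2`, `(Re (ω^j z))^m = 2^(-m) ∑_i C(m,i) (ω^j z)^i (ω^(-j) conj z)^(m-i)`; the sum over
  `j` of `ω^(j(2i-m))` vanishes unless `20 ∣ 2i - m`, i.e. `2i = m` (`|2i-m| ≤ m < 20`).
* `tan3`: with `X = 1/n`: `2 X^5 - 5 T^3 X^2 + 3 T^5 = (X-T)^2 (2X^3+4X^2T+6XT^2+3T^3) ≥ 0`, divide by `2X^2`.
* `tan5`: `2 X^7 - 7 T^5 X^2 + 5 T^7 = (X-T)^2 (2X^5+4X^4T+6X^3T^2+8X^2T^3+10XT^4+5T^5) ≥ 0`.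
-/

set_option autoImplicit false

namespace Pool.Agent.YG

private theorem om_prim : IsPrimitiveRoot om 20 := by
  have h := Complex.isPrimitiveRoot_exp 20 (by norm_num)
  have h2 : om = Complex.exp (2 * (Real.pi : ℂ) * Complex.I / ((20 : ℕ) : ℂ)) := by
    rw [om, ze, ← Complex.exp_nat_mul]
    congr 1
    push_cast; ring
  rw [h2]; exact h

private theorem om_conj_inv : (starRingEnd ℂ) om = om⁻¹ := by
  have h : om * (starRingEnd ℂ) om = 1 := by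
    rw [Complex.mul_conj, Complex.normSq_eq_norm_sq, om_norm]; norm_num
  exact eq_inv_of_mul_eq_one_right h

private theorem inner_sum (m i : ℕ) (hm : m < 20) (hi : i ≤ m) :
    ∑ j : Fin 20, (om ^ i * (om⁻¹) ^ (m - i)) ^ (j : ℕ) = if 2 * i = m then (20 : ℂ) else 0 := by
  rw [Fin.sum_univ_eq_sum_range (fun j => (om ^ i * (om⁻¹) ^ (m - i)) ^ j) 20]
  split_ifs with h
  · have h1 : m - i = i := by omega
    rw [h1, ← mul_pow, mul_inv_cancel₀ om_ne, one_pow]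
    simp
  · have hq : om ^ i * (om⁻¹) ^ (m - i) ≠ 1 := by
      intro hq
      rw [inv_pow, mul_inv_eq_one₀ (pow_ne_zero _ om_ne)] at hq
      have := om_prim.pow_inj (by omega) (by omega) hq
      omega
    have hq20 : (om ^ i * (om⁻¹) ^ (m - i)) ^ 20 = 1 := by
      rw [mul_pow, ← pow_mul, ← pow_mul, mul_comm i 20, mul_comm (m - i) 20, pow_mul, pow_mul,
        om_pow_20, inv_pow, om_pow_20]
      simp
    have h3 := geom_sum_eq hq 20
    rw [hq20, sub_self, zero_div] at h3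
    exact h3

private theorem gsum (z : ℂ) (m : ℕ) (hm : m < 20) :
    ((∑ j : Fin 20, ((om ^ (j : ℕ) * z).re) ^ m : ℝ) : ℂ) =
      ∑ i ∈ Finset.range (m + 1), (if 2 * i = m then (20 : ℂ) else 0) *
        (z ^ i * ((starRingEnd ℂ) z) ^ (m - i) * (m.choose i : ℂ) / 2 ^ m) := by
  have h1 : ∀ j : Fin 20, (((((om ^ (j : ℕ) * z).re) ^ m : ℝ)) : ℂ)
      = ∑ i ∈ Finset.range (m + 1), (om ^ i * (om⁻¹) ^ (m - i)) ^ (j : ℕ) *
        (z ^ i * ((starRingEnd ℂ) z) ^ (m - i) * (m.choose i : ℂ) / 2 ^ m) := by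
    intro j
    rw [Complex.ofReal_pow, Complex.re_eq_add_conj, div_pow, add_pow, Finset.sum_div]
    apply Finset.sum_congr rfl
    intro i hi
    rw [map_mul, map_pow, om_conj_inv, mul_pow, mul_pow, mul_pow, ← pow_mul, ← pow_mul, ← pow_mul,
      ← pow_mul, mul_comm i (j : ℕ), mul_comm (m - i) (j : ℕ)]
    ring
  rw [Complex.ofReal_sum]
  rw [Finset.sum_congr rfl (fun j _ => h1 j), Finset.sum_comm]
  apply Finset.sum_congr rfl
  intro i hi
  rw [← Finset.sum_mul, inner_sum m i hm (by simpa [Nat.lt_succ_iff] using hi)]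

theorem powsum_even (z : ℂ) (n : ℕ) (hn : 2 * n < 20) :
    ∑ j : Fin 20, ((om ^ (j : ℕ) * z).re) ^ (2 * n) =
      20 * (Nat.choose (2 * n) n : ℝ) / 4 ^ n * (‖z‖ ^ 2) ^ n := by
  have h := gsum z (2 * n) hn
  rw [Finset.sum_eq_single n] at h
  · have h2 : 2 * n - n = n := by omega
    have h3 : z * (starRingEnd ℂ) z = ((‖z‖ ^ 2 : ℝ) : ℂ) := by
      rw [Complex.mul_conj, Complex.normSq_eq_norm_sq]
    have h4 : (2 : ℂ) ^ (2 * n) = 4 ^ n := by rw [pow_mul]; norm_num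
    rw [if_pos rfl, h2, ← mul_pow, h3, h4] at h
    have h5 : ((20 * (Nat.choose (2 * n) n : ℝ) / 4 ^ n * (‖z‖ ^ 2) ^ n : ℝ) : ℂ)
        = 20 * (((‖z‖ ^ 2 : ℝ) : ℂ) ^ n * ((2 * n).choose n : ℂ) / 4 ^ n) := by
      push_cast; ring
    rw [← h5] at h
    exact_mod_cast h
  · intro i hi hne
    rw [if_neg (by omega), zero_mul]
  · intro hn'
    exfalso; apply hn'
    simp; omega

theorem powsum_odd (z : ℂ) (m : ℕ) (hm : m < 20) (ho : Odd m) :
    ∑ j : Fin 20, ((om ^ (j : ℕ) * z).re) ^ m = 0 := by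
  have h := gsum z m hm
  have h0 : ∑ i ∈ Finset.range (m + 1), (if 2 * i = m then (20 : ℂ) else 0) *
        (z ^ i * ((starRingEnd ℂ) z) ^ (m - i) * (m.choose i : ℂ) / 2 ^ m) = 0 := by
    apply Finset.sum_eq_zero
    intro i hi
    obtain ⟨k, hk⟩ := ho
    rw [if_neg (by omega), zero_mul]
  rw [h0] at h
  exact_mod_cast h

theorem tan3 (n T : ℝ) (hn : 0 < n) (hT : 0 < T) :
    5 / 2 * T ^ 3 - 3 / 2 * n ^ 2 * T ^ 5 ≤ (n ^ 3)⁻¹ := by
  rw [← one_div, le_div_iff₀ (by positivity)]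
  have hu : 0 < n * T := by positivity
  have h : 0 ≤ (n * T - 1) ^ 2 * (3 * (n * T) ^ 3 + 6 * (n * T) ^ 2 + 4 * (n * T) + 2) := by
    positivity
  nlinarith [h]

theorem tan5 (n T : ℝ) (hn : 0 < n) (hT : 0 < T) :
    7 / 2 * T ^ 5 - 5 / 2 * n ^ 2 * T ^ 7 ≤ (n ^ 5)⁻¹ := by
  rw [← one_div, le_div_iff₀ (by positivity)]
  have hu : 0 < n * T := by positivity
  have h : 0 ≤ (n * T - 1) ^ 2 * (5 * (n * T) ^ 5 + 10 * (n * T) ^ 4 + 8 * (n * T) ^ 3
      + 6 * (n * T) ^ 2 + 4 * (n * T) + 2) := by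
    positivity
  nlinarith [h]

end Pool.Agent.YG
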