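import Pool.Agent.YG.P01Pow

/-!
# YG-P02: lower bound of the rotation average of `|1+z|^(-3)`

`y = ‖z‖^2 ≤ 0.31`, `x_j = Re (ω^j z)`, `‖1 + ω^j z‖^2 = 1 + 2 x_j + y > 0`, `T_j = 1 - x_j + (3 x_j^2 - y)/2 > 0`
(`T ≥ min = 5/6 - y/2 > 0`). By `tan3`: `‖1+ω^j z‖^(-3) ≥ (5/2) T_j^3 - (3/2)(1 + 2x_j + y) T_j^5`. Expand as a polynomial
in `x_j` (degree 12 in total degree `x ~ 1, y ~ 2`), sum over `j` with `powsum_even`, `powsum_odd`. The result is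
`20 (1 + 9/4 y + 225/64 y^2 + 2.79296875 y^3 - 1.724853515625 y^4 - 2.34063720703125 y^5 - 0.28985595703125 y^6)`,
and the terms from `y^3` on are `≥ 0` for `0 ≤ y ≤ 0.31`.
-/

set_option autoImplicit false

namespace Pool.Agent.YG

private theorem poly3 (y t : ℝ) :
    5 / 2 * (1 - t + (3 * t ^ 2 - y) / 2) ^ 3 -
      3 / 2 * (1 + 2 * t + y) * (1 - t + (3 * t ^ 2 - y) / 2) ^ 5 =
      ((1) + (-3/2) * y + (15/8) * y ^ 2 + (-35/16) * y ^ 3 + (45/32) * y ^ 4 + (-27/64) * y ^ 5 + (3/64) * y ^ 6) +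
      ((-3) + (15/2) * y + (-105/8) * y ^ 2 + (45/4) * y ^ 3 + (-135/32) * y ^ 4 + (9/16) * y ^ 5) * t +
      ((15/2) + (-105/4) * y + (675/16) * y ^ 2 + (-225/8) * y ^ 3 + (495/64) * y ^ 4 + (-45/64) * y ^ 5) * t ^ 2 +
      ((-35/2) + (315/4) * y + (-405/4) * y ^ 2 + (375/8) * y ^ 3 + (-225/32) * y ^ 4) * t ^ 3 +
      ((315/8) + (-2565/16) * y + (2475/16) * y ^ 2 + (-1575/32) * y ^ 3 + (135/32) * y ^ 4) * t ^ 4 +
      ((-693/8) + (1071/4) * y + (-2925/16) * y ^ 2 + (135/4) * y ^ 3) * t ^ 5 +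
      ((2253/16) + (-2475/8) * y + (4455/32) * y ^ 2 + (-405/32) * y ^ 3) * t ^ 6 +
      ((-765/4) + (2295/8) * y + (-1215/16) * y ^ 2) * t ^ 7 +
      ((5805/32) + (-10935/64) * y + (1215/64) * y ^ 2) * t ^ 8 +
      ((-4455/32) + (1215/16) * y) * t ^ 9 +
      ((4131/64) + (-729/64) * y) * t ^ 10 +
      ((-729/32)) * t ^ 11 := by
  ring

private theorem norm_one_add_sq (w : ℂ) : ‖1 + w‖ ^ 2 = 1 + 2 * w.re + ‖w‖ ^ 2 := by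
  rw [Complex.sq_norm, Complex.sq_norm, Complex.normSq_apply, Complex.normSq_apply]
  simp only [Complex.add_re, Complex.one_re, Complex.add_im, Complex.one_im, zero_add]
  ring

private theorem term3 (w : ℂ) (y : ℝ) (hw : ‖w‖ ^ 2 = y) (hy : y ≤ 0.31) :
    5 / 2 * (1 - w.re + (3 * w.re ^ 2 - y) / 2) ^ 3 -
      3 / 2 * (1 + 2 * w.re + y) * (1 - w.re + (3 * w.re ^ 2 - y) / 2) ^ 5 ≤ (‖1 + w‖ ^ 3)⁻¹ := by
  have hT : 0 < 1 - w.re + (3 * w.re ^ 2 - y) / 2 := by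
    nlinarith [sq_nonneg (w.re - 1 / 3)]
  have hn : 0 < ‖1 + w‖ := by
    rw [norm_pos_iff]
    intro h
    have h1 : w = -1 := by linear_combination h
    rw [h1] at hw
    norm_num at hw
    linarith
  have h := tan3 ‖1 + w‖ _ hn hT
  rw [norm_one_add_sq, hw] at h
  exact h

private theorem sum_poly3 (x : Fin 20 → ℝ) (y : ℝ)
    (e1 : ∑ j, x j ^ 1 = 0) (e3 : ∑ j, x j ^ 3 = 0) (e5 : ∑ j, x j ^ 5 = 0)
    (e7 : ∑ j, x j ^ 7 = 0) (e9 : ∑ j, x j ^ 9 = 0) (e11 : ∑ j, x j ^ 11 = 0)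
    (e2 : ∑ j, x j ^ (2 * 1) = 20 * (Nat.choose (2 * 1) 1 : ℝ) / 4 ^ 1 * y ^ 1)
    (e4 : ∑ j, x j ^ (2 * 2) = 20 * (Nat.choose (2 * 2) 2 : ℝ) / 4 ^ 2 * y ^ 2)
    (e6 : ∑ j, x j ^ (2 * 3) = 20 * (Nat.choose (2 * 3) 3 : ℝ) / 4 ^ 3 * y ^ 3)
    (e8 : ∑ j, x j ^ (2 * 4) = 20 * (Nat.choose (2 * 4) 4 : ℝ) / 4 ^ 4 * y ^ 4)
    (e10 : ∑ j, x j ^ (2 * 5) = 20 * (Nat.choose (2 * 5) 5 : ℝ) / 4 ^ 5 * y ^ 5) :
    ∑ j : Fin 20, (5 / 2 * (1 - x j + (3 * x j ^ 2 - y) / 2) ^ 3 -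
      3 / 2 * (1 + 2 * x j + y) * (1 - x j + (3 * x j ^ 2 - y) / 2) ^ 5) =
      20 * ((1) + (9/4) * y + (225/64) * y ^ 2 + (715/256) * y ^ 3 + (-7065/4096) * y ^ 4 + (-38349/16384) * y ^ 5 + (-4749/16384) * y ^ 6) := by
  have c2 : Nat.choose (2 * 1) 1 = 2 := by decide
  have c4 : Nat.choose (2 * 2) 2 = 6 := by decide
  have c6 : Nat.choose (2 * 3) 3 = 20 := by decide
  have c8 : Nat.choose (2 * 4) 4 = 70 := by decide
  have c10 : Nat.choose (2 * 5) 5 = 252 := by decide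
  rw [c2] at e2
  rw [c4] at e4
  rw [c6] at e6
  rw [c8] at e8
  rw [c10] at e10
  norm_num only at e2 e4 e6 e8 e10
  simp only [pow_one] at e1 e2
  simp only [poly3]
  simp only [Finset.sum_add_distrib, ← Finset.mul_sum]
  rw [e1, e2, e3, e4, e5, e6, e7, e8, e9, e10, e11]
  simp only [Finset.sum_const, Finset.card_univ, Fintype.card_fin, nsmul_eq_mul]
  push_cast
  ring

theorem R3 (z : ℂ) (hz : ‖z‖ ^ 2 ≤ 0.31) :
    20 * (1 + 9 / 4 * ‖z‖ ^ 2 + 225 / 64 * (‖z‖ ^ 2) ^ 2) ≤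
      ∑ j : Fin 20, (‖1 + om ^ (j : ℕ) * z‖ ^ 3)⁻¹ := by
  have hy0 : 0 ≤ ‖z‖ ^ 2 := sq_nonneg _
  have e2 := powsum_even z 1 (by norm_num)
  have e4 := powsum_even z 2 (by norm_num)
  have e6 := powsum_even z 3 (by norm_num)
  have e8 := powsum_even z 4 (by norm_num)
  have e10 := powsum_even z 5 (by norm_num)
  obtain ⟨y, hy⟩ : ∃ y, y = ‖z‖ ^ 2 := ⟨_, rfl⟩
  rw [← hy] at e2 e4 e6 e8 e10 hz hy0 ⊢
  have h1 : ∀ j : Fin 20, ‖om ^ (j : ℕ) * z‖ ^ 2 = y := by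
    intro j
    rw [norm_mul, norm_pow, om_norm, one_pow, one_mul, hy]
  have key := sum_poly3 (fun j : Fin 20 => (om ^ (j : ℕ) * z).re) y
    (powsum_odd z 1 (by norm_num) (by decide)) (powsum_odd z 3 (by norm_num) (by decide))
    (powsum_odd z 5 (by norm_num) (by decide)) (powsum_odd z 7 (by norm_num) (by decide))
    (powsum_odd z 9 (by norm_num) (by decide)) (powsum_odd z 11 (by norm_num) (by decide))
    e2 e4 e6 e8 e10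
  have hsum : ∑ j : Fin 20, (5 / 2 * (1 - (om ^ (j : ℕ) * z).re +
      (3 * (om ^ (j : ℕ) * z).re ^ 2 - y) / 2) ^ 3 -
      3 / 2 * (1 + 2 * (om ^ (j : ℕ) * z).re + y) * (1 - (om ^ (j : ℕ) * z).re +
      (3 * (om ^ (j : ℕ) * z).re ^ 2 - y) / 2) ^ 5) ≤
      ∑ j : Fin 20, (‖1 + om ^ (j : ℕ) * z‖ ^ 3)⁻¹ :=
    Finset.sum_le_sum fun j _ => term3 _ y (h1 j) hz
  refine le_trans ?_ (key ▸ hsum)
  have hy3 : 0 ≤ y ^ 3 := by positivity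
  have hf : 0 ≤ 715 / 256 - 7065 / 4096 * y - 38349 / 16384 * y ^ 2 - 4749 / 16384 * y ^ 3 := by
    have h2 : y ^ 2 ≤ 0.31 ^ 2 := pow_le_pow_left₀ hy0 hz 2
    have h3 : y ^ 3 ≤ 0.31 ^ 3 := pow_le_pow_left₀ hy0 hz 3
    norm_num at h2 h3 hz ⊢
    linarith
  nlinarith [mul_nonneg hy3 hf]

end Pool.Agent.YG
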