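import Pool.Agent.YG.P01Pow

/-!
# YG-P03: lower bound of the rotation average of `|1+z|^(-5)`

Same as P02 with `tan5`: `‖1+ω^j z‖^(-5) ≥ (7/2) T_j^5 - (5/2)(1 + 2x_j + y) T_j^7`, `T_j = 1 - x_j + (3 x_j^2 - y)/2 > 0`,
`y = ‖z‖^2 ≤ 0.31`. The sum over `j` (`powsum_even`, `powsum_odd`; powers of `x_j` up to 15 occur) is
`20 (1 + 25/4 y + 1225/64 y^2 + 38.41796875 y^3 + 32.67578125 y^4 - 9.2421875 y^5 - 22.54924774169922 y^6
 - 7.37675666809082 y^7 - 0.4201221466064453 y^8)` (decimals rounded) and the terms from `y^3` on are `≥ 0`.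
-/

set_option autoImplicit false

namespace Pool.Agent.YG

theorem R5 (z : ℂ) (hz : ‖z‖ ^ 2 ≤ 0.31) :
    20 * (1 + 25 / 4 * ‖z‖ ^ 2 + 1225 / 64 * (‖z‖ ^ 2) ^ 2) ≤
      ∑ j : Fin 20, (‖1 + om ^ (j : ℕ) * z‖ ^ 5)⁻¹ := by
  obtain ⟨y, hy⟩ : ∃ y : ℝ, y = ‖z‖ ^ 2 := ⟨_, rfl⟩
  have hy0 : 0 ≤ y := by rw [hy]; positivity
  have hy1 : y ≤ 0.31 := by rw [hy]; exact hz
  have hz1 : ‖z‖ < 1 := by
    by_contra hcon
    have h1 : 1 ≤ ‖z‖ := not_lt.mp hcon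
    have h2 : 1 ≤ ‖z‖ ^ 2 := one_le_pow₀ h1
    rw [← hy] at h2
    norm_num at hy1
    linarith
  have hnorm : ∀ j : Fin 20, ‖om ^ (j : ℕ) * z‖ = ‖z‖ := by
    intro j
    rw [norm_mul, norm_pow, om_norm, one_pow, one_mul]
  obtain ⟨x, hx⟩ : ∃ x : Fin 20 → ℝ, ∀ j, x j = (om ^ (j : ℕ) * z).re := ⟨_, fun _ => rfl⟩
  have hpos : ∀ j : Fin 20, 0 < ‖1 + om ^ (j : ℕ) * z‖ := by
    intro j
    rw [norm_pos_iff]
    intro h0
    have h1 : om ^ (j : ℕ) * z = -1 := by linear_combination h0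
    have h2 := hnorm j
    rw [h1, norm_neg, norm_one] at h2
    linarith
  have hsq : ∀ j : Fin 20, ‖1 + om ^ (j : ℕ) * z‖ ^ 2 = 1 + 2 * x j + y := by
    intro j
    have h2 : y = Complex.normSq (om ^ (j : ℕ) * z) := by
      rw [hy, ← hnorm j, Complex.sq_norm]
    rw [Complex.sq_norm, hx j, h2, Complex.normSq_apply, Complex.normSq_apply]
    simp only [Complex.add_re, Complex.add_im, Complex.one_re, Complex.one_im]
    ring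
  have hlow : ∀ j : Fin 20, 7 / 2 * (1 - x j + (3 * x j ^ 2 - y) / 2) ^ 5 -
      5 / 2 * (1 + 2 * x j + y) * (1 - x j + (3 * x j ^ 2 - y) / 2) ^ 7 ≤
        (‖1 + om ^ (j : ℕ) * z‖ ^ 5)⁻¹ := by
    intro j
    have hT : 0 < 1 - x j + (3 * x j ^ 2 - y) / 2 := by
      norm_num at hy1
      nlinarith [sq_nonneg (3 * x j - 1)]
    have h := tan5 ‖1 + om ^ (j : ℕ) * z‖ _ (hpos j) hT
    rw [hsq j] at h
    exact h
  obtain ⟨c0, hc0⟩ : ∃ c : ℝ, c = (1) + (-5 / 2) * y ^ 1 + (35 / 8) * y ^ 2 + (-105 / 16) * y ^ 3 + (105 / 16) * y ^ 4 + (-63 / 16) * y ^ 5 + (175 / 128) * y ^ 6 + (-65 / 256) * y ^ 7 + (5 / 256) * y ^ 8 := ⟨_, rfl⟩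
  obtain ⟨c1, hc1⟩ : ∃ c : ℝ, c = (-5) + (35 / 2) * y ^ 1 + (-315 / 8) * y ^ 2 + (105 / 2) * y ^ 3 + (-315 / 8) * y ^ 4 + (525 / 32) * y ^ 5 + (-455 / 128) * y ^ 6 + (5 / 16) * y ^ 7 := ⟨_, rfl⟩
  obtain ⟨c2, hc2⟩ : ∃ c : ℝ, c = (35 / 2) + (-315 / 4) * y ^ 1 + (2835 / 16) * y ^ 2 + (-3255 / 16) * y ^ 3 + (1995 / 16) * y ^ 4 + (-2625 / 64) * y ^ 5 + (1715 / 256) * y ^ 6 + (-105 / 256) * y ^ 7 := ⟨_, rfl⟩
  obtain ⟨c3, hc3⟩ : ∃ c : ℝ, c = (-105 / 2) + (1155 / 4) * y ^ 1 + (-4725 / 8) * y ^ 2 + (560) * y ^ 3 + (-8575 / 32) * y ^ 4 + (4025 / 64) * y ^ 5 + (-735 / 128) * y ^ 6 := ⟨_, rfl⟩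
  obtain ⟨c4, hc4⟩ : ∃ c : ℝ, c = (1155 / 8) + (-12915 / 16) * y ^ 1 + (22575 / 16) * y ^ 2 + (-17395 / 16) * y ^ 3 + (51625 / 128) * y ^ 4 + (-17325 / 256) * y ^ 5 + (945 / 256) * y ^ 6 := ⟨_, rfl⟩
  obtain ⟨c5, hc5⟩ : ∃ c : ℝ, c = (-3003 / 8) + (7455 / 4) * y ^ 1 + (-21525 / 8) * y ^ 2 + (26285 / 16) * y ^ 3 + (-57225 / 128) * y ^ 4 + (2835 / 64) * y ^ 5 := ⟨_, rfl⟩
  obtain ⟨c6, hc6⟩ : ∃ c : ℝ, c = (13265 / 16) + (-54425 / 16) * y ^ 1 + (63245 / 16) * y ^ 2 + (-59325 / 32) * y ^ 3 + (89775 / 256) * y ^ 4 + (-4725 / 256) * y ^ 5 := ⟨_, rfl⟩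
  obtain ⟨c7, hc7⟩ : ∃ c : ℝ, c = (-12545 / 8) + (20555 / 4) * y ^ 1 + (-75285 / 16) * y ^ 2 + (51975 / 32) * y ^ 3 + (-23625 / 128) * y ^ 4 := ⟨_, rfl⟩
  obtain ⟨c8, hc8⟩ : ∃ c : ℝ, c = (2420) + (-49665 / 8) * y ^ 1 + (552825 / 128) * y ^ 2 + (-259875 / 256) * y ^ 3 + (14175 / 256) * y ^ 4 := ⟨_, rfl⟩
  obtain ⟨c9, hc9⟩ : ∃ c : ℝ, c = (-12495 / 4) + (197505 / 32) * y ^ 1 + (-401625 / 128) * y ^ 2 + (14175 / 32) * y ^ 3 := ⟨_, rfl⟩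
  obtain ⟨c10, hc10⟩ : ∃ c : ℝ, c = (13041 / 4) + (-307125 / 64) * y ^ 1 + (416745 / 256) * y ^ 2 + (-25515 / 256) * y ^ 3 := ⟨_, rfl⟩
  obtain ⟨c11, hc11⟩ : ∃ c : ℝ, c = (-89775 / 32) + (189945 / 64) * y ^ 1 + (-76545 / 128) * y ^ 2 := ⟨_, rfl⟩
  obtain ⟨c12, hc12⟩ : ∃ c : ℝ, c = (240975 / 128) + (-331695 / 256) * y ^ 1 + (25515 / 256) * y ^ 2 := ⟨_, rfl⟩
  obtain ⟨c13, hc13⟩ : ∃ c : ℝ, c = (-127575 / 128) + (25515 / 64) * y ^ 1 := ⟨_, rfl⟩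
  obtain ⟨c14, hc14⟩ : ∃ c : ℝ, c = (91125 / 256) + (-10935 / 256) * y ^ 1 := ⟨_, rfl⟩
  obtain ⟨c15, hc15⟩ : ∃ c : ℝ, c = (-10935 / 128) := ⟨_, rfl⟩
  have hexp : ∀ t : ℝ, 7 / 2 * (1 - t + (3 * t ^ 2 - y) / 2) ^ 5 -
      5 / 2 * (1 + 2 * t + y) * (1 - t + (3 * t ^ 2 - y) / 2) ^ 7 =
        c0 + c1 * t ^ 1 + c2 * t ^ 2 + c3 * t ^ 3 + c4 * t ^ 4 + c5 * t ^ 5 + c6 * t ^ 6 + c7 * t ^ 7 + c8 * t ^ 8 + c9 * t ^ 9 + c10 * t ^ 10 + c11 * t ^ 11 + c12 * t ^ 12 + c13 * t ^ 13 + c14 * t ^ 14 + c15 * t ^ 15 := by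
    intro t
    rw [hc0, hc1, hc2, hc3, hc4, hc5, hc6, hc7, hc8, hc9, hc10, hc11, hc12, hc13, hc14, hc15]
    ring
  have s1 : ∑ j : Fin 20, x j ^ 1 = 0 := by
    simp only [hx]
    exact powsum_odd z 1 (by norm_num) (by decide)
  have s2 : ∑ j : Fin 20, x j ^ 2 = 10 * y ^ 1 := by
    simp only [hx]
    rw [show (2 : ℕ) = 2 * 1 from rfl, powsum_even z 1 (by norm_num), ← hy,
      show Nat.choose (2 * 1) 1 = 2 from by decide]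
    norm_num
  have s3 : ∑ j : Fin 20, x j ^ 3 = 0 := by
    simp only [hx]
    exact powsum_odd z 3 (by norm_num) (by decide)
  have s4 : ∑ j : Fin 20, x j ^ 4 = 15 / 2 * y ^ 2 := by
    simp only [hx]
    rw [show (4 : ℕ) = 2 * 2 from rfl, powsum_even z 2 (by norm_num), ← hy,
      show Nat.choose (2 * 2) 2 = 6 from by decide]
    norm_num
  have s5 : ∑ j : Fin 20, x j ^ 5 = 0 := by
    simp only [hx]
    exact powsum_odd z 5 (by norm_num) (by decide)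
  have s6 : ∑ j : Fin 20, x j ^ 6 = 25 / 4 * y ^ 3 := by
    simp only [hx]
    rw [show (6 : ℕ) = 2 * 3 from rfl, powsum_even z 3 (by norm_num), ← hy,
      show Nat.choose (2 * 3) 3 = 20 from by decide]
    norm_num
  have s7 : ∑ j : Fin 20, x j ^ 7 = 0 := by
    simp only [hx]
    exact powsum_odd z 7 (by norm_num) (by decide)
  have s8 : ∑ j : Fin 20, x j ^ 8 = 175 / 32 * y ^ 4 := by
    simp only [hx]
    rw [show (8 : ℕ) = 2 * 4 from rfl, powsum_even z 4 (by norm_num), ← hy,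
      show Nat.choose (2 * 4) 4 = 70 from by decide]
    norm_num
  have s9 : ∑ j : Fin 20, x j ^ 9 = 0 := by
    simp only [hx]
    exact powsum_odd z 9 (by norm_num) (by decide)
  have s10 : ∑ j : Fin 20, x j ^ 10 = 315 / 64 * y ^ 5 := by
    simp only [hx]
    rw [show (10 : ℕ) = 2 * 5 from rfl, powsum_even z 5 (by norm_num), ← hy,
      show Nat.choose (2 * 5) 5 = 252 from by decide]
    norm_num
  have s11 : ∑ j : Fin 20, x j ^ 11 = 0 := by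
    simp only [hx]
    exact powsum_odd z 11 (by norm_num) (by decide)
  have s12 : ∑ j : Fin 20, x j ^ 12 = 1155 / 256 * y ^ 6 := by
    simp only [hx]
    rw [show (12 : ℕ) = 2 * 6 from rfl, powsum_even z 6 (by norm_num), ← hy,
      show Nat.choose (2 * 6) 6 = 924 from by decide]
    norm_num
  have s13 : ∑ j : Fin 20, x j ^ 13 = 0 := by
    simp only [hx]
    exact powsum_odd z 13 (by norm_num) (by decide)
  have s14 : ∑ j : Fin 20, x j ^ 14 = 2145 / 512 * y ^ 7 := by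
    simp only [hx]
    rw [show (14 : ℕ) = 2 * 7 from rfl, powsum_even z 7 (by norm_num), ← hy,
      show Nat.choose (2 * 7) 7 = 3432 from by decide]
    norm_num
  have s15 : ∑ j : Fin 20, x j ^ 15 = 0 := by
    simp only [hx]
    exact powsum_odd z 15 (by norm_num) (by decide)
  have hsum : ∑ j : Fin 20, (7 / 2 * (1 - x j + (3 * x j ^ 2 - y) / 2) ^ 5 -
      5 / 2 * (1 + 2 * x j + y) * (1 - x j + (3 * x j ^ 2 - y) / 2) ^ 7) =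
      20 * ((1) * y ^ 0 + (25 / 4) * y ^ 1 + (1225 / 64) * y ^ 2 + (9835 / 256) * y ^ 3 + (8365 / 256) * y ^ 4 + (-1183 / 128) * y ^ 5 + (-2955575 / 131072) * y ^ 6 + (-3867545 / 524288) * y ^ 7 + (-220265 / 524288) * y ^ 8) := by
    rw [Finset.sum_congr rfl (fun j _ => hexp (x j))]
    simp only [Finset.sum_add_distrib, ← Finset.mul_sum]
    rw [Finset.sum_const, Finset.card_univ, Fintype.card_fin, nsmul_eq_mul, s1, s2, s3, s4, s5, s6, s7, s8, s9, s10, s11, s12, s13, s14, s15]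
    rw [hc0, hc2, hc4, hc6, hc8, hc10, hc12, hc14]
    push_cast
    ring
  have hfin : 20 * (1 + 25 / 4 * y + 1225 / 64 * y ^ 2) ≤ 20 * ((1) * y ^ 0 + (25 / 4) * y ^ 1 + (1225 / 64) * y ^ 2 + (9835 / 256) * y ^ 3 + (8365 / 256) * y ^ 4 + (-1183 / 128) * y ^ 5 + (-2955575 / 131072) * y ^ 6 + (-3867545 / 524288) * y ^ 7 + (-220265 / 524288) * y ^ 8) := by
    have hb : ∀ k : ℕ, y ^ (k + 1) ≤ 0.31 := by
      intro k
      have h1 : y ^ k ≤ 1 := pow_le_one₀ hy0 (by norm_num at hy1 ⊢; linarith)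
      calc y ^ (k + 1) = y ^ k * y := pow_succ y k
        _ ≤ 1 * y := mul_le_mul_of_nonneg_right h1 hy0
        _ ≤ 0.31 := by rw [one_mul]; exact hy1
    have b1 := hb 1
    have b2 := hb 2
    have b3 := hb 3
    have b4 := hb 4
    norm_num at b1 b2 b3 b4
    have hq : 0 ≤ 9835 / 256 + 8365 / 256 * y + -1183 / 128 * y ^ 2 + -2955575 / 131072 * y ^ 3 +
        -3867545 / 524288 * y ^ 4 + -220265 / 524288 * y ^ 5 := by
      linarith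
    have hy3 : 0 ≤ y ^ 3 := pow_nonneg hy0 3
    have := mul_nonneg hy3 hq
    linarith [this, show y ^ 3 * (9835 / 256 + 8365 / 256 * y + -1183 / 128 * y ^ 2 + -2955575 / 131072 * y ^ 3 +
        -3867545 / 524288 * y ^ 4 + -220265 / 524288 * y ^ 5) = 9835 / 256 * y ^ 3 + 8365 / 256 * y ^ 4 +
        -1183 / 128 * y ^ 5 + -2955575 / 131072 * y ^ 6 + -3867545 / 524288 * y ^ 7 +
        -220265 / 524288 * y ^ 8 from by ring]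
  rw [← hy]
  calc 20 * (1 + 25 / 4 * y + 1225 / 64 * y ^ 2) ≤ _ := hfin
    _ = _ := hsum.symm
    _ ≤ _ := Finset.sum_le_sum (fun j _ => hlow j)

end Pool.Agent.YG
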