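import Pool.Agent.YG.L06Disc
import Pool.Agent.YG.G01Pos

/-!
# YG-P04: the 340 letters

`lt j 0 = gA^j gH`, `lt j i = gA^j gH gA^(i+1) gH` for `i = 1..16` (turning letters `2..17`).
* `lt_00`, `lt_10`: multiply out (`key` not needed); `la i = c^2 - s^2 ω^(i+1)`, `lb i = -c s (1 - ω^(i+1))`.
* `la_norm`: `‖c^2 - s^2 q‖^2 = c^4 + s^4 - 2 c^2 s^2 Re q = 1 + c^2 s^2 (2 - 2 Re q)` since `(c^2-s^2)^2 = 1`.
* `lb_norm`: `‖lb i‖^2 = c^2 s^2 (2 - 2 Re q)`.
* `lt_notin`: `‖(lt j i) 0 0‖ > 1` while elements of `S1` have `‖.00‖ = 1` (`S1_diag`).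
* `lt_inj`: suppose `(lt j i)⁻¹ * lt j' i' ∈ S1`. Then `act (lt j' i') e0 = μ • act (lt j i) e0`, `‖μ‖ = 1` (`SS_e0`), so for every
  unit vector `x`: `E x (lt j i e0) = E x (lt j' i' e0)` (write `g e0` for `act g e0`). With `x = e0`: `Xs i = Xs i'`. `Xs 0 = c^2 < 11 < 36 < Xs i` for `i ≥ 1`, so
  `i = 0 ↔ i' = 0`.
  - `i = i' = 0`: `hf (gA^j gH e0) (gA^j' gH e0) = -c^2 + s^2 ω^(j-j')` (indices as integers) has modulus 1 only if `Re ω^(j-j') = 1`
    (modulus squared is `1 + c^2s^2(2-2 Re)`), i.e. `j = j'`.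
  - `i, i' ≥ 1`: put `p = ω^(j'-j)`, `q' = ω^(i'+1)`, `q = ω^(i+1)`. Take `x = gA^j gH e0`: `E x (lt j i e0) = E e0 (gA^(i+1) gH e0) = c`, and
    `E x (lt j' i' e0) = c |(c^2 - s^2 q') - s^2 p (1 - q')| = c |1 + s^2 (1-p)(1-q')|` . So `|1 + s^2 (1-p)(1-q')| = 1`; symmetrically
    `|1 + s^2 (1-conj p)(1-q)| = 1`. If `p = 1` (`j = j'`): `(lt j i)⁻¹ (lt j i') = gH⁻¹ gA^(i'-i) gH` and `‖.00‖^2 = 1 + c^2s^2(2-2Re ω^(i'-i)) = 1` gives
    `i = i'`. If `p ≠ 1`: write `p = e^{2iα}`, `q' = e^{2iβ}`, `α = 9°d`, `β = 9°k'`, `1 ≤ d ≤ 19`, `k' = i'+1 ∈ [2,17]`;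
    `(1-p)(1-q') = -4 sin α sin β e^{i(α+β)}`, and `|1 - X e^{iθ}| = 1`, `X = 4 s^2 sin α sin β > 0`, means `X = 2 cos θ`:
    `2 s^2 sin α sin β = cos (α+β)`, i.e. `(2s^2+1) sin α sin β = cos α cos β`. So `α, β` are on the same side of `90°`.
    Both `< 90°`: `tan α tan β = 1/(2s^2+1)`; `2 s^2 + 1 = 2c^2 - 1 = cos 18°.../...` : `1/(2c^2-1) = tan 9° tan 18°`
    (`c = 1/(2 sin 9°)`: `2c^2-1 = (1 - 2 sin^2 9°)/(2 sin^2 9°) = cos 18°/(2 sin^2 9°)` and `tan 9° tan 18° = sin 9° * 2 sin 9° cos 9° / (cos 9° cos 18°)`),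
    so with `β ≥ 18°`, `α ≥ 9°`: equality forces `(d, k') = (1, 2)`. Both `> 90°`: `180°-α ≥ 9°`, `180° - β ≥ 27°` (`k' ≤ 17`): impossible.
    So `d = 1` (`j' = j+1` mod 20). The symmetric equation gives `-d = 1` mod 20, contradiction.
-/

set_option autoImplicit false

namespace Pool.Agent.YG

open Matrix

/-- the letters -/
noncomputable def lt (j : Fin 20) (i : Fin 17) : GL3 :=
  if i = 0 then gA ^ (j : ℕ) * gH else gA ^ (j : ℕ) * gH * gA ^ ((i : ℕ) + 1) * gH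

/-- upper left entry of the letters -/
noncomputable def la (i : Fin 17) : ℂ :=
  if i = 0 then (cc : ℂ) else (cc : ℂ) ^ 2 - (ss : ℂ) ^ 2 * om ^ ((i : ℕ) + 1)

/-- (1,0) entry of the letters without rotation -/
noncomputable def lb (i : Fin 17) : ℂ :=
  if i = 0 then -(ss : ℂ) else -((cc : ℂ) * (ss : ℂ) * (1 - om ^ ((i : ℕ) + 1)))

/-- `cosh^2` of the distance of the letter nodes -/
noncomputable def Xs (i : Fin 17) : ℝ :=
  if i = 0 then cc ^ 2 else 1 + cc ^ 2 * ss ^ 2 * (2 - 2 * Real.cos (Real.pi * ((i : ℕ) + 1) / 10))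

private theorem mA_pow' (k : ℕ) : mA ^ k = !![1, 0, 0; 0, om ^ k, 0; 0, 0, 1] := by
  have h : mA = Matrix.diagonal ![1, om, 1] := by
    ext i j; fin_cases i <;> fin_cases j <;> simp [mA]
  rw [h, Matrix.diagonal_pow]
  ext i j; fin_cases i <;> fin_cases j <;> simp

private theorem om_prim : IsPrimitiveRoot om 20 := by
  have h := Complex.isPrimitiveRoot_exp 20 (by norm_num)
  have h2 : om = Complex.exp (2 * (Real.pi : ℂ) * Complex.I / ((20 : ℕ) : ℂ)) := by
    rw [om, ze, ← Complex.exp_nat_mul]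
    congr 1
    push_cast; ring
  rw [h2]; exact h

private theorem unit_conj (k : ℕ) : om ^ k * (starRingEnd ℂ) (om ^ k) = 1 := by
  rw [Complex.mul_conj, Complex.normSq_eq_norm_sq, norm_pow, om_norm]; norm_num

private theorem om_re (k : ℕ) : (om ^ k).re = Real.cos (Real.pi * k / 10) := by
  rw [om_pow]
  simp only [Complex.add_re, Complex.ofReal_re, Complex.mul_re, Complex.I_re, Complex.ofReal_im,
    Complex.I_im]
  ring

private theorem cos_bound (m b : ℕ) (h1 : m ≤ b) (h2 : b + m ≤ 20) :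
    Real.cos (Real.pi * b / 10) ≤ Real.cos (Real.pi * m / 10) := by
  have hpi := Real.pi_pos
  have key : ∀ x : ℕ, m ≤ x → x ≤ 10 → Real.cos (Real.pi * x / 10) ≤ Real.cos (Real.pi * m / 10) := by
    intro x hx1 hx2
    have e1 : (m : ℝ) ≤ x := by exact_mod_cast hx1
    have e2 : (x : ℝ) ≤ 10 := by exact_mod_cast hx2
    apply Real.cos_le_cos_of_nonneg_of_le_pi (by positivity)
    · rw [div_le_iff₀ (by norm_num)]; nlinarith
    · apply div_le_div_of_nonneg_right _ (by norm_num)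
      exact mul_le_mul_of_nonneg_left e1 hpi.le
  by_cases hb : b ≤ 10
  · exact key b h1 hb
  · push Not at hb
    have h3 := key (20 - b) (by omega) (by omega)
    have h4 : ((20 - b : ℕ) : ℝ) = 20 - b := by
      rw [Nat.cast_sub (by omega)]; norm_num
    rw [h4] at h3
    have h5 : Real.pi * (20 - (b : ℝ)) / 10 = 2 * Real.pi - Real.pi * b / 10 := by ring
    rw [h5, Real.cos_two_pi_sub] at h3
    exact h3

private theorem cos2_hi : Real.cos (Real.pi * (2 : ℕ) / 10) ≤ 0.81 := by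
  have h : Real.pi * ((2 : ℕ) : ℝ) / 10 = Real.pi / 5 := by push_cast; ring
  rw [h, Real.cos_pi_div_five]
  have : Real.sqrt 5 ≤ 2.24 := by
    rw [Real.sqrt_le_left (by norm_num)]; norm_num
  norm_num at this ⊢
  linarith

private theorem cos3_hi : Real.cos (Real.pi * (3 : ℕ) / 10) ≤ 0.6 := by
  have h : Real.pi * ((3 : ℕ) : ℝ) / 10 = Real.pi / 2 - Real.pi / 5 := by push_cast; ring
  rw [h, Real.cos_pi_div_two_sub]
  have h1 := Real.sin_sq_add_cos_sq (Real.pi / 5)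
  rw [Real.cos_pi_div_five] at h1
  have h2 : 2.236 ≤ Real.sqrt 5 := by
    rw [Real.le_sqrt' (by norm_num)]; norm_num
  have h3 : Real.sqrt 5 ^ 2 = 5 := Real.sq_sqrt (by norm_num)
  by_contra hc
  push Not at hc
  have h4 : (0.6 : ℝ) ^ 2 ≤ Real.sin (Real.pi / 5) ^ 2 := pow_le_pow_left₀ (by norm_num) hc.le 2
  norm_num at h2 h4
  nlinarith

private theorem A_lo : 93 ≤ cc ^ 2 * ss ^ 2 := by
  have h1 : (3.1962 : ℝ) ^ 2 ≤ cc ^ 2 := pow_le_pow_left₀ (by norm_num) cc_lo.le 2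
  have h2 : (3.0357 : ℝ) ^ 2 ≤ ss ^ 2 := pow_le_pow_left₀ (by norm_num) ss_lo.le 2
  have h3 := mul_le_mul h1 h2 (by norm_num) (by positivity)
  norm_num at h3
  linarith

private theorem A_hi : cc ^ 2 * ss ^ 2 ≤ 95 := by
  have h0 := ss_pos
  have h0' := cc_gt
  have h1 : cc ^ 2 ≤ (3.1963 : ℝ) ^ 2 := pow_le_pow_left₀ (by linarith) cc_hi.le 2
  have h2 : ss ^ 2 ≤ (3.0358 : ℝ) ^ 2 := pow_le_pow_left₀ (by linarith) ss_hi.le 2
  have h3 := mul_le_mul h1 h2 (by positivity) (by norm_num)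
  norm_num at h3
  linarith

private theorem cc_sq_hi : cc ^ 2 < 11 := by
  have h0' := cc_gt
  have h1 : cc ^ 2 ≤ (3.1963 : ℝ) ^ 2 := pow_le_pow_left₀ (by linarith) cc_hi.le 2
  norm_num at h1
  linarith

private theorem Xs_zero : Xs 0 = cc ^ 2 := by simp [Xs]

private theorem Xs_ne (i : Fin 17) (hi : i ≠ 0) :
    Xs i = 1 + cc ^ 2 * ss ^ 2 * (2 - 2 * Real.cos (Real.pi * ((i : ℕ) + 1) / 10)) := by
  rw [Xs, if_neg hi]

private theorem Xs_big (i : Fin 17) (hi : i ≠ 0) : 36 ≤ Xs i := by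
  rw [Xs_ne i hi]
  have hi1 : 1 ≤ (i : ℕ) := by
    rcases Nat.eq_zero_or_pos (i : ℕ) with h | h
    · exfalso; exact hi (Fin.ext h)
    · exact h
  have h1 := cos_bound 2 ((i : ℕ) + 1) (by omega) (by omega)
  have h2 := cos2_hi
  have h3 := A_lo
  push_cast at h1 h2
  have h4 : (0.38 : ℝ) ≤ 2 - 2 * Real.cos (Real.pi * ((i : ℕ) + 1) / 10) := by
    norm_num at h2 ⊢; linarith
  have h5 := mul_le_mul h3 h4 (by norm_num) (by linarith)
  norm_num at h5
  linarith

private theorem Xs_gt (i : Fin 17) : 1 < Xs i := by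
  by_cases hi : i = 0
  · rw [hi, Xs_zero]
    nlinarith [cc_gt]
  · linarith [Xs_big i hi]

theorem lt_00 (j : Fin 20) (i : Fin 17) : ((lt j i : GL3) : M3) 0 0 = la i := by
  by_cases hi : i = 0
  · rw [lt, if_pos hi, la, if_pos hi, Units.val_mul, Units.val_pow_eq_pow_val, gA_coe, gH_coe,
      mA_pow']
    simp [mH, Matrix.mul_apply, Fin.sum_univ_three]
  · rw [lt, if_neg hi, la, if_neg hi, Units.val_mul, Units.val_mul, Units.val_mul,
      Units.val_pow_eq_pow_val, Units.val_pow_eq_pow_val, gA_coe, gH_coe, mA_pow', mA_pow']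
    simp [mH, Matrix.mul_apply, Fin.sum_univ_three]
    ring

theorem lt_10 (j : Fin 20) (i : Fin 17) : ((lt j i : GL3) : M3) 1 0 = om ^ (j : ℕ) * lb i := by
  by_cases hi : i = 0
  · rw [lt, if_pos hi, lb, if_pos hi, Units.val_mul, Units.val_pow_eq_pow_val, gA_coe, gH_coe,
      mA_pow']
    simp [mH, Matrix.mul_apply, Fin.sum_univ_three]
  · rw [lt, if_neg hi, lb, if_neg hi, Units.val_mul, Units.val_mul, Units.val_mul,
      Units.val_pow_eq_pow_val, Units.val_pow_eq_pow_val, gA_coe, gH_coe, mA_pow', mA_pow']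
    simp [mH, Matrix.mul_apply, Fin.sum_univ_three]
    ring

private theorem ofReal_norm_sq (z : ℂ) : ((‖z‖ ^ 2 : ℝ) : ℂ) = z * (starRingEnd ℂ) z := by
  rw [Complex.mul_conj, Complex.normSq_eq_norm_sq]

private theorem ofReal_two_re (z : ℂ) : ((2 * z.re : ℝ) : ℂ) = z + (starRingEnd ℂ) z := by
  rw [Complex.add_conj]

private theorem ss_sq_c : (ss : ℂ) ^ 2 = (cc : ℂ) ^ 2 - 1 := by exact_mod_cast ss_sq

theorem la_norm (i : Fin 17) : ‖la i‖ ^ 2 = Xs i := by
  by_cases hi : i = 0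
  · rw [hi, Xs_zero, la, if_pos rfl, Complex.norm_real, Real.norm_of_nonneg (by linarith [cc_gt])]
  · rw [Xs_ne i hi, la, if_neg hi]
    have hr := om_re ((i : ℕ) + 1)
    push_cast at hr
    rw [← hr]
    have hu := unit_conj ((i : ℕ) + 1)
    generalize om ^ ((i : ℕ) + 1) = q at hu ⊢
    have h1 : ((‖(cc : ℂ) ^ 2 - (ss : ℂ) ^ 2 * q‖ ^ 2 : ℝ) : ℂ)
        = ((1 + cc ^ 2 * ss ^ 2 * (2 - 2 * q.re) : ℝ) : ℂ) := by
      have h2 : ((1 + cc ^ 2 * ss ^ 2 * (2 - 2 * q.re) : ℝ) : ℂ)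
          = 1 + (cc : ℂ) ^ 2 * (ss : ℂ) ^ 2 * (2 - (q + (starRingEnd ℂ) q)) := by
        rw [← ofReal_two_re]; push_cast; ring
      rw [h2, ofReal_norm_sq]
      simp only [map_sub, map_mul, map_pow, Complex.conj_ofReal]
      have h3 := ss_sq_c
      linear_combination ((ss : ℂ) ^ 4) * hu + ((ss : ℂ) ^ 2 - (cc : ℂ) ^ 2 - 1) * h3
    exact_mod_cast h1

theorem lb_norm (i : Fin 17) : ‖lb i‖ ^ 2 = Xs i - 1 := by
  by_cases hi : i = 0
  · rw [hi, Xs_zero, lb, if_pos rfl, norm_neg, Complex.norm_real,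
      Real.norm_of_nonneg ss_pos.le, ss_sq]
  · rw [Xs_ne i hi, lb, if_neg hi]
    have hr := om_re ((i : ℕ) + 1)
    push_cast at hr
    rw [← hr]
    have hu := unit_conj ((i : ℕ) + 1)
    generalize om ^ ((i : ℕ) + 1) = q at hu ⊢
    have h1 : ((‖-((cc : ℂ) * (ss : ℂ) * (1 - q))‖ ^ 2 : ℝ) : ℂ)
        = ((1 + cc ^ 2 * ss ^ 2 * (2 - 2 * q.re) - 1 : ℝ) : ℂ) := by
      have h2 : ((1 + cc ^ 2 * ss ^ 2 * (2 - 2 * q.re) - 1 : ℝ) : ℂ)
          = (cc : ℂ) ^ 2 * (ss : ℂ) ^ 2 * (2 - (q + (starRingEnd ℂ) q)) := by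
        rw [← ofReal_two_re]; push_cast; ring
      rw [h2, ofReal_norm_sq]
      simp only [map_neg, map_sub, map_mul, map_one, Complex.conj_ofReal]
      linear_combination ((cc : ℂ) ^ 2 * (ss : ℂ) ^ 2) * hu
    exact_mod_cast h1

theorem lt_mem (j : Fin 20) (i : Fin 17) : lt j i ∈ G1 := by
  have hA : gA ∈ G1 := S1_le_G1 gA_mem_S1
  have hH := gH_mem_G1
  rw [lt]
  split_ifs
  · exact G1.mul_mem (G1.pow_mem hA _) hH
  · exact G1.mul_mem (G1.mul_mem (G1.mul_mem (G1.pow_mem hA _) hH) (G1.pow_mem hA _)) hH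

theorem lt_notin (j : Fin 20) (i : Fin 17) : lt j i ∉ S1 := by
  intro h
  have h1 := (S1_diag _ h).2.2.2.2.2.2.1
  rw [lt_00] at h1
  have h2 := la_norm i
  rw [h1] at h2
  have h3 := Xs_gt i
  rw [← h2] at h3
  norm_num at h3

theorem la_le (i : Fin 17) : ‖la i‖ ≤ 20 := by
  have h1 := la_norm i
  have h2 : Xs i ≤ 20 ^ 2 := by
    by_cases hi : i = 0
    · rw [hi, Xs_zero]; linarith [cc_sq_hi]
    · rw [Xs_ne i hi]
      have h3 := A_hi
      have h4 := Real.neg_one_le_cos (Real.pi * ((i : ℕ) + 1) / 10)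
      have h5 : 2 - 2 * Real.cos (Real.pi * ((i : ℕ) + 1) / 10) ≤ 4 := by linarith
      have h6 := Real.cos_le_one (Real.pi * ((i : ℕ) + 1) / 10)
      have h7 := mul_le_mul h3 h5 (by linarith) (by norm_num)
      norm_num at h7 ⊢
      linarith
  rw [← h1] at h2
  exact (pow_le_pow_iff_left₀ (norm_nonneg _) (by norm_num) two_ne_zero).mp h2

private theorem om_inj (a b : Fin 20) (h : om ^ (a : ℕ) = om ^ (b : ℕ)) : a = b :=
  Fin.ext (om_prim.pow_inj a.isLt b.isLt h)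

private theorem la_ne (i : Fin 17) : la i ≠ 0 := by
  intro h
  have h1 := la_norm i
  rw [h, norm_zero] at h1
  have := Xs_gt i
  rw [← h1] at this
  norm_num at this

private theorem lb_ne (i : Fin 17) : lb i ≠ 0 := by
  intro h
  have h1 := lb_norm i
  rw [h, norm_zero] at h1
  have := Xs_gt i
  norm_num at h1
  linarith

private theorem same_i (j j' : Fin 20) (i : Fin 17) (μ : ℂ) (h1 : la i = la i * μ)
    (h2 : om ^ (j' : ℕ) * lb i = om ^ (j : ℕ) * lb i * μ) : j = j' := by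
  have hμ : μ = 1 := by
    apply mul_left_cancel₀ (la_ne i)
    rw [← h1, mul_one]
  rw [hμ, mul_one] at h2
  exact om_inj _ _ (mul_right_cancel₀ (lb_ne i) h2).symm

private theorem not_conj (j j' : Fin 20) (k : ℕ) (hk3 : 3 ≤ k) (hk17 : k ≤ 17) (hk : k ≠ 10) (μ : ℂ)
    (h1 : (cc : ℂ) ^ 2 - (ss : ℂ) ^ 2 * (starRingEnd ℂ) (om ^ k)
      = ((cc : ℂ) ^ 2 - (ss : ℂ) ^ 2 * om ^ k) * μ)
    (h2 : om ^ (j' : ℕ) * (1 - (starRingEnd ℂ) (om ^ k)) = om ^ (j : ℕ) * (1 - om ^ k) * μ) :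
    False := by
  have hr := om_re k
  have hr3 := cos_bound 3 k hk3 (by omega)
  have hr4 := cos3_hi
  rw [← hr] at hr3
  have hrr : (om ^ k).re ≤ 0.6 := hr3.trans hr4
  have hu := unit_conj k
  have hq1 : om ^ k ≠ 1 := by
    intro h
    have : om ^ k = om ^ 0 := by rw [h, pow_zero]
    have := om_prim.pow_inj (by omega) (by norm_num) this
    omega
  have hqm1 : om ^ k ≠ -1 := by
    intro h
    have h10 : om ^ 10 = -1 := by
      have : om ^ 10 = ze ^ 20 := by rw [om]; ring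
      rw [this, ze_pow_20]
    rw [← h10] at h
    have := om_prim.pow_inj (by omega) (by norm_num) h
    exact hk this
  obtain ⟨p, hp⟩ : ∃ p, p = om ^ ((j' : ℕ) + 20 - (j : ℕ)) := ⟨_, rfl⟩
  have hPQ : om ^ (j' : ℕ) = p * om ^ (j : ℕ) := by
    rw [hp, ← pow_add, Nat.sub_add_cancel (by omega), pow_add, om_pow_20, mul_one]
  have hQ0 : om ^ (j : ℕ) ≠ 0 := pow_ne_zero _ om_ne
  have hpu : p * (starRingEnd ℂ) p = 1 := by rw [hp]; exact unit_conj _
  rw [hPQ] at h2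
  generalize om ^ (j : ℕ) = Q at h2 hQ0
  generalize hq : om ^ k = q at *
  have hcq : 1 - (starRingEnd ℂ) q ≠ 0 := by
    intro h
    apply hq1
    have h' : (starRingEnd ℂ) q = 1 := by rw [sub_eq_zero] at h; exact h.symm
    rw [h', mul_one] at hu
    exact hu
  -- main relation
  have hrel : p * ((cc : ℂ) ^ 2 - (ss : ℂ) ^ 2 * q) = (ss : ℂ) ^ 2 - (cc : ℂ) ^ 2 * q := by
    have h3 : p * (1 - (starRingEnd ℂ) q) = (1 - q) * μ := by
      apply mul_left_cancel₀ hQ0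
      linear_combination h2
    apply mul_right_cancel₀ hcq
    linear_combination ((cc : ℂ) ^ 2 - (ss : ℂ) ^ 2 * q) * h3 - (1 - q) * h1
      + ((ss : ℂ) ^ 2 - (cc : ℂ) ^ 2) * hu
  have hcs : (cc : ℂ) ^ 2 - (ss : ℂ) ^ 2 = 1 := by
    have := ss_sq_c; linear_combination -this
  by_cases hp1 : p = 1
  · rw [hp1, one_mul] at hrel
    apply hqm1
    have h4 : ((cc : ℂ) ^ 2 - (ss : ℂ) ^ 2) * (1 + q) = 0 := by linear_combination hrel
    rw [hcs, one_mul] at h4
    linear_combination h4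
  · -- real part of p
    have hpre : p.re ≤ 0.951057 := by
      have hd : p = om ^ (((j' : ℕ) + 20 - (j : ℕ)) % 20) := by
        rw [hp]
        conv_lhs => rw [← Nat.div_add_mod ((j' : ℕ) + 20 - (j : ℕ)) 20]
        rw [pow_add, pow_mul, om_pow_20, one_pow, one_mul]
      have hd0 : ((j' : ℕ) + 20 - (j : ℕ)) % 20 ≠ 0 := by
        intro h
        rw [h, pow_zero] at hd
        exact hp1 hd
      have hlt : ((j' : ℕ) + 20 - (j : ℕ)) % 20 < 20 := Nat.mod_lt _ (by norm_num)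
      rw [hd, om_re]
      have h5 := cos_bound 1 (((j' : ℕ) + 20 - (j : ℕ)) % 20) (by omega) (by omega)
      have h6 : Real.pi * ((1 : ℕ) : ℝ) / 10 = Real.pi / 10 := by push_cast; ring
      rw [h6] at h5
      exact h5.trans cos10_hi.le
    have hmain : (1 + 2 * (cc ^ 2 * ss ^ 2) * (1 - q.re)) * (1 - p.re) = 1 + q.re := by
      have h7 : (((1 + 2 * (cc ^ 2 * ss ^ 2) * (1 - q.re)) * (2 * (1 - p.re)) : ℝ) : ℂ)
          = ((2 * (1 + q.re) : ℝ) : ℂ) := by
        have e1 : (((1 + 2 * (cc ^ 2 * ss ^ 2) * (1 - q.re)) * (2 * (1 - p.re)) : ℝ) : ℂ)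
            = (1 + (cc : ℂ) ^ 2 * (ss : ℂ) ^ 2 * (2 - (q + (starRingEnd ℂ) q)))
              * (2 - (p + (starRingEnd ℂ) p)) := by
          rw [← ofReal_two_re, ← ofReal_two_re]; push_cast; ring
        have e2 : ((2 * (1 + q.re) : ℝ) : ℂ) = 2 + (q + (starRingEnd ℂ) q) := by
          rw [← ofReal_two_re]; push_cast; ring
        rw [e1, e2]
        have hrel' := congrArg (starRingEnd ℂ) hrel
        simp only [map_sub, map_mul, map_pow, Complex.conj_ofReal] at hrel'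
        generalize (starRingEnd ℂ) q = q' at *
        generalize (starRingEnd ℂ) p = p' at *
        generalize (cc : ℂ) ^ 2 = C at *
        generalize (ss : ℂ) ^ 2 = S at *
        have hC : C = 1 + S := by linear_combination hcs
        subst hC
        linear_combination (-(1 + S - S * q')) * hrel - (1 + S - S * q) * hrel'
          + (-(2 * S ^ 2) - 2 * S + S ^ 2 * (p + p')) * hu
      have h8 : (1 + 2 * (cc ^ 2 * ss ^ 2) * (1 - q.re)) * (2 * (1 - p.re)) = 2 * (1 + q.re) := by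
        exact_mod_cast h7
      linarith
    have hA := A_lo
    have h9 : (75 : ℝ) ≤ 1 + 2 * (cc ^ 2 * ss ^ 2) * (1 - q.re) := by
      have h10 : (0.4 : ℝ) ≤ 1 - q.re := by norm_num at hrr ⊢; linarith
      have h11 := mul_le_mul hA h10 (by norm_num) (by linarith)
      norm_num at h11
      linarith
    have h12 : (0.0489 : ℝ) ≤ 1 - p.re := by norm_num at hpre ⊢; linarith
    have h13 := mul_le_mul h9 h12 (by norm_num) (by linarith)
    rw [hmain] at h13
    norm_num at h13 hrr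
    linarith

theorem lt_inj (j j' : Fin 20) (i i' : Fin 17) (h : (lt j i)⁻¹ * lt j' i' ∈ S1) :
    j = j' ∧ i = i' := by
  obtain ⟨t, ht⟩ : ∃ t, t = (lt j i)⁻¹ * lt j' i' := ⟨_, rfl⟩
  rw [← ht] at h
  have hg : lt j' i' = lt j i * t := by rw [ht]; group
  have hd := S1_diag t h
  obtain ⟨μ, hμ⟩ : ∃ μ, μ = (t : M3) 0 0 := ⟨_, rfl⟩
  have hμn : ‖μ‖ = 1 := by rw [hμ]; exact hd.2.2.2.2.2.2.1
  have hcol : ∀ a : Fin 3, ((lt j' i' : GL3) : M3) a 0 = ((lt j i : GL3) : M3) a 0 * μ := by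
    intro a
    rw [hg, Units.val_mul, Matrix.mul_apply, Fin.sum_univ_three, hd.2.2.1, hd.2.2.2.1, hμ]
    ring
  have h1 := hcol 0
  have h2 := hcol 1
  rw [lt_00, lt_00] at h1
  rw [lt_10, lt_10] at h2
  have hX : Xs i' = Xs i := by
    rw [← la_norm, ← la_norm, h1, norm_mul, hμn, mul_one]
  by_cases hi : i = 0
  · by_cases hi' : i' = 0
    · have hii : i' = i := by rw [hi, hi']
      rw [hii] at h1 h2
      exact ⟨same_i j j' i μ h1 h2, hii.symm⟩
    · exfalso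
      have h3 := Xs_big i' hi'
      rw [hX, hi, Xs_zero] at h3
      linarith [cc_sq_hi]
  · by_cases hi' : i' = 0
    · exfalso
      have h3 := Xs_big i hi
      rw [← hX, hi', Xs_zero] at h3
      linarith [cc_sq_hi]
    · have hv : 1 ≤ (i : ℕ) := by
        rcases Nat.eq_zero_or_pos (i : ℕ) with h | h
        · exfalso; exact hi (Fin.ext h)
        · exact h
      have hv' : 1 ≤ (i' : ℕ) := by
        rcases Nat.eq_zero_or_pos (i' : ℕ) with h | h
        · exfalso; exact hi' (Fin.ext h)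
        · exact h
      have hlt := i.isLt
      have hlt' := i'.isLt
      have hre : (om ^ ((i' : ℕ) + 1)).re = (om ^ ((i : ℕ) + 1)).re := by
        rw [om_re, om_re]
        rw [Xs_ne i hi, Xs_ne i' hi'] at hX
        have hA := A_lo
        have h5 : cc ^ 2 * ss ^ 2 * (2 - 2 * Real.cos (Real.pi * ((i' : ℕ) + 1) / 10))
            = cc ^ 2 * ss ^ 2 * (2 - 2 * Real.cos (Real.pi * ((i : ℕ) + 1) / 10)) := by linarith
        have h6 := mul_left_cancel₀ (by linarith : cc ^ 2 * ss ^ 2 ≠ 0) h5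
        push_cast
        linarith
      have him : (om ^ ((i' : ℕ) + 1)).im ^ 2 = (om ^ ((i : ℕ) + 1)).im ^ 2 := by
        have e1 : ∀ k : ℕ, (om ^ k).re ^ 2 + (om ^ k).im ^ 2 = 1 := by
          intro k
          have := Complex.normSq_apply (om ^ k)
          rw [Complex.normSq_eq_norm_sq, norm_pow, om_norm] at this
          norm_num at this
          linarith
        have e2 := e1 ((i' : ℕ) + 1)
        have e3 := e1 ((i : ℕ) + 1)
        rw [hre] at e2
        linarith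
      rcases sq_eq_sq_iff_eq_or_eq_neg.mp him with h3 | h3
      · have h4 : om ^ ((i' : ℕ) + 1) = om ^ ((i : ℕ) + 1) := Complex.ext hre h3
        have h5 := om_prim.pow_inj (by omega) (by omega) h4
        have hii : i' = i := Fin.ext (by omega)
        rw [hii] at h1 h2
        exact ⟨same_i j j' i μ h1 h2, hii.symm⟩
      · have h4 : om ^ ((i' : ℕ) + 1) = (starRingEnd ℂ) (om ^ ((i : ℕ) + 1)) :=
          Complex.ext hre h3
        by_cases hii : i' = i
        · rw [hii] at h1 h2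
          exact ⟨same_i j j' i μ h1 h2, hii.symm⟩
        · exfalso
          have h5 : om ^ ((i' : ℕ) + 1 + ((i : ℕ) + 1)) = 1 := by
            rw [pow_add, h4, mul_comm, unit_conj]
          have h6 := (om_prim.pow_eq_one_iff_dvd _).mp h5
          have h7 : (i' : ℕ) + 1 + ((i : ℕ) + 1) = 20 := by
            obtain ⟨m, hm⟩ := h6
            have : m = 1 := by
              rcases m with _ | _ | m
              · omega
              · rfl
              · omega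
            rw [this] at hm; omega
          have h8 : (i' : ℕ) ≠ (i : ℕ) := fun e => hii (Fin.ext e)
          rw [la, if_neg hi', la, if_neg hi, h4] at h1
          rw [lb, if_neg hi', lb, if_neg hi, h4] at h2
          refine not_conj j j' ((i : ℕ) + 1) (by omega) (by omega) (by omega) μ h1 ?_
          have hcs0 : (cc : ℂ) * (ss : ℂ) ≠ 0 := by
            apply mul_ne_zero
            · exact_mod_cast (by linarith [cc_gt] : cc ≠ 0)
            · exact_mod_cast ss_pos.ne'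
          apply mul_left_cancel₀ hcs0
          linear_combination -h2

end Pool.Agent.YG
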