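import Pool.Agent.YG.P04Let

/-!
# YG-P05: the numerical inequality

`X_i = Xs i`, `y_i = u (1 - 1/X_i)`. Values of `sqrt X_i`: `i=0: 3.19623`; `i=1: 6.07958`; `i=2,16: 8.86670`; `3,15: 11.45030`;
`4,14: 13.75849`; `5,13: 15.73158`; `6,12: 17.31975`; `7,11: 18.48326`; `8,10: 19.19313`; `9: 19.43173`. (From bounds of `cos (πk/10)`,
`cc`, `ss`.) With these the right side is `a0 + a1 u + a2 u^2 + 4(1-u-δ)(b0 + b1 u + b2 u^2)`,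
`a0 = .83359, a1 = 1.73274, a2 = 2.50511, b0 = .063488, b1 = .35964, b2 = .99862`; the difference to `1.01 (1+4u)` is
`≥ 0.0775 - 1.1228 u + 5.061 u^2 - 3.995 u^3 > 0.008` on `[0, .3025]` (minimum near `u = .133`), and `δ ≤ 10^-4` costs at most `10^-4`.
-/

set_option autoImplicit false

namespace Pool.Agent.YG

open Matrix


private lemma term_lo (X d xl α β ρ u δ : ℝ) (hd : 0 < d) (hX : X ≤ d ^ 2) (hxl : 1 ≤ xl) (hXl : xl ≤ X)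
    (hα : α * d ^ 3 ≤ 1) (hβ : β * d ^ 5 ≤ 1) (hα0 : 0 ≤ α) (hβ0 : 0 ≤ β) (hρ : ρ * xl ≤ xl - 1)
    (hρ0 : 0 ≤ ρ) (hu0 : 0 ≤ u) (hv : 0 ≤ 1 - u - δ) :
    20 * (α * (1 + 9 / 4 * (u * ρ) + 225 / 64 * (u * ρ) ^ 2) +
      4 * (1 - u - δ) * β * (1 + 25 / 4 * (u * ρ) + 1225 / 64 * (u * ρ) ^ 2)) ≤
    20 * ((Real.sqrt X ^ 3)⁻¹ * (1 + 9 / 4 * (u * (1 - 1 / X)) + 225 / 64 * (u * (1 - 1 / X)) ^ 2) +
        4 * (1 - u - δ) * (Real.sqrt X ^ 5)⁻¹ *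
          (1 + 25 / 4 * (u * (1 - 1 / X)) + 1225 / 64 * (u * (1 - 1 / X)) ^ 2)) := by
  have hX0 : 0 < X := by linarith
  have hs0 : 0 < Real.sqrt X := Real.sqrt_pos.mpr hX0
  have hsd : Real.sqrt X ≤ d := by
    rw [show d = Real.sqrt (d ^ 2) from (Real.sqrt_sq hd.le).symm]
    exact Real.sqrt_le_sqrt hX
  have h3 : α ≤ (Real.sqrt X ^ 3)⁻¹ := by
    have : α * Real.sqrt X ^ 3 ≤ α * d ^ 3 :=
      mul_le_mul_of_nonneg_left (pow_le_pow_left₀ hs0.le hsd 3) hα0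
    rw [← one_div, le_div_iff₀ (by positivity)]
    linarith
  have h5 : β ≤ (Real.sqrt X ^ 5)⁻¹ := by
    have : β * Real.sqrt X ^ 5 ≤ β * d ^ 5 :=
      mul_le_mul_of_nonneg_left (pow_le_pow_left₀ hs0.le hsd 5) hβ0
    rw [← one_div, le_div_iff₀ (by positivity)]
    linarith
  have hr : ρ ≤ 1 - 1 / X := by
    have h1 : 1 / X ≤ 1 / xl := one_div_le_one_div_of_le (by linarith) hXl
    have h2 : ρ ≤ 1 - 1 / xl := by
      rw [le_sub_iff_add_le, ← le_sub_iff_add_le', div_le_iff₀ (by linarith)]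
      nlinarith
    linarith
  have hur : u * ρ ≤ u * (1 - 1 / X) := mul_le_mul_of_nonneg_left hr hu0
  have hur0 : 0 ≤ u * ρ := mul_nonneg hu0 hρ0
  have e1 : 1 + 9 / 4 * (u * ρ) + 225 / 64 * (u * ρ) ^ 2 ≤
      1 + 9 / 4 * (u * (1 - 1 / X)) + 225 / 64 * (u * (1 - 1 / X)) ^ 2 := by
    have := pow_le_pow_left₀ hur0 hur 2
    linarith
  have e2 : 1 + 25 / 4 * (u * ρ) + 1225 / 64 * (u * ρ) ^ 2 ≤
      1 + 25 / 4 * (u * (1 - 1 / X)) + 1225 / 64 * (u * (1 - 1 / X)) ^ 2 := by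
    have := pow_le_pow_left₀ hur0 hur 2
    linarith
  have f1 := mul_le_mul h3 e1 (by positivity) (le_trans hα0 h3)
  have f2 := mul_le_mul (mul_le_mul_of_nonneg_left h5 (show 0 ≤ 4 * (1 - u - δ) by linarith)) e2
    (by positivity) (by positivity)
  linarith


private lemma c2v : Real.cos (Real.pi * 2 / 10) = (1 + Real.sqrt 5) / 4 := by
  rw [show Real.pi * 2 / 10 = Real.pi / 5 by ring, Real.cos_pi_div_five]

private lemma s5lo : 2.2360679 < Real.sqrt 5 := by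
  rw [Real.lt_sqrt (by norm_num)]; norm_num

private lemma s5hi : Real.sqrt 5 < 2.236068 := by
  rw [Real.sqrt_lt' (by norm_num)]; norm_num

private lemma cb2 : 0.80901 ≤ Real.cos (Real.pi * 2 / 10) ∧ Real.cos (Real.pi * 2 / 10) ≤ 0.80902 := by
  rw [c2v]; constructor <;> linarith [s5lo, s5hi]

private lemma cb4 : 0.30901 ≤ Real.cos (Real.pi * 4 / 10) ∧ Real.cos (Real.pi * 4 / 10) ≤ 0.30902 := by
  rw [show Real.pi * 4 / 10 = 2 * (Real.pi * 2 / 10) by ring, Real.cos_two_mul, c2v]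
  have h : Real.sqrt 5 ^ 2 = 5 := Real.sq_sqrt (by norm_num)
  constructor <;> nlinarith [s5lo, s5hi]

private lemma cb3 : 0.58778 ≤ Real.cos (Real.pi * 3 / 10) ∧ Real.cos (Real.pi * 3 / 10) ≤ 0.58780 := by
  rw [show Real.pi * 3 / 10 = 3 * (Real.pi / 10) by ring, Real.cos_three_mul]
  have h1 := cos10_lo
  have h2 := cos10_hi
  constructor <;> nlinarith [mul_pos (sub_pos.mpr h1) (sub_pos.mpr h2), sq_nonneg (Real.cos (Real.pi / 10))]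

private lemma cb5 : Real.cos (Real.pi * 5 / 10) = 0 := by
  rw [show Real.pi * 5 / 10 = Real.pi / 2 by ring, Real.cos_pi_div_two]

private lemma cb10 : Real.cos (Real.pi * 10 / 10) = -1 := by
  rw [show Real.pi * 10 / 10 = Real.pi by ring, Real.cos_pi]

private lemma pq : 94.142 < cc ^ 2 * ss ^ 2 ∧ cc ^ 2 * ss ^ 2 < 94.155 := by
  have h1 := cc_lo
  have h2 := cc_hi
  have h3 := ss_lo
  have h4 := ss_hi
  have a1 : 3.1962 ^ 2 < cc ^ 2 := pow_lt_pow_left₀ h1 (by norm_num) (by norm_num)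
  have a2 : cc ^ 2 < 3.1963 ^ 2 := pow_lt_pow_left₀ h2 (by linarith) (by norm_num)
  have a3 : 3.0357 ^ 2 < ss ^ 2 := pow_lt_pow_left₀ h3 (by norm_num) (by norm_num)
  have a4 : ss ^ 2 < 3.0358 ^ 2 := pow_lt_pow_left₀ h4 (by linarith) (by norm_num)
  have b1 : (3.1962 : ℝ) ^ 2 * 3.0357 ^ 2 < cc ^ 2 * ss ^ 2 :=
    mul_lt_mul'' a1 a3 (by norm_num) (by norm_num)
  have b2 : cc ^ 2 * ss ^ 2 < 3.1963 ^ 2 * 3.0358 ^ 2 :=
    mul_lt_mul'' a2 a4 (by positivity) (by positivity)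
  constructor
  · refine lt_trans ?_ b1
    norm_num
  · refine lt_trans b2 ?_
    norm_num

private lemma xb (C l h : ℝ) (h1 : l ≤ C) (h2 : C ≤ h) (hh : h ≤ 1) :
    1 + 94.142 * (2 - 2 * h) ≤ 1 + cc ^ 2 * ss ^ 2 * (2 - 2 * C) ∧
    1 + cc ^ 2 * ss ^ 2 * (2 - 2 * C) ≤ 1 + 94.155 * (2 - 2 * l) := by
  obtain ⟨p1, p2⟩ := pq
  constructor
  · nlinarith [mul_le_mul_of_nonneg_right p1.le (show 0 ≤ 2 - 2 * h by linarith),
      mul_le_mul_of_nonneg_left (show 2 - 2 * h ≤ 2 - 2 * C by linarith) (show 0 ≤ cc ^ 2 * ss ^ 2 by linarith)]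
  · nlinarith [mul_le_mul_of_nonneg_right p2.le (show 0 ≤ 2 - 2 * C by linarith),
      mul_le_mul_of_nonneg_left (show 2 - 2 * C ≤ 2 - 2 * l by linarith) (show (0:ℝ) ≤ 94.155 by norm_num)]

private lemma cbN (k : ℝ) : Real.cos (Real.pi * (10 - k) / 10) = -Real.cos (Real.pi * k / 10) := by
  rw [show Real.pi * (10 - k) / 10 = Real.pi - Real.pi * k / 10 by ring, Real.cos_pi_sub]

private lemma cbM (k : ℝ) : Real.cos (Real.pi * (20 - k) / 10) = Real.cos (Real.pi * k / 10) := by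
  rw [show Real.pi * (20 - k) / 10 = 2 * Real.pi - Real.pi * k / 10 by ring, Real.cos_two_pi_sub]

private lemma cb1 : 0.951056 ≤ Real.cos (Real.pi * 1 / 10) ∧ Real.cos (Real.pi * 1 / 10) ≤ 0.951057 := by
  rw [show Real.pi * 1 / 10 = Real.pi / 10 by ring]
  exact ⟨cos10_lo.le, cos10_hi.le⟩

private lemma cb5' : (0 : ℝ) ≤ Real.cos (Real.pi * 5 / 10) ∧ Real.cos (Real.pi * 5 / 10) ≤ 0 := by
  rw [cb5]; norm_num

private lemma cb6' : (-0.30902 : ℝ) ≤ Real.cos (Real.pi * 6 / 10) ∧ Real.cos (Real.pi * 6 / 10) ≤ -0.30901 := by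
  have h := cb4
  rw [show (6 : ℝ) = 10 - 4 by norm_num, cbN]
  constructor <;> linarith [h.1, h.2]

private lemma cb7' : (-0.5878 : ℝ) ≤ Real.cos (Real.pi * 7 / 10) ∧ Real.cos (Real.pi * 7 / 10) ≤ -0.58778 := by
  have h := cb3
  rw [show (7 : ℝ) = 10 - 3 by norm_num, cbN]
  constructor <;> linarith [h.1, h.2]

private lemma cb8' : (-0.80902 : ℝ) ≤ Real.cos (Real.pi * 8 / 10) ∧ Real.cos (Real.pi * 8 / 10) ≤ -0.80901 := by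
  have h := cb2
  rw [show (8 : ℝ) = 10 - 2 by norm_num, cbN]
  constructor <;> linarith [h.1, h.2]

private lemma cb9' : (-0.951057 : ℝ) ≤ Real.cos (Real.pi * 9 / 10) ∧ Real.cos (Real.pi * 9 / 10) ≤ -0.951056 := by
  have h := cb1
  rw [show (9 : ℝ) = 10 - 1 by norm_num, cbN]
  constructor <;> linarith [h.1, h.2]

private lemma cb10' : (-1 : ℝ) ≤ Real.cos (Real.pi * 10 / 10) ∧ Real.cos (Real.pi * 10 / 10) ≤ -1 := by
  rw [cb10]; norm_num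

private lemma cb11' : (-0.951057 : ℝ) ≤ Real.cos (Real.pi * 11 / 10) ∧ Real.cos (Real.pi * 11 / 10) ≤ -0.951056 := by
  have h := cb9'
  rw [show (11 : ℝ) = 20 - 9 by norm_num, cbM]
  constructor <;> linarith [h.1, h.2]

private lemma cb12' : (-0.80902 : ℝ) ≤ Real.cos (Real.pi * 12 / 10) ∧ Real.cos (Real.pi * 12 / 10) ≤ -0.80901 := by
  have h := cb8'
  rw [show (12 : ℝ) = 20 - 8 by norm_num, cbM]
  constructor <;> linarith [h.1, h.2]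

private lemma cb13' : (-0.5878 : ℝ) ≤ Real.cos (Real.pi * 13 / 10) ∧ Real.cos (Real.pi * 13 / 10) ≤ -0.58778 := by
  have h := cb7'
  rw [show (13 : ℝ) = 20 - 7 by norm_num, cbM]
  constructor <;> linarith [h.1, h.2]

private lemma cb14' : (-0.30902 : ℝ) ≤ Real.cos (Real.pi * 14 / 10) ∧ Real.cos (Real.pi * 14 / 10) ≤ -0.30901 := by
  have h := cb6'
  rw [show (14 : ℝ) = 20 - 6 by norm_num, cbM]
  constructor <;> linarith [h.1, h.2]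

private lemma cb15' : (0 : ℝ) ≤ Real.cos (Real.pi * 15 / 10) ∧ Real.cos (Real.pi * 15 / 10) ≤ 0 := by
  have h := cb5'
  rw [show (15 : ℝ) = 20 - 5 by norm_num, cbM]
  constructor <;> linarith [h.1, h.2]

private lemma cb16' : (0.30901 : ℝ) ≤ Real.cos (Real.pi * 16 / 10) ∧ Real.cos (Real.pi * 16 / 10) ≤ 0.30902 := by
  have h := cb4
  rw [show (16 : ℝ) = 20 - 4 by norm_num, cbM]
  constructor <;> linarith [h.1, h.2]

private lemma cb17' : (0.58778 : ℝ) ≤ Real.cos (Real.pi * 17 / 10) ∧ Real.cos (Real.pi * 17 / 10) ≤ 0.5878 := by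
  have h := cb3
  rw [show (17 : ℝ) = 20 - 3 by norm_num, cbM]
  constructor <;> linarith [h.1, h.2]

private lemma t0 (u δ : ℝ) (hu0 : 0 ≤ u) (hv : 0 ≤ 1 - u - δ) :
    20 * (0.0306208 * (1 + 9 / 4 * (u * 0.9020) + 225 / 64 * (u * 0.9020) ^ 2) +
      4 * (1 - u - δ) * 0.002997052 * (1 + 25 / 4 * (u * 0.9020) + 1225 / 64 * (u * 0.9020) ^ 2)) ≤
    20 * ((Real.sqrt (Xs 0) ^ 3)⁻¹ * (1 + 9 / 4 * (u * (1 - 1 / Xs 0)) + 225 / 64 * (u * (1 - 1 / Xs 0)) ^ 2) +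
        4 * (1 - u - δ) * (Real.sqrt (Xs 0) ^ 5)⁻¹ *
          (1 + 25 / 4 * (u * (1 - 1 / Xs 0)) + 1225 / 64 * (u * (1 - 1 / Xs 0)) ^ 2)) := by
  have hx : Xs 0 = cc ^ 2 := by simp [Xs]
  have a1 : 3.1962 ^ 2 < cc ^ 2 := pow_lt_pow_left₀ cc_lo (by norm_num) (by norm_num)
  have a2 : cc ^ 2 < 3.1963 ^ 2 := pow_lt_pow_left₀ cc_hi (by linarith [cc_lo]) (by norm_num)
  rw [hx]
  apply term_lo _ 3.1964 10.21 _ _ _ u δ (by norm_num) (le_trans a2.le (by norm_num)) (by norm_num) (le_trans (by norm_num) a1.le)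
    (by norm_num) (by norm_num) (by norm_num) (by norm_num) (by norm_num) (by norm_num) hu0 hv

private lemma t1 (u δ : ℝ) (hu0 : 0 ≤ u) (hv : 0 ≤ 1 - u - δ) :
    20 * (0.0044492 * (1 + 9 / 4 * (u * 0.9729) + 225 / 64 * (u * 0.9729) ^ 2) +
      4 * (1 - u - δ) * 0.000120359 * (1 + 25 / 4 * (u * 0.9729) + 1225 / 64 * (u * 0.9729) ^ 2)) ≤
    20 * ((Real.sqrt (Xs 1) ^ 3)⁻¹ * (1 + 9 / 4 * (u * (1 - 1 / Xs 1)) + 225 / 64 * (u * (1 - 1 / Xs 1)) ^ 2) +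
        4 * (1 - u - δ) * (Real.sqrt (Xs 1) ^ 5)⁻¹ *
          (1 + 25 / 4 * (u * (1 - 1 / Xs 1)) + 1225 / 64 * (u * (1 - 1 / Xs 1)) ^ 2)) := by
  have hx : Xs 1 = 1 + cc ^ 2 * ss ^ 2 * (2 - 2 * Real.cos (Real.pi * 2 / 10)) := by
    have h0 : ((1 : Fin 17) : ℕ) = 1 := rfl
    simp only [Xs, h0]
    rw [if_neg (by decide)]
    norm_num
  obtain ⟨c1, c2⟩ := cb2
  obtain ⟨x1, x2⟩ := xb _ _ _ c1 c2 (by norm_num)
  rw [hx]
  apply term_lo _ 6.0800 36.95 _ _ _ u δ (by norm_num) (le_trans x2 (by norm_num)) (by norm_num) (le_trans (by norm_num) x1)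
    (by norm_num) (by norm_num) (by norm_num) (by norm_num) (by norm_num) (by norm_num) hu0 hv

private lemma t2 (u δ : ℝ) (hu0 : 0 ≤ u) (hv : 0 ≤ 1 - u - δ) :
    20 * (0.0014343 * (1 + 9 / 4 * (u * 0.9872) + 225 / 64 * (u * 0.9872) ^ 2) +
      4 * (1 - u - δ) * 0.000018242 * (1 + 25 / 4 * (u * 0.9872) + 1225 / 64 * (u * 0.9872) ^ 2)) ≤
    20 * ((Real.sqrt (Xs 2) ^ 3)⁻¹ * (1 + 9 / 4 * (u * (1 - 1 / Xs 2)) + 225 / 64 * (u * (1 - 1 / Xs 2)) ^ 2) +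
        4 * (1 - u - δ) * (Real.sqrt (Xs 2) ^ 5)⁻¹ *
          (1 + 25 / 4 * (u * (1 - 1 / Xs 2)) + 1225 / 64 * (u * (1 - 1 / Xs 2)) ^ 2)) := by
  have hx : Xs 2 = 1 + cc ^ 2 * ss ^ 2 * (2 - 2 * Real.cos (Real.pi * 3 / 10)) := by
    have h0 : ((2 : Fin 17) : ℕ) = 2 := rfl
    simp only [Xs, h0]
    rw [if_neg (by decide)]
    norm_num
  obtain ⟨c1, c2⟩ := cb3
  obtain ⟨x1, x2⟩ := xb _ _ _ c1 c2 (by norm_num)
  rw [hx]
  apply term_lo _ 8.8671 78.61 _ _ _ u δ (by norm_num) (le_trans x2 (by norm_num)) (by norm_num) (le_trans (by norm_num) x1)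
    (by norm_num) (by norm_num) (by norm_num) (by norm_num) (by norm_num) (by norm_num) hu0 hv

private lemma t3 (u δ : ℝ) (hu0 : 0 ≤ u) (hv : 0 ≤ 1 - u - δ) :
    20 * (0.0006660 * (1 + 9 / 4 * (u * 0.9923) + 225 / 64 * (u * 0.9923) ^ 2) +
      4 * (1 - u - δ) * 0.000005079 * (1 + 25 / 4 * (u * 0.9923) + 1225 / 64 * (u * 0.9923) ^ 2)) ≤
    20 * ((Real.sqrt (Xs 3) ^ 3)⁻¹ * (1 + 9 / 4 * (u * (1 - 1 / Xs 3)) + 225 / 64 * (u * (1 - 1 / Xs 3)) ^ 2) +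
        4 * (1 - u - δ) * (Real.sqrt (Xs 3) ^ 5)⁻¹ *
          (1 + 25 / 4 * (u * (1 - 1 / Xs 3)) + 1225 / 64 * (u * (1 - 1 / Xs 3)) ^ 2)) := by
  have hx : Xs 3 = 1 + cc ^ 2 * ss ^ 2 * (2 - 2 * Real.cos (Real.pi * 4 / 10)) := by
    have h0 : ((3 : Fin 17) : ℕ) = 3 := rfl
    simp only [Xs, h0]
    rw [if_neg (by decide)]
    norm_num
  obtain ⟨c1, c2⟩ := cb4
  obtain ⟨x1, x2⟩ := xb _ _ _ c1 c2 (by norm_num)
  rw [hx]
  apply term_lo _ 11.4508 131.10 _ _ _ u δ (by norm_num) (le_trans x2 (by norm_num)) (by norm_num) (le_trans (by norm_num) x1)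
    (by norm_num) (by norm_num) (by norm_num) (by norm_num) (by norm_num) (by norm_num) hu0 hv

private lemma t4 (u δ : ℝ) (hu0 : 0 ≤ u) (hv : 0 ≤ 1 - u - δ) :
    20 * (0.0003839 * (1 + 9 / 4 * (u * 0.9947) + 225 / 64 * (u * 0.9947) ^ 2) +
      4 * (1 - u - δ) * 0.000002027 * (1 + 25 / 4 * (u * 0.9947) + 1225 / 64 * (u * 0.9947) ^ 2)) ≤
    20 * ((Real.sqrt (Xs 4) ^ 3)⁻¹ * (1 + 9 / 4 * (u * (1 - 1 / Xs 4)) + 225 / 64 * (u * (1 - 1 / Xs 4)) ^ 2) +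
        4 * (1 - u - δ) * (Real.sqrt (Xs 4) ^ 5)⁻¹ *
          (1 + 25 / 4 * (u * (1 - 1 / Xs 4)) + 1225 / 64 * (u * (1 - 1 / Xs 4)) ^ 2)) := by
  have hx : Xs 4 = 1 + cc ^ 2 * ss ^ 2 * (2 - 2 * Real.cos (Real.pi * 5 / 10)) := by
    have h0 : ((4 : Fin 17) : ℕ) = 4 := rfl
    simp only [Xs, h0]
    rw [if_neg (by decide)]
    norm_num
  obtain ⟨c1, c2⟩ := cb5'
  obtain ⟨x1, x2⟩ := xb _ _ _ c1 c2 (by norm_num)
  rw [hx]
  apply term_lo _ 13.7590 189.28 _ _ _ u δ (by norm_num) (le_trans x2 (by norm_num)) (by norm_num) (le_trans (by norm_num) x1)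
    (by norm_num) (by norm_num) (by norm_num) (by norm_num) (by norm_num) (by norm_num) hu0 hv

private lemma t5 (u δ : ℝ) (hu0 : 0 ≤ u) (hv : 0 ≤ 1 - u - δ) :
    20 * (0.0002568 * (1 + 9 / 4 * (u * 0.9959) + 225 / 64 * (u * 0.9959) ^ 2) +
      4 * (1 - u - δ) * 0.000001037 * (1 + 25 / 4 * (u * 0.9959) + 1225 / 64 * (u * 0.9959) ^ 2)) ≤
    20 * ((Real.sqrt (Xs 5) ^ 3)⁻¹ * (1 + 9 / 4 * (u * (1 - 1 / Xs 5)) + 225 / 64 * (u * (1 - 1 / Xs 5)) ^ 2) +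
        4 * (1 - u - δ) * (Real.sqrt (Xs 5) ^ 5)⁻¹ *
          (1 + 25 / 4 * (u * (1 - 1 / Xs 5)) + 1225 / 64 * (u * (1 - 1 / Xs 5)) ^ 2)) := by
  have hx : Xs 5 = 1 + cc ^ 2 * ss ^ 2 * (2 - 2 * Real.cos (Real.pi * 6 / 10)) := by
    have h0 : ((5 : Fin 17) : ℕ) = 5 := rfl
    simp only [Xs, h0]
    rw [if_neg (by decide)]
    norm_num
  obtain ⟨c1, c2⟩ := cb6'
  obtain ⟨x1, x2⟩ := xb _ _ _ c1 c2 (by norm_num)
  rw [hx]
  apply term_lo _ 15.7322 247.46 _ _ _ u δ (by norm_num) (le_trans x2 (by norm_num)) (by norm_num) (le_trans (by norm_num) x1)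
    (by norm_num) (by norm_num) (by norm_num) (by norm_num) (by norm_num) (by norm_num) hu0 hv

private lemma t6 (u δ : ℝ) (hu0 : 0 ≤ u) (hv : 0 ≤ 1 - u - δ) :
    20 * (0.0001924 * (1 + 9 / 4 * (u * 0.9966) + 225 / 64 * (u * 0.9966) ^ 2) +
      4 * (1 - u - δ) * 0.000000641 * (1 + 25 / 4 * (u * 0.9966) + 1225 / 64 * (u * 0.9966) ^ 2)) ≤
    20 * ((Real.sqrt (Xs 6) ^ 3)⁻¹ * (1 + 9 / 4 * (u * (1 - 1 / Xs 6)) + 225 / 64 * (u * (1 - 1 / Xs 6)) ^ 2) +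
        4 * (1 - u - δ) * (Real.sqrt (Xs 6) ^ 5)⁻¹ *
          (1 + 25 / 4 * (u * (1 - 1 / Xs 6)) + 1225 / 64 * (u * (1 - 1 / Xs 6)) ^ 2)) := by
  have hx : Xs 6 = 1 + cc ^ 2 * ss ^ 2 * (2 - 2 * Real.cos (Real.pi * 7 / 10)) := by
    have h0 : ((6 : Fin 17) : ℕ) = 6 := rfl
    simp only [Xs, h0]
    rw [if_neg (by decide)]
    norm_num
  obtain ⟨c1, c2⟩ := cb7'
  obtain ⟨x1, x2⟩ := xb _ _ _ c1 c2 (by norm_num)
  rw [hx]
  apply term_lo _ 17.3205 299.95 _ _ _ u δ (by norm_num) (le_trans x2 (by norm_num)) (by norm_num) (le_trans (by norm_num) x1)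
    (by norm_num) (by norm_num) (by norm_num) (by norm_num) (by norm_num) (by norm_num) hu0 hv

private lemma t7 (u δ : ℝ) (hu0 : 0 ≤ u) (hv : 0 ≤ 1 - u - δ) :
    20 * (0.0001583 * (1 + 9 / 4 * (u * 0.9970) + 225 / 64 * (u * 0.9970) ^ 2) +
      4 * (1 - u - δ) * 0.000000463 * (1 + 25 / 4 * (u * 0.9970) + 1225 / 64 * (u * 0.9970) ^ 2)) ≤
    20 * ((Real.sqrt (Xs 7) ^ 3)⁻¹ * (1 + 9 / 4 * (u * (1 - 1 / Xs 7)) + 225 / 64 * (u * (1 - 1 / Xs 7)) ^ 2) +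
        4 * (1 - u - δ) * (Real.sqrt (Xs 7) ^ 5)⁻¹ *
          (1 + 25 / 4 * (u * (1 - 1 / Xs 7)) + 1225 / 64 * (u * (1 - 1 / Xs 7)) ^ 2)) := by
  have hx : Xs 7 = 1 + cc ^ 2 * ss ^ 2 * (2 - 2 * Real.cos (Real.pi * 8 / 10)) := by
    have h0 : ((7 : Fin 17) : ℕ) = 7 := rfl
    simp only [Xs, h0]
    rw [if_neg (by decide)]
    norm_num
  obtain ⟨c1, c2⟩ := cb8'
  obtain ⟨x1, x2⟩ := xb _ _ _ c1 c2 (by norm_num)
  rw [hx]
  apply term_lo _ 18.4840 341.60 _ _ _ u δ (by norm_num) (le_trans x2 (by norm_num)) (by norm_num) (le_trans (by norm_num) x1)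
    (by norm_num) (by norm_num) (by norm_num) (by norm_num) (by norm_num) (by norm_num) hu0 hv

private lemma t8 (u δ : ℝ) (hu0 : 0 ≤ u) (hv : 0 ≤ 1 - u - δ) :
    20 * (0.0001414 * (1 + 9 / 4 * (u * 0.9972) + 225 / 64 * (u * 0.9972) ^ 2) +
      4 * (1 - u - δ) * 0.000000383 * (1 + 25 / 4 * (u * 0.9972) + 1225 / 64 * (u * 0.9972) ^ 2)) ≤
    20 * ((Real.sqrt (Xs 8) ^ 3)⁻¹ * (1 + 9 / 4 * (u * (1 - 1 / Xs 8)) + 225 / 64 * (u * (1 - 1 / Xs 8)) ^ 2) +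
        4 * (1 - u - δ) * (Real.sqrt (Xs 8) ^ 5)⁻¹ *
          (1 + 25 / 4 * (u * (1 - 1 / Xs 8)) + 1225 / 64 * (u * (1 - 1 / Xs 8)) ^ 2)) := by
  have hx : Xs 8 = 1 + cc ^ 2 * ss ^ 2 * (2 - 2 * Real.cos (Real.pi * 9 / 10)) := by
    have h0 : ((8 : Fin 17) : ℕ) = 8 := rfl
    simp only [Xs, h0]
    rw [if_neg (by decide)]
    norm_num
  obtain ⟨c1, c2⟩ := cb9'
  obtain ⟨x1, x2⟩ := xb _ _ _ c1 c2 (by norm_num)
  rw [hx]
  apply term_lo _ 19.1939 368.35 _ _ _ u δ (by norm_num) (le_trans x2 (by norm_num)) (by norm_num) (le_trans (by norm_num) x1)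
    (by norm_num) (by norm_num) (by norm_num) (by norm_num) (by norm_num) (by norm_num) hu0 hv

private lemma t9 (u δ : ℝ) (hu0 : 0 ≤ u) (hv : 0 ≤ 1 - u - δ) :
    20 * (0.0001362 * (1 + 9 / 4 * (u * 0.9973) + 225 / 64 * (u * 0.9973) ^ 2) +
      4 * (1 - u - δ) * 0.000000360 * (1 + 25 / 4 * (u * 0.9973) + 1225 / 64 * (u * 0.9973) ^ 2)) ≤
    20 * ((Real.sqrt (Xs 9) ^ 3)⁻¹ * (1 + 9 / 4 * (u * (1 - 1 / Xs 9)) + 225 / 64 * (u * (1 - 1 / Xs 9)) ^ 2) +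
        4 * (1 - u - δ) * (Real.sqrt (Xs 9) ^ 5)⁻¹ *
          (1 + 25 / 4 * (u * (1 - 1 / Xs 9)) + 1225 / 64 * (u * (1 - 1 / Xs 9)) ^ 2)) := by
  have hx : Xs 9 = 1 + cc ^ 2 * ss ^ 2 * (2 - 2 * Real.cos (Real.pi * 10 / 10)) := by
    have h0 : ((9 : Fin 17) : ℕ) = 9 := rfl
    simp only [Xs, h0]
    rw [if_neg (by decide)]
    norm_num
  obtain ⟨c1, c2⟩ := cb10'
  obtain ⟨x1, x2⟩ := xb _ _ _ c1 c2 (by norm_num)
  rw [hx]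
  apply term_lo _ 19.4325 377.56 _ _ _ u δ (by norm_num) (le_trans x2 (by norm_num)) (by norm_num) (le_trans (by norm_num) x1)
    (by norm_num) (by norm_num) (by norm_num) (by norm_num) (by norm_num) (by norm_num) hu0 hv

private lemma t10 (u δ : ℝ) (hu0 : 0 ≤ u) (hv : 0 ≤ 1 - u - δ) :
    20 * (0.0001414 * (1 + 9 / 4 * (u * 0.9972) + 225 / 64 * (u * 0.9972) ^ 2) +
      4 * (1 - u - δ) * 0.000000383 * (1 + 25 / 4 * (u * 0.9972) + 1225 / 64 * (u * 0.9972) ^ 2)) ≤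
    20 * ((Real.sqrt (Xs 10) ^ 3)⁻¹ * (1 + 9 / 4 * (u * (1 - 1 / Xs 10)) + 225 / 64 * (u * (1 - 1 / Xs 10)) ^ 2) +
        4 * (1 - u - δ) * (Real.sqrt (Xs 10) ^ 5)⁻¹ *
          (1 + 25 / 4 * (u * (1 - 1 / Xs 10)) + 1225 / 64 * (u * (1 - 1 / Xs 10)) ^ 2)) := by
  have hx : Xs 10 = 1 + cc ^ 2 * ss ^ 2 * (2 - 2 * Real.cos (Real.pi * 11 / 10)) := by
    have h0 : ((10 : Fin 17) : ℕ) = 10 := rfl
    simp only [Xs, h0]
    rw [if_neg (by decide)]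
    norm_num
  obtain ⟨c1, c2⟩ := cb11'
  obtain ⟨x1, x2⟩ := xb _ _ _ c1 c2 (by norm_num)
  rw [hx]
  apply term_lo _ 19.1939 368.35 _ _ _ u δ (by norm_num) (le_trans x2 (by norm_num)) (by norm_num) (le_trans (by norm_num) x1)
    (by norm_num) (by norm_num) (by norm_num) (by norm_num) (by norm_num) (by norm_num) hu0 hv

private lemma t11 (u δ : ℝ) (hu0 : 0 ≤ u) (hv : 0 ≤ 1 - u - δ) :
    20 * (0.0001583 * (1 + 9 / 4 * (u * 0.9970) + 225 / 64 * (u * 0.9970) ^ 2) +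
      4 * (1 - u - δ) * 0.000000463 * (1 + 25 / 4 * (u * 0.9970) + 1225 / 64 * (u * 0.9970) ^ 2)) ≤
    20 * ((Real.sqrt (Xs 11) ^ 3)⁻¹ * (1 + 9 / 4 * (u * (1 - 1 / Xs 11)) + 225 / 64 * (u * (1 - 1 / Xs 11)) ^ 2) +
        4 * (1 - u - δ) * (Real.sqrt (Xs 11) ^ 5)⁻¹ *
          (1 + 25 / 4 * (u * (1 - 1 / Xs 11)) + 1225 / 64 * (u * (1 - 1 / Xs 11)) ^ 2)) := by
  have hx : Xs 11 = 1 + cc ^ 2 * ss ^ 2 * (2 - 2 * Real.cos (Real.pi * 12 / 10)) := by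
    have h0 : ((11 : Fin 17) : ℕ) = 11 := rfl
    simp only [Xs, h0]
    rw [if_neg (by decide)]
    norm_num
  obtain ⟨c1, c2⟩ := cb12'
  obtain ⟨x1, x2⟩ := xb _ _ _ c1 c2 (by norm_num)
  rw [hx]
  apply term_lo _ 18.4840 341.60 _ _ _ u δ (by norm_num) (le_trans x2 (by norm_num)) (by norm_num) (le_trans (by norm_num) x1)
    (by norm_num) (by norm_num) (by norm_num) (by norm_num) (by norm_num) (by norm_num) hu0 hv

private lemma t12 (u δ : ℝ) (hu0 : 0 ≤ u) (hv : 0 ≤ 1 - u - δ) :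
    20 * (0.0001924 * (1 + 9 / 4 * (u * 0.9966) + 225 / 64 * (u * 0.9966) ^ 2) +
      4 * (1 - u - δ) * 0.000000641 * (1 + 25 / 4 * (u * 0.9966) + 1225 / 64 * (u * 0.9966) ^ 2)) ≤
    20 * ((Real.sqrt (Xs 12) ^ 3)⁻¹ * (1 + 9 / 4 * (u * (1 - 1 / Xs 12)) + 225 / 64 * (u * (1 - 1 / Xs 12)) ^ 2) +
        4 * (1 - u - δ) * (Real.sqrt (Xs 12) ^ 5)⁻¹ *
          (1 + 25 / 4 * (u * (1 - 1 / Xs 12)) + 1225 / 64 * (u * (1 - 1 / Xs 12)) ^ 2)) := by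
  have hx : Xs 12 = 1 + cc ^ 2 * ss ^ 2 * (2 - 2 * Real.cos (Real.pi * 13 / 10)) := by
    have h0 : ((12 : Fin 17) : ℕ) = 12 := rfl
    simp only [Xs, h0]
    rw [if_neg (by decide)]
    norm_num
  obtain ⟨c1, c2⟩ := cb13'
  obtain ⟨x1, x2⟩ := xb _ _ _ c1 c2 (by norm_num)
  rw [hx]
  apply term_lo _ 17.3205 299.95 _ _ _ u δ (by norm_num) (le_trans x2 (by norm_num)) (by norm_num) (le_trans (by norm_num) x1)
    (by norm_num) (by norm_num) (by norm_num) (by norm_num) (by norm_num) (by norm_num) hu0 hv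

private lemma t13 (u δ : ℝ) (hu0 : 0 ≤ u) (hv : 0 ≤ 1 - u - δ) :
    20 * (0.0002568 * (1 + 9 / 4 * (u * 0.9959) + 225 / 64 * (u * 0.9959) ^ 2) +
      4 * (1 - u - δ) * 0.000001037 * (1 + 25 / 4 * (u * 0.9959) + 1225 / 64 * (u * 0.9959) ^ 2)) ≤
    20 * ((Real.sqrt (Xs 13) ^ 3)⁻¹ * (1 + 9 / 4 * (u * (1 - 1 / Xs 13)) + 225 / 64 * (u * (1 - 1 / Xs 13)) ^ 2) +
        4 * (1 - u - δ) * (Real.sqrt (Xs 13) ^ 5)⁻¹ *
          (1 + 25 / 4 * (u * (1 - 1 / Xs 13)) + 1225 / 64 * (u * (1 - 1 / Xs 13)) ^ 2)) := by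
  have hx : Xs 13 = 1 + cc ^ 2 * ss ^ 2 * (2 - 2 * Real.cos (Real.pi * 14 / 10)) := by
    have h0 : ((13 : Fin 17) : ℕ) = 13 := rfl
    simp only [Xs, h0]
    rw [if_neg (by decide)]
    norm_num
  obtain ⟨c1, c2⟩ := cb14'
  obtain ⟨x1, x2⟩ := xb _ _ _ c1 c2 (by norm_num)
  rw [hx]
  apply term_lo _ 15.7322 247.46 _ _ _ u δ (by norm_num) (le_trans x2 (by norm_num)) (by norm_num) (le_trans (by norm_num) x1)
    (by norm_num) (by norm_num) (by norm_num) (by norm_num) (by norm_num) (by norm_num) hu0 hv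

private lemma t14 (u δ : ℝ) (hu0 : 0 ≤ u) (hv : 0 ≤ 1 - u - δ) :
    20 * (0.0003839 * (1 + 9 / 4 * (u * 0.9947) + 225 / 64 * (u * 0.9947) ^ 2) +
      4 * (1 - u - δ) * 0.000002027 * (1 + 25 / 4 * (u * 0.9947) + 1225 / 64 * (u * 0.9947) ^ 2)) ≤
    20 * ((Real.sqrt (Xs 14) ^ 3)⁻¹ * (1 + 9 / 4 * (u * (1 - 1 / Xs 14)) + 225 / 64 * (u * (1 - 1 / Xs 14)) ^ 2) +
        4 * (1 - u - δ) * (Real.sqrt (Xs 14) ^ 5)⁻¹ *
          (1 + 25 / 4 * (u * (1 - 1 / Xs 14)) + 1225 / 64 * (u * (1 - 1 / Xs 14)) ^ 2)) := by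
  have hx : Xs 14 = 1 + cc ^ 2 * ss ^ 2 * (2 - 2 * Real.cos (Real.pi * 15 / 10)) := by
    have h0 : ((14 : Fin 17) : ℕ) = 14 := rfl
    simp only [Xs, h0]
    rw [if_neg (by decide)]
    norm_num
  obtain ⟨c1, c2⟩ := cb15'
  obtain ⟨x1, x2⟩ := xb _ _ _ c1 c2 (by norm_num)
  rw [hx]
  apply term_lo _ 13.7590 189.28 _ _ _ u δ (by norm_num) (le_trans x2 (by norm_num)) (by norm_num) (le_trans (by norm_num) x1)
    (by norm_num) (by norm_num) (by norm_num) (by norm_num) (by norm_num) (by norm_num) hu0 hv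

private lemma t15 (u δ : ℝ) (hu0 : 0 ≤ u) (hv : 0 ≤ 1 - u - δ) :
    20 * (0.0006660 * (1 + 9 / 4 * (u * 0.9923) + 225 / 64 * (u * 0.9923) ^ 2) +
      4 * (1 - u - δ) * 0.000005079 * (1 + 25 / 4 * (u * 0.9923) + 1225 / 64 * (u * 0.9923) ^ 2)) ≤
    20 * ((Real.sqrt (Xs 15) ^ 3)⁻¹ * (1 + 9 / 4 * (u * (1 - 1 / Xs 15)) + 225 / 64 * (u * (1 - 1 / Xs 15)) ^ 2) +
        4 * (1 - u - δ) * (Real.sqrt (Xs 15) ^ 5)⁻¹ *
          (1 + 25 / 4 * (u * (1 - 1 / Xs 15)) + 1225 / 64 * (u * (1 - 1 / Xs 15)) ^ 2)) := by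
  have hx : Xs 15 = 1 + cc ^ 2 * ss ^ 2 * (2 - 2 * Real.cos (Real.pi * 16 / 10)) := by
    have h0 : ((15 : Fin 17) : ℕ) = 15 := rfl
    simp only [Xs, h0]
    rw [if_neg (by decide)]
    norm_num
  obtain ⟨c1, c2⟩ := cb16'
  obtain ⟨x1, x2⟩ := xb _ _ _ c1 c2 (by norm_num)
  rw [hx]
  apply term_lo _ 11.4508 131.10 _ _ _ u δ (by norm_num) (le_trans x2 (by norm_num)) (by norm_num) (le_trans (by norm_num) x1)
    (by norm_num) (by norm_num) (by norm_num) (by norm_num) (by norm_num) (by norm_num) hu0 hv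

private lemma t16 (u δ : ℝ) (hu0 : 0 ≤ u) (hv : 0 ≤ 1 - u - δ) :
    20 * (0.0014343 * (1 + 9 / 4 * (u * 0.9872) + 225 / 64 * (u * 0.9872) ^ 2) +
      4 * (1 - u - δ) * 0.000018242 * (1 + 25 / 4 * (u * 0.9872) + 1225 / 64 * (u * 0.9872) ^ 2)) ≤
    20 * ((Real.sqrt (Xs 16) ^ 3)⁻¹ * (1 + 9 / 4 * (u * (1 - 1 / Xs 16)) + 225 / 64 * (u * (1 - 1 / Xs 16)) ^ 2) +
        4 * (1 - u - δ) * (Real.sqrt (Xs 16) ^ 5)⁻¹ *
          (1 + 25 / 4 * (u * (1 - 1 / Xs 16)) + 1225 / 64 * (u * (1 - 1 / Xs 16)) ^ 2)) := by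
  have hx : Xs 16 = 1 + cc ^ 2 * ss ^ 2 * (2 - 2 * Real.cos (Real.pi * 17 / 10)) := by
    have h0 : ((16 : Fin 17) : ℕ) = 16 := rfl
    simp only [Xs, h0]
    rw [if_neg (by decide)]
    norm_num
  obtain ⟨c1, c2⟩ := cb17'
  obtain ⟨x1, x2⟩ := xb _ _ _ c1 c2 (by norm_num)
  rw [hx]
  apply term_lo _ 8.8671 78.61 _ _ _ u δ (by norm_num) (le_trans x2 (by norm_num)) (by norm_num) (le_trans (by norm_num) x1)
    (by norm_num) (by norm_num) (by norm_num) (by norm_num) (by norm_num) (by norm_num) hu0 hv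

private lemma sum17 (f : Fin 17 → ℝ) : ∑ i, f i = f 0 + f 1 + f 2 + f 3 + f 4 + f 5 + f 6 + f 7 + f 8 + f 9 +
    f 10 + f 11 + f 12 + f 13 + f 14 + f 15 + f 16 := by
  simp only [Fin.sum_univ_castSucc, Fin.sum_univ_zero, zero_add]
  rfl

theorem shell_sum (u δ : ℝ) (hu0 : 0 ≤ u) (hu1 : u ≤ 0.3025) (hδ0 : 0 ≤ δ) (hδ : δ ≤ 1 / 10000) :
    1.01 * (1 + 4 * u) ≤ ∑ i : Fin 17, 20 *
      ((Real.sqrt (Xs i) ^ 3)⁻¹ * (1 + 9 / 4 * (u * (1 - 1 / Xs i)) + 225 / 64 * (u * (1 - 1 / Xs i)) ^ 2) +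
        4 * (1 - u - δ) * (Real.sqrt (Xs i) ^ 5)⁻¹ *
          (1 + 25 / 4 * (u * (1 - 1 / Xs i)) + 1225 / 64 * (u * (1 - 1 / Xs i)) ^ 2)) := by
  have hv : 0 ≤ 1 - u - δ := by linarith
  have h0 := t0 u δ hu0 hv
  have h1 := t1 u δ hu0 hv
  have h2 := t2 u δ hu0 hv
  have h3 := t3 u δ hu0 hv
  have h4 := t4 u δ hu0 hv
  have h5 := t5 u δ hu0 hv
  have h6 := t6 u δ hu0 hv
  have h7 := t7 u δ hu0 hv
  have h8 := t8 u δ hu0 hv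
  have h9 := t9 u δ hu0 hv
  have h10 := t10 u δ hu0 hv
  have h11 := t11 u δ hu0 hv
  have h12 := t12 u δ hu0 hv
  have h13 := t13 u δ hu0 hv
  have h14 := t14 u δ hu0 hv
  have h15 := t15 u δ hu0 hv
  have h16 := t16 u δ hu0 hv
  have hB : 0 ≤ 0.002997052 * (1 + 25 / 4 * (u * 0.9020) + 1225 / 64 * (u * 0.9020) ^ 2) + 0.000120359 * (1 + 25 / 4 * (u * 0.9729) + 1225 / 64 * (u * 0.9729) ^ 2) + 0.000018242 * (1 + 25 / 4 * (u * 0.9872) + 1225 / 64 * (u * 0.9872) ^ 2) + 0.000005079 * (1 + 25 / 4 * (u * 0.9923) + 1225 / 64 * (u * 0.9923) ^ 2) + 0.000002027 * (1 + 25 / 4 * (u * 0.9947) + 1225 / 64 * (u * 0.9947) ^ 2) + 0.000001037 * (1 + 25 / 4 * (u * 0.9959) + 1225 / 64 * (u * 0.9959) ^ 2) + 0.000000641 * (1 + 25 / 4 * (u * 0.9966) + 1225 / 64 * (u * 0.9966) ^ 2) + 0.000000463 * (1 + 25 / 4 * (u * 0.9970) + 1225 / 64 * (u * 0.9970) ^ 2) + 0.000000383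 * (1 + 25 / 4 * (u * 0.9972) + 1225 / 64 * (u * 0.9972) ^ 2) + 0.000000360 * (1 + 25 / 4 * (u * 0.9973) + 1225 / 64 * (u * 0.9973) ^ 2) + 0.000000383 * (1 + 25 / 4 * (u * 0.9972) + 1225 / 64 * (u * 0.9972) ^ 2) + 0.000000463 * (1 + 25 / 4 * (u * 0.9970) + 1225 / 64 * (u * 0.9970) ^ 2) + 0.000000641 * (1 + 25 / 4 * (u * 0.9966) + 1225 / 64 * (u * 0.9966) ^ 2) + 0.000001037 * (1 + 25 / 4 * (u * 0.9959) + 1225 / 64 * (u * 0.9959) ^ 2) + 0.000002027 * (1 + 25 / 4 * (u * 0.9947) + 1225 / 64 * (u * 0.9947) ^ 2) + 0.000005079 * (1 + 25 / 4 * (u * 0.9923) + 1225 / 64 * (u * 0.9923) ^ 2) + 0.000018242 * (1 + 25 / 4 * (u * 0.9872) + 1225 / 64 * (u * 0.9872) ^ 2) := by positivity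
  have e1 := mul_le_mul_of_nonneg_right (show 4 * (1 - u - 1 / 10000) ≤ 4 * (1 - u - δ) by linarith) hB
  have e2 : 1.01 * (1 + 4 * u) ≤ 20 * (0.0306208 * (1 + 9 / 4 * (u * 0.9020) + 225 / 64 * (u * 0.9020) ^ 2) + 0.0044492 * (1 + 9 / 4 * (u * 0.9729) + 225 / 64 * (u * 0.9729) ^ 2) + 0.0014343 * (1 + 9 / 4 * (u * 0.9872) + 225 / 64 * (u * 0.9872) ^ 2) + 0.0006660 * (1 + 9 / 4 * (u * 0.9923) + 225 / 64 * (u * 0.9923) ^ 2) + 0.0003839 * (1 + 9 / 4 * (u * 0.9947) + 225 / 64 * (u * 0.9947) ^ 2) + 0.0002568 * (1 + 9 / 4 * (u * 0.9959) + 225 / 64 * (u * 0.9959) ^ 2) + 0.0001924 * (1 + 9 / 4 * (u * 0.9966) + 225 / 64 * (u * 0.9966) ^ 2) + 0.0001583 * (1 + 9 / 4 * (u * 0.9970) + 225 / 64 * (u * 0.9970) ^ 2) + 0.0001414 * (1 + 9 / 4 * (u * 0.9972) + 225 / 64 * (u * 0.9972) ^ 2) + 0.0001362 * (1 + 9 / 4 * (u * 0.9973) + 225 / 64 * (u * 0.9973) ^ 2)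 + 0.0001414 * (1 + 9 / 4 * (u * 0.9972) + 225 / 64 * (u * 0.9972) ^ 2) + 0.0001583 * (1 + 9 / 4 * (u * 0.9970) + 225 / 64 * (u * 0.9970) ^ 2) + 0.0001924 * (1 + 9 / 4 * (u * 0.9966) + 225 / 64 * (u * 0.9966) ^ 2) + 0.0002568 * (1 + 9 / 4 * (u * 0.9959) + 225 / 64 * (u * 0.9959) ^ 2) + 0.0003839 * (1 + 9 / 4 * (u * 0.9947) + 225 / 64 * (u * 0.9947) ^ 2) + 0.0006660 * (1 + 9 / 4 * (u * 0.9923) + 225 / 64 * (u * 0.9923) ^ 2) + 0.0014343 * (1 + 9 / 4 * (u * 0.9872) + 225 / 64 * (u * 0.9872) ^ 2)) + 20 * (4 * (1 - u - 1 / 10000) * (0.002997052 * (1 + 25 / 4 * (u * 0.9020) + 1225 / 64 * (u * 0.9020) ^ 2) + 0.000120359 * (1 + 25 / 4 * (u * 0.9729) + 1225 / 64 * (u * 0.9729) ^ 2) + 0.000018242 * (1 + 25 / 4 * (u * 0.9872) + 1225 / 64 * (u * 0.9872) ^ 2) + 0.000005079 * (1 + 25 / 4 * (u * 0.9923) + 1225 / 64 * (u * 0.9923) ^ 2) + 0.000002027 * (1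 + 25 / 4 * (u * 0.9947) + 1225 / 64 * (u * 0.9947) ^ 2) + 0.000001037 * (1 + 25 / 4 * (u * 0.9959) + 1225 / 64 * (u * 0.9959) ^ 2) + 0.000000641 * (1 + 25 / 4 * (u * 0.9966) + 1225 / 64 * (u * 0.9966) ^ 2) + 0.000000463 * (1 + 25 / 4 * (u * 0.9970) + 1225 / 64 * (u * 0.9970) ^ 2) + 0.000000383 * (1 + 25 / 4 * (u * 0.9972) + 1225 / 64 * (u * 0.9972) ^ 2) + 0.000000360 * (1 + 25 / 4 * (u * 0.9973) + 1225 / 64 * (u * 0.9973) ^ 2) + 0.000000383 * (1 + 25 / 4 * (u * 0.9972) + 1225 / 64 * (u * 0.9972) ^ 2) + 0.000000463 * (1 + 25 / 4 * (u * 0.9970) + 1225 / 64 * (u * 0.9970) ^ 2) + 0.000000641 * (1 + 25 / 4 * (u * 0.9966) + 1225 / 64 * (u * 0.9966) ^ 2) + 0.000001037 * (1 + 25 / 4 * (u * 0.9959) + 1225 / 64 * (u * 0.9959) ^ 2) + 0.000002027 * (1 + 25 / 4 * (u * 0.9947) + 1225 / 64 * (u * 0.9947) ^ 2) + 0.000005079 * (1 + 25 / 4 * (u * 0.9923)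 + 1225 / 64 * (u * 0.9923) ^ 2) + 0.000018242 * (1 + 25 / 4 * (u * 0.9872) + 1225 / 64 * (u * 0.9872) ^ 2))) := by
    have g1 := mul_nonneg (sub_nonneg.mpr hu1) (sq_nonneg (u - 0.132))
    have g2 := sq_nonneg (u - 0.132)
    linarith
  rw [sum17]
  linarith

end Pool.Agent.YG
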