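import Pool.Agent.YG.P02R3
import Pool.Agent.YG.P03R5
import Pool.Agent.YG.P05Sum

/-!
# YG-P06: one step of the functional

`w = C/A`, `u = ‖w‖^2 ≤ .3025`, `δ = ‖A‖^(-2) ≤ 10^-4`, `‖B‖^2 = ‖A‖^2 (1 - u - δ)`. For fixed `i`:
`‖A la i + C ω^j lb i‖ = ‖A‖ ‖la i‖ ‖1 + ω^j z_i‖`, `z_i = w lb i / la i`, `‖z_i‖^2 = u (Xs i - 1)/Xs i = u (1 - 1/Xs i) ≤ .3025`,
`‖la i‖ = sqrt (Xs i)` (`la_norm`, `lb_norm`). Apply `R3`, `R5` and `shell_sum`; everything is divided by `‖A‖^3`: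
`4 ‖B‖^2 ‖A'‖^(-5) = ‖A‖^(-3) * 4 (1-u-δ) ‖la i‖^(-5) ‖1+ω^j z‖^(-5)`.
-/

set_option autoImplicit false

namespace Pool.Agent.YG

open Matrix

theorem one_step (A B C : ℂ) (h1 : ‖A‖ ^ 2 = 1 + ‖B‖ ^ 2 + ‖C‖ ^ 2) (h2 : ‖C‖ ≤ 0.55 * ‖A‖)
    (h3 : 100 ≤ ‖A‖) :
    1.01 * ((‖A‖ ^ 3)⁻¹ + 4 * ‖C‖ ^ 2 * (‖A‖ ^ 5)⁻¹) ≤
      ∑ x : Fin 20 × Fin 17, ((‖A * la x.2 + C * (om ^ (x.1 : ℕ) * lb x.2)‖ ^ 3)⁻¹ +
        4 * ‖B‖ ^ 2 * (‖A * la x.2 + C * (om ^ (x.1 : ℕ) * lb x.2)‖ ^ 5)⁻¹) := by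
  have ha : 0 < ‖A‖ := by linarith
  have hA0 : A ≠ 0 := norm_pos_iff.1 ha
  obtain ⟨w, hw⟩ : ∃ w : ℂ, C = A * w := ⟨C / A, by field_simp⟩
  have hCn : ‖C‖ = ‖A‖ * ‖w‖ := by rw [hw, norm_mul]
  have hwn : ‖w‖ ≤ 0.55 := by
    rw [hCn] at h2
    have : ‖A‖ * ‖w‖ ≤ ‖A‖ * 0.55 := by linarith
    exact le_of_mul_le_mul_left this ha
  have hw0 := norm_nonneg w
  obtain ⟨u, hu⟩ : ∃ u : ℝ, u = ‖w‖ ^ 2 := ⟨_, rfl⟩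
  have hu0 : 0 ≤ u := by rw [hu]; positivity
  have hu1 : u ≤ 0.3025 := by
    rw [hu]; nlinarith
  obtain ⟨a, hadef⟩ : ∃ a : ℝ, a = ‖A‖ := ⟨_, rfl⟩
  rw [← hadef] at ha h1 h2 h3 hCn
  obtain ⟨δ, hδ⟩ : ∃ δ : ℝ, δ = (a ^ 2)⁻¹ := ⟨_, rfl⟩
  have hδ0 : 0 ≤ δ := by rw [hδ]; positivity
  have hδ1 : δ ≤ 1 / 10000 := by
    rw [hδ, one_div]
    refine inv_anti₀ (by norm_num) ?_
    nlinarith
  have hδa : a ^ 2 * δ = 1 := by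
    rw [hδ]; exact mul_inv_cancel₀ (by positivity)
  have hB : ‖B‖ ^ 2 = a ^ 2 * (1 - u - δ) := by
    rw [hCn, mul_pow, ← hu] at h1
    linarith [h1, hδa]
  have hnn : 0 ≤ 1 - u - δ := by
    have : 0.3025 + 1 / 10000 ≤ (1 : ℝ) := by norm_num
    linarith
  have hss := shell_sum u δ hu0 hu1 hδ0 hδ1
  have ha3 : 0 < (a ^ 3)⁻¹ := by positivity
  -- the left side
  have hL : 1.01 * ((a ^ 3)⁻¹ + 4 * ‖C‖ ^ 2 * (a ^ 5)⁻¹) = (a ^ 3)⁻¹ * (1.01 * (1 + 4 * u)) := by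
    rw [hCn, mul_pow, ← hu]
    field_simp
  -- the right side
  rw [Fintype.sum_prod_type, Finset.sum_comm, ← hadef, hL]
  refine (mul_le_mul_of_nonneg_left hss ha3.le).trans ?_
  rw [Finset.mul_sum]
  refine Finset.sum_le_sum fun i _ => ?_
  -- fixed `i`
  have hX1 : 1 ≤ Xs i := by
    have := lb_norm i
    have h := sq_nonneg ‖lb i‖
    linarith
  have hX0 : 0 < Xs i := by linarith
  obtain ⟨l, hl⟩ : ∃ l : ℝ, l = ‖la i‖ := ⟨_, rfl⟩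
  have hl2 : l ^ 2 = Xs i := by rw [hl]; exact la_norm i
  have hl0' : 0 ≤ l := by rw [hl]; exact norm_nonneg _
  have hl0 : 0 < l := by
    rcases hl0'.eq_or_lt with h | h
    · rw [← h] at hl2
      norm_num at hl2
      linarith
    · exact h
  have hls : Real.sqrt (Xs i) = l := by
    rw [← hl2]; exact Real.sqrt_sq hl0'
  have hla0 : la i ≠ 0 := by
    apply norm_pos_iff.1
    rw [← hl]; exact hl0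
  obtain ⟨z, hz⟩ : ∃ z : ℂ, z = w * (lb i / la i) := ⟨_, rfl⟩
  have hzn : ‖z‖ ^ 2 = u * (1 - 1 / Xs i) := by
    rw [hz, norm_mul, norm_div, mul_pow, div_pow, lb_norm, la_norm, ← hu]
    field_simp
  have hz31 : ‖z‖ ^ 2 ≤ 0.31 := by
    rw [hzn]
    have : 1 - 1 / Xs i ≤ 1 := by
      have : 0 ≤ 1 / Xs i := by positivity
      linarith
    have := mul_le_mul_of_nonneg_left this hu0
    linarith
  have hterm : ∀ j : Fin 20, ‖A * la i + C * (om ^ (j : ℕ) * lb i)‖ =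
      a * l * ‖1 + om ^ (j : ℕ) * z‖ := by
    intro j
    have : A * la i + C * (om ^ (j : ℕ) * lb i) = A * la i * (1 + om ^ (j : ℕ) * z) := by
      rw [hw, hz]
      field_simp
    rw [this, norm_mul, norm_mul, ← hl, ← hadef]
  have hR3 := R3 z hz31
  have hR5 := R5 z hz31
  rw [hzn] at hR3 hR5
  have hsum : ∑ j : Fin 20, ((‖A * la i + C * (om ^ (j : ℕ) * lb i)‖ ^ 3)⁻¹ +
        4 * ‖B‖ ^ 2 * (‖A * la i + C * (om ^ (j : ℕ) * lb i)‖ ^ 5)⁻¹) =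
      (a ^ 3)⁻¹ * ((l ^ 3)⁻¹ * ∑ j : Fin 20, (‖1 + om ^ (j : ℕ) * z‖ ^ 3)⁻¹ +
        4 * (1 - u - δ) * (l ^ 5)⁻¹ * ∑ j : Fin 20, (‖1 + om ^ (j : ℕ) * z‖ ^ 5)⁻¹) := by
    rw [Finset.mul_sum, Finset.mul_sum, ← Finset.sum_add_distrib, Finset.mul_sum]
    refine Finset.sum_congr rfl fun j _ => ?_
    rw [hterm j, hB]
    have e5 : a ^ 2 * (a ^ 5)⁻¹ = (a ^ 3)⁻¹ := by
      field_simp
    rw [mul_pow, mul_pow, mul_pow, mul_pow, mul_inv, mul_inv, mul_inv, mul_inv]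
    calc (a ^ 3)⁻¹ * (l ^ 3)⁻¹ * (‖1 + om ^ (j : ℕ) * z‖ ^ 3)⁻¹ +
          4 * (a ^ 2 * (1 - u - δ)) * ((a ^ 5)⁻¹ * (l ^ 5)⁻¹ * (‖1 + om ^ (j : ℕ) * z‖ ^ 5)⁻¹)
        = (a ^ 3)⁻¹ * (l ^ 3)⁻¹ * (‖1 + om ^ (j : ℕ) * z‖ ^ 3)⁻¹ +
          4 * (1 - u - δ) * (a ^ 2 * (a ^ 5)⁻¹) * (l ^ 5)⁻¹ *
            (‖1 + om ^ (j : ℕ) * z‖ ^ 5)⁻¹ := by ring
      _ = _ := by rw [e5]; ring
  have hgoal : (a ^ 3)⁻¹ * (20 *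
      ((Real.sqrt (Xs i) ^ 3)⁻¹ * (1 + 9 / 4 * (u * (1 - 1 / Xs i)) +
          225 / 64 * (u * (1 - 1 / Xs i)) ^ 2) +
        4 * (1 - u - δ) * (Real.sqrt (Xs i) ^ 5)⁻¹ *
          (1 + 25 / 4 * (u * (1 - 1 / Xs i)) + 1225 / 64 * (u * (1 - 1 / Xs i)) ^ 2))) ≤
      (a ^ 3)⁻¹ * ((l ^ 3)⁻¹ * ∑ j : Fin 20, (‖1 + om ^ (j : ℕ) * z‖ ^ 3)⁻¹ +
        4 * (1 - u - δ) * (l ^ 5)⁻¹ * ∑ j : Fin 20, (‖1 + om ^ (j : ℕ) * z‖ ^ 5)⁻¹) := by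
    refine mul_le_mul_of_nonneg_left ?_ ha3.le
    rw [hls]
    have m1 : 0 ≤ (l ^ 3)⁻¹ := by positivity
    have m2 : 0 ≤ 4 * (1 - u - δ) * (l ^ 5)⁻¹ := by positivity
    have k1 := mul_le_mul_of_nonneg_left hR3 m1
    have k2 := mul_le_mul_of_nonneg_left hR5 m2
    linarith
  refine hgoal.trans (le_of_eq ?_)
  exact hsum.symm

end Pool.Agent.YG
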