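import Pool.Agent.YG.P06Step
import Pool.Agent.YG.L08Alt
import Pool.Agent.YG.L09NF

/-!
# YG-P07: iteration over words

`pl p L = p gS lt x1 gS lt x2 ... gS lt xn` for the list `L = [x1, .., xn]`. `Phi w = ‖w00‖^(-3) + 4 ‖w02‖^2 ‖w00‖^(-5)`.
* `pl_alt`: `Alt.snoc` with `lt_mem`, `lt_notin`.
* `Phi_step`: for `Alt p`, `‖p00‖ ≥ 100`: `∑_x Phi (p gS lt x) ≥ 1.01 Phi p`: first row of `p` is `(A, B, C)`, of `p gS lt x`:
  `A' = A la + C ω^j lb` (`lt_00`, `lt_10`, `(lt) 2 0 = 0` by `G1_form`), `C' = B * (lt) 2 2`, `‖C'‖ = ‖B‖`. `one_step`, `U_row0`, `Alt.inv`.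
* `Phi_iter`: by induction on `n` (the norm `‖·00‖ ≥ 100` is kept: `‖A'‖ ≥ 0.45 * 3.19 ‖A‖`, from `alt_step`).
  Sum over `Fin n → Fin 20 × Fin 17` via `Fin.consEquiv`/`Fin.cons` (`List.ofFn` of `Fin.cons x f` is `x :: List.ofFn f`).
* `pl_upper`: `‖A'‖ ≤ ‖A‖ ‖la‖ + ‖C‖ ‖lb‖ ≤ 40 ‖A‖` (`la_le`, `‖lb‖ ≤ ‖la‖`).
* `pl_inj`: suppose `pl p L = pl p L'`, same length, `L ≠ L'`. Remove the common prefix: `pl p' (x :: M) = pl p' (x' :: M')`, `x ≠ x'`. If
  `M = M' = []`: `lt x = lt x'` contradicts `lt_inj` (`1 ∈ S1`). Else `pl p' (x :: M) = p' gS lt x gS m`, `Alt m` (`m` = product of the letters of `M` with `gS` between), so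
  `lt x gS m = lt x' gS m'`, `d := (lt x)⁻¹ lt x' ∈ G1 \ S1` (`lt_inj`), `d gS m' m⁻¹ gS = 1`, i.e. `m⁻¹ gS d gS m' = 1`, but the left side is `Alt` (`alt_inv`, `alt_mul`),
  and `‖.00‖ ≥ 1.42` by `Alt.one_lt`, contradiction.
* `start`: there is `p` with `Alt p`, `‖p 0 0‖ ≥ 100`: 14 syllables `lt 0 0`: each step multiplies by at least `.45 * 3.19 ≥ 1.43` (`alt_step`); `1.43^14 > 149`.
-/

set_option autoImplicit false

namespace Pool.Agent.YG

open Matrix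

noncomputable def pl (p : GL3) : List (Fin 20 × Fin 17) → GL3
  | [] => p
  | (x :: L) => pl (p * gS * lt x.1 x.2) L

noncomputable def Phi (w : GL3) : ℝ :=
  (‖(w : M3) 0 0‖ ^ 3)⁻¹ + 4 * ‖(w : M3) 0 2‖ ^ 2 * (‖(w : M3) 0 0‖ ^ 5)⁻¹

theorem pl_alt {p : GL3} (hp : Alt p) (L : List (Fin 20 × Fin 17)) : Alt (pl p L) := by
  induction L generalizing p with
  | nil => exact hp
  | cons x L ih => exact ih (Alt.snoc p _ hp (lt_mem _ _) (lt_notin _ _))

private theorem row_step (p g : GL3) (hg : g ∈ G1) :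
    ((p * gS * g : GL3) : M3) 0 0 = (p : M3) 0 0 * (g : M3) 0 0 + (p : M3) 0 2 * (g : M3) 1 0 ∧
    ((p * gS * g : GL3) : M3) 0 2 = (p : M3) 0 1 * (g : M3) 2 2 := by
  obtain ⟨h1, h2, h3, h4, h5⟩ := G1_form g hg
  have e : ((p * gS * g : GL3) : M3) = (p : M3) * mS * (g : M3) := by
    rw [Units.val_mul, Units.val_mul, gS_coe]
  constructor
  · rw [e]
    simp [Matrix.mul_apply, Fin.sum_univ_three, mS, h3]
  · rw [e]
    simp [Matrix.mul_apply, Fin.sum_univ_three, mS, h1, h2]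

private theorem cc_le_G1 (g : GL3) (hg : g ∈ G1) (hg' : g ∉ S1) : cc ≤ ‖(g : M3) 0 0‖ := by
  obtain ⟨n, -, h⟩ := G1_growth g hg hg'
  have h1 : (1 : ℝ) ≤ 1.42 ^ n := one_le_pow₀ (by norm_num)
  have h2 := cc_gt
  nlinarith

private theorem step_lower {p : GL3} (hp : Alt p) (g : GL3) (hg : g ∈ G1) (hg' : g ∉ S1) :
    0.45 * cc * ‖(p : M3) 0 0‖ ≤ ‖((p * gS * g : GL3) : M3) 0 0‖ := by
  have hc := cc_le_G1 g hg hg'
  have h := (alt_step _ _ _ g hg hc (U_row0 p hp.mem_U) hp.inv.1).1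
  rw [(row_step p g hg).1]
  have h0 : 0 ≤ ‖(p : M3) 0 0‖ := norm_nonneg _
  have h1 : 0.45 * cc * ‖(p : M3) 0 0‖ ≤ 0.45 * ‖(g : M3) 0 0‖ * ‖(p : M3) 0 0‖ := by
    apply mul_le_mul_of_nonneg_right _ h0
    linarith
  linarith

theorem Phi_step {p : GL3} (hp : Alt p) (h : 100 ≤ ‖(p : M3) 0 0‖) :
    1.01 * Phi p ≤ ∑ x : Fin 20 × Fin 17, Phi (p * gS * lt x.1 x.2) := by
  have h1 := one_step _ _ _ (U_row0 p hp.mem_U) hp.inv.1 h
  have h2 : ∀ x : Fin 20 × Fin 17, Phi (p * gS * lt x.1 x.2) =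
      ((‖(p : M3) 0 0 * la x.2 + (p : M3) 0 2 * (om ^ (x.1 : ℕ) * lb x.2)‖ ^ 3)⁻¹ +
        4 * ‖(p : M3) 0 1‖ ^ 2 *
          (‖(p : M3) 0 0 * la x.2 + (p : M3) 0 2 * (om ^ (x.1 : ℕ) * lb x.2)‖ ^ 5)⁻¹) := by
    intro x
    obtain ⟨r1, r2⟩ := row_step p (lt x.1 x.2) (lt_mem _ _)
    obtain ⟨-, -, -, -, h5⟩ := G1_form (lt x.1 x.2) (lt_mem _ _)
    rw [Phi, r1, r2, lt_00, lt_10, norm_mul, h5, mul_one]
  rw [Finset.sum_congr rfl (fun x _ => h2 x)]
  exact h1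

private theorem step_100 {p : GL3} (hp : Alt p) (h : 100 ≤ ‖(p : M3) 0 0‖) (x : Fin 20 × Fin 17) :
    100 ≤ ‖((p * gS * lt x.1 x.2 : GL3) : M3) 0 0‖ := by
  have h1 := step_lower hp _ (lt_mem x.1 x.2) (lt_notin x.1 x.2)
  have h2 := cc_lo
  nlinarith

theorem Phi_iter {p : GL3} (hp : Alt p) (h : 100 ≤ ‖(p : M3) 0 0‖) (n : ℕ) :
    1.01 ^ n * Phi p ≤ ∑ f : Fin n → Fin 20 × Fin 17, Phi (pl p (List.ofFn f)) := by
  induction n generalizing p with
  | zero => simp [pl]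
  | succ n ih =>
    have e1 : ∑ f : Fin (n + 1) → Fin 20 × Fin 17, Phi (pl p (List.ofFn f)) =
        ∑ x : Fin 20 × Fin 17, ∑ f : Fin n → Fin 20 × Fin 17,
          Phi (pl (p * gS * lt x.1 x.2) (List.ofFn f)) := by
      rw [← Fintype.sum_prod_type']
      refine (Fintype.sum_equiv (Fin.consEquiv (fun _ => Fin 20 × Fin 17)) _ _ ?_).symm
      intro y
      simp only [Fin.consEquiv, Equiv.coe_fn_mk, List.ofFn_cons]
      rfl
    rw [e1]
    calc 1.01 ^ (n + 1) * Phi p = 1.01 ^ n * (1.01 * Phi p) := by ring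
      _ ≤ 1.01 ^ n * ∑ x : Fin 20 × Fin 17, Phi (p * gS * lt x.1 x.2) :=
          mul_le_mul_of_nonneg_left (Phi_step hp h) (by positivity)
      _ = ∑ x : Fin 20 × Fin 17, 1.01 ^ n * Phi (p * gS * lt x.1 x.2) := Finset.mul_sum _ _ _
      _ ≤ _ := Finset.sum_le_sum fun x _ =>
          ih (Alt.snoc p _ hp (lt_mem _ _) (lt_notin _ _)) (step_100 hp h x)

theorem pl_upper {p : GL3} (hp : Alt p) (L : List (Fin 20 × Fin 17)) :
    ‖((pl p L : GL3) : M3) 0 0‖ ≤ ‖(p : M3) 0 0‖ * 40 ^ L.length := by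
  induction L generalizing p with
  | nil => simp [pl]
  | cons x L ih =>
    have h1 := ih (Alt.snoc p (lt x.1 x.2) hp (lt_mem _ _) (lt_notin _ _))
    have h2 : ‖((p * gS * lt x.1 x.2 : GL3) : M3) 0 0‖ ≤ ‖(p : M3) 0 0‖ * 40 := by
      rw [(row_step p (lt x.1 x.2) (lt_mem _ _)).1, lt_00, lt_10]
      have k1 := la_le x.2
      have k2 : ‖om ^ (x.1 : ℕ) * lb x.2‖ ≤ 20 := by
        rw [norm_mul, norm_pow, om_norm, one_pow, one_mul]
        have a1 := la_norm x.2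
        have a2 := lb_norm x.2
        have a3 : ‖lb x.2‖ ^ 2 ≤ 20 ^ 2 := by
          have : ‖la x.2‖ ^ 2 ≤ 20 ^ 2 := pow_le_pow_left₀ (norm_nonneg _) k1 2
          linarith
        exact le_of_sq_le_sq a3 (by norm_num)
      have k3 := hp.inv.1
      have k4 : (0 : ℝ) ≤ ‖(p : M3) 0 0‖ := norm_nonneg _
      have k5 : (0 : ℝ) ≤ ‖(p : M3) 0 2‖ := norm_nonneg _
      calc ‖(p : M3) 0 0 * la x.2 + (p : M3) 0 2 * (om ^ (x.1 : ℕ) * lb x.2)‖
          ≤ ‖(p : M3) 0 0 * la x.2‖ + ‖(p : M3) 0 2 * (om ^ (x.1 : ℕ) * lb x.2)‖ := norm_add_le _ _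
        _ = ‖(p : M3) 0 0‖ * ‖la x.2‖ + ‖(p : M3) 0 2‖ * ‖om ^ (x.1 : ℕ) * lb x.2‖ := by
            rw [norm_mul, norm_mul]
        _ ≤ ‖(p : M3) 0 0‖ * 20 + ‖(p : M3) 0 2‖ * 20 := by
            gcongr
        _ ≤ ‖(p : M3) 0 0‖ * 40 := by nlinarith
    have h3 : (0 : ℝ) < 40 ^ L.length := by positivity
    calc ‖((pl p (x :: L) : GL3) : M3) 0 0‖ = ‖((pl (p * gS * lt x.1 x.2) L : GL3) : M3) 0 0‖ := rfl
      _ ≤ ‖((p * gS * lt x.1 x.2 : GL3) : M3) 0 0‖ * 40 ^ L.length := h1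
      _ ≤ (‖(p : M3) 0 0‖ * 40) * 40 ^ L.length := by gcongr
      _ = ‖(p : M3) 0 0‖ * 40 ^ (x :: L).length := by
          rw [List.length_cons, pow_succ]; ring

/-- product of the letters with `gS` between (nonempty list `x :: L`) -/
private noncomputable def pm : (Fin 20 × Fin 17) → List (Fin 20 × Fin 17) → GL3
  | x, [] => lt x.1 x.2
  | x, (y :: L) => lt x.1 x.2 * gS * pm y L

private theorem pm_alt (x : Fin 20 × Fin 17) (L : List (Fin 20 × Fin 17)) : Alt (pm x L) := by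
  induction L generalizing x with
  | nil => exact Alt.one _ (lt_mem _ _) (lt_notin _ _)
  | cons y L ih => exact alt_mul (Alt.one _ (lt_mem _ _) (lt_notin _ _)) (ih y)

private theorem pl_pm (p : GL3) (x : Fin 20 × Fin 17) (L : List (Fin 20 × Fin 17)) :
    pl p (x :: L) = p * gS * pm x L := by
  induction L generalizing p x with
  | nil => rfl
  | cons y L ih =>
    have h1 : pl p (x :: y :: L) = pl (p * gS * lt x.1 x.2) (y :: L) := rfl
    rw [h1, ih, pm]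
    group

private theorem pm_inj (L L' : List (Fin 20 × Fin 17)) (x x' : Fin 20 × Fin 17)
    (hlen : L.length = L'.length) (h : pm x L = pm x' L') : x = x' ∧ L = L' := by
  induction L generalizing x x' L' with
  | nil =>
    have hL' : L' = [] := by
      cases L' with
      | nil => rfl
      | cons a b => simp at hlen
    subst hL'
    have h1 : lt x.1 x.2 = lt x'.1 x'.2 := h
    have h2 : (lt x.1 x.2)⁻¹ * lt x'.1 x'.2 ∈ S1 := by
      rw [← h1, inv_mul_cancel]; exact S1.one_mem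
    obtain ⟨a, b⟩ := lt_inj _ _ _ _ h2
    exact ⟨Prod.ext a b, rfl⟩
  | cons y L ih =>
    cases L' with
    | nil => simp at hlen
    | cons y' L' =>
      have hlen' : L.length = L'.length := by simpa using hlen
      have h1 : lt x.1 x.2 * gS * pm y L = lt x'.1 x'.2 * gS * pm y' L' := h
      have hx : x = x' := by
        by_contra hne
        set d := (lt x.1 x.2)⁻¹ * lt x'.1 x'.2 with hd
        have hd1 : d ∈ G1 := G1.mul_mem (G1.inv_mem (lt_mem _ _)) (lt_mem _ _)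
        have hd2 : d ∉ S1 := by
          intro hmem
          obtain ⟨a, b⟩ := lt_inj _ _ _ _ hmem
          exact hne (Prod.ext a b)
        have e1 : gS * pm y L = d * gS * pm y' L' := by
          rw [hd]
          have : (lt x.1 x.2)⁻¹ * (lt x.1 x.2 * gS * pm y L) =
            (lt x.1 x.2)⁻¹ * (lt x'.1 x'.2 * gS * pm y' L') := by rw [h1]
          calc gS * pm y L = (lt x.1 x.2)⁻¹ * (lt x.1 x.2 * gS * pm y L) := by group
            _ = _ := this
            _ = _ := by group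
        have e2 : (pm y L)⁻¹ * gS * (d * gS * pm y' L') = 1 := by
          rw [← e1]
          calc (pm y L)⁻¹ * gS * (gS * pm y L) = (pm y L)⁻¹ * (gS * gS) * pm y L := by group
            _ = 1 := by rw [gS_sq]; group
        have hA : Alt ((pm y L)⁻¹ * gS * (d * gS * pm y' L')) :=
          alt_mul (alt_inv (pm_alt y L)) (alt_mul (Alt.one d hd1 hd2) (pm_alt y' L'))
        have h9 := hA.one_lt
        rw [e2] at h9
        norm_num at h9
      subst hx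
      have h2 : pm y L = pm y' L' := mul_left_cancel h1
      obtain ⟨a, b⟩ := ih L' y y' hlen' h2
      exact ⟨rfl, by rw [a, b]⟩

theorem pl_inj {p : GL3} (hp : Alt p) (L L' : List (Fin 20 × Fin 17)) (hlen : L.length = L'.length)
    (h : pl p L = pl p L') : L = L' := by
  cases L with
  | nil =>
    cases L' with
    | nil => rfl
    | cons a b => simp at hlen
  | cons x L =>
    cases L' with
    | nil => simp at hlen
    | cons x' L' =>
      rw [pl_pm, pl_pm] at h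
      have h2 := mul_left_cancel h
      obtain ⟨a, b⟩ := pm_inj L L' x x' (by simpa using hlen) h2
      rw [a, b]

theorem start : ∃ p, Alt p ∧ 100 ≤ ‖(p : M3) 0 0‖ := by
  have key : ∀ n : ℕ, ∃ p, Alt p ∧ (1.43 : ℝ) ^ n ≤ ‖(p : M3) 0 0‖ := by
    intro n
    induction n with
    | zero =>
      refine ⟨lt 0 0, Alt.one _ (lt_mem _ _) (lt_notin _ _), ?_⟩
      have := cc_le_G1 _ (lt_mem 0 0) (lt_notin 0 0)
      have h2 := cc_gt
      simp only [pow_zero]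
      linarith
    | succ n ih =>
      obtain ⟨p, hp, hn⟩ := ih
      refine ⟨p * gS * lt 0 0, Alt.snoc _ _ hp (lt_mem _ _) (lt_notin _ _), ?_⟩
      have h1 := step_lower hp _ (lt_mem 0 0) (lt_notin 0 0)
      have h2 := cc_lo
      have h3 : (0 : ℝ) < 1.43 ^ n := by positivity
      rw [pow_succ]
      nlinarith
  obtain ⟨p, hp, h⟩ := key 14
  refine ⟨p, hp, le_trans (by norm_num) h⟩

end Pool.Agent.YG
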