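import Mathlib

/-!
# YG-T01: matrices congruent to 1 mod p over the p-adic integers have no torsion (p > 2)

Proof. First `k = ℓ` prime. `A = 1 + X`, `p ∣ X`. `A^ℓ = 1` and the geometric sum: `A^ℓ - 1 = X * (1 + A + ... + A^(ℓ-1))`
(`mul_geom_sum` / `Commute`). Let `S = 1 + A + ... + A^(ℓ-1)`.
- `ℓ ≠ p`: `S ≡ ℓ mod p`, so `det S ≡ ℓ^n ≢ 0 mod p` is a unit, `S` is invertible, `X = 0`.
- `ℓ = p`: `A = 1 + p Y`; `A^i = 1 + i p Y + p^2 (..)`, so `S = p + p * (p(p-1)/2) Y + p^2(..) = p (1 + p (..))` because `p` is odd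
  (`p ∣ p(p-1)/2`); `1 + p(..)` is invertible (its determinant is `≡ 1 mod p`), so `p X = 0`, `X = 0`.
General `k`: strong induction; `k = ℓ k'` with `ℓ` prime: `B = A^k'` is `≡ 1 mod p`, `B^ℓ = 1`, so `B = 1`, and `k' < k`.
-/

set_option autoImplicit false

namespace Pool.Agent.YG

private theorem dvd_iff_toZMod (p : ℕ) [Fact p.Prime] (x : ℤ_[p]) :
    (p : ℤ_[p]) ∣ x ↔ PadicInt.toZMod x = 0 := by
  rw [← Ideal.mem_span_singleton, ← PadicInt.maximalIdeal_eq_span_p, ← PadicInt.ker_toZMod,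
    RingHom.mem_ker]

private theorem isUnit_of_map (p : ℕ) [Fact p.Prime] (n : ℕ)
    (S : Matrix (Fin n) (Fin n) ℤ_[p]) (c : ZMod p) (hc : c ≠ 0)
    (h : (PadicInt.toZMod (p := p)).mapMatrix S = c • (1 : Matrix (Fin n) (Fin n) (ZMod p))) :
    IsUnit S := by
  rw [Matrix.isUnit_iff_isUnit_det]
  by_contra hn
  have h1 : S.det ∈ IsLocalRing.maximalIdeal ℤ_[p] := hn
  rw [← PadicInt.ker_toZMod, RingHom.mem_ker, RingHom.map_det, h] at h1
  simp at h1
  exact hc h1.1

private theorem padic_prime (p : ℕ) [hpf : Fact p.Prime] (hp : 2 < p) (n : ℕ)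
    (A : Matrix (Fin n) (Fin n) ℤ_[p])
    (hA : (PadicInt.toZMod (p := p)).mapMatrix A = 1) (l : ℕ) (hl : l.Prime)
    (h : A ^ l = 1) : A = 1 := by
  have hgeo : (A - 1) * (∑ i ∈ Finset.range l, A ^ i) = 0 := by
    rw [mul_geom_sum, h, sub_self]
  by_cases hlp : l = p
  · subst hlp
    have hY : ∃ Y : Matrix (Fin n) (Fin n) ℤ_[l], A = 1 + (l : ℤ_[l]) • Y := by
      have h1 : ∀ i j, ∃ y, (A - 1) i j = (l : ℤ_[l]) * y := by
        intro i j
        have h2 : (l : ℤ_[l]) ∣ (A - 1) i j := by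
          rw [dvd_iff_toZMod]
          have h3 : ((PadicInt.toZMod (p := l)).mapMatrix (A - 1)) i j = 0 := by
            rw [map_sub, hA, map_one, sub_self]; rfl
          simpa using h3
        exact h2
      choose Y hY using h1
      refine ⟨Matrix.of Y, ?_⟩
      have h4 : A - 1 = (l : ℤ_[l]) • Matrix.of Y := by
        ext i j
        rw [hY i j]; simp
      rw [← h4]; abel
    obtain ⟨Y, hY⟩ := hY
    have hpow : ∀ i : ℕ, ∃ Z : Matrix (Fin n) (Fin n) ℤ_[l],
        A ^ i = 1 + (i : ℤ_[l]) • ((l : ℤ_[l]) • Y) + ((l : ℤ_[l]) * l) • Z := by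
      intro i
      induction i with
      | zero => exact ⟨0, by simp⟩
      | succ i ih =>
        obtain ⟨Z, hZ⟩ := ih
        refine ⟨(i : ℤ_[l]) • (Y * Y) + Z + (l : ℤ_[l]) • (Z * Y), ?_⟩
        rw [pow_succ, hZ]
        nth_rewrite 1 [hY]
        push_cast
        simp only [add_mul, mul_add, one_mul, mul_one, smul_mul_assoc, mul_smul_comm, smul_smul,
          smul_add, add_smul, one_smul]
        module
    choose Z hZ using hpow
    obtain ⟨m, hm⟩ : ∃ m, l = 2 * m + 1 := by
      rcases hpf.out.eq_two_or_odd' with h2 | h2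
      · omega
      · exact h2
    have hsum : (∑ i ∈ Finset.range l, (i : ℤ_[l])) = (l : ℤ_[l]) * m := by
      have h5 : ∑ i ∈ Finset.range l, i = l * m := by
        rw [Finset.sum_range_id]
        have : l * (l - 1) = (l * m) * 2 := by
          have : l - 1 = 2 * m := by omega
          rw [this]; ring
        rw [this]; simp
      have h6 := congrArg (fun k : ℕ => (k : ℤ_[l])) h5
      push_cast at h6
      exact h6
    have hS : (∑ i ∈ Finset.range l, A ^ i) =
        (l : ℤ_[l]) • (1 + (l : ℤ_[l]) • ((m : ℤ_[l]) • Y + ∑ i ∈ Finset.range l, Z i)) := by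
      rw [Finset.sum_congr rfl (fun i _ => hZ i), Finset.sum_add_distrib, Finset.sum_add_distrib,
        ← Finset.sum_smul, ← Finset.smul_sum, hsum, Finset.sum_const, Finset.card_range]
      rw [← Nat.cast_smul_eq_nsmul ℤ_[l]]
      module
    have hU : IsUnit (1 + (l : ℤ_[l]) • ((m : ℤ_[l]) • Y + ∑ i ∈ Finset.range l, Z i)) := by
      apply isUnit_of_map l n _ 1 one_ne_zero
      rw [map_add, map_one, one_smul]
      have : (PadicInt.toZMod (p := l)).mapMatrix
          ((l : ℤ_[l]) • ((m : ℤ_[l]) • Y + ∑ i ∈ Finset.range l, Z i)) = 0 := by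
        ext i j
        simp
      rw [this, add_zero]
    rw [hS, mul_smul_comm] at hgeo
    have hl0 : (l : ℤ_[l]) ≠ 0 := by
      have := hpf.out.ne_zero
      exact_mod_cast this
    have h7 : (A - 1) * (1 + (l : ℤ_[l]) • ((m : ℤ_[l]) • Y + ∑ i ∈ Finset.range l, Z i)) = 0 := by
      ext i j
      have := congrFun (congrFun hgeo i) j
      simp only [Matrix.smul_apply, smul_eq_mul, Matrix.zero_apply, mul_eq_zero] at this
      rcases this with h8 | h8
      · exact absurd h8 hl0
      · exact h8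
    have h9 := (hU.mul_left_eq_zero).1 h7
    exact sub_eq_zero.1 h9
  · have hU : IsUnit (∑ i ∈ Finset.range l, A ^ i) := by
      apply isUnit_of_map p n _ (l : ZMod p)
      · intro h0
        rw [ZMod.natCast_eq_zero_iff] at h0
        exact hlp ((Nat.prime_dvd_prime_iff_eq hpf.out hl).1 h0).symm
      · rw [map_sum]
        simp only [map_pow, hA, one_pow, Finset.sum_const, Finset.card_range]
        rw [← Nat.cast_smul_eq_nsmul (ZMod p)]
    have h9 := (hU.mul_left_eq_zero).1 hgeo
    exact sub_eq_zero.1 h9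

theorem padic_tf (p : ℕ) [Fact p.Prime] (hp : 2 < p) (n : ℕ) (A : Matrix (Fin n) (Fin n) ℤ_[p])
    (hA : ∀ i j, (p : ℤ_[p]) ∣ (A - 1) i j) (k : ℕ) (hk : 0 < k) (h : A ^ k = 1) : A = 1 := by
  have hA' : (PadicInt.toZMod (p := p)).mapMatrix A = 1 := by
    have h0 : (PadicInt.toZMod (p := p)).mapMatrix (A - 1) = 0 := by
      ext i j
      have := (dvd_iff_toZMod p _).1 (hA i j)
      simpa using this
    rw [map_sub, map_one] at h0
    exact sub_eq_zero.1 h0
  clear hA
  induction k using Nat.strong_induction_on with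
  | _ k ih =>
    rcases Nat.eq_or_lt_of_le hk with h1 | h1
    · have : k = 1 := by omega
      subst this
      simpa using h
    · have hk1 : k ≠ 1 := by omega
      have hmf := Nat.minFac_prime hk1
      obtain ⟨k', hk'⟩ := Nat.minFac_dvd k
      have hk'0 : 0 < k' := by
        rcases Nat.eq_zero_or_pos k' with h2 | h2
        · rw [h2, mul_zero] at hk'; omega
        · exact h2
      have hlt : k' < k := by
        have := hmf.two_le
        nlinarith
      have hB : (A ^ k') ^ (k.minFac) = 1 := by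
        rw [← pow_mul, mul_comm, ← hk', h]
      have hB1 : A ^ k' = 1 := by
        apply padic_prime p hp n (A ^ k') _ k.minFac hmf hB
        rw [map_pow, hA', one_pow]
      exact ih k' hlt hk'0 hB1

end Pool.Agent.YG
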